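import Pool.Agent.Lib.MP_263316_co.AB.Asm6
import Pool.Agent.Lib.MP_263316_co.MAIN
import Pool.Agent.Lib.MP_263316_co.FIN

/-!
MP_263316_co, part AB: co-bipartite graphs, intervals, main theorem (helper89)
-/

set_option autoImplicit false

namespace Pool.Agent.SWB

open Finset Pool.Agent.SWC MvPolynomial

namespace Asm

theorem eE_congr {m m' : ℕ → ℕ} {U : Finset ℕ} (h : ∀ u ∈ U, m u = m' u) :
    eE m U = eE m' U := by
  unfold eE aL
  refine sum_congr rfl fun v _ => ?_
  congr 1
  refine filter_congr fun u hu => ?_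
  rw [h u hu]

theorem TQ_congr (hMC : S_MC) {N n c : ℕ} {m m' : ℕ → ℕ} (h : ∀ u < n, m u = m' u) :
    TQ N m n c = TQ N m' n c := by
  funext j
  unfold TQ TT
  refine hMC (AN N) N m m' (qq N) (range n) _ ?_
  intro u hu v _ _
  rw [h u (mem_range.mp hu)]

/-- co-bipartite graphs on `0, ..., n - 1` -/
theorem cb (H : HypT) (P : HypP) (B : HypB) (N n c : ℕ) (m : ℕ → ℕ) (hn : 2 ≤ n)
    (hmono : ∀ u v : ℕ, u ≤ v → v < n → m u ≤ m v) (hle : ∀ u < n, u ≤ m u)
    (hlt : ∀ u < n, m u < n) (hcb : m 0 + 1 < n → n ≤ m (m 0 + 1) + 1) :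
    TQ N m n c ∈ MCone N (c + n) (c + eE m (range n)) := by
  by_cases hp : m 0 + 1 < n
  · -- not complete
    have hfull := hcb hp
    obtain ⟨v0, hv0, hmin⟩ : ∃ v0, (1 ≤ v0 ∧ n ≤ m v0 + 1) ∧ ∀ v, v < v0 → 1 ≤ v →
        m v + 1 < n := by
      classical
      have hex : ∃ v, 1 ≤ v ∧ n ≤ m v + 1 := ⟨m 0 + 1, by omega, hfull⟩
      refine ⟨Nat.find hex, Nat.find_spec hex, fun v hv h1 => ?_⟩
      have := Nat.find_min hex hv
      by_contra h2
      exact this ⟨h1, by omega⟩
    have hv0p : v0 ≤ m 0 + 1 := by
      by_contra h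
      have := hmin (m 0 + 1) (by omega) (by omega)
      omega
    obtain ⟨χ, hχ⟩ : ∃ χ, v0 = χ + 1 := ⟨v0 - 1, by omega⟩
    obtain ⟨S, hS⟩ : ∃ S, m 0 = χ + S := ⟨m 0 - χ, by omega⟩
    obtain ⟨ρ, hρ⟩ : ∃ ρ, n = χ + S + ρ + 2 := ⟨n - (χ + S + 2), by omega⟩
    have hrow1 : ∀ u, 1 ≤ u → u ≤ χ → m u < χ + S + ρ + 1 ∧ χ + S ≤ m u := by
      intro u h1 h2
      have a1 := hmin u (by omega) h1
      have a2 := hmono 0 u (by omega) (by omega)
      omega
    have hrow2 : ∀ u, χ < u → u < n → m u = χ + S + ρ + 1 := by
      intro u h1 h2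
      have a1 := hmono v0 u (by omega) h2
      have a2 := hlt u h2
      omega
    rcases le_total χ ρ with hle' | hle'
    · -- first orientation
      have key : ∀ u i : ℕ, 1 ≤ u → u ≤ χ →
          (((Icc 1 χ).filter (fun v => m v < χ + S + 1 + i)).card < u ↔ χ + S + 1 + i ≤ m u) := by
        intro u i h1 h2
        constructor
        · intro h
          by_contra h3
          have hsub : Icc 1 u ⊆ (Icc 1 χ).filter (fun v => m v < χ + S + 1 + i) := by
            intro v hv
            have hv' := mem_Icc.mp hv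
            rw [mem_filter, mem_Icc]
            have := hmono v u hv'.2 (by omega)
            omega
          have := card_le_card hsub
          rw [Nat.card_Icc] at this
          omega
        · intro h
          have hsub : (Icc 1 χ).filter (fun v => m v < χ + S + 1 + i) ⊆ Icc 1 (u - 1) := by
            intro v hv
            rw [mem_filter, mem_Icc] at hv
            rw [mem_Icc]
            refine ⟨hv.1.1, ?_⟩
            by_contra h3
            have := hmono u v (by omega) (by omega)
            omega
          have := card_le_card hsub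
          rw [Nat.card_Icc] at this
          omega
      have hagree : ∀ u < n, m u = mI χ S ρ
          (fun i => ((Icc 1 χ).filter (fun v => m v < χ + S + 1 + i)).card) u := by
        intro u hu
        unfold mI
        by_cases h0 : u = 0
        · rw [if_pos h0, h0, hS]
        · rw [if_neg h0]
          by_cases h1 : u ≤ χ
          · rw [if_pos h1]
            have e1 : (range ρ).filter (fun i =>
                ((Icc 1 χ).filter (fun v => m v < χ + S + 1 + i)).card < u) =
                range (m u - (χ + S)) := by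
              ext i
              rw [mem_filter, mem_range, mem_range, key u i (by omega) h1]
              have := hrow1 u (by omega) h1
              omega
            rw [e1, card_range]
            have := hrow1 u (by omega) h1
            omega
          · rw [if_neg h1]
            exact hrow2 u (by omega) hu
      rw [TQ_congr H.mc hagree, eE_congr (fun u hu => hagree u (mem_range.mp hu)), hρ]
      refine cbI H P B N χ S ρ c _ ⟨?_, ?_⟩ hle'
      · intro i j hij _
        refine card_le_card fun v hv => ?_
        rw [mem_filter] at hv ⊢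
        exact ⟨hv.1, by omega⟩
      · intro i _
        calc _ ≤ (Icc 1 χ).card := card_filter_le _ _
          _ = χ := by rw [Nat.card_Icc]; omega
    · -- second orientation
      have hagree : ∀ u < n, m u = mJ χ S ρ (fun i => χ + S + ρ - m (χ - i)) u := by
        intro u hu
        unfold mJ
        by_cases h0 : u = 0
        · rw [if_pos h0, h0, hS]
        · rw [if_neg h0]
          by_cases h1 : u ≤ χ
          · rw [if_pos h1]
            have := hrow1 u (by omega) h1
            show m u = χ + S + ρ - (χ + S + ρ - m (χ - (χ - u)))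
            rw [show χ - (χ - u) = u by omega]
            omega
          · rw [if_neg h1]
            exact hrow2 u (by omega) hu
      rw [TQ_congr H.mc hagree, eE_congr (fun u hu => hagree u (mem_range.mp hu)), hρ]
      refine cbJ H P B N χ S ρ c _ ⟨?_, ?_⟩ hle'
      · intro i j hij hj
        have := hmono (χ - j) (χ - i) (by omega) (by omega)
        show χ + S + ρ - m (χ - i) ≤ χ + S + ρ - m (χ - j)
        omega
      · intro i hi
        have := hrow1 (χ - i) (by omega) (by omega)
        show χ + S + ρ - m (χ - i) ≤ ρ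
        omega
  · -- complete
    have hagree : ∀ u < n, m u = n - 1 := by
      intro u hu
      have a1 := hmono 0 u (by omega) hu
      have a2 := hlt u hu
      omega
    have h1 := P.km N (fun _ => n - 1) (fun _ _ _ => le_refl _) (range n) 0 (n - 1)
      (mem_range.mpr (by omega)) (mem_range.mpr (by omega)) (by omega)
      (fun u hu => ⟨Nat.zero_le _, by have := mem_range.mp hu; omega⟩)
      (fun u hu v hv _ => by
        have := mem_range.mp hv
        show v ≤ n - 1
        omega) c
    rw [card_range, eE_congr (m' := m) (fun u hu => (hagree u (mem_range.mp hu)).symm)] at h1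
    rw [TQ_congr H.mc hagree]
    exact h1

theorem eE_shift {m m' : ℕ → ℕ} {a : ℕ} {U : Finset ℕ}
    (h : ∀ u ∈ U, ∀ v ∈ U, u < v → (v + a ≤ m' (u + a) ↔ v ≤ m u)) :
    eE m' (U.image (fun u => u + a)) = eE m U := by
  unfold eE
  rw [sum_image (fun u _ v _ huv => by simpa using huv)]
  refine sum_congr rfl fun v hv => ?_
  unfold aL
  rw [filter_image, card_image_of_injective _ (add_left_injective a)]
  congr 1
  refine filter_congr fun u hu => ?_
  constructor
  · rintro ⟨h1, h2⟩
    exact ⟨by omega, (h u hu v hv (by omega)).mp h2⟩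
  · rintro ⟨h1, h2⟩
    exact ⟨by omega, (h u hu v hv h1).mpr h2⟩

/-- an interval -/
theorem interval (H : HypT) (P : HypP) (B : HypB) (N c a b : ℕ) (m : ℕ → ℕ) (hm : Monotone m)
    (hab : a < b) (hcon : ∀ i, a ≤ i → i < b → i + 1 ≤ m i)
    (hind : ∀ u v w, a ≤ u → u < v → v < w → w ≤ b → ¬ (m u < v ∧ m v < w)) :
    TT m (qq N) (xx N) (Icc a b) a b (eh (qq N) (xx N) c) ∈
      MCone N (c + (Icc a b).card) (c + eE m (Icc a b)) := by
  obtain ⟨l, hl⟩ : ∃ l, b = a + l := ⟨b - a, by omega⟩
  subst hl
  have hU : Icc a (a + l) = (range (l + 1)).image (fun u => u + a) := by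
    ext u
    rw [mem_Icc, mem_image]
    constructor
    · intro h
      exact ⟨u - a, mem_range.mpr (by omega), by omega⟩
    · rintro ⟨v, hv, rfl⟩
      have := mem_range.mp hv
      omega
  set m' : ℕ → ℕ := fun v => min (m (v + a) - a) l with hm'
  have hadj : ∀ u ∈ range (l + 1), ∀ v ∈ range (l + 1), u < v →
      (v + a ≤ m (u + a) ↔ v ≤ m' u) := by
    intro u _ v hv huv
    have := mem_range.mp hv
    simp only [hm', le_min_iff]
    omega
  have h1 : TT m (qq N) (xx N) (Icc a (a + l)) a (a + l) (eh (qq N) (xx N) c) =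
      TQ N m' (l + 1) c := by
    funext j
    unfold TQ TT
    rw [hU, H.sh (AN N) N m' m (qq N) a (range (l + 1)) _ hadj]
    refine Z_congr fun u _ k => ?_
    have e1 : (u + a = a) ↔ (u = 0) := by omega
    have e2 : (u + a = a + l) ↔ (u = l + 1 - 1) := by omega
    simp only [e1, e2]
  rw [h1, hU, eE_shift hadj, card_image_of_injective _ (add_left_injective a), card_range]
  refine cb H P B N (l + 1) c m' (by omega) ?_ ?_ ?_ ?_
  · intro u v huv _
    have := hm (show u + a ≤ v + a by omega)
    simp only [hm']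
    omega
  · intro u hu
    have : u + a ≤ m (u + a) := by
      by_cases h2 : u = l
      · have h3 := hcon (a + l - 1) (by omega) (by omega)
        have h4 := hm (show a + l - 1 ≤ u + a by omega)
        omega
      · have h3 := hcon (u + a) (by omega) (by omega)
        omega
    simp only [hm']
    omega
  · intro u _
    simp only [hm']
    omega
  · intro h2
    by_contra h3
    have e0 : m' 0 = min (m (0 + a) - a) l := rfl
    rw [Nat.zero_add] at e0
    have h4 : m a < a + (m' 0 + 1) := by omega
    have e1 : m' (m' 0 + 1) = min (m (m' 0 + 1 + a) - a) l := rfl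
    have h5 : m (a + (m' 0 + 1)) < a + l := by
      rw [show m' 0 + 1 + a = a + (m' 0 + 1) by omega] at e1
      omega
    have h6 : a + l ≤ m (a + l) := by
      have k3 := hcon (a + l - 1) (by omega) (by omega)
      have k4 := hm (show a + l - 1 ≤ a + l by omega)
      omega
    have h7 : m' 0 + 1 < l := by
      by_contra h8
      have h9 : m' 0 + 1 = l := by omega
      rw [h9] at h5
      omega
    exact hind a (a + (m' 0 + 1)) (a + l) (le_refl _) (by omega) (by omega) (le_refl _) ⟨h4, h5⟩

/-- the main theorem for intervals -/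
def BlockCond (m : ℕ → ℕ) (a b : ℕ) : Prop :=
  ∀ a' b' : ℕ, a ≤ a' → a' < b' → b' ≤ b → (∀ i, a' ≤ i → i + 2 ≤ b' → i + 2 ≤ m i) →
    (∀ u v w, a' ≤ u → u < v → v < w → w ≤ b' → ¬ (m u < v ∧ m v < w)) ∨
    (∀ u v w z, a' ≤ u → u < v → v < w → w < z → z ≤ b' → m u < z)

open MainAux in
theorem main2 (H : HypT) (P : HypP) (B : HypB) (hMAIN : S_MAIN) (hMlin : S_Mlin) (N : ℕ)
    (m : ℕ → ℕ) (hm : Monotone m) :
    ∀ (l a : ℕ), BlockCond m a (a + l) → ∀ c : ℕ,
    TT m (qq N) (xx N) (Icc a (a + l)) a (a + l) (eh (qq N) (xx N) c) ∈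
      MCone N (c + (Icc a (a + l)).card) (c + eE m (Icc a (a + l))) := by
  intro l
  induction l using Nat.strong_induction_on with
  | _ l ih =>
    intro a hbc c
    have ih' : ∀ a' b' : ℕ, a ≤ a' → a' ≤ b' → b' ≤ a + l → b' - a' < l → ∀ c : ℕ,
        TT m (qq N) (xx N) (Icc a' b') a' b' (eh (qq N) (xx N) c) ∈
          MCone N (c + (Icc a' b').card) (c + eE m (Icc a' b')) := by
      intro a' b' h1 h2 h3 h4 c
      have := ih (b' - a') h4 a' (by
        rw [Nat.add_sub_cancel' h2]
        intro a'' b'' k1 k2 k3 k4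
        exact hbc a'' b'' (by omega) k2 (by omega) k4) c
      rwa [Nat.add_sub_cancel' h2] at this
    rcases Nat.eq_zero_or_pos l with h0 | hpos
    · subst h0
      rw [Nat.add_zero, Icc_self, TT_single, eE_single, card_singleton, Nat.add_zero]
      exact eh_mem N c
    · by_cases hdis : ∃ i, a ≤ i ∧ i < a + l ∧ m i < i + 1
      · -- disconnected
        obtain ⟨i, hi1, hi2, hi3⟩ := hdis
        have hU : Icc a (a + l) = Icc a i ∪ Icc (i + 1) (a + l) := by
          ext u; simp only [mem_union, mem_Icc]; omega
        have hno : ∀ u ∈ Icc a i, ∀ v ∈ Icc (i + 1) (a + l), u < v ∧ m u < v := by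
          intro u hu v hv
          rw [mem_Icc] at hu hv
          have := hm hu.2
          omega
        have h1 := P.msum N _ _ _ (ih' a i (le_refl _) hi1 (by omega) (by omega) c)
        have h2 := ih' (i + 1) (a + l) (by omega) (by omega) (le_refl _) (by omega) 0
        rw [Nat.zero_add, Nat.zero_add, ← FF_eq] at h2
        have h3 := P.msmul N _ _ _ _ _ _ h1 h2
        have hd : Disjoint (Icc a i) (Icc (i + 1) (a + l)) := by
          rw [disjoint_left]
          intro u hu hv
          exact lt_irrefl _ (hno u hu u hv).1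
        have hTT : TT m (qq N) (xx N) (Icc a (a + l)) a (a + l) (eh (qq N) (xx N) c) = fun j =>
            (∑ k, TT m (qq N) (xx N) (Icc a i) a i (eh (qq N) (xx N) c) k) *
              FF m (qq N) (xx N) (Icc (i + 1) (a + l)) (a + l) j := by
          funext j
          rw [hU]
          exact H.dis (AN N) N m (qq N) (xx N) _ _ a i (a + l) (mem_Icc.mpr (by omega))
            (mem_Icc.mpr (by omega)) (mem_Icc.mpr (by omega)) hno _ j
        rw [hTT, hU, card_union_of_disjoint hd, eE_union m _ _ hno, ← Nat.add_assoc,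
          ← Nat.add_assoc]
        exact h3
      · by_cases hcut : ∃ v, a < v ∧ v < a + l ∧ m (v - 1) < v + 1
        · -- cut vertex
          obtain ⟨v, hv1, hv2, hv3⟩ := hcut
          have hv : v ∈ Icc a (a + l) := mem_Icc.mpr (by omega)
          have hc : ∀ x ∈ Icc a (a + l), ∀ y ∈ Icc a (a + l), x < v → v < y → m x < y := by
            intro x _ y _ h1 h2
            have := hm (show x ≤ v - 1 by omega)
            omega
          obtain ⟨hE, hcard⟩ := eE_cut m (Icc a (a + l)) v hv hc
          have e1 : (Icc a (a + l)).filter (fun u => u ≤ v) = Icc a v := by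
            ext u; simp only [mem_filter, mem_Icc]; omega
          have e2 : (Icc a (a + l)).filter (fun u => v ≤ u) = Icc v (a + l) := by
            ext u; simp only [mem_filter, mem_Icc]; omega
          have hT := H.cut (AN N) N m (qq N) (xx N) (Icc a (a + l)) a v (a + l)
            (mem_Icc.mpr (by omega)) hv (mem_Icc.mpr (by omega)) (by omega) (by omega) hc
            (eh (qq N) (xx N) c)
          rw [e1, e2] at hT hE hcard
          have h1 := ih' a v (le_refl _) (by omega) (by omega) (by omega) c
          have h2 := ih' v (a + l) (by omega) (by omega) (le_refl _) (by omega)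
          have hvH : v ∈ Icc v (a + l) := mem_Icc.mpr (by omega)
          obtain ⟨l1, hl1⟩ : ∃ l1, (Icc a v).card = l1 + 1 :=
            Nat.exists_eq_succ_of_ne_zero
              (card_ne_zero_of_mem (show a ∈ Icc a v from mem_Icc.mpr (by omega)))
          rw [hl1] at h1 hcard
          have h3 := hMlin N (c + l1) (c + eE m (Icc a v))
            (Icc v (a + l)).card (eE m (Icc v (a + l)))
            (TT m (qq N) (xx N) (Icc v (a + l)) v (a + l))
            (fun f g => TT_add m (qq N) (xx N) _ v (a + l) hvH f g)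
            (fun u f => TT_mul m (qq N) (xx N) _ v (a + l) hvH u f) h2 _ h1
          rw [hT, hE]
          rw [show c + (Icc a (a + l)).card = c + l1 + (Icc v (a + l)).card by omega,
            ← Nat.add_assoc]
          exact h3
        · -- one block
          have hcon : ∀ i, a ≤ i → i < a + l → i + 1 ≤ m i := by
            intro i h1 h2
            by_contra h3
            exact hdis ⟨i, h1, h2, by omega⟩
          have hcon2 : ∀ i, a ≤ i → i + 2 ≤ a + l → i + 2 ≤ m i := by
            intro i h1 h2
            by_contra h3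
            exact hcut ⟨i + 1, by omega, by omega, by rw [Nat.add_sub_cancel]; omega⟩
          rcases hbc a (a + l) (le_refl _) (by omega) (le_refl _) hcon2 with hind | hcl
          · exact interval H P B N c a (a + l) m hm (by omega) hcon hind
          · refine hMAIN N m hm (Icc a (a + l)) ?_ a (a + l) (mem_Icc.mpr (by omega))
              (mem_Icc.mpr (by omega)) (fun u hu => mem_Icc.mp hu) c
            intro x1 h1 x2 h2 x3 h3 x4 h4 x5 h5 h12 h23 h34 h45
            rw [mem_Icc] at h1 h2 h3 h4 h5
            have k1 := hcl x1 x2 x3 x4 h1.1 h12 h23 h34 h4.2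
            have k2 := hcl x2 x3 x4 x5 h2.1 h23 h34 h45 h5.2
            exact ⟨fun h => absurd h (by omega), fun h => absurd h (by omega)⟩

end Asm

/-- The final theorem: frozen statement S07725 for the natural unit interval graphs in which every
interval `[a,b]` of vertices with `i` and `i + 2` adjacent for `a ≤ i ≤ b - 2` (such an interval is
contained in a block) has no three pairwise nonadjacent vertices or no four pairwise adjacent
vertices. -/
def S_FINAL2 : Prop := ∀ (n : ℕ) (h : Fin n → Fin n), Monotone h → (∀ i, i ≤ h i) →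
    (∀ a b : Fin n, a < b → (∀ i k : Fin n, a ≤ i → (k : ℕ) = i + 2 → k ≤ b → k ≤ h i) →
      (∀ u v w : Fin n, a ≤ u → u < v → v < w → w ≤ b → ¬ (h u < v ∧ h v < w)) ∨
      (∀ u v w z : Fin n, a ≤ u → u < v → v < w → w < z → z ≤ b → h u < z)) →
    ∀ E : ℕ, E = (Finset.univ.filter (fun p : Fin n × Fin n => p.1 < p.2 ∧ p.2 ≤ h p.1)).card →
    ∃ a : Nat.Partition n → Polynomial ℤ,
      ((∑ κ ∈ (Finset.univ.filter
            (fun κ : Fin n → Fin n => ∀ i j : Fin n, i < j → j ≤ h i → κ i ≠ κ j)),
          MvPolynomial.C (Polynomial.X ^ ((Finset.univ.filter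
            (fun p : Fin n × Fin n => p.1 < p.2 ∧ p.2 ≤ h p.1 ∧ κ p.1 < κ p.2)).card))
            * ∏ i : Fin n, MvPolynomial.X (κ i) : MvPolynomial (Fin n) (Polynomial ℤ))
        = ∑ μ : Nat.Partition n, MvPolynomial.C (a μ) *
            (μ.parts.map (fun k => MvPolynomial.esymm (Fin n) (Polynomial ℤ) k)).prod)
      ∧ ∀ μ : Nat.Partition n,
          (∀ i : ℕ, 0 ≤ (a μ).coeff i)
          ∧ (∀ i : ℕ, E < i → (a μ).coeff i = 0)
          ∧ (∀ i : ℕ, i ≤ E → (a μ).coeff i = (a μ).coeff (E - i))
          ∧ (∀ i j : ℕ, i ≤ j → 2 * j ≤ E → (a μ).coeff i ≤ (a μ).coeff j)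

open FinAux MainAux in
theorem final2 (H : Asm.HypT) (P : Asm.HypP) (B : Asm.HypB) (hMAIN : S_MAIN) (hMlin : S_Mlin)
    (hCpart : S_Cpart) (hPU : S_PUcoeff) (hFUN : S_FUN) : S_FINAL2 := by
  intro n h hm _ hg E hE
  have hX : XX (mh h) (qq n) (xx n) (range n) ∈ Cone n n E := by
    rcases Nat.eq_zero_or_pos n with h0 | hpos
    · subst h0
      have h1 : XX (mh h) (qq 0) (xx 0) (range 0) = 1 := by simp [XX]
      have h2 : E = 0 := by rw [hE]; simp
      rw [h1, h2]
      exact one_mem 0
    · obtain ⟨l, rfl⟩ : ∃ l, n = l + 1 := ⟨n - 1, by omega⟩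
      have hbc : Asm.BlockCond (mh h) 0 (0 + l) := by
        intro a b _ hab hb hcon
        have hbn : b < l + 1 := by omega
        have key := hg ⟨a, by omega⟩ ⟨b, hbn⟩ hab (by
          intro i k h1 h2 h3
          have h4 := hcon i h1 (by rw [← h2]; exact h3)
          rw [mh_fin] at h4
          show (k : ℕ) ≤ (h i : ℕ)
          omega)
        rcases key with key | key
        · left
          intro u v w h1 h2 h3 h4 h5
          have hw : w < l + 1 := by omega
          have hv : v < l + 1 := by omega
          have hu : u < l + 1 := by omega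
          have e1 : mh h u = (h ⟨u, hu⟩ : ℕ) := mh_fin h ⟨u, hu⟩
          have e2 : mh h v = (h ⟨v, hv⟩ : ℕ) := mh_fin h ⟨v, hv⟩
          rw [e1, e2] at h5
          exact key ⟨u, hu⟩ ⟨v, hv⟩ ⟨w, hw⟩ h1 h2 h3 h4 h5
        · right
          intro u v w z h1 h2 h3 h4 h5
          have hz : z < l + 1 := by omega
          have hw : w < l + 1 := by omega
          have hv : v < l + 1 := by omega
          have hu : u < l + 1 := by omega
          have e1 : mh h u = (h ⟨u, hu⟩ : ℕ) := mh_fin h ⟨u, hu⟩
          rw [e1]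
          exact key ⟨u, hu⟩ ⟨v, hv⟩ ⟨w, hw⟩ ⟨z, hz⟩ h1 h2 h3 h4 h5
      have h1 := Asm.main2 H P B hMAIN hMlin (l + 1) (mh h) (mh_mono h hm) l 0 hbc 0
      have hU : Icc 0 (0 + l) = range (l + 1) := by
        ext u; simp only [mem_Icc, mem_range]; omega
      rw [hU, ← FF_eq, Nat.zero_add, Nat.zero_add, Finset.card_range, eE_mh, ← hE] at h1
      have h2 := P.msum (l + 1) (l + 1) E _ h1
      rw [sum_FF (mh h) (qq (l + 1)) (xx (l + 1)) (range (l + 1)) (0 + l)
        (mem_range.mpr (by omega))] at h2
      exact h2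
  obtain ⟨a, ha, hpu⟩ := hCpart n n E _ hX
  exact ⟨a, (sum_eq h hFUN).trans ha, fun μ => hPU E (a μ) (hpu μ)⟩

end Pool.Agent.SWB
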