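import Pool.Agent.Lib.MP_263316_co.AB.Spec

/-!
MP_263316_co, AB/BL: board law (helper82).
-/

set_option autoImplicit false

namespace Pool.Agent.SWB

open Finset Pool.Agent.SWC

namespace BLaux

/-- `c` columns `k`, then `k'` up to column `n'`, then `h` -/
def bd (h : ℕ → ℕ) (n' c k k' : ℕ) (i : ℕ) : ℕ := if i < c then k else if i ≤ n' then k' else h i

theorem bd_brd {n w : ℕ} {h : ℕ → ℕ} {n' c k k' : ℕ} (hB : Brd n w h) (hn' : n' < n)
    (_hc : c ≤ n' + 1) (hk : k ≤ k') (hk' : k' ≤ h n') : Brd n w (bd h n' c k k') := by
  have hw : h n' ≤ w := hB.2 n' hn'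
  have hge : ∀ j, n' < j → j < n → k' ≤ h j := fun j hj hjn => hk'.trans (hB.1 n' j hj.le hjn)
  constructor
  · intro i j hij hj
    unfold bd
    by_cases hi : i < c
    · rw [if_pos hi]
      by_cases hj1 : j < c
      · rw [if_pos hj1]
      · rw [if_neg hj1]
        by_cases hj2 : j ≤ n'
        · rw [if_pos hj2]
          exact hk
        · rw [if_neg hj2]
          exact hk.trans (hge j (by omega) hj)
    · rw [if_neg hi]
      have hj1 : ¬ j < c := by omega
      rw [if_neg hj1]
      by_cases hi2 : i ≤ n'
      · rw [if_pos hi2]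
        by_cases hj2 : j ≤ n'
        · rw [if_pos hj2]
        · rw [if_neg hj2]
          exact hge j (by omega) hj
      · rw [if_neg hi2]
        have hj2 : ¬ j ≤ n' := by omega
        rw [if_neg hj2]
        exact hB.1 i j hij hj
  · intro i hi
    unfold bd
    by_cases hi1 : i < c
    · rw [if_pos hi1]
      omega
    · rw [if_neg hi1]
      by_cases hi2 : i ≤ n'
      · rw [if_pos hi2]
        omega
      · rw [if_neg hi2]
        exact hB.2 i hi

end BLaux

theorem t_BL : S_BL := by
  intro hCH R _ q n w T hT h k d n' hB hn' hd hrun hval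
  obtain ⟨hT1, hT2, hT3⟩ := hT
  have hw : k + d ≤ w := by
    rw [← hval]
    exact hB.2 n' hn'
  -- first chain: the column `n'` has height `k + i`
  have hA := (hCH R q (fun i => T (BLaux.bd h n' n' k (k + i))) d).2 (by
    intro i hi
    have hb : Brd n w (BLaux.bd h n' n' k (k + (i + 1))) :=
      BLaux.bd_brd hB hn' (by omega) (by omega) (by omega)
    have h1 := hT2 (BLaux.bd h n' n' k (k + (i + 1))) n' (k + (i + 1)) hb hn' (by
      unfold BLaux.bd
      rw [if_neg (lt_irrefl _), if_pos le_rfl]) (by omega) (by omega) (by
      intro j hj hjn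
      unfold BLaux.bd
      by_cases hj1 : j < n'
      · rw [if_pos hj1]
        omega
      · rw [if_neg hj1, if_neg (by omega)]
        have h2 := hB.1 n' j (by omega) hj
        omega)
    have e1 : Function.update (BLaux.bd h n' n' k (k + (i + 1))) n' (k + (i + 1) + 1) =
        BLaux.bd h n' n' k (k + (i + 2)) := by
      funext j
      by_cases hj : j = n'
      · subst hj
        rw [Function.update_self]
        unfold BLaux.bd
        rw [if_neg (lt_irrefl _), if_pos le_rfl]
        omega
      · rw [Function.update_of_ne hj]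
        unfold BLaux.bd
        by_cases hj1 : j < n'
        · rw [if_pos hj1, if_pos hj1]
        · rw [if_neg hj1, if_neg hj1, if_neg (by omega), if_neg (by omega)]
    have e2 : Function.update (BLaux.bd h n' n' k (k + (i + 1))) n' (k + (i + 1) - 1) =
        BLaux.bd h n' n' k (k + i) := by
      funext j
      by_cases hj : j = n'
      · subst hj
        rw [Function.update_self]
        unfold BLaux.bd
        rw [if_neg (lt_irrefl _), if_pos le_rfl]
        omega
      · rw [Function.update_of_ne hj]
        unfold BLaux.bd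
        by_cases hj1 : j < n'
        · rw [if_pos hj1, if_pos hj1]
        · rw [if_neg hj1, if_neg hj1, if_neg (by omega), if_neg (by omega)]
    rw [e1, e2] at h1
    exact h1) (d - 1) (by omega)
  -- second chain: `i` columns `k + 1`
  have hBc := (hCH R q (fun i => T (BLaux.bd h n' (n' + 1 - i) k (k + 1))) (n' + 1)).2 (by
    intro i hi
    have hb : Brd n w (BLaux.bd h n' (n' + 1 - (i + 1)) k (k + 1)) :=
      BLaux.bd_brd hB hn' (by omega) (by omega) (by omega)
    have h1 := hT3 (BLaux.bd h n' (n' + 1 - (i + 1)) k (k + 1)) (n' - i - 1) (k + 1) hb (by omega)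
      (by omega) (by
        unfold BLaux.bd
        rw [if_pos (by omega)]
        omega) (by
        unfold BLaux.bd
        rw [if_neg (by omega), if_pos (by omega)])
    have e1 : Function.update (BLaux.bd h n' (n' + 1 - (i + 1)) k (k + 1)) (n' - i - 1) (k + 1) =
        BLaux.bd h n' (n' + 1 - (i + 2)) k (k + 1) := by
      funext j
      by_cases hj : j = n' - i - 1
      · subst hj
        rw [Function.update_self]
        unfold BLaux.bd
        rw [if_neg (by omega), if_pos (by omega)]
      · rw [Function.update_of_ne hj]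
        unfold BLaux.bd
        by_cases hj1 : j < n' + 1 - (i + 2)
        · rw [if_pos hj1, if_pos (by omega)]
        · rw [if_neg hj1, if_neg (by omega)]
    have e2 : Function.update (BLaux.bd h n' (n' + 1 - (i + 1)) k (k + 1)) (n' - i - 1 + 1)
        (k + 1 - 1) = BLaux.bd h n' (n' + 1 - i) k (k + 1) := by
      funext j
      by_cases hj : j = n' - i - 1 + 1
      · subst hj
        rw [Function.update_self]
        unfold BLaux.bd
        rw [if_pos (by omega)]
        omega
      · rw [Function.update_of_ne hj]
        unfold BLaux.bd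
        by_cases hj1 : j < n' + 1 - i
        · rw [if_pos hj1, if_pos (by omega)]
        · rw [if_neg hj1, if_neg (by omega)]
    rw [e1, e2] at h1
    exact h1) n' (by omega)
  have hd1 : d - 1 + 1 = d := by omega
  rw [hd1] at hA
  -- the boards at the ends
  have c1 : BLaux.bd h n' n' k (k + 0) = fun i => if i ≤ n' then k else h i := by
    funext i
    unfold BLaux.bd
    by_cases hi : i < n'
    · rw [if_pos hi, if_pos (by omega)]
    · rw [if_neg hi]
      rfl
  have c2 : BLaux.bd h n' (n' + 1 - 0) k (k + 1) = fun i => if i ≤ n' then k else h i := by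
    funext i
    unfold BLaux.bd
    by_cases hi : i < n' + 1 - 0
    · rw [if_pos hi, if_pos (by omega)]
    · rw [if_neg hi, if_neg (by omega), if_neg (by omega)]
  have c3 : BLaux.bd h n' (n' + 1 - 1) k (k + 1) = BLaux.bd h n' n' k (k + 1) := by
    rw [Nat.add_sub_cancel]
  have c4 : BLaux.bd h n' (n' + 1 - (n' + 1)) k (k + 1) = fun i => if i ≤ n' then k + 1 else h i := by
    funext i
    unfold BLaux.bd
    rw [if_neg (by omega)]
  have c5 : T (BLaux.bd h n' n' k (k + d)) = T h := by
    refine hT1 _ _ fun i hi => ?_
    unfold BLaux.bd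
    by_cases hi1 : i < n'
    · rw [if_pos hi1, hrun i hi1]
    · rw [if_neg hi1]
      by_cases hi2 : i ≤ n'
      · have hi3 : i = n' := by omega
        rw [if_pos hi2, hi3, hval]
      · rw [if_neg hi2]
  simp only [c1, c5] at hA
  simp only [c2, c3, c4] at hBc
  linear_combination (qn q (n' + 1)) * hA - (qn q d) * hBc

end Pool.Agent.SWB
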