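import Pool.Agent.Lib.MP_263316_co.AB.Spec

/-!
MP_263316_co, AB/CH: chains from three term recursions (helper82).
-/

set_option autoImplicit false

namespace Pool.Agent.SWB

open Finset Pool.Agent.SWC

theorem t_CH : S_CH := by
  intro R _ q a J
  have qs : ∀ n : ℕ, qn q (n + 1) = qn q n + q ^ n := by
    intro n
    unfold qn
    rw [sum_range_succ]
  have qs' : ∀ n : ℕ, qn q (n + 1) = 1 + q * qn q n := by
    intro n
    unfold qn
    rw [sum_range_succ', mul_sum, pow_zero, add_comm]
    congr 1
    exact sum_congr rfl fun i _ => by rw [pow_succ, mul_comm]
  have q0 : qn q 0 = 0 := by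
    unfold qn
    rw [range_zero, sum_empty]
  constructor
  · intro h
    have hd : ∀ i : ℕ, i + 1 ≤ J → a (i + 1) - a i = q ^ i * (a 1 - a 0) := by
      intro i
      induction i with
      | zero =>
        intro _
        rw [pow_zero, one_mul]
      | succ i ih =>
        intro hi
        have h1 := h i (by omega)
        have h2 := ih (by omega)
        have h3 : a (i + 1 + 1) - a (i + 1) = q * (a (i + 1) - a i) := by
          linear_combination -h1
        rw [h3, h2, pow_succ]
        ring
    intro i
    induction i with
    | zero =>
      intro _ _
      rw [q0]
      ring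
    | succ i ih =>
      intro hi hJ
      have h1 := hd i hi
      have h2 := ih (by omega) hJ
      rw [qs]
      linear_combination h1 + h2
  · intro h
    have hd : ∀ i : ℕ, i + 1 ≤ J → q ^ i * (a (i + 1) - a i) = a 1 - a 0 := by
      intro i
      induction i with
      | zero =>
        intro _
        rw [pow_zero, one_mul]
      | succ i ih =>
        intro hi
        have h1 := h i (by omega)
        have h2 := ih (by omega)
        have h3 : q * (a (i + 1 + 1) - a (i + 1)) = a (i + 1) - a i := by
          linear_combination -h1
        rw [pow_succ, mul_assoc, h3, h2]
    intro i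
    induction i with
    | zero =>
      intro _
      rw [qs, q0]
      ring
    | succ i ih =>
      intro hi
      have h1 := hd (i + 1) hi
      have h2 := ih (by omega)
      rw [qs']
      linear_combination h1 + q * h2

end Pool.Agent.SWB
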