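import Pool.Agent.Lib.MP_263316_co.AB.Spec

set_option autoImplicit false

namespace Pool.Agent.SWB

open Finset Pool.Agent.SWC

private theorem QF_add'' (m n : ℕ) : QF (m + n) = QF m * rise (m + 1) n := by
  unfold QF rise
  rw [prod_range_add]
  congr 1
  exact prod_congr rfl fun x _ => by rw [show m + x + 1 = m + 1 + x by omega]

theorem t_DAT : S_DAT := by
  intro hm hp hFR hDIV hNA hNB hNG1 hNG2 hKAP k s r hs hkr
  have c1 : ∀ l, ∃ G : PX, 1 ≤ l → GG (k + 1) s (r + 1) l = Q s * QF r * G ∧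
      G ∈ PZ (e0 k s r + (k + s + r + 2)) := by
    intro l
    by_cases hl : 1 ≤ l
    · obtain ⟨G, h⟩ := hNG1 hm hp hFR k s r l hs hkr hl
      exact ⟨G, fun _ => h⟩
    · exact ⟨0, fun h => absurd h hl⟩
  have c2 : ∀ l, ∃ G : PX, 1 ≤ l → GG (r + 1) s (k + 1) l = Q s * QF r * G ∧
      G ∈ PZ (e0 k s r + (k + s + r + 2)) := by
    intro l
    by_cases hl : 1 ≤ l
    · obtain ⟨G, h⟩ := hNG2 hm hp hFR hDIV k s r l hs hkr hl
      exact ⟨G, fun _ => h⟩
    · exact ⟨0, fun h => absurd h hl⟩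
  choose G1 hG1 using c1
  choose G2 hG2 using c2
  let g : ℕ → PX := fun γ => ∑ l ∈ Icc γ (r + 1), G1 l +
    ∑ l ∈ Icc (k + 1 + s + (r + 1) - γ) (k + 1), G2 l
  have hg1 : ∀ γ : ℕ, 1 ≤ γ → γ ≤ k + s + r + 1 →
      gg (k + 1) s (r + 1) γ = Q s * QF r * g γ := by
    intro γ h1 h2
    unfold gg g1
    show _ = Q s * QF r * (∑ l ∈ Icc γ (r + 1), G1 l +
      ∑ l ∈ Icc (k + 1 + s + (r + 1) - γ) (k + 1), G2 l)
    rw [mul_add, mul_sum, mul_sum]
    refine congrArg₂ (· + ·) ?_ ?_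
    · refine sum_congr rfl (fun l hl => ?_)
      rw [mem_Icc] at hl
      exact (hG1 l (by omega)).1
    · refine sum_congr rfl (fun l hl => ?_)
      rw [mem_Icc] at hl
      exact (hG2 l (by omega)).1
  have hg2 : ∀ γ : ℕ, 1 ≤ γ → γ ≤ k + s + r + 1 →
      g γ ∈ PZ (e0 k s r + (k + s + r + 2)) := by
    intro γ h1 h2
    refine AddSubmonoid.add_mem _ (AddSubmonoid.sum_mem _ fun l hl => ?_)
      (AddSubmonoid.sum_mem _ fun l hl => ?_)
    · rw [mem_Icc] at hl
      exact (hG1 l (by omega)).2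
    · rw [mem_Icc] at hl
      exact (hG2 l (by omega)).2
  have d1 : 2 * (k + 1) < k + s + r + 2 := by omega
  have d2 : ∀ j : ℕ, k + 1 < j → aN k s r j = 0 := by
    intro j hj
    unfold aN
    rw [fall_eq_zero (a := k) (k := j - 1) (by omega)]
    ring
  have d3 : ∀ j : ℕ, 1 ≤ j → aN k s r j ∈ PZ (e0 k s r + 2 * j) := fun j hj =>
    (hNA hm hp hFR k s r j hs hkr hj).1
  have d4 : ∀ j : ℕ, 1 ≤ j → qX * aN k s r j - aN k s r (j + 1) ∈
      PZ (e0 k s r + 2 * j + 2) := fun j hj => hNB hm hp hFR hNA k s r j hs hkr hj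
  have hcast : (((k + s + r + 2 : ℕ)) : ℤ) = k + s + r + 2 := by push_cast; ring
  refine ⟨⟨g, hg1, d1, d2, d3, d4, ?_⟩, ?_⟩
  · intro γ h1 h2
    rw [hcast]
    exact hg2 γ h1 h2
  -- the second part
  have hX : ∃ X : PX, X ∈ PZ (e0 k s r + (k + s + r + 2)) ∧
      qX ^ (r + 1) * Q (s - 1) * Q (k + 1 + s - 1) *
        (QF (s - 1) * rise s (k + 1 - 1) * rise s (r + 1 - 1)) = Q s * QF (r + 1) * X := by
    obtain ⟨s', rfl⟩ : ∃ s', s = s' + 1 := ⟨s - 1, by omega⟩
    rcases Nat.eq_zero_or_pos s' with h0 | h0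
    · subst h0
      refine ⟨0, AddSubmonoid.zero_mem _, ?_⟩
      rw [show 0 + 1 - 1 = 0 from rfl, Q_zero]
      ring
    · obtain ⟨u, rfl⟩ : ∃ u, s' = u + 1 := ⟨s' - 1, by omega⟩
      refine ⟨qX ^ (r + 1) * (Q (u + 1) * (rise (u + 1 + 1 + 1) k * rise (r + 2) u)), ?_, ?_⟩
      · have f0 : Q (u + 1) ∈ PZ ((u : ℤ)) := by
          have := PZ_gen (i := 0) (k := u + 1) (z := (u : ℤ)) (by push_cast; ring)
          rwa [pow_zero, one_mul] at this
        have f1 : rise (u + 1 + 1 + 1) k ∈ PZ ((k : ℤ) * (u + 3) + tr k - k) := by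
          refine (hFR hm).1 (u + 1 + 1 + 1) k _ (by omega) ?_
          have := two_tr k
          push_cast
          linarith
        have f2 : rise (r + 2) u ∈ PZ ((u : ℤ) * (r + 2) + tr u - u) := by
          refine (hFR hm).1 (r + 2) u _ (by omega) ?_
          have := two_tr u
          push_cast
          linarith
        have g3 := hp.2.2 _ (r + 1) _ (hm _ _ _ _ f0 (hm _ _ _ _ f1 f2))
        have e5 : ((u : ℤ) + ((k : ℤ) * (u + 3) + tr k - k + ((u : ℤ) * (r + 2) + tr u - u)) +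
            2 * ((r + 1 : ℕ) : ℤ)) =
            e0 k (u + 1 + 1) r + ((k : ℤ) + ((u + 1 + 1 : ℕ) : ℤ) + (r : ℤ) + 2) := by
          have t1 := two_tr k
          have t2 := two_tr u
          have t3 := two_tr (u + 1 + 1)
          have t4 := two_tr (k + 1 + (u + 1 + 1))
          have t5 := two_tr (r + 1 + (u + 1 + 1))
          have t6 := two_tr r
          unfold e0
          push_cast at t1 t2 t3 t4 t5 t6 ⊢
          apply mul_left_cancel₀ (two_ne_zero : (2 : ℤ) ≠ 0)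
          linear_combination t1 + t2 + t3 - t4 - t5 + t6
        rw [e5] at g3
        exact g3
      · have e1 : k + 1 + (u + 1 + 1) - 1 = u + 1 + 1 + k := by omega
        rw [e1, Nat.add_sub_cancel, Nat.add_sub_cancel, Nat.add_sub_cancel]
        have e2 : rise (u + 1 + 1) k * Q (u + 1 + 1 + k) = Q (u + 1 + 1) * rise (u + 1 + 1 + 1) k := by
          rw [← rise_succ, rise_succ']
        have e3 : QF (u + 1) * rise (u + 1 + 1) r = QF (r + 1) * rise (r + 1 + 1) u := by
          rw [← QF_add'', ← QF_add'']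
          congr 1
          omega
        calc qX ^ (r + 1) * Q (u + 1) * Q (u + 1 + 1 + k) *
              (QF (u + 1) * rise (u + 1 + 1) k * rise (u + 1 + 1) r)
            = qX ^ (r + 1) * Q (u + 1) * (rise (u + 1 + 1) k * Q (u + 1 + 1 + k)) *
              (QF (u + 1) * rise (u + 1 + 1) r) := by ring
          _ = _ := by rw [e2, e3]; ring
  obtain ⟨X, hX1, hX2⟩ := hX
  refine ⟨fun γ => if γ = 1 then g 1 + X else g (γ - 1), ?_, d1, d2, d3, d4, ?_⟩
  · intro γ h1 h2
    by_cases hγ : γ = 1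
    · subst hγ
      simp only [if_true]
      unfold gK
      rw [if_pos rfl, hKAP (k + 1) s (r + 1) (by omega) hs (by omega),
        hg1 1 le_rfl (by omega), hX2, QF_succ]
      ring
    · simp only [if_neg hγ]
      unfold gK
      rw [if_neg hγ, hg1 (γ - 1) (by omega) (by omega), QF_succ]
      ring
  · intro γ h1 h2
    rw [hcast]
    by_cases hγ : γ = 1
    · simp only [if_pos hγ]
      exact AddSubmonoid.add_mem _ (hg2 1 le_rfl (by omega)) hX1
    · simp only [if_neg hγ]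
      exact hg2 (γ - 1) (by omega) (by omega)

end Pool.Agent.SWB
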