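import Pool.Agent.Lib.MP_263316_co.AB.Spec

/-!
MP_263316_co, part AB: `rise x s` divided by `[s]` (S_DIV).
-/

set_option autoImplicit false

namespace Pool.Agent.SWB

open Finset Pool.Agent.SWC

private theorem one_mem : (1 : PX) ∈ PZ 0 := by
  have h := PZ_gen (i := 0) (k := 1) (z := 0) (by norm_num)
  rwa [pow_zero, one_mul, Q_one] at h

private theorem Q_mem {k : ℕ} {z : ℤ} (h : (k : ℤ) = z + 1) : Q k ∈ PZ z := by
  have h := PZ_gen (i := 0) (k := k) (z := z) (by push_cast; linarith)
  rwa [pow_zero, one_mul] at h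

private theorem X_mem {s : ℕ} {z : ℤ} (h : 2 * (s : ℤ) = z) : (qX ^ s : PX) ∈ PZ z := by
  have h := PZ_gen (i := s) (k := 1) (z := z) (by push_cast; linarith)
  rwa [Q_one, mul_one] at h

private theorem two_step {x m : ℕ} (h : m ≤ x) :
    Q x + qX ^ m * Q x = Q (x + m) + qX ^ m * Q (x - m) := by
  have h1 : Q (x + m) = Q m + qX ^ m * Q x := by rw [Nat.add_comm x m, Q_add]
  have h2 : Q x = Q m + qX ^ m * Q (x - m) := by
    conv_lhs => rw [← Nat.add_sub_cancel' h, Q_add]
  rw [h1]
  linear_combination h2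

/-- `W_y` -/
private noncomputable def W (s y : ℕ) : PX := ∑ i ∈ range y, qX ^ (s * i)

private theorem W_mul (s y : ℕ) : Q s * W s y = Q (s * y) := by
  induction y with
  | zero => simp [W, Q_zero]
  | succ y ih =>
    unfold W at ih ⊢
    rw [sum_range_succ, mul_add, ih, Nat.mul_succ, Q_add]
    ring

private theorem W_succ' (s y : ℕ) : W s (y + 1) = 1 + qX ^ s * W s y := by
  unfold W
  rw [sum_range_succ', Finset.mul_sum]
  have e : (qX ^ (s * 0) : PX) = 1 := by simp
  rw [e, add_comm]
  congr 1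
  refine sum_congr rfl fun i _ => ?_
  rw [Nat.mul_succ, pow_add]
  ring

private theorem W_succ (s y : ℕ) : W s (y + 1) = W s y + qX ^ (s * y) := by
  unfold W
  rw [sum_range_succ]

private theorem WB (hm : S_PZm) (s : ℕ) : ∀ (y x : ℕ), s * y + 1 ≤ x →
    W s (y + 1) * Q x ∈ PZ ((s : ℤ) * y + x - 1)
  | 0, x, h => by
    have e : W s (0 + 1) = 1 := by simp [W]
    rw [e, one_mul]
    exact Q_mem (by push_cast; ring)
  | 1, x, h => by
    have h' : s ≤ x := by omega
    have e : W s (1 + 1) * Q x = Q (x + s) + qX ^ s * Q (x - s) := by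
      rw [← two_step h', W_succ, W_succ]
      simp [W]
      ring
    rw [e]
    refine (PZ _).add_mem (Q_mem (by push_cast; ring)) (PZ_gen ?_)
    rw [Nat.cast_sub h']
    push_cast
    ring
  | (y + 2), x, h => by
    have h' : s * (y + 2) ≤ x := by omega
    have ih := WB hm s y x (by nlinarith)
    have e : W s (y + 2 + 1) * Q x =
        (Q (x + s * (y + 2)) + qX ^ (s * (y + 2)) * Q (x - s * (y + 2))) +
          qX ^ s * (W s (y + 1) * Q x) := by
      rw [← two_step h', W_succ, W_succ']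
      ring
    rw [e]
    refine (PZ _).add_mem ((PZ _).add_mem (Q_mem (by push_cast; ring)) (PZ_gen ?_)) ?_
    · rw [Nat.cast_sub h']
      push_cast
      ring
    · have h3 := hm (2 * s) _ _ _ (X_mem rfl) ih
      have h4 : (2 * (s : ℤ) + ((s : ℤ) * y + x - 1)) = (s : ℤ) * ((y + 2 : ℕ) : ℤ) + x - 1 := by
        push_cast; ring
      rwa [h4] at h3

private theorem prod_mem' (hm : S_PZm) (x : ℕ) (T : Finset ℕ) :
    ∏ i ∈ T, Q (x + i) ∈ PZ (∑ i ∈ T, ((x : ℤ) + i - 1)) := by
  induction T using Finset.induction_on with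
  | empty => simpa using one_mem
  | insert a T ha ih =>
    rw [prod_insert ha, sum_insert ha]
    exact hm _ _ _ _ (Q_mem (by push_cast; ring)) ih

private theorem rise_sum (x k : ℕ) : 2 * ∑ i ∈ range k, ((x : ℤ) + i - 1) = k * (2 * x + k - 3) := by
  induction k with
  | zero => simp
  | succ k ih => rw [sum_range_succ, mul_add, ih]; push_cast; ring

theorem t_DIV : S_DIV := by
  intro hm s x hs hx
  rcases Nat.lt_or_ge s 2 with h2 | h2
  · obtain rfl : s = 1 := by omega
    refine ⟨Q x, ?_, fun z hz => Q_mem ?_⟩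
    · rw [Q_one, one_mul]
      simp [rise]
    · push_cast at hz
      linarith
  · -- the row number
    obtain ⟨y, i0, hi0, hy⟩ : ∃ y i0 : ℕ, i0 < s ∧ x + i0 = s * (y + 1) := by
      refine ⟨(x - 1) / s, s - 1 - (x - 1) % s, by omega, ?_⟩
      have h3 := Nat.div_add_mod (x - 1) s
      have h4 := Nat.mod_lt (x - 1) (show 0 < s by omega)
      rw [Nat.mul_succ]
      omega
    obtain ⟨i1, hi1, hne⟩ : ∃ i1 : ℕ, i1 < s ∧ i1 ≠ i0 := by
      rcases Nat.eq_zero_or_pos i0 with h | h
      · exact ⟨1, by omega, by omega⟩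
      · exact ⟨0, by omega, by omega⟩
    have hx' : s * y + 1 ≤ x + i1 := by
      rw [Nat.mul_succ] at hy
      omega
    have m0 : i0 ∈ range s := mem_range.2 hi0
    have m1 : i1 ∈ (range s).erase i0 := mem_erase.2 ⟨hne, mem_range.2 hi1⟩
    refine ⟨W s (y + 1) * Q (x + i1) * ∏ i ∈ ((range s).erase i0).erase i1, Q (x + i), ?_,
      fun z hz => ?_⟩
    · unfold rise
      rw [← mul_prod_erase (range s) (fun i => Q (x + i)) m0,
        ← mul_prod_erase ((range s).erase i0) (fun i => Q (x + i)) m1, hy, ← W_mul]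
      ring
    · have h5 := hm _ _ _ _ (WB hm s y (x + i1) hx')
        (prod_mem' hm x (((range s).erase i0).erase i1))
      have h6 := rise_sum x s
      rw [← add_sum_erase (range s) (fun i => ((x : ℤ) + i - 1)) m0,
        ← add_sum_erase ((range s).erase i0) (fun i => ((x : ℤ) + i - 1)) m1] at h6
      have h7 : (x : ℤ) + i0 = s * (y + 1) := by exact_mod_cast hy
      have h8 : z = (s : ℤ) * y + ((x + i1 : ℕ) : ℤ) - 1 +
          ∑ i ∈ ((range s).erase i0).erase i1, ((x : ℤ) + i - 1) := by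
        push_cast
        linarith
      rwa [h8]

end Pool.Agent.SWB
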