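import Pool.Agent.Lib.MP_263316_co.AB.Spec

/-!
MP_263316_co, AB/EE: number of edges (helper82).
-/

set_option autoImplicit false

namespace Pool.Agent.SWB

open Finset Pool.Agent.SWC

theorem t_EE : S_EE := by
  intro m n h1 h2
  have e1 : eE m (range n) = ∑ u ∈ range n, (m u - u) := by
    unfold eE aL
    simp only [card_filter]
    rw [sum_comm]
    refine sum_congr rfl fun u hu => ?_
    rw [mem_range] at hu
    rw [← card_filter]
    have e2 : (range n).filter (fun v => u < v ∧ v ≤ m u) = Ioc u (m u) := by
      ext v
      simp only [mem_filter, mem_range, mem_Ioc]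
      have := h2 u hu
      omega
    rw [e2, Nat.card_Ioc]
  rw [e1]
  push_cast
  refine sum_congr rfl fun u hu => ?_
  rw [mem_range] at hu
  have := h1 u hu
  omega

end Pool.Agent.SWB
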