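import Pool.Agent.Lib.MP_263316_co.AB.TwoV

/-!
MP_263316_co, part AB, task EG: vertex attached on the left, formula.
-/

set_option autoImplicit false

namespace Pool.Agent.SWB

open Finset Pool.Agent.SWC

namespace EGaux

/-- The chain of graphs. -/
def me (M : ℕ → ℕ) (i v : ℕ) : ℕ := if v = 0 then i else M (v - 1) + 1

theorem image_succ (ν : ℕ) : (range ν).image (fun u => u + 1) =
    (range (ν + 1)).filter (fun u => 1 ≤ u) := by
  ext u
  rw [mem_image, mem_filter, mem_range]
  constructor
  · rintro ⟨a, ha, rfl⟩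
    rw [mem_range] at ha
    omega
  · rintro ⟨h1, h2⟩
    exact ⟨u - 1, by rw [mem_range]; omega, by omega⟩

end EGaux

open EGaux in
/-- Task EG. -/
theorem t_EG : S_EG := by
  intro hLC hCH hDIS hCUT hKT hEH hSH hMC N M ν A c hA hAν hM hM0 j
  have hmg : (fun v => if v = 0 then A else M (v - 1) + 1) = me M A := rfl
  rw [hmg]
  set w : ℕ → Fin N → AN N := fun v k => (if v = 0 then eh (qq N) (xx N) c k else xx N k) *
    (if v = ν + 1 - 1 then (if k = j then 1 else 0) else 1) with hw
  have hTQ : ∀ m, TQ N m (ν + 1) c j = Z m (qq N) (range (ν + 1)) w := fun m => rfl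
  have hww : ∀ a, 1 ≤ a → a + 1 < ν → ∀ k, w a k = w (a + 1) k := by
    intro a h1 h2 k
    rw [hw]
    simp only
    rw [if_neg (by omega), if_neg (by omega), if_neg (by omega), if_neg (by omega)]
  have hme : ∀ i v, v ≠ 0 → me M i v = M (v - 1) + 1 := fun i v hv => if_neg hv
  have hme0 : ∀ i, me M i 0 = i := fun i => if_pos rfl
  have h1 := (hCH (AN N) (qq N) (fun i => Z (me M i) (qq N) (range (ν + 1)) w) A).1
    (by
      intro i hi
      refine hLC (AN N) N (me M i) (me M (i + 1)) (me M (i + 2)) (qq N) _ w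
        0 (i + 1) (mem_range.2 (by omega)) (mem_range.2 (by omega))
        (mem_range.2 (by omega)) (by omega) (hww _ (by omega) (by omega)) ?_ ?_ ?_ ?_ ?_ ?_ ?_ ?_
      · intro u _ h1
        rw [hme _ u h1, hme _ u h1]
      · intro u _ h1
        rw [hme _ u h1, hme _ u h1]
      · rw [hme0]
      · rw [hme0]
      · rw [hme0]
      · intro u _ h1 h2
        rw [hme _ u h2, hM (u - 1) (by omega)]
        omega
      · rw [hme _ _ (by omega), Nat.add_sub_cancel, hM i (by omega)]
        omega
      · rw [hme _ _ (by omega), hme _ _ (by omega), Nat.add_sub_cancel,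
          show i + 1 + 1 - 1 = i + 1 by omega, hM i (by omega), hM (i + 1) (by omega)])
    A (le_refl _) hA
  have hν : 1 ≤ ν := by omega
  -- the shift
  have hshift : ∀ (i : ℕ) (f : Fin N → AN N), Z (me M i) (qq N)
      ((range ν).image (fun u => u + 1)) (fun v k => (if v = 1 then f k else xx N k) *
        (if v = ν then (if k = j then 1 else 0) else 1)) =
      TT M (qq N) (xx N) (range ν) 0 (ν - 1) f j := by
    intro i f
    rw [hSH (AN N) N M (me M i) (qq N) 1 (range ν)]
    · unfold TT
      apply Z_congr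
      intro v _ k
      have i1 : (v + 1 = 1) ↔ v = 0 := by omega
      have i2 : (v + 1 = ν) ↔ v = ν - 1 := by omega
      rw [if_congr i1 rfl rfl, if_congr i2 rfl rfl]
    · intro u _ v _ _
      rw [hme _ _ (by omega), Nat.add_sub_cancel]
      omega
  -- the graph with isolated vertex 0
  have ha0 : Z (me M 0) (qq N) (range (ν + 1)) w = MvPolynomial.C (Q (c + 1)) * es (xx N) (c + 1) *
      TQ N M ν 0 j := by
    have hu : range (ν + 1) = {0} ∪ (range ν).image (fun u => u + 1) := by
      rw [image_succ]
      ext u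
      rw [mem_union, mem_singleton, mem_filter, mem_range]
      omega
    have h2 := hDIS (AN N) N (me M 0) (qq N) (xx N) {0} ((range ν).image (fun u => u + 1)) 0 0 ν
      (mem_singleton_self 0) (mem_singleton_self 0)
      (mem_image.mpr ⟨ν - 1, mem_range.2 (by omega), by omega⟩)
      (by
        intro u hu v hv
        rw [mem_singleton] at hu
        obtain ⟨b, _, rfl⟩ := mem_image.mp hv
        subst hu
        rw [hme0]
        exact ⟨by omega, by omega⟩) (eh (qq N) (xx N) c) j
    have h3 : ∀ i, TT (me M 0) (qq N) (xx N) {0} 0 0 (eh (qq N) (xx N) c) i =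
        eh (qq N) (xx N) c i := by
      intro i
      unfold TT
      rw [Z_singleton]
      simp
    have h4 : FF (me M 0) (qq N) (xx N) ((range ν).image (fun u => u + 1)) ν j =
        TQ N M ν 0 j := by
      unfold TQ FF
      rw [← hshift 0]
      apply Z_congr
      intro v _ k
      rw [eh_zero']
      split_ifs <;> rfl
    rw [sum_congr rfl (fun i _ => h3 i), hEH, qn_qq, h4, ← hu] at h2
    rw [← h2]
    rfl
  have ha1 : Z (me M 1) (qq N) (range (ν + 1)) w = TQ N M ν (c + 1) j +
      MvPolynomial.C (qX * Q c) * es (xx N) (c + 1) * TQ N M ν 0 j := by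
    have h2 := hCUT (AN N) N (me M 1) (qq N) (xx N) (range (ν + 1)) 0 1 ν
      (mem_range.2 (by omega)) (mem_range.2 (by omega)) (mem_range.2 (by omega)) (by omega) hν
      (by
        intro a _ b _ h3 h4
        have : a = 0 := by omega
        subst this
        rw [hme0]
        exact h4) (eh (qq N) (xx N) c)
    have h3 : (range (ν + 1)).filter (fun u => u ≤ 1) = {0, 0 + 1} := by
      ext u
      rw [mem_filter, mem_range, mem_insert, mem_singleton]
      omega
    rw [h3, ← image_succ] at h2
    have h4 := congrFun h2 j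
    have h5 : ∀ g : Fin N → AN N, TT (me M 1) (qq N) (xx N) ((range ν).image (fun u => u + 1)) 1 ν g
        j = TT M (qq N) (xx N) (range ν) 0 (ν - 1) g j := fun g => hshift 1 g
    rw [h5] at h4
    have h6 := TwoV.TT_add M (qq N) (xx N) (range ν) 0 (ν - 1) (mem_range.2 (by omega))
      (TT (me M 1) (qq N) (xx N) {0, 0 + 1} 0 1 (eh (qq N) (xx N) c))
      (eh (qq N) (xx N) (c + 1)) (eh (qq N) (xx N) 0)
      (MvPolynomial.C (qX * Q c) * es (xx N) (c + 1))
      (fun k => TwoV.KT1 hKT hMC N (me M 1) 0 c (by rw [hme0]) k) j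
    rw [h6] at h4
    exact h4
  rw [qn_qq] at h1
  rw [ha0, ha1] at h1
  rw [hTQ]
  have e : (MvPolynomial.C (Q (c + 1)) : AN N) = 1 + MvPolynomial.C (qX * Q c) := by
    rw [Q_succ', map_add, map_one]
  rw [e] at h1 ⊢
  linear_combination h1

end Pool.Agent.SWB
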