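import Pool.Agent.Lib.MP_263316_co.AB.Spec

set_option autoImplicit false

namespace Pool.Agent.SWB

open Finset Pool.Agent.SWC

theorem t_EX : S_EX := by
  intro hCH hBL hUN hPL hIN hHK hm n w h hB hwn
  have hBn : Brd n n h := ⟨hB.1, fun i hi => le_trans (hB.2 i hi) hwn⟩
  obtain ⟨H, hs, hd, hid⟩ := hHK hm n h hBn
  obtain ⟨Dn, a, hDn, hexp⟩ := hUN hCH hBL n w h hB
  refine ⟨H, hd, ?_⟩
  have hC : ∀ u : PX, Dn * Ph n n h u = ∑ k ∈ range (w + 1), a k * Ph n n (fun _ => k) u := by
    intro u
    have h1 := hexp 0 (fun h => MvPolynomial.C (Ph n n h u)) (hPL 0 n w n u hwn)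
    apply MvPolynomial.C_injective (Fin 0) PX
    rw [map_mul, map_sum]
    simpa only [map_mul] using h1
  have hI : ∀ u : PX, QF n * Ph n n h u = ∑ k ∈ range (w + 1), H k * Ph n n (fun _ => k) u := by
    intro u
    rw [hid n u (le_refl _)]
    symm
    apply sum_subset
    · intro i hi
      rw [mem_range] at hi ⊢
      omega
    · intro k _ hk
      rw [mem_range] at hk
      have : H k = 0 := by
        by_contra hne
        have := (hs k hne).2.2 w hB.2
        omega
      rw [this, zero_mul]
  have hcoef : ∀ k ≤ w, QF n * a k = Dn * H k := by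
    intro k hk
    have h1 := hIN n w n (fun k => QF n * a k - Dn * H k) hwn hwn (by
      intro u
      have e1 : ∑ k ∈ range (w + 1), (QF n * a k - Dn * H k) * Ph n n (fun _ => k) u =
          QF n * ∑ k ∈ range (w + 1), a k * Ph n n (fun _ => k) u -
          Dn * ∑ k ∈ range (w + 1), H k * Ph n n (fun _ => k) u := by
        rw [mul_sum, mul_sum, ← sum_sub_distrib]
        exact sum_congr rfl fun k _ => by ring
      rw [e1, ← hC u, ← hI u]
      ring) k hk
    exact sub_eq_zero.mp h1
  intro N T hT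
  have hne : (MvPolynomial.C Dn : AN N) ≠ 0 := by
    intro h0
    apply hDn
    apply MvPolynomial.C_injective (Fin N) PX
    rw [h0, map_zero]
  apply mul_left_cancel₀ hne
  have e1 : (MvPolynomial.C Dn : AN N) * (MvPolynomial.C (QF n) * T h) =
      MvPolynomial.C (QF n) * (MvPolynomial.C Dn * T h) := by ring
  rw [e1, hexp N T hT, mul_sum, mul_sum]
  apply sum_congr rfl
  intro k hk
  rw [mem_range] at hk
  rw [← mul_assoc, ← mul_assoc, ← map_mul, ← map_mul, hcoef k (by omega)]

end Pool.Agent.SWB
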