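import Pool.Agent.Lib.MP_263316_co.AB.Spec

/-!
MP_263316_co, part AB: `rise`, `fall` and `QF` are in `PZ` (S_FR).
-/

set_option autoImplicit false

namespace Pool.Agent.SWB

open Finset Pool.Agent.SWC

private theorem one_mem : (1 : PX) ∈ PZ 0 := by
  have h := PZ_gen (i := 0) (k := 1) (z := 0) (by norm_num)
  rwa [pow_zero, one_mul, Q_one] at h

private theorem Q_mem {k : ℕ} {z : ℤ} (h : (k : ℤ) = z + 1) : Q k ∈ PZ z := by
  have h := PZ_gen (i := 0) (k := k) (z := z) (by push_cast; linarith)
  rwa [pow_zero, one_mul] at h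

private theorem rise_mem (hm : S_PZm) (s k : ℕ) : rise s k ∈ PZ (∑ i ∈ range k, ((s : ℤ) + i - 1)) := by
  induction k with
  | zero => simpa [rise_zero] using one_mem
  | succ k ih =>
    rw [rise_succ, sum_range_succ]
    exact hm _ _ _ _ ih (Q_mem (by push_cast; ring))

private theorem rise_sum (s k : ℕ) : 2 * ∑ i ∈ range k, ((s : ℤ) + i - 1) = k * (2 * s + k - 3) := by
  induction k with
  | zero => simp
  | succ k ih => rw [sum_range_succ, mul_add, ih]; push_cast; ring

private theorem fall_mem (hm : S_PZm) (a k : ℕ) (h : k ≤ a) :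
    fall a k ∈ PZ (∑ i ∈ range k, ((a : ℤ) - i - 1)) := by
  induction k with
  | zero => simpa [fall_zero] using one_mem
  | succ k ih =>
    rw [fall_succ, sum_range_succ]
    exact hm _ _ _ _ (ih (by omega)) (Q_mem (by omega))

private theorem fall_sum (a k : ℕ) : 2 * ∑ i ∈ range k, ((a : ℤ) - i - 1) = k * (2 * a - k - 1) := by
  induction k with
  | zero => simp
  | succ k ih => rw [sum_range_succ, mul_add, ih]; push_cast; ring

theorem t_FR : S_FR := by
  intro hm
  refine ⟨fun s k z _ hz => ?_, fun a k z hk hz => ?_, fun k => ?_⟩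
  · have h1 := rise_sum s k
    have h2 : z = ∑ i ∈ range k, ((s : ℤ) + i - 1) := by linarith
    rw [h2]
    exact rise_mem hm s k
  · have h1 := fall_sum a k
    have h2 : z = ∑ i ∈ range k, ((a : ℤ) - i - 1) := by linarith
    rw [h2]
    exact fall_mem hm a k hk
  · induction k with
    | zero => simpa [QF_zero, tr_zero] using one_mem
    | succ k ih =>
      rw [QF_succ, tr_succ]
      exact hm _ _ _ _ ih (Q_mem (by push_cast; ring))

end Pool.Agent.SWB
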