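import Pool.Agent.Lib.MP_263316_co.AB.Spec

/-!
MP_263316_co, AB/GH: hh, GG, g1, telescoping (helper82).
-/

set_option autoImplicit false

namespace Pool.Agent.SWB

open Finset Pool.Agent.SWC

namespace GHaux

theorem hh_zero {A S B y : ℕ} (h : A - 1 < y ∨ B - 1 < y - 1) : hh A S B y = 0 := by
  unfold hh
  rcases h with h | h
  · rw [fall_eq_zero h]
    ring
  · rw [fall_eq_zero h]
    ring

theorem GG_zero {A S B y : ℕ} (h : A - 1 < y ∨ B - 1 < y - 1) : GG A S B y = 0 := by
  unfold GG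
  rcases h with h | h
  · rw [fall_eq_zero h]
    ring
  · rw [fall_eq_zero h]
    ring

theorem D_zero {A S B y : ℕ} (h : A - 1 < y - 1 ∨ B - 1 < y - 1) : D A S B y = 0 := by
  unfold D
  rcases h with h | h
  · rw [fall_eq_zero h]
    ring
  · rw [fall_eq_zero h]
    ring

theorem first (hW : S_W) {A S B y : ℕ} (hA : 1 ≤ A) (hS : 1 ≤ S) (hB : 1 ≤ B) (hy : 1 ≤ y) :
    hh A S B y - hh A S B (y + 1) - D A S B (y + 1) = GG A S B y := by
  by_cases h1 : A ≤ y
  · rw [hh_zero (Or.inl (by omega)), hh_zero (Or.inl (by omega)), D_zero (Or.inl (by omega)),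
      GG_zero (Or.inl (by omega))]
    ring
  by_cases h2 : B < y
  · rw [hh_zero (Or.inr (by omega)), hh_zero (Or.inr (by omega)), D_zero (Or.inr (by omega)),
      GG_zero (Or.inr (by omega))]
    ring
  by_cases h3 : y = B
  · rw [hh_zero (y := y + 1) (Or.inr (by omega)), D_zero (Or.inr (by omega))]
    subst h3
    unfold hh GG
    rw [Nat.sub_self, rise_zero, rise_zero, Nat.zero_add]
    ring
  · obtain ⟨w, e1, e2, e3, e4⟩ := hW A S B y hS hy (by omega) (by omega)
    obtain ⟨a, ha⟩ : ∃ a, a = A - y - 1 := ⟨_, rfl⟩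
    obtain ⟨b, hb⟩ : ∃ b, b = B - y - 1 := ⟨_, rfl⟩
    obtain ⟨s, hs⟩ : ∃ s, S = s + 1 := ⟨S - 1, by omega⟩
    have hb1 : B - y = b + 1 := by omega
    rw [← ha, ← hb] at e1
    rw [← ha, hb1] at e2
    rw [hb1] at e3
    rw [← ha, hb1] at e4
    rw [e1, e2, e3, e4]
    have q1 : Q (S + a) = Q S + qX ^ S * Q a := Q_add S a
    have q2 : Q (S + b) = Q (b + 1) + qX ^ (b + 1) * Q (S - 1) := by
      rw [← Q_add]
      congr 1
      omega
    rw [q2, q1]
    ring

theorem third {A S B y : ℕ} (hS : 1 ≤ S) (hy : 1 ≤ y) :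
    Q S * hh A S B y = qX ^ S * Q (A - y) * D A S B y := by
  obtain ⟨s, rfl⟩ : ∃ s, S = s + 1 := ⟨S - 1, by omega⟩
  obtain ⟨z, rfl⟩ : ∃ z, y = z + 1 := ⟨y - 1, by omega⟩
  unfold hh D
  have e1 : fall (A - 1) (z + 1) = fall (A - 1) z * Q (A - (z + 1)) := by
    rw [fall_succ]
    congr 2
    omega
  rw [e1, Nat.add_sub_cancel, Nat.add_sub_cancel, QF_succ]
  have e2 : (qX : PX) ^ ((s + 1) * (z + 1)) = qX ^ ((s + 1) * z) * qX ^ (s + 1) := by
    rw [← pow_add]
    congr 1
  rw [e2]
  ring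

theorem sum_Icc (f : ℕ → PX) {y B : ℕ} (h : y ≤ B) :
    ∑ l ∈ Icc y B, f l = f y + ∑ l ∈ Icc (y + 1) B, f l := by
  have e1 : Icc y B = insert y (Icc (y + 1) B) := by
    ext x
    simp only [mem_Icc, mem_insert]
    omega
  rw [e1, sum_insert]
  simp

theorem Ioc_eq (y B : ℕ) : Ioc y B = Icc (y + 1) B := by
  ext x
  simp only [mem_Icc, mem_Ioc]
  omega

theorem second (hW : S_W) {A S B : ℕ} (hA : 1 ≤ A) (hS : 1 ≤ S) (hB : 1 ≤ B) : ∀ m y : ℕ,
    y + m = B + 1 → 1 ≤ y → g1 A S B y = hh A S B y - ∑ j ∈ Ioc y B, D A S B j := by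
  intro m
  induction m with
  | zero =>
    intro y hm hy
    have e1 : Icc y B = ∅ := by
      ext x
      simp only [mem_Icc, notMem_empty, iff_false]
      omega
    have e2 : Ioc y B = ∅ := by
      ext x
      simp only [mem_Ioc, notMem_empty, iff_false]
      omega
    unfold g1
    rw [e1, e2, sum_empty, sum_empty, hh_zero (Or.inr (by omega))]
    ring
  | succ m ih =>
    intro y hm hy
    have e1 := ih (y + 1) (by omega) (by omega)
    have e2 : g1 A S B y = GG A S B y + g1 A S B (y + 1) := by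
      unfold g1
      exact sum_Icc _ (by omega)
    have e3 : ∑ j ∈ Ioc y B, D A S B j = D A S B (y + 1) + ∑ j ∈ Ioc (y + 1) B, D A S B j := by
      rw [Ioc_eq, Ioc_eq]
      by_cases h1 : y + 1 ≤ B
      · exact sum_Icc _ h1
      · have e4 : Icc (y + 1) B = ∅ := by
          ext x
          simp only [mem_Icc, notMem_empty, iff_false]
          omega
        have e5 : Icc (y + 1 + 1) B = ∅ := by
          ext x
          simp only [mem_Icc, notMem_empty, iff_false]
          omega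
        rw [e4, e5, sum_empty, D_zero (Or.inr (by omega))]
        ring
    rw [e2, e1, e3, ← first hW hA hS hB hy]
    ring

end GHaux

theorem t_GH : S_GH := by
  intro hW A S B y hA hS hB hy
  refine ⟨GHaux.first hW hA hS hB hy, ?_, GHaux.third hS hy⟩
  by_cases h : y ≤ B + 1
  · exact GHaux.second hW hA hS hB (B + 1 - y) y (by omega) hy
  · have e1 : Icc y B = ∅ := by
      ext x
      simp only [mem_Icc, notMem_empty, iff_false]
      omega
    have e2 : Ioc y B = ∅ := by
      ext x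
      simp only [mem_Ioc, notMem_empty, iff_false]
      omega
    unfold g1
    rw [e1, e2, sum_empty, sum_empty, GHaux.hh_zero (Or.inr (by omega))]
    ring

end Pool.Agent.SWB
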