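import Pool.Agent.Lib.MP_263316_co.AB.Spec

/-!
MP_263316_co, AB/IN: linear independence of board polynomials (helper82).
-/

set_option autoImplicit false

namespace Pool.Agent.SWB

open Finset Pool.Agent.SWC

namespace INaux

theorem pow_sub_ne {a b : ℕ} (h : a ≠ b) : (qX ^ a - qX ^ b : PX) ≠ 0 := by
  intro h0
  have h1 : (Polynomial.X ^ a : PX) = Polynomial.X ^ b := sub_eq_zero.1 h0
  have h2 := congrArg Polynomial.natDegree h1
  rw [Polynomial.natDegree_X_pow, Polynomial.natDegree_X_pow] at h2
  exact h h2

end INaux

theorem t_IN : S_IN := by
  intro n w L a hwn hwL h k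
  induction k using Nat.strong_induction_on with
  | _ k ih =>
    intro hk
    rcases hk.eq_or_lt with hkw | hkw
    · subst hkw
      have h1 := h 0
      rw [sum_eq_single k] at h1
      · rcases mul_eq_zero.1 h1 with h2 | h2
        · exact h2
        · exfalso
          unfold Ph at h2
          rw [prod_eq_zero_iff] at h2
          obtain ⟨i, _, hi⟩ := h2
          rw [zero_sub, neg_eq_zero] at hi
          exact X_pow_ne _ hi
      · intro k' hk' hne
        rw [mem_range] at hk'
        rw [ih k' (by omega) (by omega), zero_mul]
      · intro hn
        exact absurd (mem_range.2 (by omega)) hn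
    · have h1 := h (qX ^ (L - k - 1))
      rw [sum_eq_single k] at h1
      · rcases mul_eq_zero.1 h1 with h2 | h2
        · exact h2
        · exfalso
          unfold Ph at h2
          rw [prod_eq_zero_iff] at h2
          obtain ⟨i, _, hi⟩ := h2
          exact INaux.pow_sub_ne (show L - k - 1 ≠ i + L - k by omega) hi
      · intro k' hk' hne
        rw [mem_range] at hk'
        rcases lt_or_gt_of_ne hne with h3 | h3
        · rw [ih k' h3 (by omega), zero_mul]
        · have h4 : Ph n L (fun _ => k') (qX ^ (L - k - 1)) = 0 := by
            unfold Ph
            refine prod_eq_zero (i := k' - k - 1) (mem_range.2 (by omega)) ?_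
            have h5 : k' - k - 1 + L - k' = L - k - 1 := by omega
            rw [h5, sub_self]
          rw [h4, mul_zero]
      · intro hn
        exact absurd (mem_range.2 (by omega)) hn

end Pool.Agent.SWB
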