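import Pool.Agent.Lib.MP_263316_co.AB.Spec

/-!
MP_263316_co, part AB: sums over an interval with an involution (S_INV).
-/

set_option autoImplicit false

namespace Pool.Agent.SWB

open Finset Pool.Agent.SWC

private theorem diff_mem (hm : S_PZm) {D : ℕ → PX} {e : ℤ}
    (h : ∀ j : ℕ, 1 ≤ j → qX * D j - D (j + 1) ∈ PZ (e + 2 * j + 2)) {a : ℕ} (ha : 1 ≤ a)
    (δ : ℕ) : qX ^ δ * D a - D (a + δ) ∈ PZ (e + 2 * a + 2 * δ) := by
  induction δ with
  | zero => simp
  | succ δ ih =>
    have h1 : (qX : PX) ∈ PZ 2 := by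
      have h := PZ_gen (i := 1) (k := 1) (z := 2) (by norm_num)
      rwa [Q_one, mul_one, pow_one] at h
    have h2 := hm _ _ _ _ h1 ih
    have h3 := h (a + δ) (by omega)
    have e1 : (2 + (e + 2 * (a : ℤ) + 2 * (δ : ℤ))) = e + 2 * a + 2 * ((δ + 1 : ℕ) : ℤ) := by
      push_cast; ring
    have e2 : (e + 2 * ((a + δ : ℕ) : ℤ) + 2) = e + 2 * a + 2 * ((δ + 1 : ℕ) : ℤ) := by
      push_cast; ring
    rw [e1] at h2
    rw [e2] at h3
    have e3 : qX ^ (δ + 1) * D a - D (a + (δ + 1)) =
        qX * (qX ^ δ * D a - D (a + δ)) + (qX * D (a + δ) - D (a + δ + 1)) := by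
      rw [pow_succ, ← Nat.add_assoc]
      ring
    rw [e3]
    exact (PZ _).add_mem h2 h3

theorem t_INV : S_INV := by
  intro hm _ D e J t α β hJt hD0 hD hDD
  have main : ∀ n a b : ℕ, b - a = n → 1 ≤ a → a + b + α = β + t →
      ∑ j ∈ Icc a b, D j * (Q (β + t - 2 * j) - Q α) ∈ PZ (e + t + α + β - 1) := by
    intro n
    induction n using Nat.strong_induction_on with
    | _ n ih =>
      intro a b hn ha hab
      rcases Nat.lt_or_ge b a with h1 | h1
      · rw [Icc_eq_empty (by omega), sum_empty]
        exact (PZ _).zero_mem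
      rcases Nat.eq_or_lt_of_le h1 with h2 | h2
      · subst h2
        rw [Icc_self, sum_singleton, show β + t - 2 * a = α by omega, sub_self, mul_zero]
        exact (PZ _).zero_mem
      have hins : Icc a b = insert a (insert b (Icc (a + 1) (b - 1))) := by
        ext j
        simp only [mem_Icc, mem_insert]
        omega
      rw [hins, sum_insert (by simp only [mem_Icc, mem_insert]; omega),
        sum_insert (by simp only [mem_Icc]; omega), ← add_assoc]
      refine (PZ _).add_mem ?_ (ih (b - 1 - (a + 1)) (by omega) (a + 1) (b - 1) rfl (by omega)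
        (by omega))
      obtain ⟨δ, rfl⟩ := Nat.exists_eq_add_of_le h1
      have e1 : β + t - 2 * a = α + δ := by omega
      have e1' : D a * (Q (β + t - 2 * a) - Q α) = qX ^ α * Q δ * D a := by
        rw [e1, Q_sub (by omega), Nat.add_sub_cancel_left]
        ring
      have hz : (a : ℤ) + (a + δ) + α = β + t := by exact_mod_cast hab
      rcases Nat.lt_or_ge J (a + δ) with h3 | h3
      · rw [hD0 (a + δ) h3, zero_mul, add_zero, e1']
        have h4 := hm _ _ _ _ (PZ_gen (i := α) (k := δ) (z := 2 * α + δ - 1) (by ring)) (hD a ha)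
        have e2 : (2 * (α : ℤ) + δ - 1 + (e + 2 * a)) = e + t + α + β - 1 := by linarith
        rwa [e2] at h4
      · have h4 : δ ≤ α := by omega
        have e2 : β + t - 2 * (a + δ) = α - δ := by omega
        have e3 : D a * (Q (β + t - 2 * a) - Q α) +
            D (a + δ) * (Q (β + t - 2 * (a + δ)) - Q α) =
            qX ^ (α - δ) * Q δ * (qX ^ δ * D a - D (a + δ)) := by
          have e4 : Q α - Q (α - δ) = qX ^ (α - δ) * Q δ := by
            rw [Q_sub (by omega), Nat.sub_sub_self h4]
          have e5 : (qX ^ α : PX) = qX ^ (α - δ) * qX ^ δ := by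
            rw [← pow_add, Nat.sub_add_cancel h4]
          rw [e1', e2, e5]
          linear_combination (-D (a + δ)) * e4
        rw [e3]
        have h5 := hm _ _ _ _ (PZ_gen (i := α - δ) (k := δ) (z := 2 * α - δ - 1) (by
          rw [Nat.cast_sub h4]; ring)) (diff_mem hm hDD ha δ)
        have e6 : (2 * (α : ℤ) - δ - 1 + (e + 2 * a + 2 * δ)) = e + t + α + β - 1 := by linarith
        rwa [e6] at h5
  intro a b ha hab
  exact main _ a b rfl ha hab

end Pool.Agent.SWB
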