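import Pool.Agent.Lib.MP_263316_co.AB.Spec

/-!
MP_263316_co, part AB, task KAP: the value of z(B, 0).
-/

set_option autoImplicit false

namespace Pool.Agent.SWB

open Finset Pool.Agent.SWC

namespace KAPaux

theorem Xp (k : ℕ) : (qX ^ k : PX) = 1 - (1 - qX) * Q k := by
  rw [Q_mul]
  ring

theorem zk_eq (t A S B : ℕ) (hA : 1 ≤ A) (hB : 1 ≤ B) (ht : B < t) :
    - zk t (D A S B) B 0 = D A S B 1 * (Q (t - 2) - Q B) +
      (∑ j ∈ Ioc 1 B, Q (t - 2 * j) * D A S B j - Q B * ∑ j ∈ Ioc 1 B, D A S B j) := by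
  have h1 : zk t (D A S B) B 0 = ∑ j ∈ Ico 1 t, D A S B j * (Q B - Q (t - 2 * j)) := by
    unfold zk
    apply sum_congr rfl
    intro j hj
    rw [mem_Ico] at hj
    rw [if_pos (by omega), if_neg (by omega), add_zero, zero_add]
  have h2 : ∑ j ∈ Ico 1 t, D A S B j * (Q B - Q (t - 2 * j)) =
      ∑ j ∈ Icc 1 B, D A S B j * (Q B - Q (t - 2 * j)) := by
    symm
    apply sum_subset
    · intro j hj
      rw [mem_Icc] at hj
      rw [mem_Ico]
      omega
    · intro j hj hj'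
      rw [mem_Ico] at hj
      rw [mem_Icc] at hj'
      rw [D_eq_zero hA hB (Or.inr (by omega)), zero_mul]
  have h3 : Icc 1 B = insert 1 (Ioc 1 B) := by
    ext j
    rw [mem_Icc, mem_insert, mem_Ioc]
    omega
  rw [h1, h2, h3, sum_insert (by simp), mul_sum, ← sum_sub_distrib, neg_add, ← sum_neg_distrib]
  congr 1
  · rw [mul_one]
    ring
  · apply sum_congr rfl
    intro j _
    ring

end KAPaux

/-- Task KAP. -/
theorem t_KAP : S_KAP := by
  intro hW hGH hKI A S B hA hS hB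
  have h1 := KAPaux.zk_eq (A + S + B) A S B hA hB (by omega)
  have h2 := hKI hW A S B 1 hA hS hB (le_refl 1)
  obtain ⟨_, h3, _⟩ := hGH hW A S B 1 hA hS hB (le_refl 1)
  have h4 : gg A S B 1 = g1 A S B 1 := by
    rw [gg, g1, g1, Icc_eq_empty (a := A + S + B - 1) (b := A) (by omega), sum_empty, add_zero]
  rw [h1, ← h2, h4]
  have h5 : ∑ j ∈ Ioc 1 B, D A S B j = hh A S B 1 - g1 A S B 1 := by rw [h3]; ring
  rw [h5]
  obtain ⟨a, rfl⟩ : ∃ a, A = a + 1 := ⟨A - 1, by omega⟩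
  obtain ⟨s, rfl⟩ : ∃ s, S = s + 1 := ⟨S - 1, by omega⟩
  obtain ⟨b, rfl⟩ : ∃ b, B = b + 1 := ⟨B - 1, by omega⟩
  have hD : D (a + 1) (s + 1) (b + 1) 1 = Q (s + 1) * (QF s * rise (s + 1) a * rise (s + 1) b) := by
    rw [D]
    simp only [Nat.add_sub_cancel, Nat.sub_self, mul_zero, pow_zero, fall_zero, QF_succ]
    ring
  have hH : hh (a + 1) (s + 1) (b + 1) 1 =
      qX ^ (s + 1) * Q a * (QF s * rise (s + 1) a * rise (s + 1) b) := by
    rw [hh]
    simp only [Nat.add_sub_cancel, Nat.sub_self, mul_one, fall_zero]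
    rw [show (1 : ℕ) = 0 + 1 from rfl, fall_succ a 0, fall_zero]
    simp only [Nat.sub_zero, Nat.zero_add]
    ring
  rw [hD, hH]
  simp only [Nat.add_sub_cancel]
  have e1 : a + 1 + (s + 1) + (b + 1) - 2 = (b + 1) + (a + s) := by omega
  have e2 : a + 1 + (s + 1) - 1 = a + s + 1 := by omega
  rw [e1, e2, Q_add (b + 1) (a + s), Q_succ b, Q_add a s, Q_succ (a + s), Q_add a s, Q_succ s]
  have key : Q (s + 1) * Q (a + s) - qX ^ s * Q a = Q s * Q (a + s + 1) := by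
    rw [Q_succ s, Q_succ (a + s), Q_add a s, pow_add, KAPaux.Xp a, KAPaux.Xp s]
    ring
  rw [Q_succ s, Q_succ (a + s), Q_add a s] at key
  have e3 : (qX ^ (s + 1) : PX) = qX ^ s * qX := pow_succ _ _
  have e4 : (qX ^ (b + 1) : PX) = qX ^ b * qX := pow_succ _ _
  rw [e3, e4]
  linear_combination (qX ^ b * qX * (QF s * rise (s + 1) a * rise (s + 1) b)) * key

end Pool.Agent.SWB
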