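import Pool.Agent.Lib.MP_263316_co.AB.TwoV

/-!
MP_263316_co, part AB, task KG: vertex attached on the right, formula.
-/

set_option autoImplicit false

namespace Pool.Agent.SWB

open Finset Pool.Agent.SWC

namespace KGaux

/-- The chain of graphs. -/
def mkg (M : ℕ → ℕ) (ν B i v : ℕ) : ℕ := if v + B < ν then M v else if v + i < ν then ν - 1 else ν

end KGaux

open KGaux in
/-- Task KG. -/
theorem t_KG : S_KG := by
  intro hLR hCH hDIS hCUT hKT hEH hMC N M ν B hB hBν hMlt hMr hMl f P a hF j
  have hmg : (fun v => if v + B < ν then M v else ν) = mkg M ν B B := by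
    funext v
    unfold mkg
    by_cases h : v + B < ν
    · rw [if_pos h, if_pos h]
    · rw [if_neg h, if_neg h, if_neg h]
  rw [hmg]
  set w : ℕ → Fin N → AN N := fun v k => (if v = 0 then f k else xx N k) *
    (if v = ν then (if k = j then 1 else 0) else 1) with hw
  have hTT : ∀ m, TT m (qq N) (xx N) (range (ν + 1)) 0 ν f j =
      Z m (qq N) (range (ν + 1)) w := fun m => rfl
  have hww : ∀ a, 1 ≤ a → a + 1 < ν → ∀ k, w a k = w (a + 1) k := by
    intro a h1 h2 k
    rw [hw]
    simp only
    rw [if_neg (by omega), if_neg (by omega), if_neg (by omega), if_neg (by omega)]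
  have m1 : ∀ i v, v + B < ν → mkg M ν B i v = M v := fun i v hv => if_pos hv
  have m2 : ∀ i v, ¬ v + B < ν → v + i < ν → mkg M ν B i v = ν - 1 := by
    intro i v h1 h2
    unfold mkg
    rw [if_neg h1, if_pos h2]
  have m3 : ∀ i v, ¬ v + B < ν → ¬ v + i < ν → mkg M ν B i v = ν := by
    intro i v h1 h2
    unfold mkg
    rw [if_neg h1, if_neg h2]
  have h1 := (hCH (AN N) (qq N) (fun i => Z (mkg M ν B i) (qq N) (range (ν + 1)) w) B).1
    (by
      intro i hi
      refine hLR (AN N) N (mkg M ν B i) (mkg M ν B (i + 1)) (mkg M ν B (i + 2)) (qq N) _ w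
        (ν - i - 2) ν (mem_range.2 (by omega)) (mem_range.2 (by omega))
        (mem_range.2 (by omega)) (by omega) (hww _ (by omega) (by omega)) ?_ ?_ ?_ ?_ ?_ ?_ ?_ ?_ ?_
      · intro u _ h1 h2
        unfold mkg
        split_ifs <;> omega
      · intro u _ h1 h2
        unfold mkg
        split_ifs <;> omega
      · rw [m2 _ _ (by omega) (by omega)]
        omega
      · rw [m2 _ _ (by omega) (by omega)]
        omega
      · rw [m2 _ _ (by omega) (by omega)]
        omega
      · rw [m3 _ _ (by omega) (by omega)]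
      · rw [m3 _ _ (by omega) (by omega)]
      · rw [m3 _ _ (by omega) (by omega)]
      · intro u _ h1
        by_cases h2 : u + B < ν
        · rw [m1 _ _ h2]
          have h3 := hMl u h2
          constructor
          · intro h4
            have := h3.mp (by omega)
            omega
          · intro h4
            omega
        · rw [m2 _ _ h2 (by omega)]
          omega)
    B (le_refl _) hB
  have hν : 1 ≤ ν := by omega
  -- the graph with isolated vertex
  have hb0 : Z (mkg M ν B 0) (qq N) (range (ν + 1)) w =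
      ∑ p ∈ P, a p * (MvPolynomial.C (Q (p.2.2 + 1)) * es (xx N) (p.2.2 + 1) *
        eh (qq N) (xx N) 0 j) := by
    have hu : range (ν + 1) = range ν ∪ {ν} := by
      ext u
      rw [mem_union, mem_singleton, mem_range, mem_range]
      omega
    have h2 := hDIS (AN N) N (mkg M ν B 0) (qq N) (xx N) (range ν) {ν} 0 (ν - 1) ν
      (mem_range.2 (by omega)) (mem_range.2 (by omega)) (mem_singleton_self ν)
      (by
        intro u hu v hv
        rw [mem_singleton] at hv
        rw [mem_range] at hu
        subst hv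
        refine ⟨hu, ?_⟩
        by_cases h3 : u + B < v
        · rw [m1 _ _ h3]
          exact hMlt u hu
        · rw [m2 _ _ h3 (by omega)]
          omega) f j
    have h3 : ∀ i, TT (mkg M ν B 0) (qq N) (xx N) (range ν) 0 (ν - 1) f i =
        ∑ p ∈ P, a p * eh (qq N) (xx N) p.2.2 i := by
      intro i
      rw [← hF i]
      unfold TT
      apply hMC
      intro u hu v hv huv
      rw [mem_range] at hu hv
      by_cases h4 : u + B < ν
      · rw [m1 _ _ h4]
      · rw [m2 _ _ h4 (by omega)]
        have := hMr u hu (by omega)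
        omega
    have h4 : FF (mkg M ν B 0) (qq N) (xx N) {ν} ν j = eh (qq N) (xx N) 0 j := by
      unfold FF
      rw [Z_singleton, eh_zero']
      simp
    rw [sum_congr rfl (fun i _ => h3 i), sum_comm, h4, ← hu, sum_mul] at h2
    rw [← hTT, h2]
    apply sum_congr rfl
    intro p _
    rw [← mul_sum, hEH, qn_qq]
    ring
  have hb1 : Z (mkg M ν B 1) (qq N) (range (ν + 1)) w = ∑ p ∈ P, a p *
      (eh (qq N) (xx N) (p.2.2 + 1) j + MvPolynomial.C (qX * Q p.2.2) * es (xx N) (p.2.2 + 1) *
        eh (qq N) (xx N) 0 j) := by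
    have h2 := hCUT (AN N) N (mkg M ν B 1) (qq N) (xx N) (range (ν + 1)) 0 (ν - 1) ν
      (mem_range.2 (by omega)) (mem_range.2 (by omega)) (mem_range.2 (by omega)) (by omega)
      (by omega)
      (by
        intro a ha b hb h3 h4
        rw [mem_range] at hb
        by_cases h5 : a + B < ν
        · rw [m1 _ _ h5]
          have := hMlt a (by omega)
          omega
        · rw [m2 _ _ h5 (by omega)]
          omega) f
    have h3 : (range (ν + 1)).filter (fun u => u ≤ ν - 1) = range ν := by
      ext u
      rw [mem_filter, mem_range, mem_range]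
      omega
    have h4 : (range (ν + 1)).filter (fun u => ν - 1 ≤ u) = {ν - 1, ν - 1 + 1} := by
      ext u
      rw [mem_filter, mem_range, mem_insert, mem_singleton]
      omega
    rw [h3, h4] at h2
    have h5 := congrFun h2 j
    have h6 : ∀ i, TT (mkg M ν B 1) (qq N) (xx N) (range ν) 0 (ν - 1) f i =
        ∑ p ∈ P, a p * eh (qq N) (xx N) p.2.2 i := by
      intro i
      rw [← hF i]
      unfold TT
      apply hMC
      intro u hu v hv huv
      rw [mem_range] at hu hv
      by_cases h4 : u + B < ν
      · rw [m1 _ _ h4]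
      · rw [m2 _ _ h4 (by omega)]
        have := hMr u hu (by omega)
        omega
    have hν' : ν - 1 + 1 = ν := by omega
    have h7 := TwoV.TT_lin (mkg M ν B 1) (qq N) (xx N) {ν - 1, ν - 1 + 1} (ν - 1) ν
      (by simp) P a (fun p => eh (qq N) (xx N) p.2.2)
      (TT (mkg M ν B 1) (qq N) (xx N) (range ν) 0 (ν - 1) f) h6 j
    rw [h7] at h5
    rw [← hTT, h5]
    apply sum_congr rfl
    intro p _
    have h8 := TwoV.KT1 hKT hMC N (mkg M ν B 1) (ν - 1) p.2.2
      (by rw [m3 _ _ (by omega) (by omega), hν']) j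
    rw [hν'] at h8 ⊢
    rw [h8]
  rw [qn_qq] at h1
  rw [hb0, hb1] at h1
  rw [hTT]
  have e : ∀ p ∈ P, a p * (MvPolynomial.C (Q B) * eh (qq N) (xx N) (p.2.2 + 1) j +
      (MvPolynomial.C (Q (p.2.2 + 1)) - MvPolynomial.C (Q B)) * es (xx N) (p.2.2 + 1) *
        eh (qq N) (xx N) 0 j) =
      a p * (MvPolynomial.C (Q (p.2.2 + 1)) * es (xx N) (p.2.2 + 1) * eh (qq N) (xx N) 0 j) +
      MvPolynomial.C (Q B) * (a p *
      (eh (qq N) (xx N) (p.2.2 + 1) j + MvPolynomial.C (qX * Q p.2.2) * es (xx N) (p.2.2 + 1) *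
        eh (qq N) (xx N) 0 j) -
      a p * (MvPolynomial.C (Q (p.2.2 + 1)) * es (xx N) (p.2.2 + 1) * eh (qq N) (xx N) 0 j)) := by
    intro p _
    have e1 : (MvPolynomial.C (Q (p.2.2 + 1)) : AN N) = 1 + MvPolynomial.C (qX * Q p.2.2) := by
      rw [Q_succ', map_add, map_one]
    rw [e1]
    ring
  rw [sum_congr rfl e, sum_add_distrib, ← mul_sum, sum_sub_distrib]
  linear_combination h1

end Pool.Agent.SWB
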