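import Pool.Agent.Lib.MP_263316_co.AB.Spec

/-!
MP_263316_co, part AB, task KI: the key identity for `gg`.
-/

set_option autoImplicit false

namespace Pool.Agent.SWB

open Finset Pool.Agent.SWC

theorem KI_P1 (hW : S_W) (hGH : S_GH) (hKI1 : S_KI1) (A S B γ : ℕ) (hA : 1 ≤ A) (hS : 1 ≤ S)
    (hB : 1 ≤ B) (hγ : 1 ≤ γ) : (Q γ - Q B) * g1 A S B γ =
      ∑ j ∈ Ioc γ B, D A S B j * (Q B - Q (γ + (A + S + B) - 2 * j)) := by
  have h1 := (hGH hW A S B γ hA hS hB hγ).2.1
  have h2 := hKI1 hW A S B γ hA hS hB hγ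
  by_cases hb : B < γ
  · rw [h1, Ioc_eq_empty_of_le hb.le, sum_empty, sum_empty]
    unfold hh
    rw [fall_eq_zero (a := B - 1) (k := γ - 1) (by omega)]
    ring
  have hb' : γ ≤ B := by omega
  have h3 : Q B - Q γ = qX ^ γ * Q (B - γ) := Q_sub hb'
  have h4 : ∑ j ∈ Ioc γ B, D A S B j * (Q B - Q (γ + (A + S + B) - 2 * j)) =
      ∑ j ∈ Ioc γ B, ((Q B - Q γ) * D A S B j - qX ^ γ * (Q (A + S + B - 2 * j) * D A S B j)) := by
    apply sum_congr rfl
    intro j hj
    rw [mem_Ioc] at hj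
    by_cases hj2 : A < j
    · rw [D_eq_zero hA hB (Or.inl hj2)]
      ring
    have e : γ + (A + S + B) - 2 * j = γ + (A + S + B - 2 * j) := by omega
    rw [e, Q_add]
    ring
  rw [h4, sum_sub_distrib, ← mul_sum, ← mul_sum, ← h2, h1]
  linear_combination (- hh A S B γ) * h3

theorem KI_P2 (hW : S_W) (hGH : S_GH) (hKI1 : S_KI1) (A S B γ : ℕ) (hA : 1 ≤ A) (hS : 1 ≤ S)
    (hB : 1 ≤ B) (hlt : γ < A + S + B) : (Q γ - Q B) * g1 B S A (A + S + B - γ) =
      ∑ j ∈ Icc (A + S + B - γ) A, D A S B j * (Q (B + (A + S + B) - 2 * j) - Q γ) := by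
  obtain ⟨y, hy⟩ : ∃ y, y = A + S + B - γ := ⟨_, rfl⟩
  rw [← hy]
  have hy1 : 1 ≤ y := by omega
  by_cases ha : A < y
  · unfold g1
    rw [Icc_eq_empty_of_lt ha, sum_empty, sum_empty, mul_zero]
  by_cases hb : B < y
  · unfold g1
    have z1 : ∑ l ∈ Icc y A, GG B S A l = 0 := by
      apply sum_eq_zero
      intro l hl
      rw [mem_Icc] at hl
      unfold GG
      rw [fall_eq_zero (a := B - 1) (k := l) (by omega)]
      ring
    have z2 : ∑ j ∈ Icc y A, D A S B j * (Q (B + (A + S + B) - 2 * j) - Q γ) = 0 := by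
      apply sum_eq_zero
      intro l hl
      rw [mem_Icc] at hl
      rw [D_eq_zero hA hB (Or.inr (by omega)), zero_mul]
    rw [z1, z2, mul_zero]
  have h1 := (hGH hW B S A y hB hS hA hy1).2.1
  have h2 := hKI1 hW B S A y hB hS hA hy1
  have h5 := (hGH hW B S A y hB hS hA hy1).2.2
  have hsplit : ∑ j ∈ Icc y A, D A S B j * (Q (B + (A + S + B) - 2 * j) - Q γ) =
      D A S B y * (Q (B + (A + S + B) - 2 * y) - Q γ) +
        ∑ j ∈ Ioc y A, D A S B j * (Q (B + (A + S + B) - 2 * j) - Q γ) := by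
    rw [← Finset.Ioc_insert_left (show y ≤ A by omega), sum_insert (by simp)]
  have h4 : ∑ j ∈ Ioc y A, D A S B j * (Q (B + (A + S + B) - 2 * j) - Q γ) =
      ∑ j ∈ Ioc y A, ((Q B - Q γ) * D B S A j + qX ^ B * (Q (B + S + A - 2 * j) * D B S A j)) := by
    apply sum_congr rfl
    intro j hj
    rw [mem_Ioc] at hj
    rw [D_symm A S B j]
    by_cases hj2 : B < j
    · rw [D_eq_zero hB hA (Or.inl hj2)]
      ring
    have e : B + (A + S + B) - 2 * j = B + (B + S + A - 2 * j) := by omega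
    rw [e, Q_add]
    ring
  rw [hsplit, h4, sum_add_distrib, ← mul_sum, ← mul_sum, ← h2, h1, D_symm A S B y]
  have eγ : γ = B + (A - y) + S := by omega
  have e6 : B + (A + S + B) - 2 * y = γ + (B - y) := by omega
  have e7 : Q γ = Q B + qX ^ B * (Q (A - y) + qX ^ (A - y) * Q S) := by
    rw [eγ, add_assoc, Q_add, Q_add]
  have e8 : (qX ^ γ : PX) = qX ^ B * qX ^ (A - y) * qX ^ S := by
    rw [← pow_add, ← pow_add, ← eγ]
  rw [e6, Q_add, e8]
  linear_combination (hh B S A y) * e7 + (qX ^ B * qX ^ (A - y)) * h5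

theorem t_KI : S_KI := by
  intro hW hGH hKI1 A S B γ hA hS hB hγ hlt
  have P1 := KI_P1 hW hGH hKI1 A S B γ hA hS hB hγ
  have P2 := KI_P2 hW hGH hKI1 A S B γ hA hS hB hlt
  unfold gg zk
  rw [mul_add, P1, P2, sum_congr rfl (fun j _ => mul_add _ _ _), sum_add_distrib]
  have E1 : ∑ j ∈ Ioc γ B, D A S B j * (Q B - Q (γ + (A + S + B) - 2 * j)) =
      ∑ j ∈ Ico 1 (A + S + B), D A S B j *
        (if γ < j then Q B - Q (γ + (A + S + B) - 2 * j) else 0) := by
    have : ∑ j ∈ Ioc γ B, D A S B j * (Q B - Q (γ + (A + S + B) - 2 * j)) =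
        ∑ j ∈ Ioc γ B, D A S B j *
          (if γ < j then Q B - Q (γ + (A + S + B) - 2 * j) else 0) := by
      apply sum_congr rfl
      intro j hj
      rw [mem_Ioc] at hj
      rw [if_pos hj.1]
    rw [this]
    apply sum_subset
    · intro j hj
      rw [mem_Ioc] at hj
      rw [mem_Ico]
      omega
    · intro j hj hj2
      rw [mem_Ico] at hj
      rw [mem_Ioc] at hj2
      by_cases h : γ < j
      · rw [D_eq_zero hA hB (Or.inr (by omega)), zero_mul]
      · rw [if_neg h, mul_zero]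
  have E2 : ∑ j ∈ Icc (A + S + B - γ) A, D A S B j * (Q (B + (A + S + B) - 2 * j) - Q γ) =
      ∑ j ∈ Ico 1 (A + S + B), D A S B j *
        (if A + S + B ≤ γ + j then Q (B + (A + S + B) - 2 * j) - Q γ else 0) := by
    have : ∑ j ∈ Icc (A + S + B - γ) A, D A S B j * (Q (B + (A + S + B) - 2 * j) - Q γ) =
        ∑ j ∈ Icc (A + S + B - γ) A, D A S B j *
          (if A + S + B ≤ γ + j then Q (B + (A + S + B) - 2 * j) - Q γ else 0) := by
      apply sum_congr rfl
      intro j hj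
      rw [mem_Icc] at hj
      rw [if_pos (by omega)]
    rw [this]
    apply sum_subset
    · intro j hj
      rw [mem_Icc] at hj
      rw [mem_Ico]
      omega
    · intro j hj hj2
      rw [mem_Ico] at hj
      rw [mem_Icc] at hj2
      by_cases h : A + S + B ≤ γ + j
      · rw [D_eq_zero hA hB (Or.inl (by omega)), zero_mul]
      · rw [if_neg h, mul_zero]
  rw [E1, E2]

end Pool.Agent.SWB
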