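import Pool.Agent.Lib.MP_263316_co.AB.Spec

/-!
MP_263316_co, part AB, task KI1: telescoping sum.
-/

set_option autoImplicit false

namespace Pool.Agent.SWB

open Finset Pool.Agent.SWC

namespace KI1aux

theorem step (hW : S_W) (A S B y : ℕ) (hA : 1 ≤ A) (hS : 1 ≤ S) (hy : 1 ≤ y)
    (hyB : y < B) : Q (B - y) * hh A S B y =
      Q (A + S + B - 2 * (y + 1)) * D A S B (y + 1) + Q (B - (y + 1)) * hh A S B (y + 1) := by
  rcases lt_or_ge y A with h | h
  · obtain ⟨w, h1, h2, h3, _⟩ := hW A S B y hS hy h hyB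
    rw [h1, h2, h3]
    have e1 : A + S + B - 2 * (y + 1) = S + (A - y - 1) + (B - y - 1) := by omega
    have e2 : B - (y + 1) = B - y - 1 := by omega
    rw [e1, e2]
    have h4 := Q_std S (A - y - 1) (B - y - 1)
    linear_combination (w * Q (B - y)) * h4
  · have h1 : hh A S B y = 0 := by
      rw [hh, fall_eq_zero (a := A - 1) (k := y) (by omega)]; ring
    have h2 : hh A S B (y + 1) = 0 := by
      rw [hh, fall_eq_zero (a := A - 1) (k := y + 1) (by omega)]; ring
    have h3 : D A S B (y + 1) = 0 := by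
      rw [D, Nat.add_sub_cancel, fall_eq_zero (a := A - 1) (k := y) (by omega)]; ring
    rw [h1, h2, h3]
    ring

theorem ind (hW : S_W) (A S B : ℕ) (hA : 1 ≤ A) (hS : 1 ≤ S) : ∀ n y : ℕ, 1 ≤ y → B ≤ y + n →
    Q (B - y) * hh A S B y = ∑ j ∈ Ioc y B, Q (A + S + B - 2 * j) * D A S B j := by
  intro n
  induction n with
  | zero =>
    intro y _ hB
    rw [Ioc_eq_empty (by omega), sum_empty]
    have : B - y = 0 := by omega
    rw [this, Q_zero, zero_mul]
  | succ n ih =>
    intro y hy hB
    rcases lt_or_ge y B with h | h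
    · rw [← sum_Ioc_consecutive _ (Nat.le_succ y) (by omega : y + 1 ≤ B),
        Nat.Ioc_succ_singleton, sum_singleton, ← ih (y + 1) (by omega) (by omega)]
      exact step hW A S B y hA hS hy h
    · rw [Ioc_eq_empty (by omega), sum_empty]
      have : B - y = 0 := by omega
      rw [this, Q_zero, zero_mul]

end KI1aux

/-- Task KI1. -/
theorem t_KI1 : S_KI1 := by
  intro hW A S B y hA hS _ hy
  exact KI1aux.ind hW A S B hA hS B y hy (by omega)

end Pool.Agent.SWB
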