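import Pool.Agent.Lib.MP_263316_co.AB.TriSum

/-!
MP_263316_co, part AB, task KO: complete graphs.
-/

set_option autoImplicit false

namespace Pool.Agent.SWB

open Finset Pool.Agent.SWC

namespace KOaux

/-- The coefficient for a complete graph. -/
theorem cf_one (k c α β γ : ℕ) (u : PX) (h : α + β + γ = c + k) :
    cf (k + 2) (fun i => if i = 1 then u else 0) (fun _ => 0) c α β γ =
      if β = 0 then ((if c < α then 1 else 0) - (if c < γ then 1 else 0)) * (u * (Q α - Q k))
        else 0 := by
  have hz : zk (k + 2) (fun i => if i = 1 then u else 0) α β =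
      u * ((if β < 1 then Q α - Q (β + k) else 0) +
        (if k + 2 ≤ β + 1 then Q (α + k) - Q β else 0)) := by
    unfold zk
    rw [sum_eq_single 1]
    · simp only [if_true]
      have e1 : β + (k + 2) - 2 * 1 = β + k := by omega
      have e2 : α + (k + 2) - 2 * 1 = α + k := by omega
      rw [e1, e2]
    · intro j _ hj
      simp only [if_neg hj, zero_mul]
    · intro h1
      rw [mem_Ico] at h1
      omega
  unfold cf
  rw [hz]
  have e0 : (if c < α then (0 : PX) * (Q α - Q β) else 0) = 0 := by
    split_ifs
    · rw [zero_mul]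
    · rfl
  rw [e0, zero_add]
  rcases Nat.eq_zero_or_pos β with hβ | hβ
  · subst hβ
    rw [if_pos rfl, if_pos (by omega : 0 < 1), Nat.zero_add]
    by_cases h2 : k + 2 ≤ 0 + 1
    · omega
    · rw [if_neg h2, add_zero]
  · rw [if_neg (by omega : ¬ β = 0), if_neg (by omega : ¬ β < 1), zero_add]
    by_cases h2 : k + 2 ≤ β + 1
    · rw [if_neg (by omega : ¬ c < α), if_neg (by omega : ¬ c < γ)]
      ring
    · rw [if_neg h2]
      ring

/-- `Op` for a complete graph as a simple sum. -/
theorem Op_one (N k c : ℕ) (u : PX) (j : Fin N) :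
    Op N k (k + 2) (fun i => if i = 1 then u else 0) (fun _ => 0) c j =
      ∑ α ∈ range (c + k + 1), MvPolynomial.C (((if c < α then 1 else 0) -
        (if c < c + k - α then 1 else 0)) * (u * (Q α - Q k))) * es (xx N) α *
          eh (qq N) (xx N) (c + k - α) j := by
  unfold Op
  rw [TriSum.tri_zero (c + k) (fun α β γ => MvPolynomial.C (cf (k + 2)
    (fun i => if i = 1 then u else 0) (fun _ => 0) c α β γ) * es (xx N) α * es (xx N) β *
    eh (qq N) (xx N) γ j)]
  · apply sum_congr rfl
    intro α hα
    rw [mem_range] at hα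
    rw [cf_one k c α 0 (c + k - α) u (by omega), if_pos rfl, es_zero', mul_one]
  · intro α β γ h hβ
    rw [cf_one k c α β γ u h, if_neg hβ, map_zero]
    ring

theorem coef (k c i : ℕ) (h : i ≤ c + k) :
    (if i < min k (c + 1) then qX ^ i * Q (k - i) else 0) +
      (if c + k - i < min k c then qX ^ k * Q (c - (c + k - i)) else 0) =
    ((if c < i then 1 else 0) - (if c < c + k - i then 1 else 0)) * (Q i - Q k) := by
  rcases lt_or_ge i k with hk | hk
  · rcases le_or_gt i c with hc | hc
    · rw [if_pos (by omega : i < min k (c + 1)), if_neg (by omega : ¬ c + k - i < min k c),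
        if_neg (by omega : ¬ c < i), if_pos (by omega : c < c + k - i), ← Q_sub hk.le]
      ring
    · rw [if_neg (by omega : ¬ i < min k (c + 1)), if_neg (by omega : ¬ c + k - i < min k c),
        if_pos hc, if_pos (by omega : c < c + k - i)]
      ring
  · rcases le_or_gt i c with hc | hc
    · rw [if_neg (by omega : ¬ i < min k (c + 1)), if_neg (by omega : ¬ c + k - i < min k c),
        if_neg (by omega : ¬ c < i), if_neg (by omega : ¬ c < c + k - i)]
      ring
    · rw [if_neg (by omega : ¬ i < min k (c + 1)), if_pos hc,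
        if_neg (by omega : ¬ c < c + k - i)]
      rcases Nat.eq_or_lt_of_le hk with h1 | h1
      · subst h1
        rw [if_neg (by omega : ¬ c + k - k < min k c)]
        ring
      · rw [if_pos (by omega : c + k - i < min k c)]
        have e : c - (c + k - i) = i - k := by omega
        rw [e, ← Q_sub hk]
        ring

end KOaux

/-- Task KO. -/
theorem t_KO : S_KO := by
  intro hKT hMC N k c m hk0 hm j
  have hq : qq N ≠ 1 := by
    rw [qq_eq]
    intro h
    rw [← map_one (MvPolynomial.C : PX →+* AN N)] at h
    have h2 : qX = 1 := MvPolynomial.C_injective _ _ h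
    exact one_sub_X_ne (by rw [h2, sub_self])
  have hTT : TQ N m (k + 1) c j = qf (qq N) (k - 1) *
      (∑ i ∈ range (min k (c + 1)), (qq N) ^ i * qn (qq N) (k - i) * es (xx N) i *
          eh (qq N) (xx N) (c + k - i) j +
        ∑ i ∈ range (min k c), (qq N) ^ k * qn (qq N) (c - i) * es (xx N) (c + k - i) *
          eh (qq N) (xx N) i j) := by
    unfold TQ TT
    rw [hMC (AN N) N m (fun _ => k) (qq N) (range (k + 1)) _ (by
      intro u hu v hv _
      rw [mem_range] at hu hv
      have := hm u hu
      constructor <;> intro <;> omega)]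
    refine hKT (AN N) N (fun _ => k) monotone_const (qq N) hq (xx N) (range (k + 1)) 0 k k
      (by simp) (by simp) hk0 (fun u hu => ?_) ?_ (card_range _) c j
    · rw [mem_range] at hu
      omega
    · intro u hu v hv _
      change v ≤ k
      rw [mem_range] at hv
      omega
  rw [hTT, KOaux.Op_one, qf_qq]
  simp only [qn_qq]
  rw [qq_eq]
  rw [TriSum.range_ite (n := c + k + 1) (r := min k (c + 1)) (by omega),
    TriSum.range_ite (n := c + k + 1) (r := min k c) (by omega)]
  rw [← sum_range_reflect (fun i => if i < min k c then (MvPolynomial.C qX : AN N) ^ k *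
    MvPolynomial.C (Q (c - i)) * es (xx N) (c + k - i) * eh (MvPolynomial.C qX) (xx N) i j
      else 0) (c + k + 1), ← sum_add_distrib, mul_sum]
  apply sum_congr rfl
  intro i hi
  rw [mem_range] at hi
  have e1 : c + k + 1 - 1 - i = c + k - i := by omega
  have e2 : c + k - (c + k - i) = i := by omega
  rw [e1, e2]
  have key := congrArg (MvPolynomial.C : PX → AN N) (KOaux.coef k c i (by omega))
  rw [map_mul, map_sub, map_sub, map_add] at key
  have t1 : (if i < min k (c + 1) then (MvPolynomial.C qX : AN N) ^ i *
      MvPolynomial.C (Q (k - i)) * es (xx N) i * eh (MvPolynomial.C qX) (xx N) (c + k - i) j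
        else 0) =
      MvPolynomial.C (if i < min k (c + 1) then qX ^ i * Q (k - i) else 0) * es (xx N) i *
        eh (MvPolynomial.C qX) (xx N) (c + k - i) j := by
    split_ifs
    · rw [map_mul, map_pow]
    · rw [map_zero, zero_mul, zero_mul]
  have t2 : (if c + k - i < min k c then (MvPolynomial.C qX : AN N) ^ k *
      MvPolynomial.C (Q (c - (c + k - i))) * es (xx N) i *
        eh (MvPolynomial.C qX) (xx N) (c + k - i) j else 0) =
      MvPolynomial.C (if c + k - i < min k c then qX ^ k * Q (c - (c + k - i)) else 0) *
        es (xx N) i * eh (MvPolynomial.C qX) (xx N) (c + k - i) j := by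
    split_ifs
    · rw [map_mul, map_pow]
    · rw [map_zero, zero_mul, zero_mul]
  rw [t1, t2, ← add_mul, ← add_mul, key, map_mul, map_mul, map_sub, map_sub]
  ring

end Pool.Agent.SWB
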