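import Pool.Agent.Lib.MP_263316_co.AB.Spec

/-!
MP_263316_co, AB/KS: complete graphs, sum over the marked colour (task of helper89, by helper77)
-/

set_option autoImplicit false

namespace Pool.Agent.SWB

open Finset Pool.Agent.SWC

namespace KSaux

theorem coef {k c i : ℕ} (hk : i ≤ k) (hc : i ≤ c) :
    qX ^ i * (Q (k - i) * Q (c + k + 1 - i)) + qX ^ k * (Q (c + 1 - i) * Q i) =
      qX ^ i * (Q k * Q (c + k + 1 - 2 * i)) := by
  obtain ⟨S, rfl⟩ := Nat.exists_eq_add_of_le hk
  obtain ⟨b, rfl⟩ := Nat.exists_eq_add_of_le hc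
  have h := Q_std S i (b + 1)
  have e1 : i + S - i = S := by omega
  have e2 : i + b + (i + S) + 1 - i = S + i + (b + 1) := by omega
  have e3 : i + b + 1 - i = b + 1 := by omega
  have e4 : i + b + (i + S) + 1 - 2 * i = S + (b + 1) := by omega
  rw [e1, e2, e3, e4, pow_add, add_comm i S, h]
  ring

end KSaux

/-- TASK KS. -/
theorem t_KS : S_KS := by
  intro hKT hEH hMC N k c m hm
  have hEH' : ∀ d, ∑ j, eh (qq N) (xx N) d j =
      MvPolynomial.C (Q (d + 1)) * es (xx N) (d + 1) := by
    intro d
    rw [hEH, qn_qq]
  rcases Nat.eq_zero_or_pos k with hk0 | hk0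
  · subst hk0
    have h1 : ∀ j, TQ N m (0 + 1) c j = eh (qq N) (xx N) c j := by
      intro j
      unfold TQ TT
      rw [zero_add, range_one, Z_singleton]
      simp
    rw [sum_congr rfl fun j _ => h1 j, hEH']
    simp [QF_zero, es_zero']
  · have hq : qq N ≠ 1 := by
      rw [qq_eq]
      intro h
      rw [← map_one (MvPolynomial.C : PX →+* AN N)] at h
      have h2 : qX = 1 := MvPolynomial.C_injective _ _ h
      exact one_sub_X_ne (by rw [h2, sub_self])
    have hTT : ∀ j, TQ N m (k + 1) c j = qf (qq N) (k - 1) *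
        (∑ i ∈ range (min k (c + 1)), (qq N) ^ i * qn (qq N) (k - i) * es (xx N) i *
            eh (qq N) (xx N) (c + k - i) j +
          ∑ i ∈ range (min k c), (qq N) ^ k * qn (qq N) (c - i) * es (xx N) (c + k - i) *
            eh (qq N) (xx N) i j) := by
      intro j
      unfold TQ TT
      rw [hMC (AN N) N m (fun _ => k) (qq N) (range (k + 1)) _ (by
        intro u hu v hv _
        rw [mem_range] at hu hv
        have := hm u hu
        constructor <;> intro <;> omega)]
      refine hKT (AN N) N (fun _ => k) monotone_const (qq N) hq (xx N) (range (k + 1)) 0 k k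
        (by simp) (by simp) hk0 (fun u hu => ?_) ?_ (card_range _) c j
      · rw [mem_range] at hu
        omega
      · intro u hu v hv _
        change v ≤ k
        rw [mem_range] at hv
        omega
    have hA : ∀ (r : ℕ) (A : ℕ → AN N) (d : ℕ → ℕ),
        ∑ j, ∑ i ∈ range r, A i * eh (qq N) (xx N) (d i) j =
          ∑ i ∈ range r, A i * (MvPolynomial.C (Q (d i + 1)) * es (xx N) (d i + 1)) := by
      intro r A d
      rw [sum_comm]
      refine sum_congr rfl fun i _ => ?_
      rw [← mul_sum, hEH']
    rw [sum_congr rfl fun j _ => hTT j, ← mul_sum, sum_add_distrib,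
      hA (min k (c + 1)) (fun i => (qq N) ^ i * qn (qq N) (k - i) * es (xx N) i)
        (fun i => c + k - i),
      hA (min k c) (fun i => (qq N) ^ k * qn (qq N) (c - i) * es (xx N) (c + k - i))
        (fun i => i)]
    rw [qf_qq]
    simp only [qn_qq]
    rw [qq_eq]
    have hQF : QF k = QF (k - 1) * Q k := by
      obtain ⟨k', rfl⟩ := Nat.exists_eq_succ_of_ne_zero hk0.ne'
      rw [Nat.succ_eq_add_one, Nat.add_sub_cancel, QF_succ]
    rw [hQF, map_mul, mul_assoc]
    congr 1
    -- the first sum
    have hs1 : ∑ i ∈ range (min k (c + 1)), (MvPolynomial.C qX : AN N) ^ i *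
          MvPolynomial.C (Q (k - i)) * es (xx N) i *
          (MvPolynomial.C (Q (c + k - i + 1)) * es (xx N) (c + k - i + 1)) =
        ∑ i ∈ range (min k c + 1), MvPolynomial.C (qX ^ i * (Q (k - i) * Q (c + k + 1 - i))) *
          es (xx N) i * es (xx N) (c + k + 1 - i) := by
      have e1 : ∀ i ∈ range (min k (c + 1)), (MvPolynomial.C qX : AN N) ^ i *
          MvPolynomial.C (Q (k - i)) * es (xx N) i *
          (MvPolynomial.C (Q (c + k - i + 1)) * es (xx N) (c + k - i + 1)) =
          MvPolynomial.C (qX ^ i * (Q (k - i) * Q (c + k + 1 - i))) *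
          es (xx N) i * es (xx N) (c + k + 1 - i) := by
        intro i hi
        rw [mem_range] at hi
        have e2 : c + k - i + 1 = c + k + 1 - i := by omega
        rw [e2, map_mul, map_mul, map_pow]
        ring
      rw [sum_congr rfl e1]
      rcases Nat.lt_or_ge c k with h | h
      · rw [show min k (c + 1) = min k c + 1 by omega]
      · rw [show min k (c + 1) = k by omega, show min k c = k by omega, sum_range_succ]
        rw [Nat.sub_self, Q_zero]
        simp
    have hs2 : ∑ i ∈ range (min k c), (MvPolynomial.C qX : AN N) ^ k *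
          MvPolynomial.C (Q (c - i)) * es (xx N) (c + k - i) *
          (MvPolynomial.C (Q (i + 1)) * es (xx N) (i + 1)) =
        ∑ i ∈ range (min k c + 1), MvPolynomial.C (qX ^ k * (Q (c + 1 - i) * Q i)) *
          es (xx N) i * es (xx N) (c + k + 1 - i) := by
      rw [sum_range_succ']
      rw [Q_zero]
      simp only [mul_zero, map_zero, zero_mul, add_zero]
      refine sum_congr rfl fun i hi => ?_
      rw [mem_range] at hi
      have e2 : c + k + 1 - (i + 1) = c + k - i := by omega
      have e3 : c + 1 - (i + 1) = c - i := by omega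
      rw [e2, e3, map_mul, map_mul, map_pow]
      ring
    rw [hs1, hs2, ← sum_add_distrib, mul_sum]
    refine sum_congr rfl fun i hi => ?_
    rw [mem_range] at hi
    have h := congrArg (MvPolynomial.C : PX → AN N) (KSaux.coef (k := k) (c := c) (i := i)
      (by omega) (by omega))
    rw [map_add] at h
    calc _ = (MvPolynomial.C (qX ^ i * (Q (k - i) * Q (c + k + 1 - i))) +
          MvPolynomial.C (qX ^ k * (Q (c + 1 - i) * Q i))) * es (xx N) i *
          es (xx N) (c + k + 1 - i) := by ring
      _ = _ := by
        rw [h, map_mul, map_mul, map_mul]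
        ring

end Pool.Agent.SWB
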