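import Pool.Agent.Lib.MP_263316_co.AB.Spec

/-! TASK LC: local law, twin columns. -/

set_option autoImplicit false

namespace Pool.Agent.SWB

open Finset Pool.Agent.SWC

namespace LCM

variable {R : Type} [CommRing R] {N : ℕ}

/-- The partition function depends only on the values of `m` on the vertex set. -/
theorem Z_m_congr {m m' : ℕ → ℕ} {q : R} {U : Finset ℕ} (h : ∀ u ∈ U, m u = m' u) :
    ∀ w : ℕ → Fin N → R, Z m q U w = Z m' q U w := by
  induction U using Finset.induction_on with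
  | empty =>
    intro w
    rw [Z_empty, Z_empty]
  | insert v U hv ih =>
    intro w
    rw [Z_insert hv, Z_insert hv]
    refine Finset.sum_congr rfl fun k _ => ?_
    rw [ih (fun u hu => h u (mem_insert_of_mem hu))]
    congr 1
    refine Z_congr fun u hu k' => ?_
    congr 1
    unfold pw
    rw [h v (mem_insert_self v U), h u (mem_insert_of_mem hu)]

/-- Expansion at two vertices. -/
theorem expand2 {m : ℕ → ℕ} {q : R} {U : Finset ℕ} {a b : ℕ} (ha : a ∈ U) (hb : b ∈ U)
    (hab : b ≠ a) (w : ℕ → Fin N → R) :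
    Z m q U w = ∑ k, ∑ k', w a k * (w b k' * pw m q a k b k') *
      Z m q ((U.erase a).erase b) (fun u l => w u l * pw m q a k u l * pw m q b k' u l) := by
  rw [Z_erase ha]
  refine Finset.sum_congr rfl fun k _ => ?_
  rw [Z_erase (mem_erase.mpr ⟨hab, hb⟩), Finset.mul_sum]
  exact Finset.sum_congr rfl fun k' _ => by ring

/-- The pair factor. -/
def pf (q : R) (k k' : Fin N) : R := if k = k' then 0 else if k < k' then q else 1

theorem anti_sum (c F : Fin N → Fin N → R) (hF : ∀ k k', F k k' = F k' k)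
    (hc : ∀ k k', k < k' → c k k' + c k' k = 0) (hd : ∀ k, c k k = 0) :
    ∑ k, ∑ k', c k k' * F k k' = 0 := by
  rw [← Finset.sum_product']
  refine Finset.sum_involution (fun p _ => (p.2, p.1)) ?_ ?_ ?_ ?_
  · rintro ⟨k, k'⟩ _
    change c k k' * F k k' + c k' k * F k' k = 0
    rw [hF k' k, ← add_mul]
    rcases lt_trichotomy k k' with h | h | h
    · rw [hc k k' h, zero_mul]
    · subst h
      rw [hd, add_zero, zero_mul]
    · rw [add_comm, hc k' k h, zero_mul]
  · rintro ⟨k, k'⟩ _ h1 h2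
    have h3 : k' = k := (Prod.mk.inj h2).1
    subst h3
    apply h1
    change c k' k' * F k' k' = 0
    rw [hd, zero_mul]
  · rintro ⟨k, k'⟩ _
    exact mem_product.mpr ⟨mem_univ _, mem_univ _⟩
  · rintro ⟨k, k'⟩ _
    rfl

/-- The core: symmetric double sum, the factor at the first vertex. -/
theorem core1 (q : R) (g : Fin N → R) (F : Fin N → Fin N → R) (hF : ∀ k k', F k k' = F k' k)
    (hg : ∀ k k', k < k' → (g k' - q) * (1 - g k) = 0) :
    (1 + q) * ∑ k, ∑ k', pf q k k' * F k k' * g k =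
      q * ∑ k, ∑ k', pf q k k' * F k k' + ∑ k, ∑ k', pf q k k' * F k k' * (g k * g k') := by
  have h := anti_sum (fun k k' => pf q k k' * ((1 + q) * g k - q - g k * g k')) F hF ?_ ?_
  · have h2 : ∑ k, ∑ k', (pf q k k' * ((1 + q) * g k - q - g k * g k')) * F k k' =
        (1 + q) * ∑ k, ∑ k', pf q k k' * F k k' * g k -
          (q * ∑ k, ∑ k', pf q k k' * F k k' +
            ∑ k, ∑ k', pf q k k' * F k k' * (g k * g k')) := by
      simp only [Finset.mul_sum, ← Finset.sum_add_distrib, ← Finset.sum_sub_distrib]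
      exact Finset.sum_congr rfl fun k _ => Finset.sum_congr rfl fun k' _ => by ring
    rw [h2] at h
    exact sub_eq_zero.mp h
  · intro k k' hk
    unfold pf
    rw [if_neg hk.ne, if_pos hk, if_neg hk.ne', if_neg (not_lt.mpr hk.le)]
    have h1 := hg k k' hk
    linear_combination (1 + q) * h1
  · intro k
    unfold pf
    rw [if_pos rfl, zero_mul]

/-- The core: symmetric double sum, the factor at the second vertex. -/
theorem core2 (q : R) (g : Fin N → R) (F : Fin N → Fin N → R) (hF : ∀ k k', F k k' = F k' k)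
    (hg : ∀ k k', k < k' → (g k - q) * (1 - g k') = 0) :
    (1 + q) * ∑ k, ∑ k', pf q k k' * F k k' * g k' =
      q * ∑ k, ∑ k', pf q k k' * F k k' + ∑ k, ∑ k', pf q k k' * F k k' * (g k * g k') := by
  have h := anti_sum (fun k k' => pf q k k' * ((1 + q) * g k' - q - g k * g k')) F hF ?_ ?_
  · have h2 : ∑ k, ∑ k', (pf q k k' * ((1 + q) * g k' - q - g k * g k')) * F k k' =
        (1 + q) * ∑ k, ∑ k', pf q k k' * F k k' * g k' -
          (q * ∑ k, ∑ k', pf q k k' * F k k' +
            ∑ k, ∑ k', pf q k k' * F k k' * (g k * g k')) := by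
      simp only [Finset.mul_sum, ← Finset.sum_add_distrib, ← Finset.sum_sub_distrib]
      exact Finset.sum_congr rfl fun k _ => Finset.sum_congr rfl fun k' _ => by ring
    rw [h2] at h
    exact sub_eq_zero.mp h
  · intro k k' hk
    unfold pf
    rw [if_neg hk.ne, if_pos hk, if_neg hk.ne', if_neg (not_lt.mpr hk.le)]
    have h1 := hg k k' hk
    linear_combination (1 + q) * h1
  · intro k
    unfold pf
    rw [if_pos rfl, zero_mul]

/-- Twins have the same pair weights. -/
theorem twin {m : ℕ → ℕ} {q : R} {a u : ℕ} (h1 : u ≠ a) (h2 : u ≠ a + 1)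
    (h3 : u < a → (a ≤ m u ↔ a + 1 ≤ m u)) (h4 : m a = m (a + 1)) (k l : Fin N) :
    pw m q a k u l = pw m q (a + 1) k u l := by
  unfold pw
  have h5 : (a < u ∧ u ≤ m a) ↔ (a + 1 < u ∧ u ≤ m (a + 1)) := by
    rw [← h4]
    constructor
    · rintro ⟨h6, h7⟩
      exact ⟨by omega, h7⟩
    · rintro ⟨h6, h7⟩
      exact ⟨by omega, h7⟩
  have h8 : (u < a ∧ a ≤ m u) ↔ (u < a + 1 ∧ a + 1 ≤ m u) := by
    constructor
    · rintro ⟨h6, h7⟩
      exact ⟨by omega, (h3 h6).mp h7⟩
    · rintro ⟨h6, h7⟩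
      have h9 : u < a := by omega
      exact ⟨h9, (h3 h9).mpr h7⟩
  simp only [h5, h8]

/-- The expansion of the three partition functions for a fixed colour of the third vertex. -/
theorem expT {m m' : ℕ → ℕ} {q : R} {U : Finset ℕ} {v a : ℕ} (hv : v ∈ U) (ha : a ∈ U)
    (ha1 : a + 1 ∈ U) (hva : v ≠ a) (hva1 : v ≠ a + 1) (w : ℕ → Fin N → R)
    (hw : ∀ k, w a k = w (a + 1) k)
    (hZ : ∀ w' : ℕ → Fin N → R, Z m' q (U.erase v) w' = Z m q (U.erase v) w')
    (hpw : ∀ u ∈ U, u ≠ v → u ≠ a → u ≠ a + 1 → ∀ κ l : Fin N,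
      pw m' q v κ u l = pw m q v κ u l)
    (hpf : ∀ k k' : Fin N, pw m q a k (a + 1) k' = pf q k k')
    (A B : Fin N → Fin N → R) (hA : ∀ κ k : Fin N, pw m' q v κ a k = A κ k)
    (hB : ∀ κ k : Fin N, pw m' q v κ (a + 1) k = B κ k) :
    Z m' q U w = ∑ κ, w v κ * ∑ k, ∑ k', pf q k k' * (w a k * w a k' *
      Z m q (((U.erase v).erase a).erase (a + 1)) (fun u l => w u l * pw m q v κ u l *
        pw m q a k u l * pw m q (a + 1) k' u l)) * (A κ k * B κ k') := by
  rw [Z_erase hv]
  refine Finset.sum_congr rfl fun κ _ => ?_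
  congr 1
  rw [hZ, expand2 (a := a) (b := a + 1) (mem_erase.mpr ⟨fun h => hva h.symm, ha⟩)
      (mem_erase.mpr ⟨fun h => hva1 h.symm, ha1⟩) (by omega)]
  refine Finset.sum_congr rfl fun k _ => Finset.sum_congr rfl fun k' _ => ?_
  have h1 : Z m q (((U.erase v).erase a).erase (a + 1))
      (fun u l => w u l * pw m' q v κ u l * pw m q a k u l * pw m q (a + 1) k' u l) =
      Z m q (((U.erase v).erase a).erase (a + 1))
      (fun u l => w u l * pw m q v κ u l * pw m q a k u l * pw m q (a + 1) k' u l) := by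
    refine Z_congr fun u hu l => ?_
    have h2 := mem_erase.mp hu
    have h3 := mem_erase.mp h2.2
    have h4 := mem_erase.mp h3.2
    rw [hpw u h4.2 h4.1 h3.1 h2.1]
  rw [h1, hpf, hA, hB, ← hw]
  ring

/-- Symmetry of the rest. -/
theorem rest_symm {m : ℕ → ℕ} {q : R} {U : Finset ℕ} {v a : ℕ}
    (htw : ∀ u ∈ U, u ≠ v → u < a → (a ≤ m u ↔ a + 1 ≤ m u)) (hma : m a = m (a + 1))
    (w : ℕ → Fin N → R) (κ k k' : Fin N) :
    Z m q (((U.erase v).erase a).erase (a + 1)) (fun u l => w u l * pw m q v κ u l *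
        pw m q a k u l * pw m q (a + 1) k' u l) =
    Z m q (((U.erase v).erase a).erase (a + 1)) (fun u l => w u l * pw m q v κ u l *
        pw m q a k' u l * pw m q (a + 1) k u l) := by
  refine Z_congr fun u hu l => ?_
  have h2 := mem_erase.mp hu
  have h3 := mem_erase.mp h2.2
  have h4 := mem_erase.mp h3.2
  rw [twin h3.1 h2.1 (htw u h4.2 h4.1) hma k l, twin h3.1 h2.1 (htw u h4.2 h4.1) hma k' l]
  ring

end LCM

open LCM in
theorem t_LC : S_LC := by
  intro R _ N m0 m1 m2 q U w v a hv ha ha1 hva hw h0 h2 e0 e1 e2 htw hadj hma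
  have hpf : ∀ k k' : Fin N, pw m1 q a k (a + 1) k' = pf q k k' := by
    intro k k'
    rw [pw_lt (by omega) hadj]
    rfl
  have hpf0 : ∀ u ∈ U, u ≠ v → u ≠ a → u ≠ a + 1 → ∀ κ l : Fin N,
      pw m0 q v κ u l = pw m1 q v κ u l := by
    intro u hu huv hua hua1 κ l
    unfold pw
    have h5 : (v < u ∧ u ≤ m0 v) ↔ (v < u ∧ u ≤ m1 v) := by omega
    rw [h0 u hu huv]
    simp only [h5]
  have hpf2 : ∀ u ∈ U, u ≠ v → u ≠ a → u ≠ a + 1 → ∀ κ l : Fin N,
      pw m2 q v κ u l = pw m1 q v κ u l := by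
    intro u hu huv hua hua1 κ l
    unfold pw
    have h5 : (v < u ∧ u ≤ m2 v) ↔ (v < u ∧ u ≤ m1 v) := by omega
    rw [h2 u hu huv]
    simp only [h5]
  set g : Fin N → Fin N → R := fun κ k => if κ = k then 0 else if κ < k then q else 1 with hgdef
  have E0 := expT (m := m1) (m' := m0) (q := q) hv ha ha1 (by omega) (by omega) w hw
    (Z_m_congr fun u hu => h0 u (mem_of_mem_erase hu) (ne_of_mem_erase hu)) hpf0 hpf
    (fun _ _ => 1) (fun _ _ => 1)
    (fun κ k => pw_of_not (by omega) (by omega) κ k)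
    (fun κ k => pw_of_not (by omega) (by omega) κ k)
  have E1 := expT (m := m1) (m' := m1) (q := q) hv ha ha1 (by omega) (by omega) w hw
    (fun _ => rfl) (fun _ _ _ _ _ _ _ => rfl) hpf g (fun _ _ => 1)
    (fun κ k => pw_lt hva (by omega) κ k)
    (fun κ k => pw_of_not (by omega) (by omega) κ k)
  have E2 := expT (m := m1) (m' := m2) (q := q) hv ha ha1 (by omega) (by omega) w hw
    (Z_m_congr fun u hu => h2 u (mem_of_mem_erase hu) (ne_of_mem_erase hu)) hpf2 hpf g g
    (fun κ k => pw_lt hva (by omega) κ k)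
    (fun κ k => pw_lt (by omega) (by omega) κ k)
  rw [E0, E1, E2, Finset.mul_sum, Finset.mul_sum, ← Finset.sum_add_distrib]
  refine Finset.sum_congr rfl fun κ _ => ?_
  have hcore := core1 q (g κ) (fun k k' => w a k * w a k' *
      Z m1 q (((U.erase v).erase a).erase (a + 1)) (fun u l => w u l * pw m1 q v κ u l *
        pw m1 q a k u l * pw m1 q (a + 1) k' u l)) ?_ ?_
  · simp only [mul_one]
    linear_combination (w v κ) * hcore
  · intro k k'
    rw [rest_symm (fun u hu huv hua => htw u hu hua huv) hma w κ k k']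
    ring
  · intro k k' hk
    rw [hgdef]
    simp only
    by_cases h3 : κ ≤ k
    · have h4 : κ < k' := lt_of_le_of_lt h3 hk
      rw [if_neg h4.ne, if_pos h4]
      ring
    · have h5 : k < κ := not_le.mp h3
      rw [if_neg (c := κ = k) h5.ne', if_neg (c := κ < k) (not_lt.mpr h5.le)]
      ring

end Pool.Agent.SWB
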