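import Pool.Agent.Lib.MP_263316_co.AB.Spec

/-!
MP_263316_co, part AB, task LI: boards (columns) are lawful (helper25, task 12271)
-/

set_option autoImplicit false

namespace Pool.Agent.SWB

open Finset Pool.Agent.SWC

namespace LIx

/-- the number of the columns of height less than `v` -/
def cnt (ρ : ℕ) (h : ℕ → ℕ) (v : ℕ) : ℕ := ((range ρ).filter (fun i => h i < v)).card

theorem mI_eq (χ S ρ : ℕ) (h : ℕ → ℕ) (v : ℕ) : mI χ S ρ h v =
    if v = 0 then χ + S else if v ≤ χ then χ + S + cnt ρ h v else χ + S + ρ + 1 := rfl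

theorem mI_zero (χ S ρ : ℕ) (h : ℕ → ℕ) : mI χ S ρ h 0 = χ + S := by
  rw [mI_eq, if_pos rfl]

theorem mI_mid {χ S ρ : ℕ} {h : ℕ → ℕ} {v : ℕ} (h1 : 1 ≤ v) (h2 : v ≤ χ) :
    mI χ S ρ h v = χ + S + cnt ρ h v := by
  rw [mI_eq, if_neg (by omega), if_pos h2]

theorem mI_big {χ S ρ : ℕ} {h : ℕ → ℕ} {v : ℕ} (h1 : χ < v) :
    mI χ S ρ h v = χ + S + ρ + 1 := by
  rw [mI_eq, if_neg (by omega), if_neg (by omega)]

theorem cnt_congr {ρ : ℕ} {h h' : ℕ → ℕ} {v : ℕ} (e : ∀ i < ρ, (h i < v ↔ h' i < v)) :
    cnt ρ h v = cnt ρ h' v := by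
  unfold cnt
  congr 1
  refine filter_congr fun i hi => e i (mem_range.1 hi)

theorem mI_congr {χ S ρ : ℕ} {h h' : ℕ → ℕ} {v : ℕ} (e : ∀ i < ρ, (h i < v ↔ h' i < v)) :
    mI χ S ρ h v = mI χ S ρ h' v := by
  rw [mI_eq, mI_eq, cnt_congr e]

theorem cnt_eq {ρ : ℕ} {h : ℕ → ℕ} {v c : ℕ} (hc : c ≤ ρ) (h1 : ∀ i < c, h i < v)
    (h2 : ∀ i, c ≤ i → i < ρ → v ≤ h i) : cnt ρ h v = c := by
  unfold cnt
  have : (range ρ).filter (fun i => h i < v) = range c := by
    ext i
    simp only [mem_filter, mem_range]
    constructor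
    · rintro ⟨h3, h4⟩
      by_contra h5
      have := h2 i (by omega) h3
      omega
    · intro h3
      exact ⟨by omega, h1 i h3⟩
  rw [this, card_range]

theorem cnt_lt {ρ χ : ℕ} {h : ℕ → ℕ} (hB : Brd ρ χ h) {v k : ℕ} (hk : k < ρ) :
    k + 1 ≤ cnt ρ h v ↔ h k < v := by
  constructor
  · intro h1
    by_contra h2
    have h3 : (range ρ).filter (fun i => h i < v) ⊆ range k := by
      intro i hi
      rw [mem_filter, mem_range] at hi
      rw [mem_range]
      by_contra h4
      have := hB.1 k i (by omega) hi.1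
      omega
    have h4 := card_le_card h3
    rw [card_range] at h4
    unfold cnt at h1
    omega
  · intro h1
    have h3 : range (k + 1) ⊆ (range ρ).filter (fun i => h i < v) := by
      intro i hi
      rw [mem_range] at hi
      rw [mem_filter, mem_range]
      have := hB.1 i k (by omega) hk
      exact ⟨by omega, by omega⟩
    have h4 := card_le_card h3
    rw [card_range] at h4
    exact h4

theorem up_same (h : ℕ → ℕ) (i b : ℕ) : Function.update h i b i = b := Function.update_self _ _ _

theorem up_ne (h : ℕ → ℕ) {i j : ℕ} (b : ℕ) (hj : j ≠ i) : Function.update h i b j = h j :=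
  Function.update_of_ne hj _ _

/-- an update which does not change the comparison with `v` -/
theorem mI_up {χ S ρ : ℕ} {h : ℕ → ℕ} {v i b : ℕ} (e : b < v ↔ h i < v) :
    mI χ S ρ (Function.update h i b) v = mI χ S ρ h v := by
  refine mI_congr fun j _ => ?_
  by_cases hj : j = i
  · subst hj
    rw [up_same]
    exact e
  · rw [up_ne h b hj]

end LIx

open LIx in
theorem t_LI : S_LI := by
  intro hLC hLR hMC R _ N q x χ S ρ f j
  refine ⟨?_, ?_, ?_⟩
  · intro h h' hh
    have e : mI χ S ρ h = mI χ S ρ h' := by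
      funext v
      exact mI_congr fun i hi => by rw [hh i hi]
    simp only [e]
  · intro h i a hB hi hia h1 h2 hne
    have hlo : ∀ j < i, h j < a := by
      intro j hj
      have e1 := hB.1 j i hj.le hi
      have e2 := hne j (hj.trans hi) hj.ne
      omega
    have hhi : ∀ j, i < j → j < ρ → a + 1 ≤ h j := by
      intro j hj hj'
      have e1 := hB.1 i j hj.le hj'
      have e2 := hne j hj' hj.ne'
      omega
    have c1 : cnt ρ h a = i := cnt_eq hi.le hlo (fun j hj hj' => by
      rcases hj.eq_or_lt with rfl | hj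
      · omega
      · have := hhi j hj hj'
        omega)
    have c2 : cnt ρ h (a + 1) = i + 1 := cnt_eq hi (fun j hj => by
      rcases (Nat.lt_succ_iff.1 hj).eq_or_lt with rfl | hj
      · omega
      · have := hlo j hj
        omega) (fun j hj hj' => hhi j hj hj')
    have c3 : cnt ρ (Function.update h i (a + 1)) (a + 1) = i := cnt_eq hi.le (fun j hj => by
        rw [up_ne h _ hj.ne]
        have := hlo j hj
        omega) (fun j hj hj' => by
        rcases hj.eq_or_lt with rfl | hj
        · rw [up_same]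
        · rw [up_ne h _ hj.ne']
          exact hhi j hj hj')
    have c4 : cnt ρ (Function.update h i (a - 1)) a = i + 1 := cnt_eq hi (fun j hj => by
        rcases (Nat.lt_succ_iff.1 hj).eq_or_lt with rfl | hj
        · rw [up_same]
          omega
        · rw [up_ne h _ hj.ne]
          exact hlo j hj) (fun j hj hj' => by
        rw [up_ne h _ (Nat.lt_of_succ_le hj).ne']
        have := hhi j hj hj'
        omega)
    have d1 : mI χ S ρ (Function.update h i (a + 1)) a = mI χ S ρ h a :=
      mI_up (by omega)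
    have d2 : mI χ S ρ (Function.update h i (a - 1)) (a + 1) = mI χ S ρ h (a + 1) :=
      mI_up (by omega)
    refine hLR R N (mI χ S ρ (Function.update h i (a + 1))) (mI χ S ρ h)
      (mI χ S ρ (Function.update h i (a - 1))) q (range (χ + S + ρ + 2)) _ a (χ + S + 1 + i)
      (mem_range.2 (by omega)) (mem_range.2 (by omega)) (mem_range.2 (by omega)) (by omega)
      ?_ ?_ ?_ ?_ ?_ ?_ ?_ ?_ ?_ ?_
    · intro k
      have e1 : a ≠ 0 := by omega
      have e2 : a + 1 ≠ 0 := by omega
      have e3 : a ≠ χ + S + ρ + 1 := by omega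
      have e4 : a + 1 ≠ χ + S + ρ + 1 := by omega
      simp only [if_neg e1, if_neg e2, if_neg e3, if_neg e4]
    · intro u _ u1 u2
      exact mI_up (by omega)
    · intro u _ u1 u2
      exact mI_up (by omega)
    · rw [d1, mI_mid h1 (by omega), c1]
      omega
    · rw [mI_mid (by omega) h2, c3]
      omega
    · rw [mI_mid h1 (by omega), c1]
      omega
    · rw [mI_mid (by omega) h2, c2]
      omega
    · rw [mI_mid h1 (by omega), c4]
      omega
    · rw [d2, mI_mid (by omega) h2, c2]
      omega
    · intro u _ hu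
      have : χ + S ≤ mI χ S ρ h u := by
        rw [mI_eq]
        split_ifs <;> omega
      omega
  · intro h i a hB hi h1 hia hia'
    have haχ : a ≤ χ := by
      rw [← hia']
      exact hB.2 (i + 1) hi
    have hlo : ∀ j ≤ i, h j < a := by
      intro j hj
      have e1 := hB.1 j i hj (by omega)
      omega
    have hhi : ∀ j, i + 1 ≤ j → j < ρ → a ≤ h j := by
      intro j hj hj'
      have e1 := hB.1 (i + 1) j hj hj'
      omega
    have c1 : cnt ρ h a = i + 1 := cnt_eq hi.le (fun j hj => hlo j (Nat.lt_succ_iff.1 hj)) hhi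
    have c2 : cnt ρ (Function.update h i a) a = i := cnt_eq (by omega) (fun j hj => by
        rw [up_ne h _ hj.ne]
        exact hlo j hj.le) (fun j hj hj' => by
        rcases hj.eq_or_lt with rfl | hj
        · rw [up_same]
        · rw [up_ne h _ hj.ne']
          exact hhi j hj hj')
    have c3 : cnt ρ (Function.update h (i + 1) (a - 1)) a = i + 2 := cnt_eq hi (fun j hj => by
        rcases (Nat.lt_succ_iff.1 hj).eq_or_lt with rfl | hj
        · rw [up_same]
          omega
        · rw [up_ne h _ hj.ne]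
          exact hlo j (Nat.lt_succ_iff.1 hj)) (fun j hj hj' => by
        rw [up_ne h _ (show j ≠ i + 1 by omega)]
        exact hhi j (by omega) hj')
    refine hLC R N (mI χ S ρ (Function.update h i a)) (mI χ S ρ h)
      (mI χ S ρ (Function.update h (i + 1) (a - 1))) q (range (χ + S + ρ + 2)) _ a
      (χ + S + 1 + i) (mem_range.2 (by omega)) (mem_range.2 (by omega)) (mem_range.2 (by omega))
      (by omega) ?_ ?_ ?_ ?_ ?_ ?_ ?_ ?_ ?_
    · intro k
      have e1 : χ + S + 1 + i ≠ 0 := by omega
      have e2 : χ + S + 1 + i + 1 ≠ 0 := by omega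
      have e3 : χ + S + 1 + i ≠ χ + S + ρ + 1 := by omega
      have e4 : χ + S + 1 + i + 1 ≠ χ + S + ρ + 1 := by omega
      simp only [if_neg e1, if_neg e2, if_neg e3, if_neg e4]
    · intro u _ u1
      exact mI_up (by omega)
    · intro u _ u1
      exact mI_up (by omega)
    · rw [mI_mid h1 haχ, c2]
      omega
    · rw [mI_mid h1 haχ, c1]
      omega
    · rw [mI_mid h1 haχ, c3]
      omega
    · intro u _ hu hua
      by_cases hu0 : u = 0
      · subst hu0
        rw [mI_zero]
        omega
      by_cases huχ : u ≤ χ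
      · rw [mI_mid (by omega) huχ]
        have e1 := cnt_lt hB (v := u) (show i < ρ by omega)
        have e2 := cnt_lt hB (v := u) hi
        rw [hia] at e1
        rw [hia'] at e2
        omega
      · rw [mI_big (by omega)]
        omega
    · rw [mI_big (by omega)]
      omega
    · rw [mI_big (by omega), mI_big (by omega)]

end Pool.Agent.SWB
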