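import Pool.Agent.Lib.MP_263316_co.AB.Spec

/-!
MP_263316_co, part AB, task LJ: boards (rows) are lawful.
-/

set_option autoImplicit false

namespace Pool.Agent.SWB

open Finset Pool.Agent.SWC

namespace LJM

private theorem mJ_zero (χ S ρ : ℕ) (h : ℕ → ℕ) : mJ χ S ρ h 0 = χ + S := if_pos rfl

private theorem mJ_mid {χ S ρ : ℕ} {h : ℕ → ℕ} {v : ℕ} (h1 : 1 ≤ v) (h2 : v ≤ χ) :
    mJ χ S ρ h v = χ + S + ρ - h (χ - v) := by
  unfold mJ
  rw [if_neg (by omega), if_pos h2]

private theorem mJ_big {χ S ρ : ℕ} {h : ℕ → ℕ} {v : ℕ} (h2 : χ < v) :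
    mJ χ S ρ h v = χ + S + ρ + 1 := by
  unfold mJ
  rw [if_neg (by omega), if_neg (by omega)]

/-- a change of the board at `i` changes only the row `χ - i` -/
private theorem mJ_upd {χ S ρ : ℕ} {h : ℕ → ℕ} {i b v : ℕ} (h1 : v ≠ χ - i) :
    mJ χ S ρ (Function.update h i b) v = mJ χ S ρ h v := by
  unfold mJ
  by_cases h2 : v = 0
  · rw [if_pos h2, if_pos h2]
  · rw [if_neg h2, if_neg h2]
    by_cases h3 : v ≤ χ
    · rw [if_pos h3, if_pos h3, Function.update_of_ne (by omega)]
    · rw [if_neg h3, if_neg h3]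

private theorem mJ_upd_self {χ S ρ : ℕ} {h : ℕ → ℕ} {i b : ℕ} (hi : i < χ) :
    mJ χ S ρ (Function.update h i b) (χ - i) = χ + S + ρ - b := by
  rw [mJ_mid (by omega) (by omega), show χ - (χ - i) = i by omega, Function.update_self]

private theorem mJ_self {χ S ρ : ℕ} {h : ℕ → ℕ} {i : ℕ} (hi : i < χ) :
    mJ χ S ρ h (χ - i) = χ + S + ρ - h i := by
  rw [mJ_mid (by omega) (by omega), show χ - (χ - i) = i by omega]

end LJM

open LJM in
theorem t_LJ : S_LJ := by
  intro hLC hLR _ R _ N q x χ S ρ f j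
  refine ⟨?_, ?_, ?_⟩
  · intro h h' hh
    have h1 : mJ χ S ρ h = mJ χ S ρ h' := by
      funext v
      by_cases h2 : v = 0
      · rw [h2, mJ_zero, mJ_zero]
      · by_cases h3 : v ≤ χ
        · rw [mJ_mid (by omega) h3, mJ_mid (by omega) h3, hh (χ - v) (by omega)]
        · rw [mJ_big (by omega), mJ_big (by omega)]
    show TT _ _ _ _ _ _ _ _ = TT _ _ _ _ _ _ _ _
    rw [h1]
  · intro h i a hB hi ha h1 h2 hne
    have hU : ∀ v, v < χ + S + ρ + 2 → v ∈ range (χ + S + ρ + 2) := fun v => mem_range.2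
    refine hLC R N (mJ χ S ρ (Function.update h i (a + 1))) (mJ χ S ρ h)
      (mJ χ S ρ (Function.update h i (a - 1))) q (range (χ + S + ρ + 2)) _ (χ - i)
      (χ + S + ρ - a) (hU _ (by omega)) (hU _ (by omega)) (hU _ (by omega)) (by omega) ?_
      (fun u _ hu => mJ_upd hu) (fun u _ hu => mJ_upd hu) ?_ ?_ ?_ ?_ ?_ ?_
    · intro k
      have e1 : ¬ χ + S + ρ - a = 0 := by omega
      have e2 : ¬ χ + S + ρ - a + 1 = 0 := by omega
      have e3 : ¬ χ + S + ρ - a = χ + S + ρ + 1 := by omega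
      have e4 : ¬ χ + S + ρ - a + 1 = χ + S + ρ + 1 := by omega
      simp only [e1, e2, e3, e4, if_false]
    · rw [mJ_upd_self hi]
      omega
    · rw [mJ_self hi, ha]
    · rw [mJ_upd_self hi]
      omega
    · intro u _ hu hui
      by_cases hu0 : u = 0
      · rw [hu0, mJ_zero]
        omega
      · by_cases hu1 : u ≤ χ
        · rw [mJ_mid (by omega) hu1]
          have h3 := hne (χ - u) (by omega) (by omega)
          have h4 := hB.2 (χ - u) (by omega)
          omega
        · rw [mJ_big (by omega)]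
          omega
    · rw [mJ_big (by omega)]
      omega
    · rw [mJ_big (by omega), mJ_big (by omega)]
  · intro h i a hB hi h1 h2 h3
    have h4 := hB.2 (i + 1) hi
    have hU : ∀ v, v < χ + S + ρ + 2 → v ∈ range (χ + S + ρ + 2) := fun v => mem_range.2
    have e0 : χ - (i + 1) + 1 = χ - i := by omega
    have e1 := mJ_self (S := S) (ρ := ρ) (h := h) hi
    have e2 := mJ_self (S := S) (ρ := ρ) (h := h) (show i < χ by omega)
    refine hLR R N (mJ χ S ρ (Function.update h i a)) (mJ χ S ρ h)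
      (mJ χ S ρ (Function.update h (i + 1) (a - 1))) q (range (χ + S + ρ + 2)) _ (χ - (i + 1))
      (χ + S + ρ - a + 1) (hU _ (by omega)) (hU _ (by omega)) (hU _ (by omega)) (by omega) ?_
      ?_ ?_ ?_ ?_ ?_ ?_ ?_ ?_ ?_
    · intro k
      have e1 : ¬ χ - (i + 1) = 0 := by omega
      have e2 : ¬ χ - (i + 1) + 1 = 0 := by omega
      have e3 : ¬ χ - (i + 1) = χ + S + ρ + 1 := by omega
      have e4 : ¬ χ - (i + 1) + 1 = χ + S + ρ + 1 := by omega
      simp only [e1, e2, e3, e4, if_false]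
    · intro u _ hu1 hu2
      exact mJ_upd (by omega)
    · intro u _ hu1 hu2
      exact mJ_upd (by omega)
    · rw [mJ_upd (by omega), e1]
      omega
    · rw [e0, mJ_upd_self (by omega)]
    · rw [e1]
      omega
    · rw [e0, e2]
      omega
    · rw [mJ_upd_self hi]
      omega
    · rw [e0, mJ_upd (by omega), e2]
      omega
    · intro u _ hu
      by_cases hu0 : u = 0
      · rw [hu0, mJ_zero]
        omega
      · rw [mJ_mid (by omega) (by omega)]
        have h4 := hB.2 (χ - u) (by omega)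
        omega

end Pool.Agent.SWB
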