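import Pool.Agent.Lib.MP_263316_co.AB.Spec

/-! TASK MC: the partition function depends only on the adjacency relation. -/

set_option autoImplicit false

namespace Pool.Agent.SWB

open Finset Pool.Agent.SWC

theorem t_MC : S_MC := by
  intro R _ N m m' q U
  induction U using Finset.induction_on with
  | empty =>
    intro w _
    rw [Z_empty, Z_empty]
  | insert v U hv ih =>
    intro w h
    rw [Z_insert hv, Z_insert hv]
    refine Finset.sum_congr rfl fun k _ => ?_
    rw [ih _ (fun u hu u' hu' => h u (mem_insert_of_mem hu) u' (mem_insert_of_mem hu'))]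
    congr 1
    refine Z_congr fun u hu k' => ?_
    congr 1
    unfold pw
    have h1 : (v < u ∧ u ≤ m v) ↔ (v < u ∧ u ≤ m' v) :=
      and_congr_right fun h2 => h v (mem_insert_self v U) u (mem_insert_of_mem hu) h2
    have h3 : (u < v ∧ v ≤ m u) ↔ (u < v ∧ v ≤ m' u) :=
      and_congr_right fun h2 => h u (mem_insert_of_mem hu) v (mem_insert_self v U) h2
    simp only [h1, h3]

end Pool.Agent.SWB
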