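import Pool.Agent.Lib.MP_263316_co.AB.Spec

/-!
MP_263316_co, part AB: normalized `D` (S_NA).
-/

set_option autoImplicit false

namespace Pool.Agent.SWB

open Finset Pool.Agent.SWC

private theorem QF_rise (m s : ℕ) : QF (m + s) = QF m * rise (m + 1) s := by
  induction s with
  | zero => simp [rise_zero]
  | succ s ih =>
    rw [← Nat.add_assoc, QF_succ, ih, rise_succ, show m + 1 + s = m + s + 1 by omega]
    ring

private theorem QF_fall (a i : ℕ) : QF (a + i) = QF a * fall (a + i) i := by
  induction i with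
  | zero => simp [fall_zero]
  | succ i ih =>
    rw [← Nat.add_assoc, QF_succ, ih, fall_succ', Nat.add_sub_cancel]
    ring

private theorem X_mem {s : ℕ} {z : ℤ} (h : 2 * (s : ℤ) = z) : (qX ^ s : PX) ∈ PZ z := by
  have h := PZ_gen (i := s) (k := 1) (z := z) (by push_cast; linarith)
  rwa [Q_one, mul_one] at h

theorem t_NA : S_NA := by
  intro hm _ hFR k s r j hs hkr hj
  obtain ⟨hR, hF, -⟩ := hFR hm
  rcases Nat.lt_or_ge (k + 1) j with h | h
  · have h0 : fall k (j - 1) = 0 := fall_eq_zero (by omega)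
    constructor
    · unfold aN
      rw [h0]
      simp
    · unfold aN D
      rw [Nat.add_sub_cancel, h0]
      ring
  obtain ⟨i, rfl⟩ : ∃ i, j = i + 1 := ⟨j - 1, by omega⟩
  obtain ⟨a, rfl⟩ : ∃ a, k = i + a := ⟨k - i, by omega⟩
  obtain ⟨b, rfl⟩ : ∃ b, r = i + b := ⟨r - i, by omega⟩
  obtain ⟨t, rfl⟩ : ∃ t, s = t + 1 := ⟨s - 1, by omega⟩
  have ea : aN (i + a) (t + 1) (i + b) (i + 1) =
      qX ^ ((t + 1) * i) * fall (i + a) i * rise (t + 1) a * rise (b + 1) t := by
    unfold aN
    rw [Nat.add_sub_cancel, Nat.add_sub_cancel, show i + a + 1 - (i + 1) = a by omega,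
      show i + b + 2 - (i + 1) = b + 1 by omega]
  constructor
  · rw [ea]
    have t1 := two_tr (i + a)
    have t2 := two_tr a
    have t3 := two_tr (t + a)
    have t4 := two_tr t
    have t5 := two_tr (b + t)
    have t6 := two_tr b
    have t7 := two_tr (i + a + 1 + (t + 1))
    have t8 := two_tr (i + b + 1 + (t + 1))
    have t9 := two_tr (t + 1)
    have t10 := two_tr (i + b)
    have h1 : (qX ^ ((t + 1) * i) : PX) ∈ PZ (2 * (((t + 1) * i : ℕ) : ℤ)) := X_mem rfl
    have h2 := hF (i + a) i (tr (i + a) - tr a) (by omega) (by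
      linear_combination (norm := (push_cast; ring1)) t1 - t2)
    have h3 := hR (t + 1) a (tr (t + a) - tr t) (by omega) (by
      linear_combination (norm := (push_cast; ring1)) t3 - t4)
    have h4 := hR (b + 1) t (tr (b + t) - tr b) (by omega) (by
      linear_combination (norm := (push_cast; ring1)) t5 - t6)
    have h5 := hm _ _ _ _ (hm _ _ _ _ (hm _ _ _ _ h1 h2) h3) h4
    have h6 : 2 * (2 * (((t + 1) * i : ℕ) : ℤ) + (tr (i + a) - tr a) + (tr (t + a) - tr t) +
        (tr (b + t) - tr b)) = 2 * (e0 (i + a) (t + 1) (i + b) + 2 * ((i + 1 : ℕ) : ℤ)) := by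
      unfold e0
      linear_combination (norm := (push_cast; ring1)) t1 - t2 + t3 - t4 + t5 - t6 - t7 - t8 + t9 + t10
    have h7 := mul_left_cancel₀ (two_ne_zero) h6
    rwa [h7] at h5
  · rw [ea]
    unfold D
    rw [Nat.add_sub_cancel, Nat.add_sub_cancel, Nat.add_sub_cancel,
      show i + a + 1 - (i + 1) = a by omega, show i + b + 1 - (i + 1) = b by omega]
    have e1 := QF_rise t b
    have e2 := QF_rise b t
    have e3 := QF_fall b i
    rw [Nat.add_comm b i] at e3
    rw [Nat.add_comm b t, e1] at e2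
    rw [e3, QF_succ]
    linear_combination (Q (t + 1) * qX ^ ((t + 1) * i) * fall (i + a) i * fall (i + b) i *
      rise (t + 1) a) * e2

end Pool.Agent.SWB
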