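import Pool.Agent.Lib.MP_263316_co.AB.Spec

/-!
MP_263316_co, part AB, task NB: `q a_j - a_(j+1)` is in `PZ`.
-/

set_option autoImplicit false

namespace Pool.Agent.SWB

open Finset Pool.Agent.SWC

namespace NBM

private theorem aN_zero {k s r j : ℕ} (h : k + 1 < j) : aN k s r j = 0 := by
  unfold aN
  rw [fall_eq_zero (a := k) (k := j - 1) (by omega)]
  ring

/-- `j = i + 1`, `k = i + a + 1`, `r = i + b + 1`, `s = t + 2` -/
private theorem ident (i a b t : ℕ) :
    qX * aN (i + a + 1) (t + 2) (i + b + 1) (i + 1) -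
      aN (i + a + 1) (t + 2) (i + b + 1) (i + 1 + 1) =
    qX ^ ((t + 2) * i + 1) * (fall (i + a + 1) i * (rise (t + 2) a * (rise (b + 2) t *
      (Q (t + 1) * Q (t + a + b + 3))))) := by
  unfold aN
  have e1 : i + a + 1 + 1 - (i + 1) = a + 1 := by omega
  have e2 : i + b + 1 + 2 - (i + 1) = b + 2 := by omega
  have e3 : i + a + 1 + 1 - (i + 1 + 1) = a := by omega
  have e4 : i + b + 1 + 2 - (i + 1 + 1) = b + 1 := by omega
  have e5 : t + 2 - 1 = t + 1 := by omega
  have e6 : i + a + 1 - i = a + 1 := by omega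
  rw [e1, e2, e3, e4, e5, Nat.add_sub_cancel, Nat.add_sub_cancel, fall_succ, e6, rise_succ,
    rise_succ (b + 2) t, rise_succ' (b + 1) t]
  have h := Q_std (t + 1) (a + 1) (b + 1)
  rw [show t + 1 + (a + 1) = t + 2 + a by ring, show t + 1 + (b + 1) = b + 2 + t by ring,
    show t + 2 + a + (b + 1) = t + a + b + 3 by ring] at h
  rw [show b + 1 + 1 = b + 2 by ring]
  calc _ = qX ^ ((t + 2) * i) * fall (i + a + 1) i * rise (t + 2) a * rise (b + 2) t *
        (qX * (Q (t + 2 + a) * Q (b + 2 + t)) - qX ^ (t + 2) * Q (a + 1) * Q (b + 1)) := by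
        rw [show (t + 2) * (i + 1) = (t + 2) * i + (t + 2) by ring, pow_add]
        ring
    _ = _ := by
        rw [h]
        ring

private theorem one (i a r : ℕ) :
    qX * aN (i + a + 1) 1 r (i + 1) - aN (i + a + 1) 1 r (i + 1 + 1) = 0 := by
  unfold aN
  have e1 : i + a + 1 + 1 - (i + 1) = a + 1 := by omega
  have e3 : i + a + 1 + 1 - (i + 1 + 1) = a := by omega
  have e6 : i + a + 1 - i = a + 1 := by omega
  rw [e1, e3, Nat.sub_self, Nat.add_sub_cancel, Nat.add_sub_cancel, fall_succ, e6, rise_succ,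
    rise_zero, rise_zero, add_comm 1 a]
  ring

end NBM

open NBM in
theorem t_NB : S_NB := by
  intro hm hp hf hna k s r j hs hkr hj
  rcases lt_or_ge (k + 1) j with h1 | h1
  · rw [aN_zero h1, aN_zero (by omega), mul_zero, sub_zero]
    exact AddSubmonoid.zero_mem _
  · rcases h1.eq_or_lt with h2 | h2
    · rw [aN_zero (by omega : k + 1 < j + 1), sub_zero]
      have h3 := hp.2.2 _ 1 _ (hna hm hp hf k s r j hs hkr hj).1
      rw [pow_one] at h3
      rw [show (e0 k s r + 2 * j + 2 : ℤ) = e0 k s r + 2 * j + 2 * (1 : ℕ) by push_cast; ring]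
      exact h3
    · -- `j ≤ k`
      obtain ⟨i, rfl⟩ : ∃ i, j = i + 1 := ⟨j - 1, by omega⟩
      obtain ⟨a, rfl⟩ : ∃ a, k = i + a + 1 := ⟨k - i - 1, by omega⟩
      obtain ⟨b, rfl⟩ : ∃ b, r = i + b + 1 := ⟨r - i - 1, by omega⟩
      rcases hs.eq_or_lt with h3 | h3
      · rw [← h3, one]
        exact AddSubmonoid.zero_mem _
      · obtain ⟨t, rfl⟩ : ∃ t, s = t + 2 := ⟨s - 2, by omega⟩
        rw [ident]
        have m1 : fall (i + a + 1) i ∈ PZ ((i : ℤ) * (i + a + 1) - tr (i + 1)) := by
          apply (hf hm).2.1 _ _ _ (by omega)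
          have := two_tr (i + 1)
          push_cast at this ⊢
          linarith
        have m2 : rise (t + 2) a ∈ PZ ((a : ℤ) * (t + 2) + tr a - a) := by
          apply (hf hm).1 _ _ _ (by omega)
          have := two_tr a
          push_cast at this ⊢
          linarith
        have m3 : rise (b + 2) t ∈ PZ ((t : ℤ) * (b + 2) + tr t - t) := by
          apply (hf hm).1 _ _ _ (by omega)
          have := two_tr t
          push_cast at this ⊢
          linarith
        have m4 : Q (t + 1) ∈ PZ (t : ℤ) := by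
          have := PZ_gen (i := 0) (k := t + 1) (z := (t : ℤ)) (by push_cast; ring)
          rwa [pow_zero, one_mul] at this
        have m5 : Q (t + a + b + 3) ∈ PZ ((t : ℤ) + a + b + 2) := by
          have := PZ_gen (i := 0) (k := t + a + b + 3) (z := (t : ℤ) + a + b + 2)
            (by push_cast; ring)
          rwa [pow_zero, one_mul] at this
        have m := hp.2.2 _ ((t + 2) * i + 1) _
          (hm _ _ _ _ m1 (hm _ _ _ _ m2 (hm _ _ _ _ m3 (hm _ _ _ _ m4 m5))))
        have hz : (i : ℤ) * (i + a + 1) - tr (i + 1) + ((a : ℤ) * (t + 2) + tr a - a +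
            ((t : ℤ) * (b + 2) + tr t - t + (t + ((t : ℤ) + a + b + 2)))) +
            2 * (((t + 2) * i + 1 : ℕ) : ℤ) =
            e0 (i + a + 1) (t + 2) (i + b + 1) + 2 * ((i + 1 : ℕ) : ℤ) + 2 := by
          unfold e0
          have t1 := two_tr (i + 1)
          have t2 := two_tr a
          have t3 := two_tr t
          have t4 := two_tr (i + a + 1 + 1 + (t + 2))
          have t5 := two_tr (i + b + 1 + 1 + (t + 2))
          have t6 := two_tr (t + 2)
          have t7 := two_tr (i + b + 1)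
          push_cast at t1 t2 t3 t4 t5 t6 t7 ⊢
          linarith
        rw [hz] at m
        exact m

end Pool.Agent.SWB
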