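import Pool.Agent.Lib.MP_263316_co.AB.Spec

/-!
MP_263316_co, part AB: first half of `g`, normalized (S_NG1).
-/

set_option autoImplicit false

namespace Pool.Agent.SWB

open Finset Pool.Agent.SWC

private theorem QF_rise (m s : ℕ) : QF (m + s) = QF m * rise (m + 1) s := by
  induction s with
  | zero => simp [rise_zero]
  | succ s ih =>
    rw [← Nat.add_assoc, QF_succ, ih, rise_succ, show m + 1 + s = m + s + 1 by omega]
    ring

private theorem QF_fall (a i : ℕ) : QF (a + i) = QF a * fall (a + i) i := by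
  induction i with
  | zero => simp [fall_zero]
  | succ i ih =>
    rw [← Nat.add_assoc, QF_succ, ih, fall_succ', Nat.add_sub_cancel]
    ring

private theorem X_mem {s : ℕ} {z : ℤ} (h : 2 * (s : ℤ) = z) : (qX ^ s : PX) ∈ PZ z := by
  have h := PZ_gen (i := s) (k := 1) (z := z) (by push_cast; linarith)
  rwa [Q_one, mul_one] at h

private theorem Q_mem {k : ℕ} {z : ℤ} (h : (k : ℤ) = z + 1) : Q k ∈ PZ z := by
  have h := PZ_gen (i := 0) (k := k) (z := z) (by push_cast; linarith)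
  rwa [pow_zero, one_mul] at h

theorem t_NG1 : S_NG1 := by
  intro hm _ hFR k s r l hs hkr hl
  obtain ⟨hR, hF, -⟩ := hFR hm
  rcases Nat.lt_or_ge k l with h | h
  · refine ⟨0, ?_, (PZ _).zero_mem⟩
    unfold GG
    rw [Nat.add_sub_cancel, fall_eq_zero h]
    ring
  rcases Nat.lt_or_ge s 2 with hs2 | hs2
  · obtain rfl : s = 1 := by omega
    refine ⟨0, ?_, (PZ _).zero_mem⟩
    unfold GG
    rw [Nat.sub_self, rise_zero_left (by omega)]
    ring
  obtain ⟨i, rfl⟩ : ∃ i, l = i + 1 := ⟨l - 1, by omega⟩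
  obtain ⟨a, rfl⟩ : ∃ a, k = i + 1 + a := ⟨k - (i + 1), by omega⟩
  obtain ⟨b, rfl⟩ : ∃ b, r = i + 1 + b := ⟨r - (i + 1), by omega⟩
  obtain ⟨t, rfl⟩ : ∃ t, s = t + 2 := ⟨s - 2, by omega⟩
  refine ⟨qX ^ (b + 1 + (t + 2) * (i + 1)) * fall (i + 1 + a) (i + 1) * rise (t + 3) a *
    Q (t + 1) * rise (b + 2) t, ?_, ?_⟩
  · unfold GG
    rw [Nat.add_sub_cancel, Nat.add_sub_cancel, show t + 2 - 1 = t + 1 by omega,
      show i + 1 + b + 1 - (i + 1) = b + 1 by omega, show i + 1 - 1 = i by omega,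
      show i + 1 + a + 1 - (i + 1) = a + 1 by omega, rise_succ' (t + 2) a]
    have e1 := QF_rise t (b + 1)
    have e2 := QF_rise (b + 1) t
    have e3 := QF_fall (b + 1) i
    rw [show b + 1 + i = i + 1 + b by omega] at e3
    rw [Nat.add_comm (b + 1) t, e1] at e2
    rw [e3, QF_succ]
    linear_combination (Q (t + 1) * Q (t + 2) * qX ^ (b + 1 + (t + 2) * (i + 1)) *
      fall (i + 1 + a) (i + 1) * fall (i + 1 + b) i * rise (t + 3) a) * e2
  · have t1 := two_tr (i + 1 + a)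
    have t2 := two_tr a
    have t3 := two_tr (t + 2 + a)
    have t4 := two_tr (t + 2)
    have t5 := two_tr (b + 1 + t)
    have t6 := two_tr (b + 1)
    have t7 := two_tr (i + 1 + a + 1 + (t + 2))
    have t8 := two_tr (i + 1 + b + 1 + (t + 2))
    have t10 := two_tr (i + 1 + b)
    have h1 : (qX ^ (b + 1 + (t + 2) * (i + 1)) : PX) ∈
        PZ (2 * ((b + 1 + (t + 2) * (i + 1) : ℕ) : ℤ)) := X_mem rfl
    have h2 := hF (i + 1 + a) (i + 1) (tr (i + 1 + a) - tr a) (by omega) (by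
      linear_combination (norm := (push_cast; ring1)) t1 - t2)
    have h3 := hR (t + 3) a (tr (t + 2 + a) - tr (t + 2)) (by omega) (by
      linear_combination (norm := (push_cast; ring1)) t3 - t4)
    have h4 : Q (t + 1) ∈ PZ (t : ℤ) := Q_mem (by push_cast; ring)
    have h5 := hR (b + 2) t (tr (b + 1 + t) - tr (b + 1)) (by omega) (by
      linear_combination (norm := (push_cast; ring1)) t5 - t6)
    have h6 := hm _ _ _ _ (hm _ _ _ _ (hm _ _ _ _ (hm _ _ _ _ h1 h2) h3) h4) h5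
    have h7 : 2 * (2 * ((b + 1 + (t + 2) * (i + 1) : ℕ) : ℤ) + (tr (i + 1 + a) - tr a) +
        (tr (t + 2 + a) - tr (t + 2)) + (t : ℤ) + (tr (b + 1 + t) - tr (b + 1))) =
        2 * (e0 (i + 1 + a) (t + 2) (i + 1 + b) + (((i + 1 + a : ℕ) : ℤ) + ((t + 2 : ℕ) : ℤ) +
          ((i + 1 + b : ℕ) : ℤ) + 2)) := by
      unfold e0
      linear_combination (norm := (push_cast; ring1)) t1 - t2 + t3 - t4 + t5 - t6 - t7 - t8 + t4 + t10
    have h8 := mul_left_cancel₀ (two_ne_zero) h7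
    rwa [h8] at h6

end Pool.Agent.SWB
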