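import Pool.Agent.Lib.MP_263316_co.AB.Spec

set_option autoImplicit false

namespace Pool.Agent.SWB

open Finset Pool.Agent.SWC

private theorem QF_add' (m n : ℕ) : QF (m + n) = QF m * rise (m + 1) n := by
  unfold QF rise
  rw [prod_range_add]
  congr 1
  exact prod_congr rfl fun x _ => by rw [show m + x + 1 = m + 1 + x by omega]

private theorem fall_QF' (a i : ℕ) : fall (a + i) i * QF a = QF (a + i) := by
  induction i with
  | zero => rw [fall_zero, one_mul, Nat.add_zero]
  | succ i ih =>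
    rw [← Nat.add_assoc, fall_succ', Nat.add_sub_cancel, QF_succ, ← ih]
    ring

theorem t_NG2 : S_NG2 := by
  intro hm hp hFR hDIV k s r l hs _ hl
  obtain ⟨i, rfl⟩ : ∃ i, l = i + 1 := ⟨l - 1, by omega⟩
  obtain ⟨s', rfl⟩ : ∃ s', s = s' + 1 := ⟨s - 1, by omega⟩
  by_cases h1 : k < i
  · refine ⟨0, ?_, AddSubmonoid.zero_mem _⟩
    unfold GG
    rw [fall_eq_zero (a := k + 1 - 1) (k := i + 1 - 1) (by omega)]
    ring
  by_cases h2 : r < i + 1
  · refine ⟨0, ?_, AddSubmonoid.zero_mem _⟩
    unfold GG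
    rw [fall_eq_zero (a := r + 1 - 1) (k := i + 1) (by omega)]
    ring
  obtain ⟨m, rfl⟩ : ∃ m, k = i + m := ⟨k - i, by omega⟩
  obtain ⟨n, rfl⟩ : ∃ n, r = n + (i + 1) := ⟨r - (i + 1), by omega⟩
  obtain ⟨V, hV1, hV2⟩ := hDIV hm (s' + 1) (n + 1) (by omega) (by omega)
  have hVm := hV2 (((s' + 1 : ℕ) : ℤ) * (n + 1) + tr (s' + 1) - (s' + 1 : ℕ) - s') (by
    have := two_tr (s' + 1)
    push_cast at this ⊢
    linarith)
  refine ⟨V * (qX ^ (m + (s' + 1) * (i + 1)) * (fall (i + m) i * rise s' m)), ?_, ?_⟩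
  · unfold GG
    have e1 : i + m + 1 - (i + 1) = m := by omega
    have e2 : n + (i + 1) + 1 - (i + 1) = n + 1 := by omega
    rw [e1, e2, Nat.add_sub_cancel, Nat.add_sub_cancel, Nat.add_sub_cancel, Nat.add_sub_cancel]
    have e3 : QF s' * rise (s' + 1) (n + 1) = QF n * (Q (s' + 1) * V) := by
      rw [hV1, ← QF_add', ← QF_add']
      congr 1
      omega
    have e4 : fall (n + (i + 1)) (i + 1) * QF n = QF (n + (i + 1)) := fall_QF' n (i + 1)
    calc QF s' * qX ^ (m + (s' + 1) * (i + 1)) * fall (n + (i + 1)) (i + 1) * fall (i + m) i *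
          rise (s' + 1) (n + 1) * rise s' m
        = (QF s' * rise (s' + 1) (n + 1)) * fall (n + (i + 1)) (i + 1) *
          (qX ^ (m + (s' + 1) * (i + 1)) * (fall (i + m) i * rise s' m)) := by ring
      _ = (fall (n + (i + 1)) (i + 1) * QF n) * (Q (s' + 1) * V) *
          (qX ^ (m + (s' + 1) * (i + 1)) * (fall (i + m) i * rise s' m)) := by rw [e3]; ring
      _ = _ := by rw [e4]; ring
  · have f1 : fall (i + m) i ∈ PZ ((i : ℤ) * (i + m) - tr (i + 1)) := by
      refine (hFR hm).2.1 (i + m) i _ (by omega) ?_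
      have := two_tr (i + 1)
      push_cast at this ⊢
      linarith
    -- the factor `rise s' m`
    have f2 : rise s' m = 0 ∨ rise s' m ∈ PZ ((m : ℤ) * s' + tr m - m) := by
      rcases Nat.eq_zero_or_pos s' with h | h
      · rcases Nat.eq_zero_or_pos m with h' | h'
        · right
          subst h'
          rw [rise_zero, tr_zero]
          have : (1 : PX) = qX ^ 0 * Q 1 := by rw [Q_one, pow_zero, one_mul]
          rw [this]
          exact PZ_gen (by push_cast; ring)
        · left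
          rw [h]
          exact rise_zero_left h'
      · right
        refine (hFR hm).1 s' m _ h ?_
        have := two_tr m
        linarith
    rcases f2 with f2 | f2
    · rw [f2, mul_zero, mul_zero, mul_zero]
      exact AddSubmonoid.zero_mem _
    · have g1 := hm _ _ _ _ f1 f2
      have g2 := hp.2.2 _ (m + (s' + 1) * (i + 1)) _ g1
      have g3 := hm _ _ _ _ hVm g2
      have e5 : ((s' + 1 : ℕ) : ℤ) * (n + 1) + tr (s' + 1) - (s' + 1 : ℕ) - s' +
          ((i : ℤ) * (i + m) - tr (i + 1) + ((m : ℤ) * s' + tr m - m) +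
            2 * ((m + (s' + 1) * (i + 1) : ℕ) : ℤ)) =
          e0 (i + m) (s' + 1) (n + (i + 1)) + (((i + m : ℕ) : ℤ) + ((s' + 1 : ℕ) : ℤ) +
            ((n + (i + 1) : ℕ) : ℤ) + 2) := by
        have t1 := two_tr (s' + 1)
        have t2 := two_tr (i + 1)
        have t3 := two_tr m
        have t4 := two_tr (i + m + 1 + (s' + 1))
        have t5 := two_tr (n + (i + 1) + 1 + (s' + 1))
        have t6 := two_tr (n + (i + 1))
        unfold e0
        push_cast at t1 t2 t3 t4 t5 t6 ⊢
        apply mul_left_cancel₀ (two_ne_zero : (2 : ℤ) ≠ 0)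
        linear_combination 2 * t1 - t2 + t3 - t4 - t5 + t6
      rw [e5] at g3
      exact g3

end Pool.Agent.SWB
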