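import Pool.Agent.Lib.MP_263316_co.AB.Spec

/-!
MP_263316_co, part AB, task OL: linearity of the operator.
-/

set_option autoImplicit false

namespace Pool.Agent.SWB

open Finset Pool.Agent.SWC

namespace OLaux

theorem zk_lin (t : ℕ) (D D' : ℕ → PX) (a : PX) (α β : ℕ) :
    zk t (fun i => a * D i + D' i) α β = a * zk t D α β + zk t D' α β := by
  unfold zk
  rw [mul_sum, ← sum_add_distrib]
  exact sum_congr rfl fun j _ => by ring

theorem zk_congr (t : ℕ) (D D' : ℕ → PX) (h : ∀ j : ℕ, 1 ≤ j → D j = D' j) (α β : ℕ) :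
    zk t D α β = zk t D' α β := by
  unfold zk
  exact sum_congr rfl fun j hj => by rw [h j (mem_Ico.mp hj).1]

theorem perm12 {A : Type} [AddCommMonoid A] (M : ℕ) (f : ℕ → ℕ → ℕ → A) :
    ∑ p ∈ tri M, f p.1 p.2.1 p.2.2 = ∑ p ∈ tri M, f p.2.1 p.1 p.2.2 := by
  refine sum_bij' (fun p _ => (p.2.1, p.1, p.2.2)) (fun p _ => (p.2.1, p.1, p.2.2)) ?_ ?_ ?_ ?_ ?_
  · intro p hp
    rw [mem_tri] at hp ⊢
    show p.2.1 + p.1 + p.2.2 = M
    omega
  · intro p hp
    rw [mem_tri] at hp ⊢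
    show p.2.1 + p.1 + p.2.2 = M
    omega
  · exact fun _ _ => rfl
  · exact fun _ _ => rfl
  · exact fun _ _ => rfl

end OLaux

/-- Task OL. -/
theorem t_OL : S_OL := by
  refine ⟨?_, ?_, ?_⟩
  · intro N ν t c D D' g g' hD hg j
    unfold Op
    apply sum_congr rfl
    intro p hp
    rw [mem_tri] at hp
    have e : cf t D g c p.1 p.2.1 p.2.2 = cf t D' g' c p.1 p.2.1 p.2.2 := by
      unfold cf
      rw [OLaux.zk_congr t D D' hD]
      by_cases h : c < p.1
      · rw [hg (p.2.2 + 1) (by omega) (by omega)]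
      · simp only [if_neg h]
    rw [e]
  · intro N ν t c D D' g g' a j
    unfold Op
    rw [mul_sum, ← sum_add_distrib]
    apply sum_congr rfl
    intro p _
    have e : cf t (fun i => a * D i + D' i) (fun γ => a * g γ + g' γ) c p.1 p.2.1 p.2.2 =
        a * cf t D g c p.1 p.2.1 p.2.2 + cf t D' g' c p.1 p.2.1 p.2.2 := by
      unfold cf
      rw [OLaux.zk_lin]
      split_ifs <;> ring
    rw [e, map_add, map_mul]
    ring
  · intro N M a b h j
    have h1 := OLaux.perm12 M (fun α β γ => MvPolynomial.C (a α β γ) * es (xx N) α * es (xx N) β *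
      eh (qq N) (xx N) γ j)
    have h2 := OLaux.perm12 M (fun α β γ => MvPolynomial.C (b α β γ) * es (xx N) α * es (xx N) β *
      eh (qq N) (xx N) γ j)
    have h3 : (∑ p ∈ tri M, MvPolynomial.C (a p.1 p.2.1 p.2.2) * es (xx N) p.1 * es (xx N) p.2.1 *
        eh (qq N) (xx N) p.2.2 j) + (∑ p ∈ tri M, MvPolynomial.C (a p.2.1 p.1 p.2.2) *
        es (xx N) p.2.1 * es (xx N) p.1 * eh (qq N) (xx N) p.2.2 j) =
        (∑ p ∈ tri M, MvPolynomial.C (b p.1 p.2.1 p.2.2) * es (xx N) p.1 * es (xx N) p.2.1 *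
        eh (qq N) (xx N) p.2.2 j) + (∑ p ∈ tri M, MvPolynomial.C (b p.2.1 p.1 p.2.2) *
        es (xx N) p.2.1 * es (xx N) p.1 * eh (qq N) (xx N) p.2.2 j) := by
      rw [← sum_add_distrib, ← sum_add_distrib]
      apply sum_congr rfl
      intro p hp
      rw [mem_tri] at hp
      have e := congrArg (MvPolynomial.C : PX → AN N) (h p.1 p.2.1 p.2.2 hp)
      rw [map_add, map_add] at e
      linear_combination (es (xx N) p.1 * es (xx N) p.2.1 * eh (qq N) (xx N) p.2.2 j) * e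
    rw [← h1, ← h2, ← two_mul, ← two_mul] at h3
    exact mul_left_cancel₀ two_ne_zero h3

end Pool.Agent.SWB
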