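import Pool.Agent.Lib.MP_263316_co.AB.TriSum
import Pool.Agent.Lib.MP_263316_co.AB.OL

/-!
MP_263316_co, part AB, task OE: vertex attached on the left.
-/

set_option autoImplicit false

namespace Pool.Agent.SWB

open Finset Pool.Agent.SWC

namespace OEaux

theorem aff (t : ℕ) (D : ℕ → PX) (hD : ∀ j : ℕ, t ≤ 2 * j → D j = 0) :
    ∃ d p : ℕ → PX, ∀ α β, zk t D α β = Q α * d β - p β := by
  refine ⟨fun β => ∑ j ∈ Ico 1 t, D j * ((if β < j then 1 else 0) +
      (if t ≤ β + j then qX ^ (t - 2 * j) else 0)),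
    fun β => ∑ j ∈ Ico 1 t, D j * ((if β < j then Q (β + t - 2 * j) else 0) +
      (if t ≤ β + j then Q β - Q (t - 2 * j) else 0)), fun α β => ?_⟩
  unfold zk
  rw [mul_sum, ← sum_sub_distrib]
  refine sum_congr rfl fun j _ => ?_
  rcases lt_or_ge (2 * j) t with h | h
  · have h1 : Q (α + t - 2 * j) = Q (t - 2 * j) + qX ^ (t - 2 * j) * Q α := by
      rw [← Q_add]
      congr 1
      omega
    rw [h1]
    split_ifs <;> ring
  · rw [hD j h]
    ring

theorem zk_smul (t : ℕ) (D : ℕ → PX) (u : PX) (α β : ℕ) :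
    zk t (fun i => u * D i) α β = u * zk t D α β := by
  unfold zk
  rw [mul_sum]
  exact sum_congr rfl fun j _ => by ring

theorem at_one {A : Type} [AddCommMonoid A] (M a : ℕ) (ha : a ≤ M) (f : ℕ → ℕ → ℕ → A) :
    ∑ p ∈ tri M, (if p.1 = a then f p.1 p.2.1 p.2.2 else 0) =
      ∑ β ∈ range (M - a + 1), f a β (M - a - β) := by
  rw [TriSum.tri_sum M (fun α β γ => if α = a then f α β γ else 0), sum_eq_single a]
  · have hle : M - a + 1 ≤ M + 1 := by omega
    rw [TriSum.range_ite hle]
    apply sum_congr rfl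
    intro β _
    rw [if_pos rfl]
    by_cases h : a + β ≤ M
    · rw [if_pos h, if_pos (by omega : β < M - a + 1)]
    · rw [if_neg h, if_neg (by omega : ¬ β < M - a + 1)]
  · intro α _ hα
    apply sum_eq_zero
    intro β _
    rw [if_neg hα]
    split_ifs <;> rfl
  · intro h
    rw [mem_range] at h
    omega

theorem anti (N M : ℕ) (u : ℕ → ℕ → ℕ → PX) (h : ∀ α β γ : ℕ, α + β + γ = M →
    u α β γ + u β α γ = 0) (j : Fin N) :
    ∑ p ∈ tri M, MvPolynomial.C (u p.1 p.2.1 p.2.2) * es (xx N) p.1 * es (xx N) p.2.1 *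
        eh (qq N) (xx N) p.2.2 j = 0 := by
  rw [t_OL.2.2 N M u (fun _ _ _ => 0) (fun α β γ hh => by rw [h α β γ hh, add_zero]) j]
  apply sum_eq_zero
  intro p _
  rw [map_zero]
  ring

/-- Splitting a coefficient into an antisymmetric part and a part with a fixed first index. -/
theorem split (N M a : ℕ) (ha : a ≤ M) (f u : ℕ → ℕ → ℕ → PX) (v : ℕ → ℕ → PX)
    (h : ∀ α β γ : ℕ, α + β + γ = M → u α β γ + u β α γ = 0)
    (hf : ∀ α β γ : ℕ, α + β + γ = M → f α β γ = u α β γ + (if α = a then v β γ else 0))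
    (j : Fin N) :
    ∑ p ∈ tri M, MvPolynomial.C (f p.1 p.2.1 p.2.2) * es (xx N) p.1 * es (xx N) p.2.1 *
        eh (qq N) (xx N) p.2.2 j =
      ∑ β ∈ range (M - a + 1), MvPolynomial.C (v β (M - a - β)) * es (xx N) a * es (xx N) β *
        eh (qq N) (xx N) (M - a - β) j := by
  have e : ∀ p ∈ tri M, MvPolynomial.C (f p.1 p.2.1 p.2.2) * es (xx N) p.1 * es (xx N) p.2.1 *
        eh (qq N) (xx N) p.2.2 j =
      MvPolynomial.C (u p.1 p.2.1 p.2.2) * es (xx N) p.1 * es (xx N) p.2.1 *
        eh (qq N) (xx N) p.2.2 j + (if p.1 = a then MvPolynomial.C (v p.2.1 p.2.2) *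
        es (xx N) p.1 * es (xx N) p.2.1 * eh (qq N) (xx N) p.2.2 j else 0) := by
    intro p hp
    rw [mem_tri] at hp
    rw [hf p.1 p.2.1 p.2.2 hp, map_add]
    by_cases h1 : p.1 = a
    · rw [if_pos h1, if_pos h1]
      ring
    · rw [if_neg h1, if_neg h1, map_zero]
      ring
  rw [sum_congr rfl e, sum_add_distrib, anti N M u h j, zero_add]
  exact at_one M a ha (fun α β γ => MvPolynomial.C (v β γ) * es (xx N) α * es (xx N) β *
    eh (qq N) (xx N) γ j)

end OEaux

/-- Task OE. -/
theorem t_OE : S_OE := by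
  intro N ν t A c D g hν hD hz hg j
  obtain ⟨d, p, hdp⟩ := OEaux.aff t D hD
  have hF : Op N ν t D g 0 j = ∑ β ∈ range (ν + 1), MvPolynomial.C (Q β * g (ν - β + 1) + p β) *
      es (xx N) 0 * es (xx N) β * eh (qq N) (xx N) (ν - β) j := by
    unfold Op
    rw [OEaux.split N (0 + ν) 0 (Nat.zero_le _) (fun α β γ => cf t D g 0 α β γ)
      (fun α β γ => g (γ + 1) * (Q α - Q β) + (if γ = 0 then zk t D α β else 0))
      (fun β γ => Q β * g (γ + 1) + p β)]
    · rw [Nat.zero_add, Nat.sub_zero]
    · intro α β γ h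
      by_cases h1 : γ = 0
      · rw [if_pos h1, if_pos h1]
        have := hz α β (by omega)
        linear_combination this
      · rw [if_neg h1, if_neg h1]
        ring
    · intro α β γ h
      unfold cf
      by_cases h1 : α = 0
      · subst h1
        rw [if_neg (by omega : ¬ 0 < 0), if_neg (by omega : ¬ 0 < 0), if_pos rfl, hdp 0 β, Q_zero]
        by_cases h2 : γ = 0
        · rw [if_pos h2, if_neg (by omega : ¬ 0 < γ)]
          ring
        · rw [if_neg h2, if_pos (by omega : 0 < γ)]
          ring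
      · rw [if_pos (by omega : 0 < α), if_pos (by omega : 0 < α), if_neg h1]
        by_cases h2 : γ = 0
        · rw [if_pos h2, if_neg (by omega : ¬ 0 < γ)]
          ring
        · rw [if_neg h2, if_pos (by omega : 0 < γ)]
          ring
  set κ : PX := - zk t D A 0 with hκ
  have hG : Op N (ν + 1) t (fun i => Q A * D i) (fun γ => if γ = ν + 1 then κ else Q A * g γ) c j -
      MvPolynomial.C (Q A) * Op N ν t D g (c + 1) j =
      ∑ β ∈ range (ν + 1), MvPolynomial.C ((if ν - β = ν then κ else Q A * g (ν - β + 1)) *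
        (Q (c + 1) - Q β) + Q A * zk t D (c + 1) β) *
        es (xx N) (c + 1) * es (xx N) β * eh (qq N) (xx N) (ν - β) j := by
    unfold Op
    have e1 : c + 1 + ν = c + (ν + 1) := by omega
    rw [e1, mul_sum, ← sum_sub_distrib]
    have e2 : ∀ q ∈ tri (c + (ν + 1)),
        MvPolynomial.C (cf t (fun i => Q A * D i) (fun γ => if γ = ν + 1 then κ else Q A * g γ) c
          q.1 q.2.1 q.2.2) * es (xx N) q.1 * es (xx N) q.2.1 * eh (qq N) (xx N) q.2.2 j -
        MvPolynomial.C (Q A) * (MvPolynomial.C (cf t D g (c + 1) q.1 q.2.1 q.2.2) *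
          es (xx N) q.1 * es (xx N) q.2.1 * eh (qq N) (xx N) q.2.2 j) =
        MvPolynomial.C ((fun α β γ => cf t (fun i => Q A * D i)
          (fun γ => if γ = ν + 1 then κ else Q A * g γ) c α β γ -
            Q A * cf t D g (c + 1) α β γ) q.1 q.2.1 q.2.2) *
          es (xx N) q.1 * es (xx N) q.2.1 * eh (qq N) (xx N) q.2.2 j := by
      intro q _
      simp only
      rw [map_sub, map_mul]
      ring
    rw [sum_congr rfl e2, OEaux.split N (c + (ν + 1)) (c + 1) (by omega)
      (fun α β γ => cf t (fun i => Q A * D i)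
          (fun γ => if γ = ν + 1 then κ else Q A * g γ) c α β γ - Q A * cf t D g (c + 1) α β γ)
      (fun α β γ => if γ = c + 1 then - (Q A * zk t D α β) else 0)
      (fun β γ => (if γ = ν then κ else Q A * g (γ + 1)) *
        (Q (c + 1) - Q β) + Q A * zk t D (c + 1) β)]
    · have e3 : c + (ν + 1) - (c + 1) = ν := by omega
      rw [e3]
    · intro α β γ h
      by_cases h1 : γ = c + 1
      · rw [if_pos h1, if_pos h1]
        have := hz α β (by omega)
        linear_combination (-(Q A)) * this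
      · rw [if_neg h1, if_neg h1, add_zero]
    · intro α β γ h
      unfold cf
      rw [OEaux.zk_smul]
      beta_reduce
      have hγ : (if c < γ then (1 : PX) else 0) = (if c + 1 < γ then 1 else 0) +
          (if γ = c + 1 then 1 else 0) := by
        rcases lt_trichotomy γ (c + 1) with h1 | h1 | h1
        · rw [if_neg (by omega : ¬ c < γ), if_neg (by omega : ¬ c + 1 < γ),
            if_neg (by omega : ¬ γ = c + 1)]
          ring
        · rw [if_pos (by omega : c < γ), if_neg (by omega : ¬ c + 1 < γ), if_pos h1]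
          ring
        · rw [if_pos (by omega : c < γ), if_pos h1, if_neg (by omega : ¬ γ = c + 1)]
          ring
      have hγ2 : (if γ = c + 1 then - (Q A * zk t D α β) else 0) =
          (if γ = c + 1 then (1 : PX) else 0) * (- (Q A * zk t D α β)) := by
        split_ifs <;> ring
      rw [hγ, hγ2]
      rcases lt_trichotomy α (c + 1) with h1 | h1 | h1
      · rw [if_neg (by omega : ¬ c < α), if_neg (by omega : ¬ c < α),
          if_neg (by omega : ¬ c + 1 < α), if_neg (by omega : ¬ c + 1 < α),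
          if_neg (by omega : ¬ α = c + 1)]
        ring
      · rw [if_pos (by omega : c < α), if_pos (by omega : c < α),
          if_neg (by omega : ¬ c + 1 < α), if_neg (by omega : ¬ c + 1 < α), if_pos h1]
        have i1 : (γ + 1 = ν + 1) ↔ γ = ν := by omega
        rw [if_congr i1 rfl rfl, ← h1]
        ring
      · rw [if_pos (by omega : c < α), if_pos (by omega : c < α), if_pos h1, if_pos h1,
          if_neg (by omega : ¬ α = c + 1), if_neg (by omega : ¬ γ + 1 = ν + 1)]
        ring
  rw [← sub_eq_zero, ← neg_eq_zero, hF]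
  have hfin : (∑ β ∈ range (ν + 1), MvPolynomial.C ((if ν - β = ν then κ else
        Q A * g (ν - β + 1)) * (Q (c + 1) - Q β) + Q A * zk t D (c + 1) β) *
        es (xx N) (c + 1) * es (xx N) β * eh (qq N) (xx N) (ν - β) j) =
      (MvPolynomial.C (Q (c + 1)) - MvPolynomial.C (Q A)) * es (xx N) (c + 1) *
        ∑ β ∈ range (ν + 1), MvPolynomial.C (Q β * g (ν - β + 1) + p β) *
      es (xx N) 0 * es (xx N) β * eh (qq N) (xx N) (ν - β) j := by
    rw [mul_sum]
    apply sum_congr rfl
    intro β hβ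
    rw [mem_range] at hβ
    have key : (if ν - β = ν then κ else Q A * g (ν - β + 1)) * (Q (c + 1) - Q β) +
        Q A * zk t D (c + 1) β = (Q (c + 1) - Q A) * (Q β * g (ν - β + 1) + p β) := by
      rcases Nat.eq_zero_or_pos β with h0 | h0
      · subst h0
        rw [Nat.sub_zero, if_pos rfl, hκ, hdp A 0, hdp (c + 1) 0, Q_zero]
        ring
      · have h1 := hg β h0 (by omega)
        have e4 : ν + 1 - β = ν - β + 1 := by omega
        rw [e4, hdp A β] at h1
        rw [if_neg (by omega : ¬ ν - β = ν), hdp (c + 1) β]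
        linear_combination (-(Q (c + 1))) * h1
    rw [key, map_mul, map_sub, es_zero']
    ring
  rw [hfin] at hG
  linear_combination hG

end Pool.Agent.SWB
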