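import Pool.Agent.Lib.MP_263316_co.AB.Spec

/-!
MP_263316_co, part AB, task OK: the operator `Op`, a clique attached on the right.
-/

set_option autoImplicit false

namespace Pool.Agent.SWB

open Finset Pool.Agent.SWC

namespace OKM

private noncomputable def idc (c α : ℕ) : PX := if c < α then 1 else 0

private theorem cf_eq (t : ℕ) (D g : ℕ → PX) (c α β γ : ℕ) : cf t D g c α β γ =
    idc c α * (g (γ + 1) * (Q α - Q β)) + (idc c α - idc c γ) * zk t D α β := by
  unfold cf idc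
  split_ifs <;> ring

private theorem zk_smul (t : ℕ) (D : ℕ → PX) (u : PX) (α β : ℕ) :
    zk t (fun i => u * D i) α β = u * zk t D α β := by
  unfold zk
  rw [mul_sum]
  exact sum_congr rfl fun j _ => by ring

private theorem aff (t : ℕ) (D : ℕ → PX) (hD : ∀ j : ℕ, t ≤ 2 * j → D j = 0) (β : ℕ) :
    ∃ d p : PX, ∀ α, zk t D α β = Q α * d - p := by
  refine ⟨∑ j ∈ Ico 1 t, D j * ((if β < j then 1 else 0) +
      (if t ≤ β + j then qX ^ (t - 2 * j) else 0)),
    ∑ j ∈ Ico 1 t, D j * ((if β < j then Q (β + t - 2 * j) else 0) +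
      (if t ≤ β + j then Q β - Q (t - 2 * j) else 0)), fun α => ?_⟩
  unfold zk
  rw [mul_sum, ← sum_sub_distrib]
  refine sum_congr rfl fun j _ => ?_
  rcases lt_or_ge (2 * j) t with h | h
  · have h1 : Q (α + t - 2 * j) = Q (t - 2 * j) + qX ^ (t - 2 * j) * Q α := by
      rw [← Q_add]
      congr 1
      omega
    rw [h1]
    split_ifs <;> ring
  · rw [hD j h]
    ring

private theorem plu (t : ℕ) (D : ℕ → PX) (hD : ∀ j : ℕ, t ≤ 2 * j → D j = 0) (B α β m : ℕ) :
    zk t D B m * (Q α - Q β) = (Q α - Q B) * zk t D β m - (Q β - Q B) * zk t D α m := by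
  obtain ⟨d, p, h⟩ := aff t D hD m
  rw [h, h, h]
  ring

section sums

variable {A : Type} [AddCommMonoid A]

private theorem perm12 (M : ℕ) (f : ℕ → ℕ → ℕ → A) :
    ∑ p ∈ tri M, f p.1 p.2.1 p.2.2 = ∑ p ∈ tri M, f p.2.1 p.1 p.2.2 := by
  refine sum_bij' (fun p _ => (p.2.1, p.1, p.2.2)) (fun p _ => (p.2.1, p.1, p.2.2)) ?_ ?_ ?_ ?_ ?_
  · intro p hp
    rw [mem_tri] at hp ⊢
    show p.2.1 + p.1 + p.2.2 = M
    omega
  · intro p hp
    rw [mem_tri] at hp ⊢
    show p.2.1 + p.1 + p.2.2 = M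
    omega
  · exact fun _ _ => rfl
  · exact fun _ _ => rfl
  · exact fun _ _ => rfl

private theorem perm23 (M : ℕ) (f : ℕ → ℕ → ℕ → A) :
    ∑ p ∈ tri M, f p.1 p.2.1 p.2.2 = ∑ p ∈ tri M, f p.1 p.2.2 p.2.1 := by
  refine sum_bij' (fun p _ => (p.1, p.2.2, p.2.1)) (fun p _ => (p.1, p.2.2, p.2.1)) ?_ ?_ ?_ ?_ ?_
  · intro p hp
    rw [mem_tri] at hp ⊢
    show p.1 + p.2.2 + p.2.1 = M
    omega
  · intro p hp
    rw [mem_tri] at hp ⊢
    show p.1 + p.2.2 + p.2.1 = M
    omega
  · exact fun _ _ => rfl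
  · exact fun _ _ => rfl
  · exact fun _ _ => rfl

private theorem cyc (M : ℕ) (f : ℕ → ℕ → ℕ → A) :
    ∑ p ∈ tri M, f p.1 p.2.1 p.2.2 = ∑ p ∈ tri M, f p.2.2 p.1 p.2.1 := by
  rw [perm12, perm23 M fun a b c => f b a c]

private theorem shift (M : ℕ) (f : ℕ → ℕ → ℕ → A) :
    ∑ p ∈ tri M, f p.1 p.2.1 p.2.2 =
      ∑ p ∈ tri (M + 1), if p.2.2 = 0 then 0 else f p.1 p.2.1 (p.2.2 - 1) := by
  have h : ∑ p ∈ tri (M + 1), (if p.2.2 = 0 then 0 else f p.1 p.2.1 (p.2.2 - 1)) =
      ∑ p ∈ (tri (M + 1)).filter (fun p => ¬ p.2.2 = 0), f p.1 p.2.1 (p.2.2 - 1) := by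
    rw [sum_filter]
    refine sum_congr rfl fun p _ => ?_
    by_cases h : p.2.2 = 0
    · rw [if_pos h, if_neg (not_not.2 h)]
    · rw [if_neg h, if_pos h]
  rw [h]
  refine sum_bij' (fun p _ => (p.1, p.2.1, p.2.2 + 1)) (fun p _ => (p.1, p.2.1, p.2.2 - 1))
    ?_ ?_ ?_ ?_ ?_
  · intro p hp
    rw [mem_tri] at hp
    rw [mem_filter, mem_tri]
    refine ⟨?_, ?_⟩
    · show p.1 + p.2.1 + (p.2.2 + 1) = M + 1
      omega
    · show ¬ p.2.2 + 1 = 0
      omega
  · intro p hp
    rw [mem_filter, mem_tri] at hp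
    rw [mem_tri]
    show p.1 + p.2.1 + (p.2.2 - 1) = M
    omega
  · exact fun _ _ => rfl
  · rintro ⟨a, b, m⟩ hp
    rw [mem_filter] at hp
    have h1 : ¬ m = 0 := hp.2
    show (a, b, m - 1 + 1) = (a, b, m)
    rw [Nat.sub_add_cancel (by omega)]
  · exact fun _ _ => rfl

end sums

variable {N : ℕ}

private theorem anti (ν t c : ℕ) (D : ℕ → PX)
    (hz : ∀ α β : ℕ, α + β = ν → zk t D α β + zk t D β α = 0) (u : ℕ → PX) (w : ℕ → AN N) :
    ∑ p ∈ tri (c + ν + 1), (if p.2.2 = c + 1 then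
      MvPolynomial.C (u p.2.2 * zk t D p.1 p.2.1) * (es (xx N) p.1 * es (xx N) p.2.1 * w p.2.2)
        else 0) = (0 : AN N) := by
  have h1 := perm12 (c + ν + 1) fun α β m => (if m = c + 1 then
      MvPolynomial.C (u m * zk t D α β) * (es (xx N) α * es (xx N) β * w m) else (0 : AN N))
  have h2 : ∑ p ∈ tri (c + ν + 1), (if p.2.2 = c + 1 then
      MvPolynomial.C (u p.2.2 * zk t D p.2.1 p.1) * (es (xx N) p.2.1 * es (xx N) p.1 * w p.2.2)
        else (0 : AN N)) = - ∑ p ∈ tri (c + ν + 1), (if p.2.2 = c + 1 then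
      MvPolynomial.C (u p.2.2 * zk t D p.1 p.2.1) * (es (xx N) p.1 * es (xx N) p.2.1 * w p.2.2)
        else (0 : AN N)) := by
    rw [← sum_neg_distrib]
    refine sum_congr rfl fun p hp => ?_
    rw [mem_tri] at hp
    by_cases h : p.2.2 = c + 1
    · rw [if_pos h, if_pos h]
      have h3 : zk t D p.2.1 p.1 = - zk t D p.1 p.2.1 :=
        eq_neg_of_add_eq_zero_left (hz _ _ (by omega))
      rw [h3, mul_neg, map_neg]
      ring
    · rw [if_neg h, if_neg h, neg_zero]
  have h3 := h1.trans h2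
  have h4 := eq_neg_iff_add_eq_zero.1 h3
  rw [← two_mul] at h4
  rcases mul_eq_zero.1 h4 with h5 | h5
  · exact absurd h5 two_ne_zero
  · exact h5

/-- the coefficients of `eh 0` -/
private noncomputable def F (t : ℕ) (D : ℕ → PX) (B c α β m : ℕ) : PX :=
  idc c α * (zk t D B m * (Q α - Q β)) + (Q m - Q B) * ((idc c α - idc (c + 1) m) * zk t D α β)

private theorem idc_succ (c m : ℕ) : idc (c + 1) m = idc c m - (if m = c + 1 then 1 else 0) := by
  unfold idc
  rcases lt_trichotomy m (c + 1) with h | h | h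
  · rw [if_neg (by omega), if_neg (by omega), if_neg (by omega)]; ring
  · rw [if_neg (by omega), if_pos (by omega), if_pos h]; ring
  · rw [if_pos (by omega), if_pos (by omega), if_neg (by omega)]; ring

private theorem sumF (ν t B c : ℕ) (D : ℕ → PX) (hD : ∀ j : ℕ, t ≤ 2 * j → D j = 0)
    (hz : ∀ α β : ℕ, α + β = ν → zk t D α β + zk t D β α = 0) :
    ∑ p ∈ tri (c + ν + 1), MvPolynomial.C (F t D B c p.1 p.2.1 p.2.2) *
      (es (xx N) p.1 * es (xx N) p.2.1 * es (xx N) p.2.2) = (0 : AN N) := by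
  have h1 := cyc (c + ν + 1) fun α β m => MvPolynomial.C (idc c α * ((Q α - Q B) * zk t D β m)) *
      (es (xx N) α * es (xx N) β * es (xx N) m)
  have h2 := perm23 (c + ν + 1) fun α β m =>
      MvPolynomial.C (idc c α * ((Q β - Q B) * zk t D α m)) *
      (es (xx N) α * es (xx N) β * es (xx N) m)
  have h3 := anti (N := N) ν t c D hz (fun m => Q m - Q B) fun m => es (xx N) m
  have h4 : ∀ p ∈ tri (c + ν + 1), MvPolynomial.C (F t D B c p.1 p.2.1 p.2.2) *
      (es (xx N) p.1 * es (xx N) p.2.1 * es (xx N) p.2.2) =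
      (MvPolynomial.C (idc c p.1 * ((Q p.1 - Q B) * zk t D p.2.1 p.2.2)) *
        (es (xx N) p.1 * es (xx N) p.2.1 * es (xx N) p.2.2) -
      MvPolynomial.C (idc c p.2.2 * ((Q p.2.2 - Q B) * zk t D p.1 p.2.1)) *
        (es (xx N) p.2.2 * es (xx N) p.1 * es (xx N) p.2.1)) -
      (MvPolynomial.C (idc c p.1 * ((Q p.2.1 - Q B) * zk t D p.1 p.2.2)) *
        (es (xx N) p.1 * es (xx N) p.2.1 * es (xx N) p.2.2) -
      MvPolynomial.C (idc c p.1 * ((Q p.2.2 - Q B) * zk t D p.1 p.2.1)) *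
        (es (xx N) p.1 * es (xx N) p.2.2 * es (xx N) p.2.1)) +
      (if p.2.2 = c + 1 then MvPolynomial.C ((Q p.2.2 - Q B) * zk t D p.1 p.2.1) *
        (es (xx N) p.1 * es (xx N) p.2.1 * es (xx N) p.2.2) else (0 : AN N)) := by
    intro p _
    unfold F
    rw [plu t D hD, idc_succ]
    by_cases h : p.2.2 = c + 1
    · rw [if_pos h, if_pos h]
      simp only [map_mul, map_add, map_sub, map_one]
      ring
    · rw [if_neg h, if_neg h]
      simp only [map_mul, map_add, map_sub, map_zero]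
      ring
  rw [sum_congr rfl h4, sum_add_distrib, sum_sub_distrib, sum_sub_distrib, sum_sub_distrib,
    h1, h2, h3]
  ring

end OKM

open OKM in
theorem t_OK : S_OK := by
  intro N ν t B c D g hD hz hg j
  unfold Op
  rw [shift (c + ν) fun α β γ => MvPolynomial.C (cf t D g c α β γ) * es (xx N) α *
    es (xx N) β * (MvPolynomial.C (Q B) * eh (qq N) (xx N) (γ + 1) j +
      (MvPolynomial.C (Q (γ + 1)) - MvPolynomial.C (Q B)) * es (xx N) (γ + 1) *
        eh (qq N) (xx N) 0 j)]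
  rw [← sub_eq_zero, show c + (ν + 1) = c + ν + 1 from rfl, ← sum_sub_distrib]
  have h1 := anti (N := N) ν t c D hz (fun _ => Q B) fun m => eh (qq N) (xx N) m j
  have h2 := sumF (N := N) ν t B c D hD hz
  have h3 : ∀ p ∈ tri (c + ν + 1), (if p.2.2 = 0 then 0 else
      MvPolynomial.C (cf t D g c p.1 p.2.1 (p.2.2 - 1)) * es (xx N) p.1 * es (xx N) p.2.1 *
        (MvPolynomial.C (Q B) * eh (qq N) (xx N) (p.2.2 - 1 + 1) j +
      (MvPolynomial.C (Q (p.2.2 - 1 + 1)) - MvPolynomial.C (Q B)) * es (xx N) (p.2.2 - 1 + 1) *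
        eh (qq N) (xx N) 0 j)) -
      MvPolynomial.C (cf t (fun i => Q B * D i)
        (fun γ => if γ = 1 then - zk t D B 0 else Q B * g (γ - 1)) c p.1 p.2.1 p.2.2) *
        es (xx N) p.1 * es (xx N) p.2.1 * eh (qq N) (xx N) p.2.2 j =
      (if p.2.2 = c + 1 then MvPolynomial.C (Q B * zk t D p.1 p.2.1) *
        (es (xx N) p.1 * es (xx N) p.2.1 * eh (qq N) (xx N) p.2.2 j) else 0) +
      eh (qq N) (xx N) 0 j * (MvPolynomial.C (F t D B c p.1 p.2.1 p.2.2) *
        (es (xx N) p.1 * es (xx N) p.2.1 * es (xx N) p.2.2)) := by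
    rintro ⟨α, β, m⟩ hp
    rw [mem_tri] at hp
    simp only at hp ⊢
    rw [cf_eq, cf_eq, zk_smul]
    cases m with
    | zero =>
      rw [if_pos rfl, if_neg (by omega : ¬ 0 = c + 1), if_pos rfl, es_zero']
      have e1 : idc c 0 = 0 := if_neg (by omega)
      have e2 : idc (c + 1) 0 = 0 := if_neg (by omega)
      unfold F
      rw [e1, e2, Q_zero]
      simp only [map_mul, map_add, map_sub, map_neg, map_zero]
      ring
    | succ m =>
      rw [if_neg (Nat.succ_ne_zero m), Nat.add_sub_cancel, if_neg (by omega : ¬ m + 1 + 1 = 1),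
        Nat.add_sub_cancel]
      have e0 : idc c α * ((Q (m + 1) - Q B) * g (m + 1)) = idc c α * zk t D B (m + 1) := by
        unfold idc
        by_cases h : c < α
        · rw [hg (m + 1) (by omega) (by omega)]
        · rw [if_neg h, zero_mul, zero_mul]
      have e1 : idc (c + 1) (m + 1) = idc c m := by
        unfold idc
        by_cases h : c < m
        · rw [if_pos h, if_pos (by omega)]
        · rw [if_neg h, if_neg (by omega)]
      have e2 : idc c (m + 1) = idc c m + (if m + 1 = c + 1 then 1 else 0) := by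
        rw [← e1, idc_succ]
        ring
      have e3 : F t D B c α β (m + 1) = (Q (m + 1) - Q B) *
          (idc c α * (g (m + 1) * (Q α - Q β)) + (idc c α - idc c m) * zk t D α β) := by
        unfold F
        rw [e1]
        calc _ = (idc c α * zk t D B (m + 1)) * (Q α - Q β) +
              (Q (m + 1) - Q B) * ((idc c α - idc c m) * zk t D α β) := by ring
          _ = _ := by rw [← e0]; ring
      rw [e3, e2]
      by_cases h : m + 1 = c + 1
      · rw [if_pos h, if_pos h]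
        simp only [map_mul, map_add, map_sub, map_one]
        ring
      · rw [if_neg h, if_neg h]
        simp only [map_mul, map_add, map_sub, map_zero]
        ring
  rw [sum_congr rfl h3, sum_add_distrib, h1, ← mul_sum, h2]
  ring

end Pool.Agent.SWB
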