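import Pool.Agent.Lib.MP_263316_co.AB.Spec

/-!
MP_263316_co, AB/PL: board polynomials are lawful (task of helper89, by helper77)
-/

set_option autoImplicit false

namespace Pool.Agent.SWB

open Finset Pool.Agent.SWC

namespace PLaux

/-- the product of the factors `j ∈ s` -/
noncomputable def pr (s : Finset ℕ) (L : ℕ) (h : ℕ → ℕ) (u : PX) : PX :=
  ∏ i ∈ s, (u - qX ^ (i + L - h i))

theorem pr_erase {s : Finset ℕ} {i : ℕ} (hi : i ∈ s) (L : ℕ) (h : ℕ → ℕ) (u : PX) :
    pr s L h u = (u - qX ^ (i + L - h i)) * pr (s.erase i) L h u :=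
  (mul_prod_erase s _ hi).symm

theorem pr_congr {s : Finset ℕ} {L : ℕ} {h h' : ℕ → ℕ} {u : PX} (H : ∀ i ∈ s, h i = h' i) :
    pr s L h u = pr s L h' u :=
  prod_congr rfl fun i hi => by rw [H i hi]

theorem pr_update {s : Finset ℕ} {i : ℕ} (hi : i ∈ s) (L : ℕ) (h : ℕ → ℕ) (b : ℕ) (u : PX) :
    pr s L (Function.update h i b) u = (u - qX ^ (i + L - b)) * pr (s.erase i) L h u := by
  rw [pr_erase hi, Function.update_self]
  congr 1
  refine pr_congr fun j hj => ?_
  rw [Function.update_of_ne (ne_of_mem_erase hj)]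

theorem Ph_eq (n L : ℕ) (h : ℕ → ℕ) (u : PX) : Ph n L h u = pr (range n) L h u := rfl

end PLaux

open PLaux in
/-- TASK PL. -/
theorem t_PL : S_PL := by
  intro N n w L u hwL
  refine ⟨fun h h' H => ?_, fun h i a hB hi ha h1 h2 _ => ?_, fun h i a hB hi h1 ha ha' => ?_⟩
  · change (MvPolynomial.C (Ph n L h u) : AN N) = MvPolynomial.C (Ph n L h' u)
    rw [Ph_eq, Ph_eq, pr_congr fun i hi => H i (mem_range.1 hi)]
  · change (1 + qq N) * (MvPolynomial.C (Ph n L h u) : AN N) =
      qq N * MvPolynomial.C (Ph n L (Function.update h i (a + 1)) u) +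
        MvPolynomial.C (Ph n L (Function.update h i (a - 1)) u)
    rw [qq_eq, ← map_one (MvPolynomial.C : PX →+* AN N), ← map_add, ← map_mul, ← map_mul, ← map_add]
    congr 1
    rw [Ph_eq, Ph_eq, Ph_eq, pr_update (mem_range.2 hi), pr_update (mem_range.2 hi),
      pr_erase (mem_range.2 hi), ha]
    obtain ⟨e, he⟩ : ∃ e, i + L - a = e + 1 := ⟨i + L - a - 1, by omega⟩
    rw [he, show i + L - (a + 1) = e by omega, show i + L - (a - 1) = e + 2 by omega]
    ring
  · change (1 + qq N) * (MvPolynomial.C (Ph n L h u) : AN N) =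
      qq N * MvPolynomial.C (Ph n L (Function.update h i a) u) +
        MvPolynomial.C (Ph n L (Function.update h (i + 1) (a - 1)) u)
    rw [qq_eq, ← map_one (MvPolynomial.C : PX →+* AN N), ← map_add, ← map_mul, ← map_mul, ← map_add]
    congr 1
    have hi0 : i ∈ range n := mem_range.2 (by omega)
    have hi1 : i + 1 ∈ range n := mem_range.2 hi
    have haw : a ≤ w := by
      rw [← ha']
      exact hB.2 (i + 1) hi
    have e0 : i + 1 ∈ (range n).erase i := mem_erase.2 ⟨by omega, hi1⟩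
    have e1 : i ∈ (range n).erase (i + 1) := mem_erase.2 ⟨by omega, hi0⟩
    rw [Ph_eq, Ph_eq, Ph_eq, pr_update hi0, pr_update hi1, pr_erase hi0, pr_erase e0,
      pr_erase e1, erase_right_comm, ha, ha']
    obtain ⟨e, he⟩ : ∃ e, i + L - a = e := ⟨_, rfl⟩
    rw [he, show i + L - (a - 1) = e + 1 by omega, show i + 1 + L - a = e + 1 by omega,
      show i + 1 + L - (a - 1) = e + 2 by omega]
    ring

end Pool.Agent.SWB
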