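import Pool.Agent.Lib.MP_263316_co.AB.Spec

/-!
MP_263316_co, part AB: the operator `Op` maps into the marked cone (S_POS).
-/

set_option autoImplicit false

namespace Pool.Agent.SWB

open Finset Pool.Agent.SWC

/-- a term of the operator -/
private noncomputable def Gt (N : ℕ) (a : PX) (p : ℕ × ℕ × ℕ) (j : Fin N) : AN N :=
  MvPolynomial.C a * es (xx N) p.1 * es (xx N) p.2.1 * eh (qq N) (xx N) p.2.2 j

private theorem Gt_mem (hp : S_PZp) {N ν t c E : ℕ} {e : ℤ} (he : e = E - ν + 1 - t)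
    {a : PX} {p : ℕ × ℕ × ℕ} (hs : p.1 + p.2.1 + p.2.2 = c + ν)
    (h : a ∈ PZ (e + t + p.1 + p.2.1 - 1)) : Gt N a p ∈ MCone N (c + ν + 1) (c + E) := by
  rcases hp.1 _ a h with rfl | ⟨d, hd, hpd⟩
  · have h0 : Gt N 0 p = 0 := by
      funext j
      simp [Gt]
    rw [h0]
    exact (MCone _ _ _).zero_mem
  · refine AddSubmonoid.subset_closure ⟨p.1 + p.2.1, d, p.2.2,
      MvPolynomial.C a * es (xx N) p.1 * es (xx N) p.2.1, ?_, by omega, by omega, rfl⟩
    refine AddSubmonoid.subset_closure ⟨{p.1, p.2.1}, a, by simp, hpd, ?_⟩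
    simp [mul_assoc]

/-- exchange of the first two coordinates -/
private def sw (p : ℕ × ℕ × ℕ) : ℕ × ℕ × ℕ := (p.2.1, p.1, p.2.2)

private theorem sum_split {A : Type} [AddCommMonoid A] (M : ℕ) (f : ℕ × ℕ × ℕ → A) :
    ∑ p ∈ tri M, f p = ∑ p ∈ tri M, ((if p.2.1 < p.1 then f p + f (sw p) else 0) +
      (if p.1 = p.2.1 then f p else 0)) := by
  have h1 : ∑ p ∈ tri M, (if p.1 < p.2.1 then f p else 0) =
      ∑ p ∈ tri M, (if p.2.1 < p.1 then f (sw p) else 0) := by
    refine Finset.sum_nbij' sw sw ?_ ?_ ?_ ?_ ?_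
    · intro p hp
      rw [mem_tri] at hp ⊢
      simp only [sw]
      omega
    · intro p hp
      rw [mem_tri] at hp ⊢
      simp only [sw]
      omega
    · intro p _
      rfl
    · intro p _
      rfl
    · intro p _
      rfl
  have h2 : ∑ p ∈ tri M, f p = ∑ p ∈ tri M, ((if p.2.1 < p.1 then f p else 0) +
      (if p.1 = p.2.1 then f p else 0)) + ∑ p ∈ tri M, (if p.1 < p.2.1 then f p else 0) := by
    rw [← sum_add_distrib]
    refine sum_congr rfl fun p _ => ?_
    rcases lt_trichotomy p.1 p.2.1 with h | h | h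
    · rw [if_neg (by omega), if_neg (by omega), if_pos h]
      simp
    · rw [if_neg (by omega), if_pos h, if_neg (by omega)]
      simp
    · rw [if_pos h, if_neg (by omega), if_neg (by omega)]
      simp
  rw [h2, h1, ← sum_add_distrib]
  refine sum_congr rfl fun p _ => ?_
  split_ifs
  · abel
  · abel
  · abel
  · abel

theorem t_POS : S_POS := by
  intro hp ha hb hc hm hi N ν t J c E e D g ht hD he
  have e1 : Op N ν t D g c = ∑ p ∈ tri (c + ν), Gt N (cf t D g c p.1 p.2.1 p.2.2) p := by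
    funext j
    rw [Finset.sum_apply]
    rfl
  rw [e1, sum_split]
  refine AddSubmonoid.sum_mem _ fun p hpM => ?_
  rw [mem_tri] at hpM
  refine (MCone _ _ _).add_mem ?_ ?_
  · split_ifs with h
    · have e2 : Gt N (cf t D g c p.1 p.2.1 p.2.2) p +
          Gt N (cf t D g c (sw p).1 (sw p).2.1 (sw p).2.2) (sw p) =
          Gt N (cf t D g c p.1 p.2.1 p.2.2 + cf t D g c p.2.1 p.1 p.2.2) p := by
        funext j
        simp only [Gt, sw, Pi.add_apply, map_add]
        ring
      rw [e2]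
      refine Gt_mem hp he hpM ?_
      rcases Nat.lt_or_ge c p.1 with h1 | h1
      · rcases Nat.lt_or_ge c p.2.1 with h2 | h2
        · exact (hb hm hp hi ν t J c p.1 p.2.1 p.2.2 e D g ht hD hpM h2 h1).1 h
        · exact ha hm ν t J c p.1 p.2.1 p.2.2 e D g ht hD hpM h2 h1
      · exact (hc hm hp hi ν t J c p.1 p.2.1 p.2.2 e D g ht hD hpM (by omega) h1).1 h
    · exact (MCone _ _ _).zero_mem
  · split_ifs with h
    · refine Gt_mem hp he hpM ?_
      rcases Nat.lt_or_ge c p.1 with h1 | h1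
      · exact (hb hm hp hi ν t J c p.1 p.2.1 p.2.2 e D g ht hD hpM (by omega) h1).2 h
      · exact (hc hm hp hi ν t J c p.1 p.2.1 p.2.2 e D g ht hD hpM (by omega) h1).2 h
    · exact (MCone _ _ _).zero_mem

end Pool.Agent.SWB
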