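import Pool.Agent.Lib.MP_263316_co.AB.Spec
import Pool.Agent.Lib.MP_263316_co.PUmul

/-!
MP_263316_co, AB/PZm: products of centred unimodal polynomials, integer index.
-/

set_option autoImplicit false

namespace Pool.Agent.SWB

open Finset Pool.Agent.SWC

namespace PZmAux

theorem gen {z z' : ℤ} {i k i' k' : ℕ} (h : 2 * (i : ℤ) + k = z + 1)
    (h' : 2 * (i' : ℤ) + k' = z' + 1) (hk : k ≤ k') :
    (Polynomial.X ^ i * qn (Polynomial.X : Polynomial ℤ) k) *
      (Polynomial.X ^ i' * qn (Polynomial.X : Polynomial ℤ) k') ∈ PZ (z + z') := by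
  have h1 : (Polynomial.X ^ i * qn (Polynomial.X : Polynomial ℤ) k) *
      (Polynomial.X ^ i' * qn (Polynomial.X : Polynomial ℤ) k') =
      ∑ r ∈ range k, Polynomial.X ^ (i + i' + r) *
        qn (Polynomial.X : Polynomial ℤ) (k + k' - 1 - 2 * r) := by
    have h2 : (Polynomial.X ^ i * qn (Polynomial.X : Polynomial ℤ) k) *
        (Polynomial.X ^ i' * qn (Polynomial.X : Polynomial ℤ) k') =
        Polynomial.X ^ (i + i') *
          (qn (Polynomial.X : Polynomial ℤ) k * qn (Polynomial.X : Polynomial ℤ) k') := by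
      rw [pow_add]
      ring
    rw [h2, PUmulAux.qn_mul _ k k' hk, Finset.mul_sum]
    refine Finset.sum_congr rfl fun r _ => ?_
    rw [pow_add Polynomial.X (i + i') r]
    ring
  rw [h1]
  refine AddSubmonoid.sum_mem _ fun r hr => ?_
  have hr' : r < k := Finset.mem_range.1 hr
  refine AddSubmonoid.subset_closure ⟨i + i' + r, k + k' - 1 - 2 * r, ?_, rfl⟩
  omega

end PZmAux

theorem t_PZm : S_PZm := by
  intro z z' p p' hp hp'
  refine AddSubmonoid.closure_induction (motive := fun p _ => p * p' ∈ PZ (z + z')) ?_ ?_ ?_ hp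
  · rintro p ⟨i, k, h, rfl⟩
    refine AddSubmonoid.closure_induction
      (motive := fun p' _ => (Polynomial.X ^ i * qn (Polynomial.X : Polynomial ℤ) k) * p' ∈
        PZ (z + z')) ?_ ?_ ?_ hp'
    · rintro p' ⟨i', k', h', rfl⟩
      rcases le_total k k' with hk | hk
      · exact PZmAux.gen h h' hk
      · rw [mul_comm, add_comm z z']
        exact PZmAux.gen h' h hk
    · rw [mul_zero]
      exact AddSubmonoid.zero_mem _
    · intro a b _ _ ha hb
      rw [mul_add]
      exact AddSubmonoid.add_mem _ ha hb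
  · rw [zero_mul]
    exact AddSubmonoid.zero_mem _
  · intro a b _ _ ha hb
    rw [add_mul]
    exact AddSubmonoid.add_mem _ ha hb

end Pool.Agent.SWB
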