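import Pool.Agent.Lib.MP_263316_co.AB.Spec

/-!
MP_263316_co, AB/R0: graph relation R0 (task of helper89, by helper77)
-/

set_option autoImplicit false

namespace Pool.Agent.SWB

open Finset Pool.Agent.SWC

namespace R0aux

/-- the first chain of graphs -/
def muR (A S B i v : ℕ) : ℕ := if v < A - i then A + S - 1 else if v < A then A + S else A + S + B - 1

/-- the second chain of graphs -/
def la (A S B s v : ℕ) : ℕ :=
  if v < A - 1 then A + S - 1 else if v = A - 1 then A + S - 1 + s else A + S + B - 1

theorem muR_zero {A S B : ℕ} : muR A S B 0 = mM A S B := by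
  funext v
  unfold muR mM
  split_ifs <;> omega

theorem muR_last {A S B : ℕ} (hA : 2 ≤ A) (hB : 2 ≤ B) : muR A S B (A - 1) = mH (B - 1) 1 S (A - 1) := by
  funext v
  unfold muR mH
  split_ifs <;> omega

theorem la_zero {A S B : ℕ} (hA : 2 ≤ A) : la A S B 0 = mM A S B := by
  funext v
  unfold la mM
  split_ifs <;> omega

theorem la_one {A S B : ℕ} (hA : 2 ≤ A) : la A S B 1 = muR A S B 1 := by
  funext v
  unfold la muR
  split_ifs <;> omega

theorem la_last {A S B : ℕ} (hA : 2 ≤ A) (hB : 2 ≤ B) : la A S B (B - 1) = mG (A - 1) 1 S (B - 1) := by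
  funext v
  unfold la mG
  split_ifs <;> omega

end R0aux

open R0aux in
/-- TASK R0. -/
theorem t_R0 : S_R0 := by
  intro hLC hLR hCH _ N A S B c hA hB j
  set w : ℕ → Fin N → AN N := fun v k => (if v = 0 then eh (qq N) (xx N) c k else xx N k) *
    (if v = A + S + B - 1 then (if k = j then 1 else 0) else 1) with hw
  have hTQ : ∀ m, TQ N m (A + S + B) c j = Z m (qq N) (range (A + S + B)) w := fun m => rfl
  have hww : ∀ a, 1 ≤ a → a + 1 < A + S + B - 1 → ∀ k, w a k = w (a + 1) k := by
    intro a h1 h2 k
    rw [hw]
    simp only
    rw [if_neg (by omega), if_neg (by omega), if_neg (by omega), if_neg (by omega)]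
  have h1 := (hCH (AN N) (qq N) (fun i => Z (muR A S B i) (qq N) (range (A + S + B)) w) (A - 1)).1
    (by
      intro i hi
      refine hLR (AN N) N (muR A S B i) (muR A S B (i + 1)) (muR A S B (i + 2)) (qq N) _ w
        (A - i - 2) (A + S) (mem_range.2 (by omega)) (mem_range.2 (by omega))
        (mem_range.2 (by omega)) (by omega) (hww _ (by omega) (by omega)) ?_ ?_ ?_ ?_ ?_ ?_ ?_ ?_ ?_
      · intro u _ h1 h2
        unfold muR
        split_ifs <;> omega
      · intro u _ h1 h2
        unfold muR
        split_ifs <;> omega
      · unfold muR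
        split_ifs <;> omega
      · unfold muR
        split_ifs <;> omega
      · unfold muR
        split_ifs <;> omega
      · unfold muR
        split_ifs <;> omega
      · unfold muR
        split_ifs <;> omega
      · unfold muR
        split_ifs <;> omega
      · intro u _ h1
        unfold muR
        split_ifs <;> omega) (A - 1) le_rfl (by omega)
  have h2 := (hCH (AN N) (qq N) (fun s => Z (la A S B s) (qq N) (range (A + S + B)) w) (B - 1)).1
    (by
      intro s hs
      refine hLC (AN N) N (la A S B s) (la A S B (s + 1)) (la A S B (s + 2)) (qq N) _ w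
        (A - 1) (A + S + s) (mem_range.2 (by omega)) (mem_range.2 (by omega))
        (mem_range.2 (by omega)) (by omega) (hww _ (by omega) (by omega)) ?_ ?_ ?_ ?_ ?_ ?_ ?_ ?_
      · intro u _ h1
        unfold la
        split_ifs <;> omega
      · intro u _ h1
        unfold la
        split_ifs <;> omega
      · unfold la
        split_ifs <;> omega
      · unfold la
        split_ifs <;> omega
      · unfold la
        split_ifs <;> omega
      · intro u _ h1 h2
        unfold la
        split_ifs <;> omega
      · unfold la
        split_ifs <;> omega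
      · unfold la
        split_ifs <;> omega) (B - 1) le_rfl (by omega)
  rw [muR_zero, muR_last hA hB, qn_qq] at h1
  rw [la_zero hA, la_one hA, la_last hA hB, qn_qq] at h2
  rw [hTQ, hTQ, hTQ, h1, h2]
  ring

end Pool.Agent.SWB
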