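import Pool.Agent.Lib.MP_263316_co.AB.Spec

/-!
MP_263316_co, part AB, task R2: graph relation R2.
-/

set_option autoImplicit false

namespace Pool.Agent.SWB

open Finset Pool.Agent.SWC

/-- Task R2. -/
theorem t_R2 : S_R2 := by
  intro hLC hCH N X Y S Z' c hX j
  rcases Nat.eq_zero_or_pos (Y + S) with h0 | h0
  · have hY : Y = 0 := by omega
    have hS : S = 0 := by omega
    subst hY hS
    simp only [Nat.add_zero, Q_zero, map_zero, mul_zero, zero_mul, add_zero]
  set w : ℕ → Fin N → AN N := fun v k => (if v = 0 then eh (qq N) (xx N) c k else xx N k) *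
    (if v = X + Y + S + Z' + 1 - 1 then (if k = j then 1 else 0) else 1) with hw
  have hTQ : ∀ m, TQ N m (X + Y + S + Z' + 1) c j =
      Z m (qq N) (range (X + Y + S + Z' + 1)) w := fun m => rfl
  have hww : ∀ a, 1 ≤ a → a + 1 < X + Y + S + Z' → ∀ k, w a k = w (a + 1) k := by
    intro a h1 h2 k
    rw [hw]
    simp only
    rw [if_neg (by omega), if_neg (by omega), if_neg (by omega), if_neg (by omega)]
  have h1 := (hCH (AN N) (qq N) (fun i => Z (mH X (Y + S - i) i Z') (qq N)
    (range (X + Y + S + Z' + 1)) w) (Y + S)).1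
    (by
      intro i hi
      refine hLC (AN N) N (mH X (Y + S - i) i Z') (mH X (Y + S - (i + 1)) (i + 1) Z')
        (mH X (Y + S - (i + 2)) (i + 2) Z') (qq N) _ w
        0 (Z' + i + 1) (mem_range.2 (by omega)) (mem_range.2 (by omega))
        (mem_range.2 (by omega)) (by omega) (hww _ (by omega) (by omega)) ?_ ?_ ?_ ?_ ?_ ?_ ?_ ?_
      · intro u _ h1
        unfold mH
        split_ifs <;> omega
      · intro u _ h1
        unfold mH
        split_ifs <;> omega
      · unfold mH
        split_ifs <;> omega
      · unfold mH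
        split_ifs <;> omega
      · unfold mH
        split_ifs <;> omega
      · intro u _ h1 h2
        unfold mH
        split_ifs <;> omega
      · unfold mH
        rw [if_neg (by omega), if_neg (by omega)]
        omega
      · unfold mH
        rw [if_neg (by omega), if_neg (by omega), if_neg (by omega), if_neg (by omega)])
  have h2 := h1 S (by omega) h0
  have h3 := h1 (Y + S) (le_refl _) h0
  simp only [Nat.add_sub_cancel, Nat.sub_zero, Nat.sub_self, qn_qq] at h2 h3
  rw [hTQ, hTQ, hTQ]
  have e : Q (Y + S) = Q S + qX ^ S * Q Y := by rw [Nat.add_comm, Q_add]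
  have e2 : (MvPolynomial.C (Q (Y + S)) : AN N) = MvPolynomial.C (Q S) +
      MvPolynomial.C (qX ^ S * Q Y) := by rw [e, map_add]
  rw [e2] at h3 ⊢
  linear_combination (MvPolynomial.C (Q S) + MvPolynomial.C (qX ^ S * Q Y)) * h2 -
    MvPolynomial.C (Q S) * h3

end Pool.Agent.SWB
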