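import Pool.Agent.Lib.MP_263316_co.AB.Spec

/-!
MP_263316_co, part AB, task RD: recursion for D.
-/

set_option autoImplicit false

namespace Pool.Agent.SWB

open Finset Pool.Agent.SWC

namespace RDaux

theorem Xp (k : ℕ) : (qX ^ k : PX) = 1 - (1 - qX) * Q k := by
  rw [Q_mul]
  ring

theorem idn (S i a b : ℕ) : qX ^ i * (Q b * Q (S + a) - Q a * Q (S + b)) =
    (Q (b + i) - Q (a + i)) * Q S := by
  rw [Q_add S a, Q_add S b, Nat.add_comm b i, Nat.add_comm a i, Q_add i b, Q_add i a]
  ring

theorem gen (S i a b : ℕ) (hS : 1 ≤ S) : Q S * Q (b + i) * (QF (S + 1) * qX ^ ((S + 1) * i) *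
      fall (a + i) i * fall (b + i - 1) i * rise (S + 1) a * rise (S + 1) (b - 1)) -
    Q S * Q (a + i) * (QF (S + 1) * qX ^ ((S + 1) * i) *
      fall (a + i - 1) i * fall (b + i) i * rise (S + 1) (a - 1) * rise (S + 1) b) =
    (Q (b + i) - Q (a + i)) * Q (S + 1) * (QF S * qX ^ (S * i) *
      fall (a + i) i * fall (b + i) i * rise S a * rise S b) := by
  have f1 : Q (b + i) * fall (b + i - 1) i = fall (b + i) i * Q b := by
    rw [← fall_succ', fall_succ, Nat.add_sub_cancel]
  have f2 : Q (a + i) * fall (a + i - 1) i = fall (a + i) i * Q a := by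
    rw [← fall_succ', fall_succ, Nat.add_sub_cancel]
  have e1 : (qX ^ ((S + 1) * i) : PX) = qX ^ (S * i) * qX ^ i := by
    rw [← pow_add]
    congr 1
    ring
  have key := idn S i a b
  rw [QF_succ, e1]
  have g1 : ∀ u v x y : PX, Q S * Q (b + i) * (u * fall (b + i - 1) i * v * x * y) =
      Q S * (fall (b + i) i * Q b) * (u * v * x * y) := by
    intro u v x y
    rw [← f1]
    ring
  calc Q S * Q (b + i) * (QF S * Q (S + 1) * (qX ^ (S * i) * qX ^ i) *
      fall (a + i) i * fall (b + i - 1) i * rise (S + 1) a * rise (S + 1) (b - 1)) -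
      Q S * Q (a + i) * (QF S * Q (S + 1) * (qX ^ (S * i) * qX ^ i) *
      fall (a + i - 1) i * fall (b + i) i * rise (S + 1) (a - 1) * rise (S + 1) b)
      = Q S * (Q (b + i) * fall (b + i - 1) i) * (QF S * Q (S + 1) * (qX ^ (S * i) * qX ^ i) *
      fall (a + i) i * rise (S + 1) a * rise (S + 1) (b - 1)) -
      Q S * (Q (a + i) * fall (a + i - 1) i) * (QF S * Q (S + 1) * (qX ^ (S * i) * qX ^ i) *
      fall (b + i) i * rise (S + 1) (a - 1) * rise (S + 1) b) := by ring
    _ = Q (S + 1) * (QF S * qX ^ (S * i) * fall (a + i) i * fall (b + i) i) * (qX ^ i * Q S *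
        (Q b * rise (S + 1) a * rise (S + 1) (b - 1) -
          Q a * rise (S + 1) (a - 1) * rise (S + 1) b)) := by rw [f1, f2]; ring
    _ = Q (S + 1) * (QF S * qX ^ (S * i) * fall (a + i) i * fall (b + i) i) *
        ((Q (b + i) - Q (a + i)) * (rise S a * rise S b)) := by
        congr 1
        rcases Nat.eq_zero_or_pos a with ha | ha
        · subst ha
          rcases Nat.eq_zero_or_pos b with hb | hb
          · subst hb
            simp
          · obtain ⟨b, rfl⟩ : ∃ b', b = b' + 1 := ⟨b - 1, by omega⟩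
            rw [rise_zero, rise_zero, rise_succ' S b, Nat.add_sub_cancel, Q_zero]
            rw [Q_zero] at key
            simp only [Nat.add_zero, zero_mul, sub_zero, Nat.zero_add, mul_one] at key ⊢
            have key2 : qX ^ i * Q (b + 1) = Q (b + 1 + i) - Q i := by
              rw [Nat.add_comm (b + 1) i, Q_add i (b + 1)]
              ring
            linear_combination (Q S * rise (S + 1) b) * key2
        · obtain ⟨a, rfl⟩ : ∃ a', a = a' + 1 := ⟨a - 1, by omega⟩
          rcases Nat.eq_zero_or_pos b with hb | hb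
          · subst hb
            rw [rise_zero, rise_zero, rise_succ' S a, Nat.add_sub_cancel, Q_zero]
            have key2 : qX ^ i * Q (a + 1) = Q (a + 1 + i) - Q i := by
              rw [Nat.add_comm (a + 1) i, Q_add i (a + 1)]
              ring
            simp only [Nat.zero_add]
            linear_combination (-(Q S * rise (S + 1) a)) * key2
          · obtain ⟨b, rfl⟩ : ∃ b', b = b' + 1 := ⟨b - 1, by omega⟩
            rw [Nat.add_sub_cancel, Nat.add_sub_cancel, rise_succ' S a, rise_succ' S b,
              rise_succ (S + 1) a, rise_succ (S + 1) b]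
            have e2 : S + 1 + a = S + (a + 1) := by omega
            have e3 : S + 1 + b = S + (b + 1) := by omega
            rw [e2, e3]
            linear_combination (Q S * rise (S + 1) a * rise (S + 1) b) * key
    _ = _ := by ring

end RDaux

/-- Task RD. -/
theorem t_RD : S_RD := by
  intro A S B j hA hS hB hj
  by_cases h : j ≤ A ∧ j ≤ B
  · obtain ⟨h1, h2⟩ := h
    obtain ⟨i, rfl⟩ : ∃ i, j = i + 1 := ⟨j - 1, by omega⟩
    obtain ⟨a, rfl⟩ : ∃ a, A = a + i + 1 := ⟨A - i - 1, by omega⟩
    obtain ⟨b, rfl⟩ : ∃ b, B = b + i + 1 := ⟨B - i - 1, by omega⟩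
    have key := RDaux.gen S i a b hS
    simp only [D, Nat.add_sub_cancel]
    have e1 : a + i + 1 - (i + 1) = a := by omega
    have e2 : b + i + 1 - (i + 1) = b := by omega
    have e3 : b + i - (i + 1) = b - 1 := by omega
    have e4 : a + i - (i + 1) = a - 1 := by omega
    rw [e1, e2, e3, e4]
    exact key
  · have hz : ∀ (X Y : ℕ), (X < j ∨ Y < j) → 1 ≤ X → 1 ≤ Y → ∀ T, D X T Y j = 0 := by
      intro X Y hXY hX hY T
      exact D_eq_zero hX hY hXY
    have h' : A < j ∨ B < j := by
      by_contra hc
      push Not at hc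
      exact h hc
    rw [hz A B h' (by omega) (by omega), hz A (B - 1) (by omega) (by omega) (by omega),
      hz (A - 1) B (by omega) (by omega) (by omega)]
    ring

end Pool.Agent.SWB
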