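import Pool.Agent.Lib.MP_263316_co.AB.Spec

/-!
MP_263316_co, part AB, task RG: the recursion for `gg`.
-/

set_option autoImplicit false

namespace Pool.Agent.SWB

open Finset Pool.Agent.SWC

/-- the right-hand side of the recursion for `hh` -/
noncomputable def RGxi (A S B y : ℕ) : PX :=
  QF S * qX ^ (S * y + B - 1) * fall (A - 1) y * fall (B - 1) (y - 1) * rise (S + 1) (A - y) *
    rise S (B - y)

theorem RGxi_zero (A S B y : ℕ) (h : A < y + 1) (hA : 1 ≤ A) : RGxi A S B y = 0 := by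
  unfold RGxi
  rw [fall_eq_zero (a := A - 1) (k := y) (by omega)]
  ring

theorem RG_L (hW : S_W) (hGH : S_GH) (hRD : S_RD) (hRH : S_RH) (A S B y : ℕ) (hA : 2 ≤ A)
    (hS : 1 ≤ S) (hB : 2 ≤ B) (hy : 1 ≤ y) :
    Q S * Q (B - 1) * g1 A (S + 1) (B - 1) y - Q S * Q (A - 1) * g1 (A - 1) (S + 1) B y -
      (Q (B - 1) - Q (A - 1)) * Q (S + 1) * g1 A S B y = RGxi A S B y := by
  have h1 := (hGH hW A (S + 1) (B - 1) y (by omega) (by omega) (by omega) hy).2.1
  have h2 := (hGH hW (A - 1) (S + 1) B y (by omega) (by omega) (by omega) hy).2.1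
  have h3 := (hGH hW A S B y (by omega) (by omega) (by omega) hy).2.1
  have h4 := (hRH A S B y hA hS hB hy).1
  have e1 : ∑ j ∈ Ioc y (B - 1), D A (S + 1) (B - 1) j = ∑ j ∈ Ioc y B, D A (S + 1) (B - 1) j := by
    apply sum_subset
    · intro j hj
      rw [mem_Ioc] at *
      omega
    · intro j hj hj2
      rw [mem_Ioc] at *
      exact D_eq_zero (by omega) (by omega) (Or.inr (by omega))
  have e2 : Q S * Q (B - 1) * (∑ j ∈ Ioc y B, D A (S + 1) (B - 1) j) -
      Q S * Q (A - 1) * (∑ j ∈ Ioc y B, D (A - 1) (S + 1) B j) =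
      (Q (B - 1) - Q (A - 1)) * Q (S + 1) * (∑ j ∈ Ioc y B, D A S B j) := by
    rw [mul_sum, mul_sum, mul_sum, ← sum_sub_distrib]
    apply sum_congr rfl
    intro j hj
    rw [mem_Ioc] at hj
    exact hRD A S B j hA hS hB (by omega)
  rw [h1, h2, h3, e1]
  unfold RGxi
  linear_combination h4 - e2

theorem RG_step (X Y Z y : ℕ) (hZ : 1 ≤ Z) : g1 X Y Z y - g1 X Y Z (y + 1) = GG X Y Z y := by
  unfold g1
  by_cases h : y ≤ Z
  · have e : Icc (y + 1) Z = Ioc y Z := by
      ext j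
      rw [mem_Icc, mem_Ioc]
      omega
    rw [e, ← Finset.Ioc_insert_left h, sum_insert (by simp)]
    ring
  · rw [Icc_eq_empty_of_lt (by omega), Icc_eq_empty_of_lt (by omega)]
    unfold GG
    rw [fall_eq_zero (a := Z - 1) (k := y - 1) (by omega)]
    simp

theorem t_RG : S_RG := by
  intro hW hGH hKI1 hKAP hRD hRH A S B γ hA hS hB hγ hlt
  have L1 := RG_L hW hGH hRD hRH A S B γ hA hS hB hγ
  have L2 := RG_L hW hGH hRD hRH B S A (A + S + B - γ) hB hS hA (by omega)
  obtain ⟨a, rfl⟩ : ∃ a, A = a + 1 := ⟨A - 1, by omega⟩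
  obtain ⟨b, rfl⟩ : ∃ b, B = b + 1 := ⟨B - 1, by omega⟩
  have ea : a + 1 - 1 = a := rfl
  have eb : b + 1 - 1 = b := rfl
  rw [ea, eb] at L1 L2 ⊢
  have n1 : a + 1 + (S + 1) + b - γ = a + 1 + S + (b + 1) - γ := by omega
  have n2 : a + (S + 1) + (b + 1) - γ = a + 1 + S + (b + 1) - γ := by omega
  have key : Q S * Q b * gg (a + 1) (S + 1) b γ - Q S * Q a * gg a (S + 1) (b + 1) γ -
      (Q b - Q a) * Q (S + 1) * gg (a + 1) S (b + 1) γ =
      RGxi (a + 1) S (b + 1) γ - RGxi (b + 1) S (a + 1) (a + 1 + S + (b + 1) - γ) := by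
    unfold gg
    rw [n1, n2]
    linear_combination L1 - L2
  rw [key]
  by_cases c1 : γ = 1
  · subst c1
    have hz : RGxi (b + 1) S (a + 1) (a + 1 + S + (b + 1) - 1) = 0 :=
      RGxi_zero _ _ _ _ (by omega) (by omega)
    have h3 := (hRH (a + 1) S (b + 1) 1 hA hS hB le_rfl).2.2
    have h4 := hKAP hW hGH hKI1 a (S + 1) b (by omega) (by omega) (by omega)
    have e1 : a + 1 + S - 1 = a + S := by omega
    have e2 : a + (S + 1) - 1 = a + S := rfl
    have e3 : a + 1 - 2 = a - 1 := by omega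
    have e4 : b + 1 - 2 = b - 1 := by omega
    have e5 : S + 1 - 1 = S := rfl
    rw [ea, eb, e1, e3, e4] at h3
    rw [e2, e5] at h4
    have h5 : RGxi (a + 1) S (b + 1) 1 = qX ^ S * Q a * (qX ^ b * Q S * Q (a + S) *
        (QF S * rise (S + 1) (a - 1) * rise (S + 1) (b - 1))) := h3
    unfold gK gE
    rw [if_pos rfl, if_neg (by omega), hz, h5, h4]
    ring
  by_cases c2 : γ = a + (S + 1) + b
  · subst c2
    have hz : RGxi (a + 1) S (b + 1) (a + (S + 1) + b) = 0 :=
      RGxi_zero _ _ _ _ (by omega) (by omega)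
    have h3 := (hRH (b + 1) S (a + 1) 1 hB hS hA le_rfl).2.2
    have h4 := hKAP hW hGH hKI1 b (S + 1) a (by omega) (by omega) (by omega)
    have e1 : b + 1 + S - 1 = b + S := by omega
    have e2 : b + (S + 1) - 1 = b + S := rfl
    have e3 : b + 1 - 2 = b - 1 := by omega
    have e4 : a + 1 - 2 = a - 1 := by omega
    have e5 : S + 1 - 1 = S := rfl
    rw [ea, eb, e1, e3, e4] at h3
    rw [e2, e5] at h4
    have h5 : RGxi (b + 1) S (a + 1) 1 = qX ^ S * Q b * (qX ^ a * Q S * Q (b + S) *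
        (QF S * rise (S + 1) (b - 1) * rise (S + 1) (a - 1))) := h3
    have e6 : a + 1 + S + (b + 1) - (a + (S + 1) + b) = 1 := by omega
    have e7 : D b (S + 1) a = D a (S + 1) b := funext fun j => D_symm _ _ _ _
    have e8 : b + (S + 1) + a = a + (S + 1) + b := by omega
    have e9 : gg b (S + 1) a 1 = gg a (S + 1) b (a + (S + 1) + b - 1) := by
      unfold gg
      have e10 : a + (S + 1) + b - (a + (S + 1) + b - 1) = 1 := by omega
      rw [e10, e8]
      ring
    rw [e7, e8, e9] at h4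
    unfold gK gE
    rw [if_neg c1, if_pos rfl, hz, e6, h5, h4]
    ring
  · obtain ⟨y, rfl⟩ : ∃ y, γ = y + 1 := ⟨γ - 1, by omega⟩
    obtain ⟨z, hz⟩ : ∃ z, a + 1 + S + (b + 1) - (y + 1) = z + 1 :=
      ⟨a + 1 + S + (b + 1) - (y + 1) - 1, by omega⟩
    have h3 := (hRH (a + 1) S (b + 1) (y + 1) hA hS hB hγ).2.1 (by omega)
    have h4 := (hRH (b + 1) S (a + 1) (z + 1) hB hS hA (by omega)).2.1 (by omega)
    have ey : y + 1 - 1 = y := rfl
    have ez : z + 1 - 1 = z := rfl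
    have h5 : RGxi (a + 1) S (b + 1) (y + 1) = qX ^ S * Q a * Q b * GG a (S + 1) b y := h3
    have h6 : RGxi (b + 1) S (a + 1) (z + 1) = qX ^ S * Q b * Q a * GG b (S + 1) a z := h4
    have s1 := RG_step a (S + 1) b y (by omega)
    have s2 := RG_step b (S + 1) a z (by omega)
    unfold gK gE
    rw [if_neg c1, if_neg c2, hz, h5, h6, ey]
    unfold gg
    have e1 : a + (S + 1) + b - y = z + 1 := by omega
    have e2 : a + (S + 1) + b - (y + 1) = z := by omega
    rw [e1, e2]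
    linear_combination (- (qX ^ S * Q a * Q b)) * s1 + (qX ^ S * Q b * Q a) * s2

end Pool.Agent.SWB
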