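import Pool.Agent.Lib.MP_263316_co.AB.Spec

/-!
MP_263316_co, part AB, task RH: the recursion for `hh`.
-/

set_option autoImplicit false

namespace Pool.Agent.SWB

open Finset Pool.Agent.SWC

theorem RH_Xp (k : ℕ) : (qX ^ k : PX) = 1 - (1 - qX) * Q k := by
  rw [Q_mul]; ring

/-- the identity of the main case -/
theorem RH_id1 (T z a b : ℕ) :
    qX ^ (z + 1) * Q (b + 1) * Q (T + a) - qX ^ (z + 1) * Q a * Q (T + b) -
      (Q (z + b + 1) - Q (z + a + 1)) * Q T = qX ^ (z + b + 1) * Q (T + a) := by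
  simp only [Q_add, pow_add, Q_one, pow_one]
  rw [RH_Xp z, RH_Xp a, RH_Xp b, RH_Xp T]
  ring

/-- the identity of the case `y = B` -/
theorem RH_id2 (T z a : ℕ) :
    - (Q T * qX ^ (z + 1) * Q a) - (Q z - Q (z + a + 1)) * Q (T + 1) =
      qX ^ z * Q (T + 1 + a) := by
  simp only [Q_add, pow_add, Q_one, pow_one]
  rw [RH_Xp z, RH_Xp a, RH_Xp T]
  ring

theorem RH_1 (A S B y : ℕ) (hA : 2 ≤ A) (hS : 1 ≤ S) (hB : 2 ≤ B) (hy : 1 ≤ y) :
    Q S * Q (B - 1) * hh A (S + 1) (B - 1) y - Q S * Q (A - 1) * hh (A - 1) (S + 1) B y -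
      (Q (B - 1) - Q (A - 1)) * Q (S + 1) * hh A S B y =
    QF S * qX ^ (S * y + B - 1) * fall (A - 1) y * fall (B - 1) (y - 1) * rise (S + 1) (A - y) *
      rise S (B - y) := by
  by_cases h1 : A ≤ y
  · unfold hh
    rw [fall_eq_zero (a := A - 1) (k := y) (by omega),
      fall_eq_zero (a := A - 1 - 1) (k := y) (by omega)]
    ring
  by_cases h2 : B < y
  · unfold hh
    rw [fall_eq_zero (a := B - 1) (k := y - 1) (by omega),
      fall_eq_zero (a := B - 1 - 1) (k := y - 1) (by omega)]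
    ring
  obtain ⟨z, rfl⟩ : ∃ z, y = z + 1 := ⟨y - 1, by omega⟩
  obtain ⟨s, rfl⟩ : ∃ s, S = s + 1 := ⟨S - 1, by omega⟩
  obtain ⟨a, rfl⟩ : ∃ a, A = z + a + 1 + 1 := ⟨A - z - 2, by omega⟩
  have e1 : z + a + 1 + 1 - 1 = z + a + 1 := rfl
  have e2 : z + a + 1 + 1 - (z + 1) = a + 1 := by omega
  have e3 : z + a + 1 - 1 = z + a := rfl
  have e4 : z + a + 1 - (z + 1) = a := by omega
  have f1 : Q (z + a + 1) * fall (z + a) (z + 1) = fall (z + a + 1) (z + 1) * Q a := by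
    have := fall_succ' (z + a + 1) (z + 1)
    rw [e3] at this
    rw [← this, fall_succ, e4]
  have r1 : rise (s + 1) (a + 1) = Q (s + 1) * rise (s + 1 + 1) a := rise_succ' _ _
  have r2 : rise (s + 1 + 1) (a + 1) = rise (s + 1 + 1) a * Q (s + 1 + 1 + a) := rise_succ _ _
  have q1 : QF (s + 1) = QF s * Q (s + 1) := QF_succ s
  by_cases h3 : B = z + 1
  · subst h3
    have z1 : 1 ≤ z := by omega
    have e5 : z + 1 - 1 = z := rfl
    have e6 : s + 1 + 1 - 1 = s + 1 := rfl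
    have e7 : s + 1 - 1 = s := rfl
    have e8 : (s + 1) * (z + 1) + (z + 1) - 1 = (s + 1) * (z + 1) + z := rfl
    unfold hh
    rw [e1, e2, e3, e5, e6, e7, e8, Nat.sub_self, e4,
      fall_eq_zero (a := z - 1) (k := z) (by omega), rise_zero, rise_zero, r1, r2, q1]
    have x1 : (qX ^ ((s + 1 + 1) * (z + 1)) : PX) = qX ^ ((s + 1) * (z + 1)) * qX ^ (z + 1) := by
      rw [← pow_add]; congr 1; ring
    have x2 : (qX ^ ((s + 1) * (z + 1) + z) : PX) = qX ^ ((s + 1) * (z + 1)) * qX ^ z := pow_add _ _ _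
    rw [x1, x2]
    have id := RH_id2 (s + 1) z a
    linear_combination (QF s * Q (s + 1) * qX ^ ((s + 1) * (z + 1)) * fall (z + a + 1) (z + 1) *
      fall z z * rise (s + 1 + 1) a) * id - (Q (s + 1) * (QF s * Q (s + 1)) *
      (qX ^ ((s + 1) * (z + 1)) * qX ^ (z + 1)) * fall z z * rise (s + 1 + 1) a) * f1
  · obtain ⟨b, rfl⟩ : ∃ b, B = z + b + 1 + 1 := ⟨B - z - 2, by omega⟩
    have e5 : z + 1 - 1 = z := rfl
    have e6 : s + 1 + 1 - 1 = s + 1 := rfl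
    have e7 : s + 1 - 1 = s := rfl
    have e8 : (s + 1) * (z + 1) + (z + b + 1 + 1) - 1 = (s + 1) * (z + 1) + (z + b + 1) := rfl
    have e9 : z + b + 1 + 1 - 1 = z + b + 1 := rfl
    have e10 : z + b + 1 - 1 = z + b := rfl
    have e11 : z + b + 1 + 1 - (z + 1) = b + 1 := by omega
    have e12 : z + b + 1 - (z + 1) = b := by omega
    have f2 : Q (z + b + 1) * fall (z + b) z = fall (z + b + 1) z * Q (b + 1) := by
      have := fall_succ' (z + b + 1) z
      rw [e10] at this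
      rw [← this, fall_succ]
      congr 2
      omega
    have r3 : rise (s + 1) (b + 1) = Q (s + 1) * rise (s + 1 + 1) b := rise_succ' _ _
    have r4 : rise (s + 1 + 1) (b + 1) = rise (s + 1 + 1) b * Q (s + 1 + 1 + b) := rise_succ _ _
    unfold hh
    rw [e1, e2, e3, e5, e6, e7, e8, e9, e10, e11, e12, e4, r1, r2, r3, r4, q1]
    have x1 : (qX ^ ((s + 1 + 1) * (z + 1)) : PX) = qX ^ ((s + 1) * (z + 1)) * qX ^ (z + 1) := by
      rw [← pow_add]; congr 1; ring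
    have x2 : (qX ^ ((s + 1) * (z + 1) + (z + b + 1)) : PX) =
        qX ^ ((s + 1) * (z + 1)) * qX ^ (z + b + 1) := pow_add _ _ _
    rw [x1, x2]
    have id := RH_id1 (s + 1 + 1) z a b
    linear_combination (QF s * Q (s + 1) * Q (s + 1) * qX ^ ((s + 1) * (z + 1)) *
      fall (z + a + 1) (z + 1) * fall (z + b + 1) z * rise (s + 1 + 1) a *
      rise (s + 1 + 1) b) * id + (Q (s + 1) * (QF s * Q (s + 1)) *
      (qX ^ ((s + 1) * (z + 1)) * qX ^ (z + 1)) * fall (z + a + 1) (z + 1) *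
      (rise (s + 1 + 1) a * Q (s + 1 + 1 + a)) * rise (s + 1 + 1) b) * f2 -
      (Q (s + 1) * (QF s * Q (s + 1)) *
      (qX ^ ((s + 1) * (z + 1)) * qX ^ (z + 1)) * fall (z + b + 1) z * rise (s + 1 + 1) a *
      (rise (s + 1 + 1) b * Q (s + 1 + 1 + b))) * f1

theorem RH_2 (A S B y : ℕ) (hA : 2 ≤ A) (hB : 2 ≤ B) (hy : 2 ≤ y) :
    QF S * qX ^ (S * y + B - 1) * fall (A - 1) y * fall (B - 1) (y - 1) *
      rise (S + 1) (A - y) * rise S (B - y) =
    qX ^ S * Q (A - 1) * Q (B - 1) * GG (A - 1) (S + 1) (B - 1) (y - 1) := by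
  by_cases h2 : B < y
  · unfold GG
    rw [fall_eq_zero (a := B - 1) (k := y - 1) (by omega),
      fall_eq_zero (a := B - 1 - 1) (k := y - 1 - 1) (by omega)]
    ring
  obtain ⟨z, rfl⟩ : ∃ z, y = z + 1 + 1 := ⟨y - 2, by omega⟩
  have f1 : fall (A - 1) (z + 1 + 1) = Q (A - 1) * fall (A - 1 - 1) (z + 1) := fall_succ' _ _
  have f2 : fall (B - 1) (z + 1) = Q (B - 1) * fall (B - 1 - 1) z := fall_succ' _ _
  have e1 : z + 1 + 1 - 1 = z + 1 := rfl
  have e2 : z + 1 - 1 = z := rfl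
  have e3 : A - 1 - (z + 1) = A - (z + 1 + 1) := by omega
  have e4 : B - 1 - (z + 1) = B - (z + 1 + 1) := by omega
  have e5 : S + 1 - 1 = S := rfl
  have e6 : S * (z + 1 + 1) + B - 1 = S + (B - (z + 1 + 1) + (S + 1) * (z + 1)) := by
    have : S * (z + 1 + 1) = S + S * (z + 1) := by ring
    have h : (S + 1) * (z + 1) = S * (z + 1) + (z + 1) := by ring
    omega
  unfold GG
  rw [e1, e2, e5, e3, e4, f1, f2, e6, pow_add]
  ring

theorem RH_3 (A S B : ℕ) (hA : 2 ≤ A) (hS : 1 ≤ S) (hB : 2 ≤ B) :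
    QF S * qX ^ (S * 1 + B - 1) * fall (A - 1) 1 * fall (B - 1) (1 - 1) *
      rise (S + 1) (A - 1) * rise S (B - 1) = qX ^ S * Q (A - 1) * (qX ^ (B - 1) * Q S *
        Q (A + S - 1) * (QF S * rise (S + 1) (A - 2) * rise (S + 1) (B - 2))) := by
  obtain ⟨a, rfl⟩ : ∃ a, A = a + 1 + 1 := ⟨A - 2, by omega⟩
  obtain ⟨b, rfl⟩ : ∃ b, B = b + 1 + 1 := ⟨B - 2, by omega⟩
  have e1 : a + 1 + 1 - 1 = a + 1 := rfl
  have e2 : b + 1 + 1 - 1 = b + 1 := rfl
  have e3 : a + 1 + 1 - 2 = a := rfl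
  have e4 : b + 1 + 1 - 2 = b := rfl
  have e5 : S * 1 + (b + 1 + 1) - 1 = S + (b + 1) := by omega
  have e6 : a + 1 + 1 + S - 1 = S + 1 + a := by omega
  have f1 : fall (a + 1) 1 = Q (a + 1) := by
    have := fall_succ (a + 1) 0
    rw [fall_zero, one_mul, Nat.sub_zero] at this
    exact this
  rw [e1, e2, e3, e4, e5, e6, Nat.sub_self, fall_zero, f1, rise_succ (S + 1) a, rise_succ' S b,
    pow_add]
  ring

theorem t_RH : S_RH := by
  intro A S B y hA hS hB hy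
  exact ⟨RH_1 A S B y hA hS hB hy, fun h => RH_2 A S B y hA hB h, RH_3 A S B hA hS hB⟩

end Pool.Agent.SWB
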