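import Pool.Agent.Lib.MP_263316_co.AB.Spec

/-! TASK SH: shift of the vertices. -/

set_option autoImplicit false

namespace Pool.Agent.SWB

open Finset Pool.Agent.SWC

theorem t_SH : S_SH := by
  intro R _ N m m' q a U
  induction U using Finset.induction_on with
  | empty =>
    intro w _
    rw [Finset.image_empty, Z_empty, Z_empty]
  | insert v U hv ih =>
    intro w h
    have hva : v + a ∉ U.image (fun u => u + a) := by
      intro h1
      obtain ⟨u, hu, h2⟩ := mem_image.mp h1
      have h3 : u = v := by omega
      exact hv (h3 ▸ hu)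
    rw [Finset.image_insert, Z_insert hva, Z_insert hv]
    refine Finset.sum_congr rfl fun k _ => ?_
    rw [ih _ (fun u hu u' hu' => h u (mem_insert_of_mem hu) u' (mem_insert_of_mem hu'))]
    congr 1
    refine Z_congr fun u hu k' => ?_
    congr 1
    unfold pw
    have h1 : (v + a < u + a ∧ u + a ≤ m' (v + a)) ↔ (v < u ∧ u ≤ m v) := by
      constructor
      · rintro ⟨h2, h3⟩
        have h4 : v < u := by omega
        exact ⟨h4, (h v (mem_insert_self v U) u (mem_insert_of_mem hu) h4).mp h3⟩
      · rintro ⟨h2, h3⟩
        exact ⟨by omega, (h v (mem_insert_self v U) u (mem_insert_of_mem hu) h2).mpr h3⟩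
    have h5 : (u + a < v + a ∧ v + a ≤ m' (u + a)) ↔ (u < v ∧ v ≤ m u) := by
      constructor
      · rintro ⟨h2, h3⟩
        have h4 : u < v := by omega
        exact ⟨h4, (h u (mem_insert_of_mem hu) v (mem_insert_self v U) h4).mp h3⟩
      · rintro ⟨h2, h3⟩
        exact ⟨by omega, (h u (mem_insert_of_mem hu) v (mem_insert_self v U) h2).mpr h3⟩
    simp only [h1, h5]

end Pool.Agent.SWB
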