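import Pool.Agent.Lib.MP_263316_co.AB.Spec

/-!
MP_263316_co, part AB: positivity of the symmetrized coefficients, first case (S_SYa).
-/

set_option autoImplicit false

namespace Pool.Agent.SWB

open Finset Pool.Agent.SWC

private theorem sub_mem' {x y : ℕ} (h : y ≤ x) {z : ℤ} (hz : z = (x : ℤ) + y - 1) :
    Q x - Q y ∈ PZ z := by
  rw [Q_sub h]
  refine PZ_gen ?_
  rw [Nat.cast_sub h, hz]
  ring

private theorem term_mem (hm : S_PZm) {p : PX} {z w : ℤ} (hp : p ∈ PZ z) {x y : ℕ} (h : y ≤ x)
    (hz : z + (x + y - 1) = w) : p * (Q x - Q y) ∈ PZ w := by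
  rw [← hz]
  exact hm _ _ _ _ hp (sub_mem' h rfl)

theorem t_SYa : S_SYa := by
  intro hm ν t J c α β γ e D g ht hD hs hβ hα
  obtain ⟨hJ, hD0, hD1, -, hg⟩ := hD
  have hβα : β ≤ α := by omega
  have hmain : g (γ + 1) * (Q α - Q β) ∈ PZ (e + t + α + β - 1) :=
    term_mem hm (hg (γ + 1) (by omega) (by omega)) hβα (by ring)
  rcases Nat.lt_or_ge c γ with h1 | h1
  · have e1 : cf t D g c α β γ + cf t D g c β α γ = g (γ + 1) * (Q α - Q β) +
        (- zk t D β α) := by
      unfold cf
      rw [if_pos hα, if_pos hα, if_pos h1, if_neg (by omega), if_neg (by omega)]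
      ring
    rw [e1]
    refine (PZ _).add_mem hmain ?_
    unfold zk
    rw [← sum_neg_distrib]
    refine AddSubmonoid.sum_mem _ fun j hj => ?_
    rw [mem_Ico] at hj
    rcases Nat.lt_or_ge J j with h2 | h2
    · rw [hD0 j h2, zero_mul, neg_zero]
      exact (PZ _).zero_mem
    have e2 : -(D j * ((if α < j then Q β - Q (α + t - 2 * j) else 0) +
        (if t ≤ α + j then Q (β + t - 2 * j) - Q α else 0))) =
        (if α < j then D j * (Q (α + t - 2 * j) - Q β) else 0) +
        (if t ≤ α + j then D j * (Q α - Q (β + t - 2 * j)) else 0) := by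
      split_ifs <;> ring
    rw [e2]
    refine (PZ _).add_mem ?_ ?_
    · split_ifs with h3
      · refine term_mem hm (hD1 j hj.1) (by omega) ?_
        rw [Nat.cast_sub (by omega)]
        push_cast
        ring
      · exact (PZ _).zero_mem
    · split_ifs with h3
      · refine term_mem hm (hD1 j hj.1) (by omega) ?_
        rw [Nat.cast_sub (by omega)]
        push_cast
        ring
      · exact (PZ _).zero_mem
  · have e1 : cf t D g c α β γ + cf t D g c β α γ = g (γ + 1) * (Q α - Q β) + zk t D α β := by
      unfold cf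
      rw [if_pos hα, if_pos hα, if_neg (by omega), if_neg (by omega), if_neg (by omega)]
      ring
    rw [e1]
    refine (PZ _).add_mem hmain ?_
    unfold zk
    refine AddSubmonoid.sum_mem _ fun j hj => ?_
    rw [mem_Ico] at hj
    rcases Nat.lt_or_ge J j with h2 | h2
    · rw [hD0 j h2, zero_mul]
      exact (PZ _).zero_mem
    have e2 : D j * ((if β < j then Q α - Q (β + t - 2 * j) else 0) +
        (if t ≤ β + j then Q (α + t - 2 * j) - Q β else 0)) =
        (if β < j then D j * (Q α - Q (β + t - 2 * j)) else 0) +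
        (if t ≤ β + j then D j * (Q (α + t - 2 * j) - Q β) else 0) := by
      split_ifs <;> ring
    rw [e2]
    refine (PZ _).add_mem ?_ ?_
    · split_ifs with h3
      · refine term_mem hm (hD1 j hj.1) (by omega) ?_
        rw [Nat.cast_sub (by omega)]
        push_cast
        ring
      · exact (PZ _).zero_mem
    · split_ifs with h3
      · refine term_mem hm (hD1 j hj.1) (by omega) ?_
        rw [Nat.cast_sub (by omega)]
        push_cast
        ring
      · exact (PZ _).zero_mem

end Pool.Agent.SWB
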