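import Pool.Agent.Lib.MP_263316_co.AB.Spec

/-!
MP_263316_co, part AB, task SYb: positivity, the case `c < α`, `c < β`.
-/

set_option autoImplicit false

namespace Pool.Agent.SWB

open Finset Pool.Agent.SWC

namespace SYbM

private theorem dif {a b : ℕ} (h : b ≤ a) : Q a - Q b ∈ PZ ((a : ℤ) + b - 1) := by
  rw [Q_sub h]
  apply PZ_gen
  omega

private theorem term (hm : S_PZm) {ν t J : ℕ} {e : ℤ} {D g : ℕ → PX} (hD : Dat ν t J e D g)
    {α β j : ℕ} (hj : 1 ≤ j) (hba : β ≤ α) :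
    D j * (Q (α + t - 2 * j) - Q β) ∈ PZ (e + t + α + β - 1) := by
  rcases lt_or_ge J j with h1 | h1
  · rw [hD.2.1 j h1, zero_mul]
    exact AddSubmonoid.zero_mem _
  · have h2 : 2 * j < t := by have := hD.1; omega
    have h3 := hm _ _ _ _ (hD.2.2.1 j hj) (dif (a := α + t - 2 * j) (b := β) (by omega))
    have h4 : e + 2 * (j : ℤ) + (((α + t - 2 * j : ℕ) : ℤ) + β - 1) = e + t + α + β - 1 := by
      have : ((α + t - 2 * j : ℕ) : ℤ) = α + t - 2 * j := by omega
      rw [this]; ring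
    rw [h4] at h3
    exact h3

private theorem sum1 (hm : S_PZm) {ν t J : ℕ} {e : ℤ} {D g : ℕ → PX} (hD : Dat ν t J e D g)
    {α β : ℕ} (hba : β ≤ α) :
    ∑ j ∈ Ico 1 t, D j * (if t ≤ β + j then Q (α + t - 2 * j) - Q β else 0) ∈
      PZ (e + t + α + β - 1) := by
  refine AddSubmonoid.sum_mem _ fun j hj => ?_
  rw [mem_Ico] at hj
  split
  · exact term hm hD hj.1 hba
  · rw [mul_zero]
    exact AddSubmonoid.zero_mem _

private theorem zk_eq {ν t J : ℕ} {e : ℤ} {D g : ℕ → PX} (hD : Dat ν t J e D g)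
    {α β : ℕ} (ht : t ≤ ν + 1) (hν : ν ≤ α + β) (hα : α < t) (hba : β < α) :
    zk t D α β + zk t D β α =
      ∑ j ∈ Ico 1 t, D j * (if t ≤ β + j then Q (α + t - 2 * j) - Q β else 0) +
      ∑ j ∈ Icc (t - α) β, D j * (Q (β + t - 2 * j) - Q α) := by
  have h1 : Icc (t - α) β = (Ico 1 t).filter fun j => t ≤ α + j ∧ j ≤ β := by
    ext j
    simp only [mem_Icc, mem_filter, mem_Ico]
    omega
  rw [h1, sum_filter, zk, zk, ← sum_add_distrib, ← sum_add_distrib]
  refine sum_congr rfl fun j hj => ?_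
  rw [mem_Ico] at hj
  rcases lt_or_ge J j with h2 | h2
  · rw [hD.2.1 j h2]
    simp
  · have h3 : 2 * j < t := by have := hD.1; omega
    have h4 : ¬ α < j := by omega
    rw [if_neg h4]
    by_cases h5 : β < j
    · have h6 : ¬ t ≤ β + j := by omega
      have h7 : t ≤ α + j := by omega
      have h8 : ¬ (t ≤ α + j ∧ j ≤ β) := by omega
      rw [if_pos h5, if_neg h6, if_pos h7, if_neg h8]
      ring
    · rw [if_neg h5]
      by_cases h7 : t ≤ α + j
      · have h8 : t ≤ α + j ∧ j ≤ β := by omega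
        rw [if_pos h7, if_pos h8]
        ring
      · have h8 : ¬ (t ≤ α + j ∧ j ≤ β) := by omega
        rw [if_neg h7, if_neg h8]
        ring

private theorem zk_diag {ν t J : ℕ} {e : ℤ} {D g : ℕ → PX} (hD : Dat ν t J e D g)
    {α : ℕ} (ht : t ≤ ν + 1) (hν : ν ≤ α + α) :
    zk t D α α =
      ∑ j ∈ Ico 1 t, D j * (if t ≤ α + j then Q (α + t - 2 * j) - Q α else 0) := by
  rw [zk]
  refine sum_congr rfl fun j hj => ?_
  rw [mem_Ico] at hj
  rcases lt_or_ge J j with h2 | h2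
  · rw [hD.2.1 j h2]
    simp
  · have h3 : 2 * j < t := by have := hD.1; omega
    have h4 : ¬ α < j := by omega
    rw [if_neg h4, zero_add]

end SYbM

open SYbM in
theorem t_SYb : S_SYb := by
  intro hm hp hinv ν t J c α β γ e D g ht hD hsum hβ hα
  have hνt : ν ≤ t ∧ t ≤ ν + 1 := by omega
  constructor
  · intro hba
    unfold cf
    rw [if_pos hα, if_pos hα, if_pos hβ, if_pos hβ]
    by_cases hγ : c < γ
    · rw [if_pos hγ]
      have h0 : g (γ + 1) * (Q α - Q β) + (1 - 1) * zk t D α β +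
          (g (γ + 1) * (Q β - Q α) + (1 - 1) * zk t D β α) = 0 := by ring
      rw [h0]
      exact AddSubmonoid.zero_mem _
    · rw [if_neg hγ]
      have h0 : g (γ + 1) * (Q α - Q β) + (1 - 0) * zk t D α β +
          (g (γ + 1) * (Q β - Q α) + (1 - 0) * zk t D β α) = zk t D α β + zk t D β α := by ring
      rw [h0, zk_eq hD hνt.2 (by omega) (by omega) hba]
      refine AddSubmonoid.add_mem _ (sum1 hm hD hba.le) ?_
      exact hinv hm hp D e J t α β hD.1 hD.2.1 hD.2.2.1 hD.2.2.2.1 (t - α) β (by omega) (by omega)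
  · rintro rfl
    unfold cf
    rw [if_pos hα, if_pos hα]
    by_cases hγ : c < γ
    · rw [if_pos hγ]
      have h0 : g (γ + 1) * (Q α - Q α) + (1 - 1) * zk t D α α = 0 := by ring
      rw [h0]
      exact AddSubmonoid.zero_mem _
    · rw [if_neg hγ]
      have h0 : g (γ + 1) * (Q α - Q α) + (1 - 0) * zk t D α α = zk t D α α := by ring
      rw [h0, zk_diag hD hνt.2 (by omega)]
      exact sum1 hm hD le_rfl

end Pool.Agent.SWB
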