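import Pool.Agent.Lib.MP_263316_co.AB.Spec

/-!
MP_263316_co, part AB: proof of S_SYc.
-/

set_option autoImplicit false

namespace Pool.Agent.SWB

open Finset Pool.Agent.SWC

namespace SYcM

theorem cf_zero (t : ℕ) (D g : ℕ → PX) (c α β γ : ℕ) (h1 : ¬ c < α) (h2 : ¬ c < γ) :
    cf t D g c α β γ = 0 := by
  unfold cf
  rw [if_neg h1, if_neg h1, if_neg h2]
  ring

theorem cf_neg (t : ℕ) (D g : ℕ → PX) (c α β γ : ℕ) (h1 : ¬ c < α) (h2 : c < γ) :
    cf t D g c α β γ = - zk t D α β := by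
  unfold cf
  rw [if_neg h1, if_neg h1, if_pos h2]
  ring

/-- a single term -/
theorem term_mem (hm : S_PZm) {t α β j : ℕ} {e : ℤ} {d : PX} (h1 : β ≤ α) (h2 : 2 * j < t)
    (hd : d ∈ PZ (e + 2 * j)) : d * (Q (α + t - 2 * j) - Q β) ∈ PZ (e + t + α + β - 1) := by
  have h3 : β ≤ α + t - 2 * j := by omega
  rw [Q_sub h3]
  have h4 : qX ^ β * Q (α + t - 2 * j - β) ∈ PZ ((α : ℤ) + t - 2 * j + β - 1) := by
    apply PZ_gen
    omega
  have h5 := hm _ _ _ _ hd h4
  have h6 : e + 2 * (j : ℤ) + ((α : ℤ) + t - 2 * j + β - 1) = e + t + α + β - 1 := by ring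
  rwa [h6] at h5

theorem sum_mem' (hm : S_PZm) {ν t J α β : ℕ} {e : ℤ} {D g : ℕ → PX} (hD : Dat ν t J e D g)
    (h1 : β ≤ α) :
    ∑ j ∈ Ico 1 t, (if α < j then D j * (Q (α + t - 2 * j) - Q β) else 0) ∈
      PZ (e + t + α + β - 1) := by
  obtain ⟨hJ, hz, hp, -, -⟩ := hD
  apply AddSubmonoid.sum_mem
  intro j hj
  rw [mem_Ico] at hj
  split_ifs with h
  · rcases Nat.lt_or_ge J j with hJj | hJj
    · rw [hz j hJj, zero_mul]
      exact AddSubmonoid.zero_mem _
    · exact term_mem hm h1 (by omega) (hp j hj.1)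
  · exact AddSubmonoid.zero_mem _

theorem icc_eq {t α β : ℕ} (h : α + β + 1 ≤ t) (F : ℕ → PX) :
    ∑ j ∈ Icc (β + 1) (t - α - 1), F j =
      ∑ j ∈ Ico 1 t, (if β < j ∧ j + α < t then F j else 0) := by
  rw [← sum_filter]
  apply sum_congr _ fun _ _ => rfl
  ext j
  simp only [mem_Icc, mem_filter, mem_Ico]
  omega

theorem split {ν t J α β : ℕ} {e : ℤ} {D g : ℕ → PX} (hD : Dat ν t J e D g)
    (h1 : β < α) (h : α + β + 1 ≤ t) :
    - zk t D α β + - zk t D β α =
      ∑ j ∈ Icc (β + 1) (t - α - 1), D j * (Q (β + t - 2 * j) - Q α) +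
      ∑ j ∈ Ico 1 t, (if α < j then D j * (Q (α + t - 2 * j) - Q β) else 0) := by
  obtain ⟨hJ, hz, -, -, -⟩ := hD
  rw [icc_eq h]
  unfold zk
  rw [← sum_neg_distrib, ← sum_neg_distrib, ← sum_add_distrib, ← sum_add_distrib]
  apply sum_congr rfl
  intro j hj
  rw [mem_Ico] at hj
  rcases Nat.lt_or_ge J j with hJj | hJj
  · rw [hz j hJj]
    simp
  · have h2 : 2 * j < t := by omega
    have h3 : ¬ t ≤ β + j := by omega
    rw [if_neg h3]
    rcases Nat.lt_or_ge (α + j) t with h4 | h4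
    · rw [if_neg (show ¬ t ≤ α + j by omega)]
      by_cases h5 : β < j
      · rw [if_pos h5, if_pos (show β < j ∧ j + α < t by omega)]
        split_ifs <;> ring
      · rw [if_neg h5, if_neg (show ¬ (β < j ∧ j + α < t) by omega),
          if_neg (show ¬ α < j by omega), if_neg (show ¬ α < j by omega)]
        ring
    · rw [if_pos (show β < j by omega), if_pos (show t ≤ α + j by omega),
        if_neg (show ¬ α < j by omega), if_neg (show ¬ (β < j ∧ j + α < t) by omega),
        if_neg (show ¬ α < j by omega)]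
      ring

theorem diag {ν t J α : ℕ} {e : ℤ} {D g : ℕ → PX} (hD : Dat ν t J e D g)
    (h : α + α + 1 ≤ t) :
    - zk t D α α =
      ∑ j ∈ Ico 1 t, (if α < j then D j * (Q (α + t - 2 * j) - Q α) else 0) := by
  obtain ⟨hJ, hz, -, -, -⟩ := hD
  unfold zk
  rw [← sum_neg_distrib]
  apply sum_congr rfl
  intro j hj
  rw [mem_Ico] at hj
  rcases Nat.lt_or_ge J j with hJj | hJj
  · rw [hz j hJj]
    simp
  · rw [if_neg (show ¬ t ≤ α + j by omega)]
    split_ifs <;> ring

end SYcM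

open SYcM in
theorem t_SYc : S_SYc := by
  intro hm hpp hinv ν t J c α β γ e D g ht hD hsum hβ hα
  have hα' : ¬ c < α := by omega
  have hβ' : ¬ c < β := by omega
  by_cases hγ : c < γ
  · have hle : α + β + 1 ≤ t := by omega
    constructor
    · intro hlt
      rw [cf_neg t D g c α β γ hα' hγ, cf_neg t D g c β α γ hβ' hγ, split hD hlt hle]
      apply AddSubmonoid.add_mem
      · obtain ⟨hJ, hz, hp, hd, -⟩ := hD
        exact hinv hm hpp D e J t α β hJ hz hp hd (β + 1) (t - α - 1) (by omega) (by omega)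
      · exact sum_mem' hm hD (by omega)
    · intro heq
      subst heq
      rw [cf_neg t D g c α α γ hα' hγ, diag hD hle]
      exact sum_mem' hm hD le_rfl
  · constructor
    · intro _
      rw [cf_zero t D g c α β γ hα' hγ, cf_zero t D g c β α γ hβ' hγ, add_zero]
      exact AddSubmonoid.zero_mem _
    · intro _
      rw [cf_zero t D g c α β γ hα' hγ]
      exact AddSubmonoid.zero_mem _

end Pool.Agent.SWB
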