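import Pool.Agent.Lib.MP_263316_co.AB.Spec

/-!
MP_263316_co, part AB, task SZ: antisymmetry.
-/

set_option autoImplicit false

namespace Pool.Agent.SWB

open Finset Pool.Agent.SWC

/-- Task SZ. -/
theorem t_SZ : S_SZ := by
  intro t D hD α β h
  unfold zk
  rw [← sum_add_distrib]
  apply sum_eq_zero
  intro j hj
  rw [mem_Ico] at hj
  rcases lt_or_ge (2 * j) t with h2 | h2
  · have e1 : β < j ↔ t ≤ α + j := by omega
    have e2 : α < j ↔ t ≤ β + j := by omega
    rw [← mul_add]
    have : ((if β < j then Q α - Q (β + t - 2 * j) else 0) +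
        (if t ≤ β + j then Q (α + t - 2 * j) - Q β else 0)) +
        ((if α < j then Q β - Q (α + t - 2 * j) else 0) +
        (if t ≤ α + j then Q (β + t - 2 * j) - Q α else 0)) = 0 := by
      by_cases c1 : β < j
      · by_cases c2 : α < j
        · rw [if_pos c1, if_pos (e1.mp c1), if_pos c2, if_pos (e2.mp c2)]
          ring
        · rw [if_pos c1, if_pos (e1.mp c1), if_neg c2, if_neg (fun h => c2 (e2.mpr h))]
          ring
      · by_cases c2 : α < j
        · rw [if_neg c1, if_neg (fun h => c1 (e1.mpr h)), if_pos c2, if_pos (e2.mp c2)]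
          ring
        · rw [if_neg c1, if_neg (fun h => c1 (e1.mpr h)), if_neg c2,
            if_neg (fun h => c2 (e2.mpr h))]
          ring
    rw [this, mul_zero]
  · rw [hD j h2]
    ring

end Pool.Agent.SWB
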