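import Pool.Agent.Lib.MP_263316_co.AB.Spec

/-!
MP_263316_co, part AB, task T1b: the symmetrized kernel identity.
-/

set_option autoImplicit false

namespace Pool.Agent.SWB

open Finset Pool.Agent.SWC

namespace T1bM

/-- the value `1` or `0` -/
private noncomputable def bb (P : Prop) [Decidable P] : PX := if P then 1 else 0

private theorem lem1 (α β t : ℕ) : ∀ n : ℕ, 2 * (β + n) + 1 ≤ t →
    ∑ j ∈ Ico (β + 1) (β + 1 + n), qX ^ (j - 1) * (Q α - Q (β + t - 2 * j)) =
      (Q (β + n) - Q β) * (Q α - Q (t - 1 - β - n)) := by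
  intro n
  induction n with
  | zero => intro _; simp
  | succ n ih =>
    intro h
    rw [← add_assoc, sum_Ico_succ_top (by omega), ih (by omega)]
    obtain ⟨T, rfl⟩ : ∃ T, t = T + β + 2 * n + 2 := ⟨t - β - 2 * n - 2, by omega⟩
    rw [show β + 1 + n - 1 = β + n by omega,
      show β + (T + β + 2 * n + 2) - 2 * (β + 1 + n) = T by omega,
      show T + β + 2 * n + 2 - 1 - β - n = n + 1 + T by omega,
      show T + β + 2 * n + 2 - 1 - β - (n + 1) = n + T by omega,
      show β + (n + 1) = β + (n + 1) from rfl, Q_add β n, Q_add β (n + 1), Q_add (n + 1) T,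
      Q_add n T, Q_succ n, pow_add, pow_succ]
    linear_combination (qX ^ β * qX ^ n * Q T) * Q_mul n

private theorem lem2 (α β t : ℕ) (hβ : β < t) : ∀ n : ℕ, n ≤ β → (2 * (t - β + n) ≤ t + 2) →
    ∑ j ∈ Ico (t - β) (t - β + n), qX ^ (j - 1) * (Q (α + t - 2 * j) - Q β) =
      (Q β - Q (β - n)) * (Q α - Q (t - β + n - 1)) := by
  intro n
  induction n with
  | zero => intro _ _; simp
  | succ n ih =>
    intro h1 h2
    rw [← add_assoc, sum_Ico_succ_top (by omega), ih (by omega) (by omega)]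
    obtain ⟨τ, rfl⟩ : ∃ τ, t = β + τ + 1 := ⟨t - β - 1, by omega⟩
    obtain ⟨κ, rfl⟩ : ∃ κ, β = τ + n + κ + n + 1 := ⟨β - τ - 2 * n - 1, by omega⟩
    rw [show τ + n + κ + n + 1 + τ + 1 - (τ + n + κ + n + 1) + n - 1 = τ + n by omega,
      show τ + n + κ + n + 1 + τ + 1 - (τ + n + κ + n + 1) + n + 1 - 1 = τ + n + 1 by omega,
      show α + (τ + n + κ + n + 1 + τ + 1) -
        2 * (τ + n + κ + n + 1 + τ + 1 - (τ + n + κ + n + 1) + n) = α + κ by omega,
      show τ + n + κ + n + 1 - n = τ + n + κ + 1 by omega,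
      show τ + n + κ + n + 1 - (n + 1) = τ + n + κ by omega]
    apply mul_left_cancel₀ one_sub_X_ne
    apply mul_left_cancel₀ one_sub_X_ne
    have e1 := Q_mul (τ + n + κ + n + 1)
    have e2 := Q_mul (τ + n + κ + 1)
    have e3 := Q_mul (τ + n + κ)
    have e4 := Q_mul α
    have e5 := Q_mul (α + κ)
    have e6 := Q_mul (τ + n)
    have e7 := Q_mul (τ + n + 1)
    calc _ = ((1 - qX) * Q (τ + n + κ + n + 1) - (1 - qX) * Q (τ + n + κ + 1)) *
          ((1 - qX) * Q α - (1 - qX) * Q (τ + n)) +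
          (1 - qX) * (qX ^ (τ + n) * ((1 - qX) * Q (α + κ) - (1 - qX) * Q (τ + n + κ + n + 1))) := by
          ring
      _ = ((1 - qX) * Q (τ + n + κ + n + 1) - (1 - qX) * Q (τ + n + κ)) *
          ((1 - qX) * Q α - (1 - qX) * Q (τ + n + 1)) := by
          rw [e1, e2, e3, e4, e5, e6, e7]
          ring
      _ = _ := by ring

private theorem zkc (m μ α β : ℕ) (hm : m ≤ μ) (hβ : β ≤ m + μ) :
    zk (m + μ + 1) (fun j => if 1 ≤ j ∧ j ≤ m then qX ^ (j - 1) else 0) α β =
      bb (β < m) * ((Q m - Q β) * (Q α - Q μ)) +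
      (1 - bb (β < μ)) * ((Q β - Q μ) * (Q α - Q m)) := by
  have h0 : zk (m + μ + 1) (fun j => if 1 ≤ j ∧ j ≤ m then qX ^ (j - 1) else 0) α β =
      ∑ j ∈ Ico (β + 1) (m + 1), qX ^ (j - 1) * (Q α - Q (β + (m + μ + 1) - 2 * j)) +
      ∑ j ∈ Ico (m + μ + 1 - β) (m + 1),
        qX ^ (j - 1) * (Q (α + (m + μ + 1) - 2 * j) - Q β) := by
    have h1 : Ico (β + 1) (m + 1) = (Ico 1 (m + μ + 1)).filter fun j => β < j ∧ j ≤ m := by
      ext j
      simp only [mem_Ico, mem_filter]
      omega
    have h2 : Ico (m + μ + 1 - β) (m + 1) =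
        (Ico 1 (m + μ + 1)).filter fun j => m + μ + 1 ≤ β + j ∧ j ≤ m := by
      ext j
      simp only [mem_Ico, mem_filter]
      omega
    rw [h1, h2, sum_filter, sum_filter, ← sum_add_distrib, zk]
    refine sum_congr rfl fun j hj => ?_
    rw [mem_Ico] at hj
    by_cases h3 : j ≤ m
    · rw [if_pos ⟨hj.1, h3⟩]
      by_cases h4 : β < j <;> by_cases h5 : m + μ + 1 ≤ β + j
      · rw [if_pos h4, if_pos h5, if_pos ⟨h4, h3⟩, if_pos ⟨h5, h3⟩]; ring
      · rw [if_pos h4, if_neg h5, if_pos ⟨h4, h3⟩, if_neg fun h => h5 h.1]; ring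
      · rw [if_neg h4, if_pos h5, if_neg fun h => h4 h.1, if_pos ⟨h5, h3⟩]; ring
      · rw [if_neg h4, if_neg h5, if_neg fun h => h4 h.1, if_neg fun h => h5 h.1]; ring
    · simp only [h3, and_false, if_false]; ring
  rw [h0]
  have s1 : ∑ j ∈ Ico (β + 1) (m + 1), qX ^ (j - 1) * (Q α - Q (β + (m + μ + 1) - 2 * j)) =
      bb (β < m) * ((Q m - Q β) * (Q α - Q μ)) := by
    unfold bb
    by_cases h : β < m
    · rw [if_pos h]
      obtain ⟨n, rfl⟩ := Nat.exists_eq_add_of_le h.le
      rw [show β + n + 1 = β + 1 + n by ring,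
        lem1 α β _ n (by omega), show β + n + μ + 1 - 1 - β - n = μ by omega]
      ring
    · rw [if_neg h, Ico_eq_empty (by omega), sum_empty]
      ring
  have s2 : ∑ j ∈ Ico (m + μ + 1 - β) (m + 1),
        qX ^ (j - 1) * (Q (α + (m + μ + 1) - 2 * j) - Q β) =
      (1 - bb (β < μ)) * ((Q β - Q μ) * (Q α - Q m)) := by
    unfold bb
    by_cases h : β < μ
    · rw [if_pos h, Ico_eq_empty (by omega), sum_empty]
      ring
    · rw [if_neg h]
      obtain ⟨n, rfl⟩ := Nat.exists_eq_add_of_le (not_lt.1 h)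
      have h1 : m + 1 = m + μ + 1 - (μ + n) + n := by omega
      have h2 := lem2 α (μ + n) (m + μ + 1) (by omega) n (by omega) (by omega)
      rw [← h1] at h2
      rw [h2, show μ + n - n = μ by omega, Nat.add_sub_cancel]
      ring
  rw [s1, s2]

/-- the combination of the indicators -/
private theorem ee (A B c α β γ : ℕ) (h : α + β + γ = c + A + B) (_ : α ≠ A) :
    (bb (c < α) - bb (α < A)) * (bb (γ < B) - bb (β < B)) -
      (bb (c < α) - bb (c < β)) * bb (γ < B) + (bb (c < α) - bb (c < γ)) * bb (β < B) -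
      (bb (c < β) - bb (c < γ)) * (1 - bb (α < A)) = 0 := by
  have h1 : (bb (c < α) - bb (α < A)) * (bb (γ < B) - bb (β < B)) -
      (bb (c < α) - bb (c < β)) * bb (γ < B) + (bb (c < α) - bb (c < γ)) * bb (β < B) -
      (bb (c < β) - bb (c < γ)) * (1 - bb (α < A)) =
      bb (α < A) * (bb (β < B) - bb (γ < B) + bb (c < β) - bb (c < γ)) +
        bb (c < β) * (bb (γ < B) - 1) + bb (c < γ) * (1 - bb (β < B)) := by ring
  rw [h1]
  unfold bb
  by_cases a1 : α < A <;> by_cases a2 : c < β <;> by_cases a3 : c < γ <;>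
    by_cases a4 : γ < B <;> by_cases a5 : β < B <;>
    first
      | (exfalso; omega)
      | (simp only [a1, a2, a3, a4, a5, if_true, if_false]; ring)

private theorem ee' (A B c α β γ : ℕ) (h : α + β + γ = c + A + B) :
    ((bb (c < α) - bb (α < A)) * (bb (γ < B) - bb (β < B)) -
      (bb (c < α) - bb (c < β)) * bb (γ < B) + (bb (c < α) - bb (c < γ)) * bb (β < B) -
      (bb (c < β) - bb (c < γ)) * (1 - bb (α < A))) * (Q α - Q A) = 0 := by
  by_cases hα : α = A
  · rw [hα, sub_self, mul_zero]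
  · rw [ee A B c α β γ h hα, zero_mul]

end T1bM

open T1bM in
theorem t_T1b : S_T1b := by
  intro A B c α β γ hA hB hs
  -- the kernel
  have hker : ∀ α β : ℕ, α + β + γ = c + A + B →
      cf (A + B + 1) (fun j => if 1 ≤ j ∧ j ≤ min A B then qX ^ (j - 1) else 0)
        (fun i => (if B < A ∧ i ≤ B then Q A - Q B else 0) +
          (if A < B ∧ B < i then Q B - Q A else 0)) c α β γ =
      bb (c < α) * ((bb (B < A) * bb (γ < B) * (Q A - Q B) +
        bb (A < B) * (1 - bb (γ < B)) * (Q B - Q A)) * (Q α - Q β)) +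
      (bb (c < α) - bb (c < γ)) *
        (if A ≤ B then bb (β < A) * ((Q A - Q β) * (Q α - Q B)) +
          (1 - bb (β < B)) * ((Q β - Q B) * (Q α - Q A))
        else bb (β < B) * ((Q B - Q β) * (Q α - Q A)) +
          (1 - bb (β < A)) * ((Q β - Q A) * (Q α - Q B))) := by
    intro α β hs
    unfold cf
    have e1 : (if c < α then ((if B < A ∧ γ + 1 ≤ B then Q A - Q B else 0) +
        (if A < B ∧ B < γ + 1 then Q B - Q A else 0)) * (Q α - Q β) else 0) =
        bb (c < α) * ((bb (B < A) * bb (γ < B) * (Q A - Q B) +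
        bb (A < B) * (1 - bb (γ < B)) * (Q B - Q A)) * (Q α - Q β)) := by
      unfold bb
      by_cases a1 : c < α <;> by_cases a2 : B < A <;> by_cases a3 : A < B <;>
        by_cases a4 : γ < B <;>
        first
          | (exfalso; omega)
          | (have a5 : γ + 1 ≤ B := a4
             have a6 : ¬ B < γ + 1 := by omega
             simp only [a1, a2, a3, a4, a5, a6, if_true, if_false, and_true, and_false]
             ring)
          | (have a5 : ¬ γ + 1 ≤ B := a4
             have a6 : B < γ + 1 := by omega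
             simp only [a1, a2, a3, a4, a5, a6, if_true, if_false, and_true, and_false]
             ring)
    have e2 : ((if c < α then 1 else 0) - (if c < γ then 1 else 0) : PX) =
        bb (c < α) - bb (c < γ) := rfl
    rw [e1, e2]
    congr 1
    rcases le_or_gt β (A + B) with hβ | hβ
    · rcases le_or_gt A B with h | h
      · rw [if_pos h, min_eq_left h, zkc A B α β h hβ]
      · rw [if_neg (not_le.2 h), min_eq_right h.le]
        have h1 := zkc B A α β h.le (by omega)
        rw [add_comm B A] at h1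
        rw [h1]
    · have h1 : ¬ c < α := by omega
      have h2 : ¬ c < γ := by omega
      unfold bb
      rw [if_neg h1, if_neg h2, sub_self, zero_mul, zero_mul]
  rw [hker α β hs, hker β α (by omega)]
  have k1 := ee' A B c α β γ hs
  have k2 := ee' A B c β α γ (by omega)
  have e0 : ∀ (P : Prop) [Decidable P], (if P then 1 else 0 : PX) = bb P := fun _ _ => rfl
  rw [e0, e0, e0, e0, e0, e0, e0]
  rcases le_or_gt A B with h | h
  · rw [if_pos h, if_pos h]
    have h3 : bb (B < A) = 0 := if_neg (by omega)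
    have h4 : bb (A < B) * (Q B - Q A) = Q B - Q A := by
      rcases h.eq_or_lt with h5 | h5
      · rw [h5, sub_self, mul_zero]
      · rw [show bb (A < B) = 1 from if_pos h5, one_mul]
    rw [h3]
    linear_combination (Q β - Q B) * k1 + (Q α - Q B) * k2 -
      (bb (c < α) - bb (c < β)) * (1 - bb (γ < B)) * (Q α - Q β) * h4
  · rw [if_neg (not_le.2 h), if_neg (not_le.2 h)]
    have h3 : bb (B < A) = 1 := if_pos h
    have h4 : bb (A < B) = 0 := if_neg (by omega)
    rw [h3, h4]
    linear_combination (Q β - Q B) * k1 + (Q α - Q B) * k2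

end Pool.Agent.SWB
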