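import Pool.Agent.Lib.MP_263316_co.AB.Spec

/-!
MP_263316_co, part AB, task T1c: the case S = 1.
-/

set_option autoImplicit false

namespace Pool.Agent.SWB

open Finset Pool.Agent.SWC

namespace T1caux

theorem rise_one (k : ℕ) : rise 1 k = QF k := by
  unfold rise QF
  exact prod_congr rfl fun i _ => by rw [Nat.add_comm]

theorem fall_QF (n : ℕ) : ∀ i : ℕ, i ≤ n → fall n i * QF (n - i) = QF n := by
  intro i
  induction i with
  | zero => intro _; rw [fall_zero, Nat.sub_zero, one_mul]
  | succ i ih =>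
    intro h
    have h1 := ih (by omega)
    obtain ⟨k, hk⟩ : ∃ k, n - i = k + 1 := ⟨n - i - 1, by omega⟩
    have h2 : n - (i + 1) = k := by omega
    rw [fall_succ, h2, hk, ← h1, hk, QF_succ]
    ring

theorem QF_one : QF 1 = 1 := by
  rw [show (1 : ℕ) = 0 + 1 from rfl, QF_succ, QF_zero, Q_one, one_mul]

theorem g1_eq (A B y : ℕ) (hA : 1 ≤ A) (hB : 1 ≤ B) : g1 A 1 B y = QF (A - 1) * QF (B - 1) *
    (if B < A ∧ y ≤ B then Q A - Q B else 0) := by
  have h0 : ∀ l ∈ Icc y B, l ≠ B → GG A 1 B l = 0 := by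
    intro l hl hne
    rw [mem_Icc] at hl
    rw [GG, Nat.sub_self, rise_zero_left (k := B - l) (by omega)]
    ring
  rcases Nat.lt_or_ge B y with hy | hy
  · rw [g1, Icc_eq_empty (by omega), sum_empty, if_neg (by omega)]
    ring
  · rw [g1, sum_eq_single B h0 (fun h => absurd (mem_Icc.mpr ⟨hy, le_refl B⟩) h)]
    rw [GG, Nat.sub_self, Nat.sub_self, rise_zero, rise_one, QF_zero, one_mul, Nat.zero_add,
      mul_one]
    have h1 := fall_QF (B - 1) (B - 1) (le_refl _)
    rw [Nat.sub_self, QF_zero, mul_one] at h1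
    rw [h1]
    by_cases h : B < A
    · rw [if_pos ⟨h, hy⟩, Q_sub h.le]
      have h2 := fall_QF (A - 1) B (by omega)
      obtain ⟨k, hk⟩ : ∃ k, A - B = k + 1 := ⟨A - B - 1, by omega⟩
      have h3 : A - 1 - B = k := by omega
      rw [h3] at h2
      rw [hk, QF_succ, ← h2, one_mul]
      ring
    · rw [if_neg (fun h' => h h'.1), fall_eq_zero (a := A - 1) (k := B) (by omega)]
      ring

end T1caux

/-- Task T1c. -/
theorem t_T1c : S_T1c := by
  intro A B hA hB
  constructor
  · intro j hj
    rw [D, T1caux.QF_one, T1caux.rise_one, T1caux.rise_one, one_mul, one_mul]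
    by_cases h : 1 ≤ j ∧ j ≤ min A B
    · rw [if_pos h]
      have hA' : j ≤ A := h.2.trans (min_le_left _ _)
      have hB' : j ≤ B := h.2.trans (min_le_right _ _)
      have h1 := T1caux.fall_QF (A - 1) (j - 1) (by omega)
      have h2 := T1caux.fall_QF (B - 1) (j - 1) (by omega)
      have e1 : A - 1 - (j - 1) = A - j := by omega
      have e2 : B - 1 - (j - 1) = B - j := by omega
      rw [e1] at h1
      rw [e2] at h2
      rw [← h1, ← h2]
      ring
    · rw [if_neg h]
      have h' : A < j ∨ B < j := by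
        by_contra hc
        push Not at hc
        exact h ⟨hj, le_min hc.1 hc.2⟩
      rcases h' with h' | h'
      · rw [fall_eq_zero (a := A - 1) (k := j - 1) (by omega)]; ring
      · rw [fall_eq_zero (a := B - 1) (k := j - 1) (by omega)]; ring
  · intro γ hγ hγ2
    rw [gg, T1caux.g1_eq A B γ hA hB, T1caux.g1_eq B A _ hB hA]
    have e : (A < B ∧ A + 1 + B - γ ≤ A) ↔ (A < B ∧ B < γ) := by
      constructor
      · rintro ⟨h1, h2⟩
        exact ⟨h1, by omega⟩
      · rintro ⟨h1, h2⟩
        exact ⟨h1, by omega⟩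
    rw [if_congr e rfl rfl]
    ring

end Pool.Agent.SWB
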