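import Pool.Agent.Lib.MP_263316_co.AB.Spec

/-!
MP_263316_co, AB/UN: reduction of boards to rectangles (helper82).
-/

set_option autoImplicit false

namespace Pool.Agent.SWB

open Finset Pool.Agent.SWC

namespace UNaux

/-- boards with an initial run of length `r` -/
theorem run (hCH : S_CH) (hBL : S_BL) (n w : ℕ) : ∀ (m r : ℕ), r + m = n → 1 ≤ r →
    ∀ h : ℕ → ℕ, Brd n w h → (∀ i < r, h i = h 0) → ∃ (Dn : PX) (a : ℕ → PX),
    Dn ≠ 0 ∧ ∀ (N : ℕ) (T : (ℕ → ℕ) → AN N), Lawful (qq N) n w T →
      MvPolynomial.C Dn * T h = ∑ k ∈ range (w + 1), MvPolynomial.C (a k) * T (fun _ => k) := by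
  intro m
  induction m with
  | zero =>
    intro r hr hr1 h hB hrun
    refine ⟨1, fun k => if k = h 0 then 1 else 0, one_ne_zero, fun N T hT => ?_⟩
    have h0 : h 0 ≤ w := hB.2 0 (by omega)
    rw [sum_eq_single (h 0)]
    · beta_reduce
      rw [if_pos rfl]
      congr 1
      exact hT.1 h (fun _ => h 0) fun i hi => hrun i (by omega)
    · intro k _ hk
      beta_reduce
      rw [if_neg hk, map_zero, zero_mul]
    · intro hn
      exact absurd (mem_range.2 (by omega)) hn
  | succ m ih =>
    intro r hr hr1 h hB hrun
    by_cases hd : h r = h 0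
    · refine ih (r + 1) (by omega) (by omega) h hB fun i hi => ?_
      rcases Nat.lt_succ_iff_lt_or_eq.1 hi with h1 | h1
      · exact hrun i h1
      · rw [h1, hd]
    · have hle : h 0 ≤ h r := hB.1 0 r (by omega) (by omega)
      obtain ⟨d, hd'⟩ : ∃ d, h r = h 0 + d := ⟨h r - h 0, by omega⟩
      have hd1 : 1 ≤ d := by omega
      have hrw : h r ≤ w := hB.2 r (by omega)
      obtain ⟨h0, hh0⟩ : ∃ h0 : ℕ → ℕ, h0 = fun i => if i ≤ r then h 0 else h i := ⟨_, rfl⟩
      obtain ⟨h1, hh1⟩ : ∃ h1 : ℕ → ℕ, h1 = fun i => if i ≤ r then h 0 + 1 else h i := ⟨_, rfl⟩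
      have hge : ∀ i, r < i → i < n → h r ≤ h i := fun i hi hin => hB.1 r i hi.le hin
      have hge0 : ∀ i, i < n → h 0 ≤ h i := fun i hin => hB.1 0 i (Nat.zero_le _) hin
      have B0 : Brd n w h0 := by
        rw [hh0]
        constructor
        · intro i j hij hj
          by_cases hi : i ≤ r
          · by_cases hj' : j ≤ r
            · simp only [if_pos hi, if_pos hj', le_refl]
            · simp only [if_pos hi, if_neg hj']
              exact hge0 j hj
          · have hj' : ¬ j ≤ r := by omega
            simp only [if_neg hi, if_neg hj']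
            exact hB.1 i j hij hj
        · intro i hi
          by_cases hi' : i ≤ r
          · simp only [if_pos hi']
            omega
          · simp only [if_neg hi']
            exact hB.2 i hi
      have B1 : Brd n w h1 := by
        rw [hh1]
        constructor
        · intro i j hij hj
          by_cases hi : i ≤ r
          · by_cases hj' : j ≤ r
            · simp only [if_pos hi, if_pos hj', le_refl]
            · simp only [if_pos hi, if_neg hj']
              have := hge j (by omega) hj
              omega
          · have hj' : ¬ j ≤ r := by omega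
            simp only [if_neg hi, if_neg hj']
            exact hB.1 i j hij hj
        · intro i hi
          by_cases hi' : i ≤ r
          · simp only [if_pos hi']
            omega
          · simp only [if_neg hi']
            exact hB.2 i hi
      obtain ⟨D0, a0, hD0, hT0⟩ := ih (r + 1) (by omega) (by omega) h0 B0 (by
        intro i hi
        rw [hh0]
        simp only [if_pos (show i ≤ r by omega), if_pos (Nat.zero_le r)])
      obtain ⟨D1, a1, hD1, hT1⟩ := ih (r + 1) (by omega) (by omega) h1 B1 (by
        intro i hi
        rw [hh1]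
        simp only [if_pos (show i ≤ r by omega), if_pos (Nat.zero_le r)])
      refine ⟨qX ^ (d - 1) * Q (r + 1) * D0 * D1,
        fun k => (qX ^ (d - 1) * Q (r + 1) - qX ^ r * Q d) * D1 * a0 k + qX ^ r * Q d * D0 * a1 k,
        ?_, ?_⟩
      · exact mul_ne_zero (mul_ne_zero (mul_ne_zero (X_pow_ne _) (Q_ne_zero (by omega))) hD0) hD1
      · intro N T hT
        have e1 := hBL hCH (AN N) (qq N) n w T hT h (h 0) d r hB (by omega) hd1 hrun hd'
        rw [← hh0, ← hh1, qn_qq, qn_qq, qq_eq, ← map_pow, ← map_pow] at e1
        have e2 := hT0 N T hT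
        have e3 := hT1 N T hT
        have e4 : ∑ k ∈ range (w + 1), MvPolynomial.C
            ((qX ^ (d - 1) * Q (r + 1) - qX ^ r * Q d) * D1 * a0 k + qX ^ r * Q d * D0 * a1 k) *
              T (fun _ => k) =
            MvPolynomial.C ((qX ^ (d - 1) * Q (r + 1) - qX ^ r * Q d) * D1) *
              ∑ k ∈ range (w + 1), MvPolynomial.C (a0 k) * T (fun _ => k) +
            MvPolynomial.C (qX ^ r * Q d * D0) *
              ∑ k ∈ range (w + 1), MvPolynomial.C (a1 k) * T (fun _ => k) := by
          rw [mul_sum, mul_sum, ← sum_add_distrib]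
          refine sum_congr rfl fun k _ => ?_
          simp only [map_mul, map_add, map_sub]
          ring
        rw [e4, ← e2, ← e3]
        simp only [map_mul, map_sub]
        linear_combination (MvPolynomial.C D0 * MvPolynomial.C D1) * e1

end UNaux

theorem t_UN : S_UN := by
  intro hCH hBL n w h hB
  rcases Nat.eq_zero_or_pos n with hn | hn
  · subst hn
    refine ⟨1, fun k => if k = 0 then 1 else 0, one_ne_zero, fun N T hT => ?_⟩
    rw [sum_eq_single 0]
    · beta_reduce
      rw [if_pos rfl]
      congr 1
      exact hT.1 h (fun _ => 0) fun i hi => absurd hi (Nat.not_lt_zero i)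
    · intro k _ hk
      beta_reduce
      rw [if_neg hk, map_zero, zero_mul]
    · intro hn
      exact absurd (mem_range.2 (by omega)) hn
  · refine UNaux.run hCH hBL n w (n - 1) 1 (by omega) le_rfl h hB fun i hi => ?_
    have h1 : i = 0 := by omega
    rw [h1]

end Pool.Agent.SWB
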