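import Pool.Agent.Lib.MP_263316_co.AB.Spec

/-!
MP_263316_co, part AB, task W: common factor.
-/

set_option autoImplicit false

namespace Pool.Agent.SWB

open Finset Pool.Agent.SWC

/-- Task W. -/
theorem t_W : S_W := by
  intro A S B y hS hy hA hB
  obtain ⟨s, rfl⟩ : ∃ s, S = s + 1 := ⟨S - 1, by omega⟩
  obtain ⟨z, rfl⟩ : ∃ z, y = z + 1 := ⟨y - 1, by omega⟩
  obtain ⟨a, rfl⟩ : ∃ a, A = a + z + 2 := ⟨A - z - 2, by omega⟩
  obtain ⟨b, rfl⟩ : ∃ b, B = b + z + 2 := ⟨B - z - 2, by omega⟩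
  have e1 : a + z + 2 - (z + 1) - 1 = a := by omega
  have e2 : b + z + 2 - (z + 1) - 1 = b := by omega
  have e3 : a + z + 2 - 1 = a + z + 1 := by omega
  have e4 : b + z + 2 - 1 = b + z + 1 := by omega
  have e5 : a + z + 2 - (z + 1) = a + 1 := by omega
  have e6 : b + z + 2 - (z + 1) = b + 1 := by omega
  have e7 : a + z + 2 - (z + 1 + 1) = a := by omega
  have e8 : b + z + 2 - (z + 1 + 1) = b := by omega
  have e9 : a + z + 1 - (z + 1) = a := by omega
  have e10 : b + z + 1 - z = b + 1 := by omega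
  refine ⟨QF s * qX ^ ((s + 1) * (z + 1)) * fall (a + z + 1) (z + 1) * fall (b + z + 1) z *
    rise (s + 1) a * rise (s + 1) b, ?_, ?_, ?_, ?_⟩
  · rw [hh, e1, e2, e3, e4, e5, e6, Nat.add_sub_cancel, Nat.add_sub_cancel, rise_succ (s + 1) a,
      rise_succ (s + 1) b]
    ring
  · rw [hh, e1, e3, e4, e6, e7, e8, Nat.add_sub_cancel, Nat.add_sub_cancel,
      fall_succ (a + z + 1) (z + 1), fall_succ (b + z + 1) z, e9, e10, mul_add (s + 1) (z + 1) 1,
      pow_add]
    ring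
  · rw [D, e3, e4, e6, e7, e8, Nat.add_sub_cancel, fall_succ (b + z + 1) z, e10, QF_succ]
    ring
  · rw [GG, e1, e3, e4, e5, e6, Nat.add_sub_cancel, Nat.add_sub_cancel, rise_succ (s + 1) a,
      rise_succ' s b, pow_add]
    ring

end Pool.Agent.SWB
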