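import Pool.Agent.Lib.MP_263316_co.All
import Pool.Agent.Lib.MP_263316_co.AB.Asm7
import Pool.Agent.Lib.MP_263316_co.AB.BL
import Pool.Agent.Lib.MP_263316_co.AB.CH
import Pool.Agent.Lib.MP_263316_co.AB.DAT
import Pool.Agent.Lib.MP_263316_co.AB.DIV
import Pool.Agent.Lib.MP_263316_co.AB.EE
import Pool.Agent.Lib.MP_263316_co.AB.EG
import Pool.Agent.Lib.MP_263316_co.AB.EX
import Pool.Agent.Lib.MP_263316_co.AB.FR
import Pool.Agent.Lib.MP_263316_co.AB.GH
import Pool.Agent.Lib.MP_263316_co.AB.HK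
import Pool.Agent.Lib.MP_263316_co.AB.IN
import Pool.Agent.Lib.MP_263316_co.AB.INV
import Pool.Agent.Lib.MP_263316_co.AB.KAP
import Pool.Agent.Lib.MP_263316_co.AB.KG
import Pool.Agent.Lib.MP_263316_co.AB.KI
import Pool.Agent.Lib.MP_263316_co.AB.KI1
import Pool.Agent.Lib.MP_263316_co.AB.KO
import Pool.Agent.Lib.MP_263316_co.AB.KS
import Pool.Agent.Lib.MP_263316_co.AB.LC
import Pool.Agent.Lib.MP_263316_co.AB.LI
import Pool.Agent.Lib.MP_263316_co.AB.LJ
import Pool.Agent.Lib.MP_263316_co.AB.LR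
import Pool.Agent.Lib.MP_263316_co.AB.MC
import Pool.Agent.Lib.MP_263316_co.AB.NA
import Pool.Agent.Lib.MP_263316_co.AB.NB
import Pool.Agent.Lib.MP_263316_co.AB.NG1
import Pool.Agent.Lib.MP_263316_co.AB.NG2
import Pool.Agent.Lib.MP_263316_co.AB.OE
import Pool.Agent.Lib.MP_263316_co.AB.OK
import Pool.Agent.Lib.MP_263316_co.AB.OL
import Pool.Agent.Lib.MP_263316_co.AB.PL
import Pool.Agent.Lib.MP_263316_co.AB.POS
import Pool.Agent.Lib.MP_263316_co.AB.PZm
import Pool.Agent.Lib.MP_263316_co.AB.PZp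
import Pool.Agent.Lib.MP_263316_co.AB.R0
import Pool.Agent.Lib.MP_263316_co.AB.R1
import Pool.Agent.Lib.MP_263316_co.AB.R2
import Pool.Agent.Lib.MP_263316_co.AB.RD
import Pool.Agent.Lib.MP_263316_co.AB.RG
import Pool.Agent.Lib.MP_263316_co.AB.RH
import Pool.Agent.Lib.MP_263316_co.AB.SH
import Pool.Agent.Lib.MP_263316_co.AB.SYa
import Pool.Agent.Lib.MP_263316_co.AB.SYb
import Pool.Agent.Lib.MP_263316_co.AB.SYc
import Pool.Agent.Lib.MP_263316_co.AB.SZ
import Pool.Agent.Lib.MP_263316_co.AB.T1a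
import Pool.Agent.Lib.MP_263316_co.AB.T1b
import Pool.Agent.Lib.MP_263316_co.AB.T1c
import Pool.Agent.Lib.MP_263316_co.AB.UN
import Pool.Agent.Lib.MP_263316_co.AB.W

/-!
MP_263316_co, part AB: assembly of all modules (helper89)
-/

set_option autoImplicit false

namespace Pool.Agent.SWB

open Pool.Agent.SWC

namespace All

theorem hypT : Asm.HypT where
  cut := t_CUT
  dis := t_DIS
  kt := Pool.Agent.SWC.All.kt
  eh := Pool.Agent.SWC.All.ehsum
  mc := t_MC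
  sh := t_SH
  lc := t_LC
  lr := t_LR
  ch := t_CH
  r0 := t_R0
  r1 := t_R1
  r2 := t_R2
  eg := t_EG
  kg := t_KG
  oe := t_OE
  ok := t_OK
  ko := t_KO
  ol := t_OL
  t1a := t_T1a
  t1b := t_T1b
  t1c := t_T1c
  sz := t_SZ
  w := t_W
  gh := t_GH
  ki1 := t_KI1
  ki := t_KI
  kap := t_KAP
  rd := t_RD
  rh := t_RH
  rg := t_RG

theorem hypP : Asm.HypP where
  pzm := t_PZm
  pzp := t_PZp
  fr := t_FR
  div := t_DIV
  inv := t_INV
  sya := t_SYa
  syb := t_SYb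
  syc := t_SYc
  pos := t_POS
  na := t_NA
  nb := t_NB
  ng1 := t_NG1
  ng2 := t_NG2
  dat := t_DAT
  msmul := Pool.Agent.SWC.All.msmul
  msum := Pool.Agent.SWC.All.msum
  km := Pool.Agent.SWC.All.km
  kf := Pool.Agent.SWC.All.kf

theorem hypB : Asm.HypB where
  bl := t_BL
  un := t_UN
  pl := t_PL
  lin := t_IN
  hk := t_HK
  ex := t_EX
  li := t_LI
  lj := t_LJ
  ee := t_EE
  ks := t_KS
  cmul := Pool.Agent.SWC.All.cmul

theorem final : S_FINAL2 := final2 hypT hypP hypB Pool.Agent.SWC.All.main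
  Pool.Agent.SWC.All.mlin t_Cpart t_PUcoeff t_FUN

end All

end Pool.Agent.SWB
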