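import Pool.Agent.Lib.MP_263316_co.AB.Spec

/-!
MP_263316_co, part AB: the formula for the graphs `M(A,S,B)`, `K(A,S,B)`, `E(A,S,B)` (helper89)
-/

set_option autoImplicit false

namespace Pool.Agent.SWB

open Finset Pool.Agent.SWC MvPolynomial

namespace Asm

/-- the formula for `M(A,S,B)` -/
def TF (A S B : ℕ) : Prop := ∀ (N c : ℕ) (j : Fin N),
  TQ N (mM A S B) (A + S + B) c j =
    Op N (A + S + B - 1) (A + S + B) (D A S B) (gg A S B) c j

theorem D_half {A S B : ℕ} (hA : 1 ≤ A) (hB : 1 ≤ B) (j : ℕ) (h : A + S + B ≤ 2 * j)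
    (hS : 1 ≤ S) : D A S B j = 0 :=
  D_eq_zero hA hB (by omega)

theorem zk_congr {t : ℕ} {D D' : ℕ → PX} (h : ∀ j, 1 ≤ j → D j = D' j) (α β : ℕ) :
    zk t D α β = zk t D' α β := by
  unfold zk
  refine sum_congr rfl fun j hj => ?_
  rw [h j (mem_Ico.mp hj).1]

theorem gg_symm {A S B γ : ℕ} (h : γ ≤ A + S + B) : gg A S B (A + S + B - γ) = gg B S A γ := by
  unfold gg
  rw [Nat.sub_sub_self h, add_comm, Nat.add_comm B S, Nat.add_comm (S + B) A, Nat.add_assoc]

theorem tfK (hKG : S_KG) (hOK : S_OK) (hLR : S_LR) (hCH : S_CH) (hDIS : S_DIS) (hCUT : S_CUT)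
    (hKT : S_KT) (hEH : S_EHsum) (hMC : S_MC) (hSZ : S_SZ) (hKI : S_KI) (hW : S_W) (hGH : S_GH)
    (hKI1 : S_KI1) {A S B : ℕ} (hA : 1 ≤ A) (hS : 1 ≤ S) (hB : 1 ≤ B) (hT : TF A S B)
    (N c : ℕ) (j : Fin N) :
    TQ N (mG A S 0 B) (A + S + B + 1) c j =
      Op N (A + S + B) (A + S + B) (fun i => Q B * D A S B i) (gK A S B) c j := by
  obtain ⟨ν, hν⟩ : ∃ ν, A + S + B = ν + 1 := ⟨A + S + B - 1, by omega⟩
  have h1 := hKG hLR hCH hDIS hCUT hKT hEH hMC N (mM A S B) (A + S + B) B hB (by omega)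
    (fun u hu => by unfold mM; split_ifs <;> omega)
    (fun u hu h => by unfold mM; split_ifs <;> omega)
    (fun u hu => by unfold mM; split_ifs <;> omega)
    (eh (qq N) (xx N) c) (tri (c + ν))
    (fun p => C (cf (A + S + B) (D A S B) (gg A S B) c p.1 p.2.1 p.2.2) * es (xx N) p.1 *
      es (xx N) p.2.1)
    (fun j => by
      have := hT N c j
      unfold TQ at this
      rw [this]
      unfold Op
      rw [hν, Nat.add_sub_cancel]) j
  have h2 := hOK N ν (A + S + B) B c (D A S B) (gg A S B) (fun j h => D_half hA hB j h hS)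
    (fun α β h => hSZ _ _ (fun j h => D_half hA hB j h hS) α β (by omega))
    (fun m hm1 hm2 => hKI hW hGH hKI1 A S B m hA hS hB hm1 (by omega)) j
  rw [h2] at h1
  have h3 : (fun v => if v + B < A + S + B then mM A S B v else A + S + B) = mG A S 0 B := by
    funext v
    unfold mM mG
    split_ifs <;> omega
  rw [h3] at h1
  unfold TQ
  rw [Nat.add_sub_cancel, h1, hν]
  congr 1
  funext γ
  unfold gK
  rw [hν]

theorem tfE (hEG : S_EG) (hOE : S_OE) (hLC : S_LC) (hCH : S_CH) (hDIS : S_DIS) (hCUT : S_CUT)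
    (hKT : S_KT) (hEH : S_EHsum) (hSH : S_SH) (hMC : S_MC) (hSZ : S_SZ) (hKI : S_KI) (hW : S_W)
    (hGH : S_GH)
    (hKI1 : S_KI1) {A S B : ℕ} (hA : 1 ≤ A) (hS : 1 ≤ S) (hB : 1 ≤ B) (hT : TF A S B)
    (N c : ℕ) (j : Fin N) :
    TQ N (mH B S 0 A) (A + S + B + 1) c j =
      Op N (A + S + B) (A + S + B) (fun i => Q A * D A S B i) (gE A S B) c j := by
  obtain ⟨ν, hν⟩ : ∃ ν, A + S + B = ν + 1 := ⟨A + S + B - 1, by omega⟩
  have h1 := hEG hLC hCH hDIS hCUT hKT hEH hSH hMC N (mM A S B) (A + S + B) A c hA (by omega)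
    (fun u hu => by unfold mM; split_ifs <;> omega)
    (by unfold mM; split_ifs <;> omega) j
  have h2 := hOE N ν (A + S + B) A c (D A S B) (gg A S B) (by omega)
    (fun j h => D_half hA hB j h hS)
    (fun α β h => hSZ _ _ (fun j h => D_half hA hB j h hS) α β (by omega))
    (fun β h1 h2 => by
      have h4 := hKI hW hGH hKI1 B S A β hB hS hA h1 (by omega)
      rw [← hν, gg_symm (by omega), h4, zk_congr (fun j _ => D_symm B S A j) A β]
      congr 1
      omega) j
  rw [hT N (c + 1) j, hT N 0 j, hν, Nat.add_sub_cancel, ← hν, h2] at h1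
  have h3 : (fun v => if v = 0 then A else mM A S B (v - 1) + 1) = mH B S 0 A := by
    funext v
    unfold mM mH
    split_ifs <;> omega
  rw [h3] at h1
  rw [h1, hν]
  congr 1
  funext γ
  unfold gE
  rw [hν]

/-- `A = 1` -/
theorem rise_QF (s : ℕ) (hs : 1 ≤ s) (k : ℕ) : QF (s - 1) * rise s k = QF (s + k - 1) := by
  induction k with
  | zero => simp [rise_zero]
  | succ k ih =>
    rw [rise_succ, ← mul_assoc, ih]
    obtain ⟨m, hm⟩ : ∃ m, s + k = m + 1 := ⟨s + k - 1, by omega⟩
    rw [show s + (k + 1) - 1 = m + 1 by omega, show s + k - 1 = m by omega, hm, QF_succ]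

theorem tf_A1 (hEG : S_EG) (hOE : S_OE) (hLC : S_LC) (hCH : S_CH) (hDIS : S_DIS) (hCUT : S_CUT)
    (hKT : S_KT) (hEH : S_EHsum) (hSH : S_SH) (hMC : S_MC) (hKO : S_KO) (hOL : S_OL)
    {S B : ℕ} (hS : 1 ≤ S) (hB : 1 ≤ B) : TF 1 S B := by
  intro N c j
  obtain ⟨k, hk⟩ : ∃ k, S + B = k + 1 := ⟨S + B - 1, by omega⟩
  have hk1 : 1 ≤ k := by omega
  have h1 := hEG hLC hCH hDIS hCUT hKT hEH hSH hMC N (fun _ => k) (k + 1) S c hS (by omega)
    (fun u _ => rfl) (by show S ≤ k + 1; omega) j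
  have hko : ∀ c' : ℕ, TQ N (fun _ => k) (k + 1) c' j =
      Op N k (k + 2) (fun i => if i = 1 then QF (k - 1) else 0) (fun _ => 0) c' j := fun c' =>
    hKO hKT hMC N k c' (fun _ => k) hk1 (fun u _ => le_refl k) j
  have hz : ∀ α β : ℕ, β ≤ k → zk (k + 2) (fun i => if i = 1 then QF (k - 1) else 0) α β =
      if β = 0 then QF (k - 1) * (Q α - Q k) else 0 := by
    intro α β hβ
    unfold zk
    rw [Finset.sum_eq_single_of_mem 1 (mem_Ico.mpr ⟨le_refl 1, by omega⟩)
      (fun i _ hi => by show (if i = 1 then QF (k - 1) else 0) * _ = 0; rw [if_neg hi, zero_mul])]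
    show (if 1 = 1 then QF (k - 1) else 0) * _ = _
    rw [if_pos rfl, if_neg (show ¬ k + 2 ≤ β + 1 by omega), add_zero]
    by_cases hb : β = 0
    · subst hb
      rw [if_pos (by omega), if_pos rfl]
      congr 3
      omega
    · rw [if_neg (by omega), if_neg hb, mul_zero]
  have h2 := hOE N k (k + 2) S c (fun i => if i = 1 then QF (k - 1) else 0) (fun _ => 0) hk1
    (fun j hj => by show (if j = 1 then QF (k - 1) else 0) = 0; rw [if_neg (by omega)])
    (fun α β h => by
      rw [hz α β (by omega), hz β α (by omega)]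
      by_cases ha : α = 0
      · subst ha
        have hb : β = k := by omega
        subst hb
        rw [if_neg (by omega), if_pos rfl, sub_self, mul_zero, add_zero]
      · by_cases hb : β = 0
        · subst hb
          have ha' : α = k := by omega
          subst ha'
          rw [if_pos rfl, if_neg ha, sub_self, mul_zero, add_zero]
        · rw [if_neg ha, if_neg hb, add_zero])
    (fun β h1 h2 => by
      rw [hz S β h2, if_neg (by omega), mul_zero]) j
  rw [hko, hko, h2] at h1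
  have h3 : (fun v => if v = 0 then S else (fun _ => k) (v - 1) + 1) = mM 1 S B := by
    funext v
    unfold mM
    split_ifs <;> simp_all <;> omega
  rw [h3] at h1
  rw [show 1 + S + B = k + 1 + 1 by omega, h1, Nat.add_sub_cancel]
  refine hOL.1 N (k + 1) (k + 2) c _ _ _ _ ?_ ?_ j
  · intro i hi
    unfold D
    by_cases hi1 : i = 1
    · subst hi1
      rw [if_pos rfl]
      simp only [Nat.sub_self, fall_zero, rise_zero, mul_zero, pow_zero, mul_one]
      obtain ⟨s, rfl⟩ : ∃ s, S = s + 1 := ⟨S - 1, by omega⟩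
      have h5 := rise_QF (s + 1) hS (B - 1)
      rw [Nat.add_sub_cancel] at h5
      rw [QF_succ, mul_comm (QF s), mul_assoc, h5]
      congr 2
      omega
    · rw [if_neg hi1, mul_zero, fall_eq_zero (a := 1 - 1) (k := i - 1) (by omega)]
      ring
  · intro γ hγ1 hγ2
    have hg1 : g1 1 S B γ = 0 := by
      unfold g1
      refine sum_eq_zero fun l hl => ?_
      have hl1 := (mem_Icc.mp hl).1
      unfold GG
      rw [fall_eq_zero (a := 1 - 1) (k := l) (by omega)]
      ring
    unfold gg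
    rw [hg1, zero_add]
    unfold g1
    by_cases hγ : γ = k + 1
    · rw [if_pos hγ, hz S 0 (by omega), if_pos rfl]
      rw [show 1 + S + B - γ = 1 by omega]
      rw [Finset.Icc_self, sum_singleton]
      unfold GG
      simp only [Nat.sub_self, fall_zero, rise_zero, mul_one, zero_add]
      have h5 := rise_QF S hS (B - 1)
      have h6 := Q_sub (a := k) (b := S) (by omega)
      rw [show k - S = B - 1 by omega] at h6
      have h7 : fall (B - 1) 1 = Q (B - 1) := by simp [fall]
      rw [h7, show k - 1 = S + (B - 1) - 1 by omega, ← h5]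
      linear_combination (QF (S - 1) * rise S (B - 1)) * h6
    · rw [if_neg hγ, mul_zero, Finset.Icc_eq_empty (by omega), sum_empty]

end Asm

end Pool.Agent.SWB
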