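import Pool.Agent.Lib.MP_263316_co.AB.Asm1

/-!
MP_263316_co, part AB: the formula for the graphs `M(A,S,B)`: induction (helper89)
-/

set_option autoImplicit false

namespace Pool.Agent.SWB

open Finset Pool.Agent.SWC MvPolynomial

namespace Asm

/-- `TT` is linear -/
theorem TT_sum {R : Type} [CommRing R] {N : ℕ} (m : ℕ → ℕ) (q : R) (x : Fin N → R)
    (U : Finset ℕ) (s t : ℕ) (hs : s ∈ U) {ι : Type} (P : Finset ι) (a : ι → R)
    (φ : ι → Fin N → R) (j : Fin N) :
    TT m q x U s t (fun k => ∑ p ∈ P, a p * φ p k) j = ∑ p ∈ P, a p * TT m q x U s t (φ p) j := by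
  unfold TT
  have h := Z_update_sum (m := m) (q := q) hs P a
    (fun p k => φ p k * (if s = t then (if k = j then 1 else 0) else 1))
    (fun v k => x k * (if v = t then (if k = j then 1 else 0) else 1))
  have e1 : ∀ f : Fin N → R, Z m q U (fun v k => (if v = s then f k else x k) *
      (if v = t then (if k = j then 1 else 0) else 1)) =
      Z m q U (fun v k => if v = s then f k * (if s = t then (if k = j then 1 else 0) else 1)
        else x k * (if v = t then (if k = j then 1 else 0) else 1)) := by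
    intro f
    refine Z_congr fun u _ k => ?_
    by_cases hu : u = s
    · subst hu; simp
    · rw [if_neg hu, if_neg hu]
  rw [e1]
  have e2 : ∀ k : Fin N, (∑ p ∈ P, a p * φ p k) *
      (if s = t then (if k = j then 1 else 0) else 1) =
      ∑ p ∈ P, a p * (φ p k * (if s = t then (if k = j then 1 else 0) else 1)) := by
    intro k
    rw [sum_mul]
    exact sum_congr rfl fun p _ => by ring
  simp only [e2]
  rw [h]
  refine sum_congr rfl fun p _ => ?_
  rw [e1]

theorem Op_smul (hOL : S_OL) (N ν t c : ℕ) (D g : ℕ → PX) (a : PX) (j : Fin N) :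
    Op N ν t (fun i => a * D i) (fun γ => a * g γ) c j = C a * Op N ν t D g c j := by
  have h := hOL.2.1 N ν t c D (fun _ => 0) g (fun _ => 0) a j
  simp only [add_zero] at h
  rw [h]
  have h0 : Op N ν t (fun _ => 0) (fun _ => 0) c j = 0 := by
    unfold Op
    refine sum_eq_zero fun p _ => ?_
    unfold cf zk
    simp
  rw [h0, add_zero]

/-- `S = 1` -/
theorem tf_S1 (hCUT : S_CUT) (hKT : S_KT) (hMC : S_MC) (hKO : S_KO) (hOL : S_OL) (hSH : S_SH)
    (hT1a : S_T1a) (hT1b : S_T1b) (hT1c : S_T1c)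
    {A B : ℕ} (hA : 1 ≤ A) (hB : 1 ≤ B) : TF A 1 B := by
  intro N c j
  have hn : A + 1 + B - 1 = A + B := by omega
  have hcut := hCUT (AN N) N (mM A 1 B) (qq N) (xx N) (range (A + 1 + B)) 0 A (A + B)
    (mem_range.mpr (by omega)) (mem_range.mpr (by omega)) (mem_range.mpr (by omega))
    (by omega) (by omega)
    (fun a _ b _ h1 h2 => by unfold mM; rw [if_pos h1]; omega) (eh (qq N) (xx N) c)
  have hU1 : (range (A + 1 + B)).filter (fun u => u ≤ A) = range (A + 1) := by
    ext u; simp only [mem_filter, mem_range]; omega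
  have hU2 : (range (A + 1 + B)).filter (fun u => A ≤ u) = (range (B + 1)).image (fun u => u + A) := by
    ext u
    simp only [mem_filter, mem_range, mem_image]
    constructor
    · intro h
      exact ⟨u - A, by omega, by omega⟩
    · rintro ⟨v, hv, rfl⟩
      omega
  rw [hU1, hU2] at hcut
  -- the first factor
  have hF : TT (mM A 1 B) (qq N) (xx N) (range (A + 1)) 0 A (eh (qq N) (xx N) c) =
      fun i => ∑ p ∈ tri (c + A), (C (cf (A + 2) (fun i => if i = 1 then QF (A - 1) else 0)
        (fun _ => 0) c p.1 p.2.1 p.2.2) * es (xx N) p.1 * es (xx N) p.2.1) *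
        eh (qq N) (xx N) p.2.2 i := by
    funext i
    exact hKO hKT hMC N A c (mM A 1 B) hA
      (fun u hu => by unfold mM; split_ifs <;> omega) i
  -- the second factor
  have hG : ∀ γ : ℕ, TT (mM A 1 B) (qq N) (xx N) ((range (B + 1)).image (fun u => u + A)) A (A + B)
      (eh (qq N) (xx N) γ) j =
      Op N B (B + 2) (fun i => if i = 1 then QF (B - 1) else 0) (fun _ => 0) γ j := by
    intro γ
    have h1 := hKO hKT hMC N B γ (fun _ => B) hB (fun u _ => le_refl B) j
    rw [← h1]
    unfold TQ TT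
    rw [hSH (AN N) N (fun _ => B) (mM A 1 B) (qq N) A (range (B + 1)) _ (by
      intro u hu v hv huv
      simp only [mem_range] at hu hv
      unfold mM
      split_ifs <;> omega)]
    refine Z_congr fun u hu k => ?_
    have e1 : (u + A = A) ↔ (u = 0) := by omega
    have e2 : (u + A = A + B) ↔ (u = B + 1 - 1) := by omega
    simp only [e1, e2]
  unfold TQ
  rw [hn, hcut, hF, TT_sum _ _ _ _ _ _ (mem_image.mpr ⟨0, mem_range.mpr (by omega), by omega⟩)]
  simp only [hG]
  -- scaling
  have hs1 : ∀ (k γ : ℕ), Op N k (k + 2) (fun i => if i = 1 then QF (k - 1) else 0)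
      (fun _ => 0) γ j = C (QF (k - 1)) *
        Op N k (k + 2) (fun i => if i = 1 then 1 else 0) (fun _ => 0) γ j := by
    intro k γ
    rw [← Op_smul hOL]
    congr 1
    · funext i; split_ifs <;> simp
    · funext i; simp
  have hs2 : ∀ (k c α β γ : ℕ), cf (k + 2) (fun i => if i = 1 then QF (k - 1) else 0)
      (fun _ => 0) c α β γ = QF (k - 1) * cf (k + 2) (fun i => if i = 1 then 1 else 0)
      (fun _ => 0) c α β γ := by
    intro k c α β γ
    unfold cf
    have : zk (k + 2) (fun i => if i = 1 then QF (k - 1) else 0) α β =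
        QF (k - 1) * zk (k + 2) (fun i => if i = 1 then 1 else 0) α β := by
      unfold zk
      rw [mul_sum]
      refine sum_congr rfl fun i _ => ?_
      by_cases hi : i = 1
      · simp [hi]
      · simp [hi]
    rw [this]
    split_ifs <;> ring
  have h2 := hT1a N A B c hA hB j
  have h3 := hOL.2.2 N (c + A + B)
    (fun α β γ => ((if c < α then 1 else 0) - (if α < A then 1 else 0)) *
      ((if γ < B then 1 else 0) - (if β < B then 1 else 0)) * (Q α - Q A) *
      (Q β - Q B))
    (fun α β γ => cf (A + B + 1) (fun j => if 1 ≤ j ∧ j ≤ min A B then qX ^ (j - 1) else 0)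
      (fun i => (if B < A ∧ i ≤ B then Q A - Q B else 0) + (if A < B ∧ B < i then Q B - Q A else 0))
      c α β γ)
    (fun α β γ h => hT1b A B c α β γ hA hB h) j
  rw [h3] at h2
  have h4 : Op N (A + B) (A + B + 1) (D A 1 B) (gg A 1 B) c j = C (QF (A - 1) * QF (B - 1)) *
      Op N (A + B) (A + B + 1) (fun j => if 1 ≤ j ∧ j ≤ min A B then qX ^ (j - 1) else 0)
      (fun i => (if B < A ∧ i ≤ B then Q A - Q B else 0) +
        (if A < B ∧ B < i then Q B - Q A else 0)) c j := by
    rw [← Op_smul hOL]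
    obtain ⟨h5, h6⟩ := hT1c A B hA hB
    exact hOL.1 N (A + B) (A + B + 1) c _ _ _ _ (fun i hi => h5 i hi)
      (fun γ h1 h2 => h6 γ h1 h2) j
  rw [show A + 1 + B = A + B + 1 by omega, h4]
  have h5 : Op N (A + B) (A + B + 1) (fun j => if 1 ≤ j ∧ j ≤ min A B then qX ^ (j - 1) else 0)
      (fun i => (if B < A ∧ i ≤ B then Q A - Q B else 0) +
        (if A < B ∧ B < i then Q B - Q A else 0)) c j =
      ∑ p ∈ tri (c + A), C (cf (A + 2) (fun i => if i = 1 then 1 else 0) (fun _ => 0)
      c p.1 p.2.1 p.2.2) * es (xx N) p.1 * es (xx N) p.2.1 *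
      Op N B (B + 2) (fun i => if i = 1 then 1 else 0) (fun _ => 0) p.2.2 j := by
    rw [h2]
    unfold Op
    rw [Nat.add_assoc c A B]
  rw [h5, mul_sum]
  refine sum_congr rfl fun p _ => ?_
  rw [hs1 B, hs2 A, map_mul, map_mul]
  ring

/-- the recursion step -/
theorem tf_step (hOL : S_OL) (hR0 : S_R0) (hR1 : S_R1) (hR2 : S_R2) (hLC : S_LC) (hLR : S_LR)
    (hCH : S_CH) (hMC : S_MC) (hRD : S_RD)
    (hRG : ∀ A S B γ : ℕ, 2 ≤ A → 1 ≤ S → 2 ≤ B → 1 ≤ γ → γ < A + S + B →
      Q S * Q (B - 1) * gg A (S + 1) (B - 1) γ - Q S * Q (A - 1) * gg (A - 1) (S + 1) B γ -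
        (Q (B - 1) - Q (A - 1)) * Q (S + 1) * gg A S B γ =
      qX ^ S * (Q (A - 1) * gK (A - 1) (S + 1) (B - 1) γ -
        Q (B - 1) * gE (A - 1) (S + 1) (B - 1) γ))
    {A S B : ℕ} (hA : 1 ≤ A) (hS : 1 ≤ S) (hB : 1 ≤ B)
    (h1 : TF (A + 1) S (B + 1)) (h2 : TF A (S + 1) (B + 1))
    (hK : ∀ (N c : ℕ) (j : Fin N), TQ N (mG A (S + 1) 0 B) (A + (S + 1) + B + 1) c j =
      Op N (A + (S + 1) + B) (A + (S + 1) + B) (fun i => Q B * D A (S + 1) B i)
        (gK A (S + 1) B) c j)
    (hE : ∀ (N c : ℕ) (j : Fin N), TQ N (mH B (S + 1) 0 A) (A + (S + 1) + B + 1) c j =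
      Op N (A + (S + 1) + B) (A + (S + 1) + B) (fun i => Q A * D A (S + 1) B i)
        (gE A (S + 1) B) c j) :
    TF (A + 1) (S + 1) B := by
  intro N c j
  have r0 := hR0 hLC hLR hCH hMC N (A + 1) S (B + 1) c (by omega) (by omega) j
  have r1 := hR1 hLR hCH N A 1 S B c hA j
  have r2 := hR2 hLC hCH N B 1 S A c hB j
  simp only [Nat.add_sub_cancel] at r0
  have e1 : mG A 0 (1 + S) B = mM A (S + 1) (B + 1) := by
    funext v; unfold mG mM; split_ifs <;> omega
  have e2 : mH B 0 (1 + S) A = mM (A + 1) (S + 1) B := by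
    funext v; unfold mH mM; split_ifs <;> omega
  rw [e1, Nat.add_comm 1 S] at r1
  rw [e2, Nat.add_comm 1 S] at r2
  set n := A + 1 + S + (B + 1) with hn
  rw [show A + 1 + S + B + 1 = n by omega] at r1
  rw [show B + 1 + S + A + 1 = n by omega] at r2
  have t1 := h1 N c j
  have t2 := h2 N c j
  have tK := hK N c j
  have tE := hE N c j
  rw [show A + (S + 1) + (B + 1) = n by omega] at t2
  rw [show A + (S + 1) + B + 1 = n by omega] at tK tE
  rw [show A + (S + 1) + B = n - 1 by omega] at tK tE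
  rw [show A + 1 + (S + 1) + B = n by omega]
  rw [← hn] at t1
  rw [tK, t2] at r1
  rw [tE] at r2
  rw [t1] at r0
  -- r0 : [B] (H - T) = [A] (G - T), r1 : [S+1] G = .., r2 : [S+1] H = ..
  have key : C (Q S * Q B) * TQ N (mM (A + 1) (S + 1) B) n c j =
      C (Q S * Q A) * Op N (n - 1) n (D A (S + 1) (B + 1)) (gg A (S + 1) (B + 1)) c j +
      C ((Q B - Q A) * Q (S + 1)) * Op N (n - 1) n (D (A + 1) S (B + 1)) (gg (A + 1) S (B + 1)) c j +
      C (qX ^ S * Q A) * Op N (n - 1) (n - 1) (fun i => Q B * D A (S + 1) B i)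
        (gK A (S + 1) B) c j -
      C (qX ^ S * Q B) * Op N (n - 1) (n - 1) (fun i => Q A * D A (S + 1) B i)
        (gE A (S + 1) B) c j := by
    simp only [map_mul, map_sub, map_pow, Q_one, mul_one] at r0 r1 r2 ⊢
    linear_combination (-(C (Q B) : AN N)) * r2 + (C (Q A) : AN N) * r1 +
      (C (Q (S + 1)) : AN N) * r0
  have hKE : C (qX ^ S * Q A) * Op N (n - 1) (n - 1) (fun i => Q B * D A (S + 1) B i)
        (gK A (S + 1) B) c j -
      C (qX ^ S * Q B) * Op N (n - 1) (n - 1) (fun i => Q A * D A (S + 1) B i)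
        (gE A (S + 1) B) c j =
      Op N (n - 1) n (fun _ => 0) (fun γ => qX ^ S * (Q A * gK A (S + 1) B γ -
        Q B * gE A (S + 1) B γ)) c j := by
    have a1 := hOL.2.1 N (n - 1) (n - 1) c (fun i => Q A * D A (S + 1) B i)
      (fun i => qX ^ S * Q A * (Q B * D A (S + 1) B i)) (gE A (S + 1) B)
      (fun γ => qX ^ S * Q A * gK A (S + 1) B γ) (-(qX ^ S * Q B)) j
    have a2 := Op_smul hOL N (n - 1) (n - 1) c (fun i => Q B * D A (S + 1) B i)
      (gK A (S + 1) B) (qX ^ S * Q A) j
    rw [a2] at a1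
    have a3 : Op N (n - 1) (n - 1) (fun i => -(qX ^ S * Q B) * (Q A * D A (S + 1) B i) +
        qX ^ S * Q A * (Q B * D A (S + 1) B i)) (fun γ => -(qX ^ S * Q B) * gE A (S + 1) B γ +
        qX ^ S * Q A * gK A (S + 1) B γ) c j =
        Op N (n - 1) n (fun _ => 0) (fun γ => qX ^ S * (Q A * gK A (S + 1) B γ -
        Q B * gE A (S + 1) B γ)) c j := by
      unfold Op
      refine sum_congr rfl fun p _ => ?_
      congr 4
      unfold cf zk
      have z1 : ∀ i, -(qX ^ S * Q B) * (Q A * D A (S + 1) B i) +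
        qX ^ S * Q A * (Q B * D A (S + 1) B i) = 0 := fun i => by ring
      simp only [z1, zero_mul, sum_const_zero, mul_zero, add_zero]
      split_ifs
      · ring
      · rfl
    rw [← a3, a1, map_neg]
    ring
  rw [add_sub_assoc, hKE] at key
  -- the right-hand side as one operator
  have hR : C (Q S * Q B) * Op N (n - 1) n (D (A + 1) (S + 1) B) (gg (A + 1) (S + 1) B) c j =
      C (Q S * Q A) * Op N (n - 1) n (D A (S + 1) (B + 1)) (gg A (S + 1) (B + 1)) c j +
      C ((Q B - Q A) * Q (S + 1)) * Op N (n - 1) n (D (A + 1) S (B + 1)) (gg (A + 1) S (B + 1)) c j +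
      Op N (n - 1) n (fun _ => 0) (fun γ => qX ^ S * (Q A * gK A (S + 1) B γ -
        Q B * gE A (S + 1) B γ)) c j := by
    rw [add_assoc, ← hOL.2.1, ← hOL.2.1, ← Op_smul hOL]
    refine hOL.1 N (n - 1) n c _ _ _ _ ?_ ?_ j
    · intro i hi
      have := hRD (A + 1) S (B + 1) i (by omega) hS (by omega) hi
      simp only [Nat.add_sub_cancel] at this
      simp only [add_zero]
      linear_combination this
    · intro γ hγ1 hγ2
      have := hRG (A + 1) S (B + 1) γ (by omega) hS (by omega) hγ1 (by omega)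
      simp only [Nat.add_sub_cancel] at this
      linear_combination this
  have hne : (C (Q S * Q B) : AN N) ≠ 0 := by
    rw [Ne, C_eq_zero]
    exact mul_ne_zero (Q_ne_zero hS) (Q_ne_zero hB)
  apply mul_left_cancel₀ hne
  rw [key, ← hR]

end Asm

end Pool.Agent.SWB
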