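import Pool.Agent.Lib.MP_263316_co.AB.Asm2

/-!
MP_263316_co, part AB: the formula (all parameters) and the extremal graphs (helper89)
-/

set_option autoImplicit false

namespace Pool.Agent.SWB

open Finset Pool.Agent.SWC MvPolynomial

namespace Asm

/-- the bundle of the statements about graphs and operators -/
structure HypT : Prop where
  cut : S_CUT
  dis : S_DIS
  kt : S_KT
  eh : S_EHsum
  mc : S_MC
  sh : S_SH
  lc : S_LC
  lr : S_LR
  ch : S_CH
  r0 : S_R0
  r1 : S_R1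
  r2 : S_R2
  eg : S_EG
  kg : S_KG
  oe : S_OE
  ok : S_OK
  ko : S_KO
  ol : S_OL
  t1a : S_T1a
  t1b : S_T1b
  t1c : S_T1c
  sz : S_SZ
  w : S_W
  gh : S_GH
  ki1 : S_KI1
  ki : S_KI
  kap : S_KAP
  rd : S_RD
  rh : S_RH
  rg : S_RG

theorem tf_all (H : HypT) : ∀ S : ℕ, 1 ≤ S → ∀ A : ℕ, 1 ≤ A → ∀ B : ℕ, 1 ≤ B → TF A S B := by
  intro S hS
  induction S, hS using Nat.le_induction with
  | base =>
    intro A hA B hB
    exact tf_S1 H.cut H.kt H.mc H.ko H.ol H.sh H.t1a H.t1b H.t1c hA hB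
  | succ S hS ihS =>
    intro A hA
    induction A, hA using Nat.le_induction with
    | base =>
      intro B hB
      exact tf_A1 H.eg H.oe H.lc H.ch H.dis H.cut H.kt H.eh H.sh H.mc H.ko H.ol (by omega) hB
    | succ A hA ihA =>
      intro B hB
      exact tf_step H.ol H.r0 H.r1 H.r2 H.lc H.lr H.ch H.mc H.rd
        (H.rg H.w H.gh H.ki1 H.kap H.rd H.rh) hA hS hB (ihS (A + 1) (by omega) (B + 1) (by omega))
        (ihA (B + 1) (by omega))
        (tfK H.kg H.ok H.lr H.ch H.dis H.cut H.kt H.eh H.mc H.sz H.ki H.w H.gh H.ki1 hA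
          (by omega) hB (ihA B hB))
        (tfE H.eg H.oe H.lc H.ch H.dis H.cut H.kt H.eh H.sh H.mc H.sz H.ki H.w H.gh H.ki1 hA
          (by omega) hB (ihA B hB))

theorem tf (H : HypT) {A S B : ℕ} (hA : 1 ≤ A) (hS : 1 ≤ S) (hB : 1 ≤ B) : TF A S B :=
  tf_all H S hS A hA B hB

theorem tk (H : HypT) {A S B : ℕ} (hA : 1 ≤ A) (hS : 1 ≤ S) (hB : 1 ≤ B) (N c : ℕ) (j : Fin N) :
    TQ N (mG A S 0 B) (A + S + B + 1) c j =
      Op N (A + S + B) (A + S + B) (fun i => Q B * D A S B i) (gK A S B) c j :=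
  tfK H.kg H.ok H.lr H.ch H.dis H.cut H.kt H.eh H.mc H.sz H.ki H.w H.gh H.ki1 hA hS hB
    (tf H hA hS hB) N c j

theorem te (H : HypT) {A S B : ℕ} (hA : 1 ≤ A) (hS : 1 ≤ S) (hB : 1 ≤ B) (N c : ℕ) (j : Fin N) :
    TQ N (mH B S 0 A) (A + S + B + 1) c j =
      Op N (A + S + B) (A + S + B) (fun i => Q A * D A S B i) (gE A S B) c j :=
  tfE H.eg H.oe H.lc H.ch H.dis H.cut H.kt H.eh H.sh H.mc H.sz H.ki H.w H.gh H.ki1 hA hS hB
    (tf H hA hS hB) N c j

/-- the bundle of the statements about positivity -/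
structure HypP : Prop where
  pzm : S_PZm
  pzp : S_PZp
  fr : S_FR
  div : S_DIV
  inv : S_INV
  sya : S_SYa
  syb : S_SYb
  syc : S_SYc
  pos : S_POS
  na : S_NA
  nb : S_NB
  ng1 : S_NG1
  ng2 : S_NG2
  dat : S_DAT
  msmul : S_Msmul
  msum : S_Msum
  km : S_KM
  kf : S_KF

theorem Dat_rev {ν t J : ℕ} {e : ℤ} {D g : ℕ → PX} (h : Dat ν t J e D g) :
    Dat ν t J e D (fun γ => g (ν + 1 - γ)) :=
  ⟨h.1, h.2.1, h.2.2.1, h.2.2.2.1, fun γ h1 h2 => h.2.2.2.2 _ (by omega) (by omega)⟩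

theorem op_mem (P : HypP) {N ν t J c : ℕ} {e : ℤ} {D g : ℕ → PX} (ht : t = ν ∨ t = ν + 1)
    (h : Dat ν t J e D g) (E : ℕ) (hE : (E : ℤ) = e + ν - 1 + t) :
    Op N ν t D g c ∈ MCone N (c + ν + 1) (c + E) :=
  P.pos P.pzp P.sya P.syb P.syc P.pzm P.inv N ν t J c E e D g ht h (by omega)

/-- multiplication of an element of the marked cone by a centred unimodal polynomial -/
theorem smul_mem (P : HypP) {N n : ℕ} {z : ℤ} {p : PX} (hp : p ∈ PZ z) {F : Fin N → AN N} {d : ℕ}
    (hF : F ∈ MCone N n d) (d' : ℕ) (hd : (d' : ℤ) = d + z) :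
    (fun j => C p * F j) ∈ MCone N n d' := by
  rcases P.pzp.1 z p hp with h0 | ⟨e, he, hpe⟩
  · have : (fun j => C p * F j) = (0 : Fin N → AN N) := by
      funext j; simp [h0]
    rw [this]
    exact AddSubmonoid.zero_mem _
  · have hc : (C p : AN N) ∈ Cone N 0 e :=
      AddSubmonoid.subset_closure ⟨0, p, rfl, hpe, by simp⟩
    have h1 := P.msmul N n d 0 e (C p) F hc hF
    rw [Nat.zero_add] at h1
    have h2 : e + d = d' := by omega
    rwa [h2] at h1

theorem gen_mem {k : ℕ} (a : ℕ) (hk : 1 ≤ k) : qX ^ a * Q k ∈ PZ (2 * a + k - 1) :=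
  PZ_gen (by ring)

/-- combination of the two operators -/
theorem comb_mem (P : HypP) {N ν k s r S Y c : ℕ} (hs : s = Y + S) (hs1 : 1 ≤ s)
    (hkr : k + Y ≤ r) (hν : ν = k + s + r + 1) (gT gK' : ℕ → PX)
    (hT : Dat ν (k + s + r + 2) (k + 1) (e0 k s r) (aN k s r) gT)
    (hK : 1 ≤ Y → Dat ν (k + s + r + 1) (k + 1) (e0 k s (r - 1)) (aN k s (r - 1)) gK') :
    ∃ d : ℕ, (d : ℤ) = tr (k + 1 + s) + tr (r + 1 + s) - tr s - Y - tr r ∧
      (fun j => C (qX ^ S * Q Y) * Op N ν (k + s + r + 1) (aN k s (r - 1)) gK' c j +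
        C (Q S) * Op N ν (k + s + r + 2) (aN k s r) gT c j) ∈ MCone N (c + ν + 1) (c + d) := by
  -- nonnegativity of the index
  have hnn : (0 : ℤ) ≤ tr (k + 1 + s) + tr (r + 1 + s) - tr s - Y - tr r := by
    have a1 := two_tr (k + 1 + s)
    have a2 := two_tr (r + 1 + s)
    have a3 := two_tr s
    have a4 := two_tr r
    have hY : (Y : ℤ) ≤ s := by omega
    have hY0 : (0 : ℤ) ≤ Y := by omega
    push_cast at a1 a2 a3 a4
    nlinarith [mul_nonneg (Int.natCast_nonneg k) (Int.natCast_nonneg s),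
      mul_nonneg (Int.natCast_nonneg k) (Int.natCast_nonneg k),
      mul_nonneg (Int.natCast_nonneg r) (Int.natCast_nonneg s),
      mul_nonneg (Int.natCast_nonneg s) (Int.natCast_nonneg s)]
  obtain ⟨d, hd⟩ := Int.eq_ofNat_of_zero_le hnn
  refine ⟨d, hd.symm, ?_⟩
  have hd' : (d : ℤ) = tr (k + 1 + s) + tr (r + 1 + s) - tr s - Y - tr r := hd.symm
  have m1 : (fun j => C (qX ^ S * Q Y) * Op N ν (k + s + r + 1) (aN k s (r - 1)) gK' c j) ∈
      MCone N (c + ν + 1) (c + d) := by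
    by_cases hY : Y = 0
    · have : (fun j : Fin N => C (qX ^ S * Q Y) * Op N ν (k + s + r + 1) (aN k s (r - 1)) gK' c j) =
          (0 : Fin N → AN N) := by
        funext j
        rw [hY, Q_zero, mul_zero, map_zero, zero_mul]
        rfl
      rw [this]
      exact AddSubmonoid.zero_mem _
    · have hY1 : 1 ≤ Y := by omega
      obtain ⟨r', rfl⟩ : ∃ r', r = r' + 1 := ⟨r - 1, by omega⟩
      have hd2 := hK hY1
      simp only [Nat.add_sub_cancel] at hd2 ⊢
      have hE : (0 : ℤ) ≤ e0 k s r' + ν - 1 + (k + s + (r' + 1) + 1 : ℕ) := by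
        unfold e0
        have a1 := two_tr (k + 1 + s)
        have a2 := two_tr (r' + 1 + s)
        have a3 := two_tr s
        have a4 := two_tr r'
        push_cast at a1 a2 a3 a4
        rw [hν]
        push_cast
        nlinarith [mul_nonneg (Int.natCast_nonneg k) (Int.natCast_nonneg s),
          mul_nonneg (Int.natCast_nonneg k) (Int.natCast_nonneg k),
          mul_nonneg (Int.natCast_nonneg r') (Int.natCast_nonneg s),
          mul_nonneg (Int.natCast_nonneg s) (Int.natCast_nonneg s)]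
      obtain ⟨E, hE'⟩ := Int.eq_ofNat_of_zero_le hE
      have h1 := op_mem P (N := N) (c := c) (Or.inl (by omega)) hd2 E hE'.symm
      refine smul_mem P (gen_mem S hY1) h1 (c + d) ?_
      have hE2 : (E : ℤ) = e0 k s r' + ν - 1 + (k + s + (r' + 1) + 1 : ℕ) := hE'.symm
      have b1 := tr_succ r'
      have b2 := tr_succ (r' + 1 + s)
      rw [show r' + 1 + s + 1 = r' + 1 + 1 + s by omega] at b2
      unfold e0 at hE2
      push_cast at hd' hE2 b1 b2 ⊢
      rw [hν] at hE2
      push_cast at hE2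
      rw [hd', hE2, b1, b2, hs]
      push_cast
      ring
  have m2 : (fun j => C (Q S) * Op N ν (k + s + r + 2) (aN k s r) gT c j) ∈
      MCone N (c + ν + 1) (c + d) := by
    by_cases hS : S = 0
    · have : (fun j : Fin N => C (Q S) * Op N ν (k + s + r + 2) (aN k s r) gT c j) =
          (0 : Fin N → AN N) := by
        funext j
        rw [hS, Q_zero, map_zero, zero_mul]
        rfl
      rw [this]
      exact AddSubmonoid.zero_mem _
    · have hS1 : 1 ≤ S := by omega
      have hE : (0 : ℤ) ≤ e0 k s r + ν - 1 + (k + s + r + 2 : ℕ) := by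
        unfold e0
        have a1 := two_tr (k + 1 + s)
        have a2 := two_tr (r + 1 + s)
        have a3 := two_tr s
        have a4 := two_tr r
        push_cast at a1 a2 a3 a4
        rw [hν]
        push_cast
        nlinarith [mul_nonneg (Int.natCast_nonneg k) (Int.natCast_nonneg s),
          mul_nonneg (Int.natCast_nonneg k) (Int.natCast_nonneg k),
          mul_nonneg (Int.natCast_nonneg r) (Int.natCast_nonneg s),
          mul_nonneg (Int.natCast_nonneg s) (Int.natCast_nonneg s)]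
      obtain ⟨E, hE'⟩ := Int.eq_ofNat_of_zero_le hE
      have h1 := op_mem P (N := N) (c := c) (Or.inr (by omega)) hT E hE'.symm
      have h2 := smul_mem P (gen_mem 0 hS1) h1 (c + d) (by
        have hE2 : (E : ℤ) = e0 k s r + ν - 1 + (k + s + r + 2 : ℕ) := hE'.symm
        unfold e0 at hE2
        push_cast at hd' hE2 ⊢
        rw [hν] at hE2
        push_cast at hE2
        rw [hd', hE2, hs]
        push_cast
        ring)
      simpa using h2
  exact AddSubmonoid.add_mem _ m1 m2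

end Asm

end Pool.Agent.SWB
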