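import Pool.Agent.Lib.MP_263316_co.AB.Asm3

/-!
MP_263316_co, part AB: the extremal graphs (helper89)
-/

set_option autoImplicit false

namespace Pool.Agent.SWB

open Finset Pool.Agent.SWC MvPolynomial

namespace Asm

/-- complete graph, sum over the marked colour, divided by `[k]!` -/
noncomputable def VV (N k c : ℕ) : AN N := ∑ i ∈ range (min k c + 1),
  C (qX ^ i * Q (c + k + 1 - 2 * i)) * es (xx N) i * es (xx N) (c + k + 1 - i)

theorem VV_mem (N k c : ℕ) : VV N k c ∈ Cone N (c + k + 1) (c + k) := by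
  unfold VV
  refine AddSubmonoid.sum_mem _ fun i hi => ?_
  have hi' := mem_range.mp hi
  refine AddSubmonoid.subset_closure ⟨{i, c + k + 1 - i}, qX ^ i * Q (c + k + 1 - 2 * i), ?_, ?_, ?_⟩
  · simp; omega
  · exact AddSubmonoid.subset_closure ⟨i, c + k + 1 - 2 * i, by omega, rfl⟩
  · simp [mul_assoc]

theorem cone_scal (P : HypP) {N n d : ℕ} {z : ℤ} {p : PX} (hp : p ∈ PZ z) {u : AN N}
    (hu : u ∈ Cone N n d) (hmul : S_Cmul) (d' : ℕ) (hd : (d' : ℤ) = d + z) :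
    C p * u ∈ Cone N n d' := by
  rcases P.pzp.1 z p hp with h0 | ⟨e, he, hpe⟩
  · rw [h0, map_zero, zero_mul]
    exact AddSubmonoid.zero_mem _
  · have hc : (C p : AN N) ∈ Cone N 0 e :=
      AddSubmonoid.subset_closure ⟨0, p, rfl, hpe, by simp⟩
    have h1 := hmul N 0 e n d (C p) u hc hu
    rw [Nat.zero_add] at h1
    have h2 : e + d = d' := by omega
    rwa [h2] at h1

/-- two disjoint cliques -/
theorem disj (H : HypT) (hKS : S_KS) (hKF : S_KF) (N a b c : ℕ) (m : ℕ → ℕ)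
    (h1 : ∀ u, u ≤ a → m u = a) (h2 : ∀ u, a < u → a + b + 1 ≤ m u) (j : Fin N) :
    TQ N m (a + b + 2) c j = C (QF a) * VV N a c * (C (QF b) * eh (qq N) (xx N) b j) := by
  unfold TQ
  have hU : range (a + b + 2) = range (a + 1) ∪ Ico (a + 1) (a + b + 2) := by
    ext u; simp only [mem_union, mem_range, mem_Ico]; omega
  rw [hU, show a + b + 2 - 1 = a + b + 1 by omega]
  rw [H.dis (AN N) N m (qq N) (xx N) (range (a + 1)) (Ico (a + 1) (a + b + 2)) 0 a (a + b + 1)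
    (mem_range.mpr (by omega)) (mem_range.mpr (by omega)) (mem_Ico.mpr (by omega))
    (by
      intro u hu v hv
      simp only [mem_range, mem_Ico] at hu hv
      rw [h1 u (by omega)]
      omega)]
  have e1 := hKS H.kt H.eh H.mc N a c m (fun u hu => by rw [h1 u (by omega)])
  have e2 := (hKF (AN N) N m (qq N) (xx N) (Ico (a + 1) (a + b + 2)) (by
    intro u hu v hv _
    simp only [mem_Ico] at hu hv
    have := h2 u (by omega)
    omega)).2 (a + b + 1) (mem_Ico.mpr (by omega)) (by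
      intro u hu
      have := (mem_Ico.mp hu).2
      omega) j
  have hc : (Ico (a + 1) (a + b + 2)).card - 1 = b := by
    rw [Nat.card_Ico]; omega
  rw [hc, qf_qq] at e2
  rw [e2]
  unfold TQ at e1
  rw [Nat.add_sub_cancel] at e1
  rw [e1]
  rfl

theorem tf' (H : HypT) {A S B : ℕ} (hA : 1 ≤ A) (hS : 1 ≤ S) (hB : 1 ≤ B) (N c n ν t : ℕ)
    (hn : n = A + S + B) (hν : ν = A + S + B - 1) (ht : t = A + S + B) (j : Fin N) :
    TQ N (mM A S B) n c j = Op N ν t (D A S B) (gg A S B) c j := by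
  rw [hn, hν, ht]; exact tf H hA hS hB N c j

theorem tk' (H : HypT) {A S B : ℕ} (hA : 1 ≤ A) (hS : 1 ≤ S) (hB : 1 ≤ B) (N c n ν : ℕ)
    (hn : n = A + S + B + 1) (hν : ν = A + S + B) (j : Fin N) :
    TQ N (mG A S 0 B) n c j =
      Op N ν ν (fun i => Q B * D A S B i) (gK A S B) c j := by
  rw [hn, hν]; exact tk H hA hS hB N c j

theorem te' (H : HypT) {A S B : ℕ} (hA : 1 ≤ A) (hS : 1 ≤ S) (hB : 1 ≤ B) (N c n ν : ℕ)
    (hn : n = A + S + B + 1) (hν : ν = A + S + B) (j : Fin N) :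
    TQ N (mH B S 0 A) n c j =
      Op N ν ν (fun i => Q A * D A S B i) (gE A S B) c j := by
  rw [hn, hν]; exact te H hA hS hB N c j

theorem Op_scal (hOL : S_OL) (N ν t c : ℕ) (D D' g g' : ℕ → PX) (a : PX)
    (h1 : ∀ i : ℕ, 1 ≤ i → D i = a * D' i)
    (h2 : ∀ γ : ℕ, 1 ≤ γ → γ ≤ ν → g γ = a * g' γ) (j : Fin N) :
    Op N ν t D g c j = C a * Op N ν t D' g' c j := by
  rw [← Op_smul hOL]
  exact hOL.1 N ν t c _ _ _ _ h1 h2 j

/-- extremal graphs, first orientation -/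
theorem xi (H : HypT) (P : HypP) (hKS : S_KS) (hmul : S_Cmul) (N χ S ρ k c : ℕ) (hk : k ≤ χ)
    (hχ : χ ≤ ρ) :
    ∃ F : Fin N → AN N, (∀ j, TQ N (mG (k + 1) (χ - k) S ρ) (χ + S + ρ + 2) c j =
        C (QF ρ) * F j) ∧
      ∃ d : ℕ, (d : ℤ) = tr (k + 1 + (χ - k + S)) + tr (ρ + 1 + (χ - k + S)) - tr (χ - k + S) -
        (χ - k : ℕ) - tr ρ ∧ F ∈ MCone N (c + (χ + S + ρ + 2)) (c + d) := by
  obtain ⟨Y, hY⟩ : ∃ Y, χ = k + Y := ⟨χ - k, by omega⟩
  subst hY
  rw [Nat.add_sub_cancel_left]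
  by_cases hs : Y + S = 0
  · have hY0 : Y = 0 := by omega
    have hS0 : S = 0 := by omega
    subst hY0 hS0
    have h1 := fun j => disj H hKS P.kf N k ρ c (mG (k + 1) 0 0 ρ)
      (fun u hu => by unfold mG; split_ifs <;> omega)
      (fun u hu => by unfold mG; split_ifs <;> omega) j
    refine ⟨fun j => C (QF k) * VV N k c * eh (qq N) (xx N) ρ j, fun j => ?_, ?_⟩
    · rw [show k + 0 + 0 + ρ + 2 = k + ρ + 2 by omega, h1 j]
      ring
    · obtain ⟨d1, hd1⟩ : ∃ d1 : ℕ, (d1 : ℤ) = tr (k + 1) := by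
        refine ⟨∑ i ∈ range (k + 1), i, ?_⟩
        unfold tr
        push_cast
        rfl
      have hQ : QF k ∈ PZ (tr k) := (P.fr P.pzm).2.2 k
      have b1 := tr_succ k
      have b2 := tr_succ ρ
      have h2 := cone_scal P hQ (VV_mem N k c) hmul (c + d1) (by push_cast; rw [hd1, b1]; ring)
      refine ⟨d1 + ρ, ?_, ?_⟩
      · push_cast
        rw [hd1]
        simp only [Nat.add_zero, Nat.cast_zero]
        rw [b2, tr_zero]
        ring
      · exact AddSubmonoid.subset_closure ⟨c + k + 1, c + d1, ρ, _, h2, by omega, by omega, rfl⟩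
  · have hs1 : 1 ≤ Y + S := by omega
    obtain ⟨gT, hgT, hDT⟩ := (P.dat P.pzm P.pzp P.fr P.div P.na P.nb P.ng1 P.ng2
      (H.kap H.w H.gh H.ki1) k (Y + S) ρ hs1 (by omega)).1
    have hK : ∃ gK' : ℕ → PX, 1 ≤ Y → (∀ γ, 1 ≤ γ → γ ≤ k + (Y + S) + ρ + 1 →
        gK (k + 1) (Y + S) ρ γ = Q (Y + S) * QF ρ * gK' γ) ∧
        Dat (k + (Y + S) + ρ + 1) (k + (Y + S) + ρ + 1) (k + 1) (e0 k (Y + S) (ρ - 1))
          (aN k (Y + S) (ρ - 1)) gK' := by
      by_cases hY : 1 ≤ Y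
      · obtain ⟨r', rfl⟩ : ∃ r', ρ = r' + 1 := ⟨ρ - 1, by omega⟩
        obtain ⟨g, hg, hD⟩ := (P.dat P.pzm P.pzp P.fr P.div P.na P.nb P.ng1 P.ng2
          (H.kap H.w H.gh H.ki1) k (Y + S) r' hs1 (by omega)).2
        refine ⟨g, fun _ => ⟨fun γ h1 h2 => hg γ h1 (by omega), ?_⟩⟩
        rw [Nat.add_sub_cancel, show k + (Y + S) + (r' + 1) + 1 = k + (Y + S) + r' + 2 by omega]
        exact hD
      · exact ⟨fun _ => 0, fun h => absurd h hY⟩
    obtain ⟨gK', hK⟩ := hK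
    obtain ⟨d, hd, hmem⟩ := comb_mem P (N := N) (ν := k + Y + S + ρ + 1) (k := k) (s := Y + S)
      (r := ρ) (S := S) (Y := Y) (c := c) rfl hs1 (by omega) (by omega) gT gK'
      (by rw [show k + Y + S + ρ + 1 = k + (Y + S) + ρ + 1 by omega]; exact hDT)
      (fun h => by rw [show k + Y + S + ρ + 1 = k + (Y + S) + ρ + 1 by omega]; exact (hK h).2)
    refine ⟨_, fun j => ?_, d, hd, by
      rw [show c + (k + Y + S + ρ + 2) = c + (k + Y + S + ρ + 1) + 1 by omega]; exact hmem⟩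
    -- the formula
    have r1 := H.r1 H.lr H.ch N (k + 1) Y S ρ c (by omega) j
    rw [show k + 1 + Y + S + ρ + 1 = k + Y + S + ρ + 2 by omega] at r1
    have eT : TQ N (mG (k + 1) 0 (Y + S) ρ) (k + Y + S + ρ + 2) c j =
        C (Q (Y + S) * QF ρ) * Op N (k + Y + S + ρ + 1) (k + (Y + S) + ρ + 2)
          (aN k (Y + S) ρ) gT c j := by
      have t := tf H (A := k + 1) (S := Y + S) (B := ρ + 1) (by omega) hs1 (by omega) N c j
      have e1 : mG (k + 1) 0 (Y + S) ρ = mM (k + 1) (Y + S) (ρ + 1) := by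
        funext v; unfold mG mM; split_ifs <;> omega
      rw [show k + 1 + (Y + S) + (ρ + 1) - 1 = k + Y + S + ρ + 1 by omega,
        show k + 1 + (Y + S) + (ρ + 1) = k + (Y + S) + ρ + 2 by omega] at t
      rw [e1, show k + Y + S + ρ + 2 = k + (Y + S) + ρ + 2 by omega, t]
      exact Op_scal H.ol N (k + Y + S + ρ + 1) (k + (Y + S) + ρ + 2) c
        (D (k + 1) (Y + S) (ρ + 1)) (aN k (Y + S) ρ) (gg (k + 1) (Y + S) (ρ + 1)) gT
        (Q (Y + S) * QF ρ)
        (fun i hi => (P.na P.pzm P.pzp P.fr k (Y + S) ρ i hs1 (by omega) hi).2)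
        (fun γ h1 h2 => hgT γ h1 (by omega)) j
    have eK : C (qX ^ S * Q Y) * TQ N (mG (k + 1) (Y + S) 0 ρ) (k + Y + S + ρ + 2) c j =
        C (Q (Y + S) * QF ρ) * (C (qX ^ S * Q Y) * Op N (k + Y + S + ρ + 1)
          (k + (Y + S) + ρ + 1) (aN k (Y + S) (ρ - 1)) gK' c j) := by
      by_cases hY : Y = 0
      · rw [hY, Q_zero, mul_zero, map_zero, zero_mul, zero_mul, mul_zero]
      · obtain ⟨r', rfl⟩ : ∃ r', ρ = r' + 1 := ⟨ρ - 1, by omega⟩
        obtain ⟨hg, _⟩ := hK (by omega)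
        have t := tk H (A := k + 1) (S := Y + S) (B := r' + 1) (by omega) hs1 (by omega) N c j
        rw [show k + 1 + (Y + S) + (r' + 1) + 1 = k + Y + S + (r' + 1) + 2 by omega,
          show k + 1 + (Y + S) + (r' + 1) = k + (Y + S) + (r' + 1) + 1 by omega] at t
        have t2 := Op_scal H.ol N (k + (Y + S) + (r' + 1) + 1) (k + (Y + S) + (r' + 1) + 1) c
          (fun i => Q (r' + 1) * D (k + 1) (Y + S) (r' + 1) i) (aN k (Y + S) r')
          (gK (k + 1) (Y + S) (r' + 1)) gK' (Q (Y + S) * QF (r' + 1))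
          (fun i hi => by
            show Q (r' + 1) * D (k + 1) (Y + S) (r' + 1) i = _
            rw [(P.na P.pzm P.pzp P.fr k (Y + S) r' i hs1 (by omega) hi).2, QF_succ]
            ring)
          (fun γ h1 h2 => hg γ h1 h2) j
        rw [t, t2, Nat.add_sub_cancel,
          show k + Y + S + (r' + 1) + 1 = k + (Y + S) + (r' + 1) + 1 by omega]
        ring
    rw [eT, eK] at r1
    have hne : (C (Q (Y + S)) : AN N) ≠ 0 := by
      rw [Ne, C_eq_zero]
      exact Q_ne_zero hs1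
    apply mul_left_cancel₀ hne
    rw [r1]
    simp only [map_mul]
    ring

end Asm

end Pool.Agent.SWB
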