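import Pool.Agent.Lib.MP_263316_co.AB.Asm4

/-!
MP_263316_co, part AB: the extremal graphs, second orientation (helper89)
-/

set_option autoImplicit false

namespace Pool.Agent.SWB

open Finset Pool.Agent.SWC MvPolynomial

namespace Asm

/-- extremal graphs, second orientation -/
theorem xii (H : HypT) (P : HypP) (hKS : S_KS) (hmul : S_Cmul) (N χ S ρ k c : ℕ) (hk : k ≤ ρ)
    (hχ : ρ ≤ χ) :
    ∃ F : Fin N → AN N, (∀ j, TQ N (mH (k + 1) (ρ - k) S χ) (χ + S + ρ + 2) c j =
        C (QF χ) * F j) ∧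
      ∃ d : ℕ, (d : ℤ) = tr (k + 1 + (ρ - k + S)) + tr (χ + 1 + (ρ - k + S)) - tr (ρ - k + S) -
        (ρ - k : ℕ) - tr χ ∧ F ∈ MCone N (c + (χ + S + ρ + 2)) (c + d) := by
  obtain ⟨Y, hY⟩ : ∃ Y, ρ = k + Y := ⟨ρ - k, by omega⟩
  subst hY
  rw [Nat.add_sub_cancel_left]
  by_cases hs : Y + S = 0
  · have hY0 : Y = 0 := by omega
    have hS0 : S = 0 := by omega
    subst hY0 hS0
    have h1 := fun j => disj H hKS P.kf N χ k c (mH (k + 1) 0 0 χ)
      (fun u hu => by unfold mH; split_ifs <;> omega)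
      (fun u hu => by unfold mH; split_ifs <;> omega) j
    refine ⟨fun j => (C (QF k) * VV N χ c) * eh (qq N) (xx N) k j, fun j => ?_, ?_⟩
    · rw [show χ + 0 + (k + 0) + 2 = χ + k + 2 by omega, h1 j]
      ring
    · obtain ⟨d1, hd1⟩ : ∃ d1 : ℕ, (d1 : ℤ) = tr k := by
        refine ⟨∑ i ∈ range k, i, ?_⟩
        unfold tr
        push_cast
        rfl
      have hQ : QF k ∈ PZ (tr k) := (P.fr P.pzm).2.2 k
      have b1 := tr_succ k
      have b2 := tr_succ χ
      have h2 := cone_scal P hQ (VV_mem N χ c) hmul (c + χ + d1) (by push_cast; rw [hd1])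
      refine ⟨χ + d1 + k, ?_, ?_⟩
      · push_cast
        rw [hd1]
        simp only [Nat.add_zero, Nat.cast_zero]
        rw [b1, b2, tr_zero]
        ring
      · exact AddSubmonoid.subset_closure ⟨c + χ + 1, c + χ + d1, k, _, h2, by omega, by omega, rfl⟩
  · have hs1 : 1 ≤ Y + S := by omega
    obtain ⟨gT, hgT, hDT⟩ := (P.dat P.pzm P.pzp P.fr P.div P.na P.nb P.ng1 P.ng2
      (H.kap H.w H.gh H.ki1) k (Y + S) χ hs1 (by omega)).1
    have hK : ∃ gK' : ℕ → PX, 1 ≤ Y → (∀ γ, 1 ≤ γ → γ ≤ k + (Y + S) + χ + 1 →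
        gK (k + 1) (Y + S) χ γ = Q (Y + S) * QF χ * gK' γ) ∧
        Dat (k + (Y + S) + χ + 1) (k + (Y + S) + χ + 1) (k + 1) (e0 k (Y + S) (χ - 1))
          (aN k (Y + S) (χ - 1)) gK' := by
      by_cases hY : 1 ≤ Y
      · obtain ⟨r', rfl⟩ : ∃ r', χ = r' + 1 := ⟨χ - 1, by omega⟩
        obtain ⟨g, hg, hD⟩ := (P.dat P.pzm P.pzp P.fr P.div P.na P.nb P.ng1 P.ng2
          (H.kap H.w H.gh H.ki1) k (Y + S) r' hs1 (by omega)).2
        refine ⟨g, fun _ => ⟨fun γ h1 h2 => hg γ h1 (by omega), ?_⟩⟩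
        rw [Nat.add_sub_cancel, show k + (Y + S) + (r' + 1) + 1 = k + (Y + S) + r' + 2 by omega]
        exact hD
      · exact ⟨fun _ => 0, fun h => absurd h hY⟩
    obtain ⟨gK', hK⟩ := hK
    obtain ⟨d, hd, hmem⟩ := comb_mem P (N := N) (ν := k + Y + S + χ + 1) (k := k) (s := Y + S)
      (r := χ) (S := S) (Y := Y) (c := c) rfl hs1 (by omega) (by omega)
      (fun γ => gT (k + Y + S + χ + 1 + 1 - γ)) (fun γ => gK' (k + Y + S + χ + 1 + 1 - γ))
      (Dat_rev (by rw [show k + Y + S + χ + 1 = k + (Y + S) + χ + 1 by omega]; exact hDT))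
      (fun h => Dat_rev (by
        rw [show k + Y + S + χ + 1 = k + (Y + S) + χ + 1 by omega]; exact (hK h).2))
    refine ⟨_, fun j => ?_, d, hd, by
      rw [show c + (χ + S + (k + Y) + 2) = c + (k + Y + S + χ + 1) + 1 by omega]; exact hmem⟩
    -- the formula
    have r2 := H.r2 H.lc H.ch N (k + 1) Y S χ c (by omega) j
    rw [show k + 1 + Y + S + χ + 1 = k + Y + S + χ + 2 by omega] at r2
    have eT : TQ N (mH (k + 1) 0 (Y + S) χ) (k + Y + S + χ + 2) c j =
        C (Q (Y + S) * QF χ) * Op N (k + Y + S + χ + 1) (k + (Y + S) + χ + 2)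
          (aN k (Y + S) χ) (fun γ => gT (k + Y + S + χ + 1 + 1 - γ)) c j := by
      have e1 : mH (k + 1) 0 (Y + S) χ = mM (χ + 1) (Y + S) (k + 1) := by
        funext v; unfold mH mM; split_ifs <;> omega
      rw [e1, tf' H (A := χ + 1) (S := Y + S) (B := k + 1) (by omega) hs1 (by omega) N c
        (k + Y + S + χ + 2) (k + Y + S + χ + 1) (k + (Y + S) + χ + 2) (by omega) (by omega)
        (by omega) j]
      refine Op_scal H.ol N (k + Y + S + χ + 1) (k + (Y + S) + χ + 2) c
        (D (χ + 1) (Y + S) (k + 1)) (aN k (Y + S) χ) (gg (χ + 1) (Y + S) (k + 1))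
        (fun γ => gT (k + Y + S + χ + 1 + 1 - γ)) (Q (Y + S) * QF χ)
        (fun i hi => by
          rw [D_symm]
          exact (P.na P.pzm P.pzp P.fr k (Y + S) χ i hs1 (by omega) hi).2)
        (fun γ h1 h2 => ?_) j
      have h3 := hgT (k + Y + S + χ + 1 + 1 - γ) (by omega) (by omega)
      show _ = Q (Y + S) * QF χ * gT (k + Y + S + χ + 1 + 1 - γ)
      rw [← h3]
      have h4 := gg_symm (A := k + 1) (S := Y + S) (B := χ + 1) (γ := γ) (by omega)
      rw [← h4]
      congr 1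
      omega
    have eK : C (qX ^ S * Q Y) * TQ N (mH (k + 1) (Y + S) 0 χ) (k + Y + S + χ + 2) c j =
        C (Q (Y + S) * QF χ) * (C (qX ^ S * Q Y) * Op N (k + Y + S + χ + 1)
          (k + (Y + S) + χ + 1) (aN k (Y + S) (χ - 1))
          (fun γ => gK' (k + Y + S + χ + 1 + 1 - γ)) c j) := by
      by_cases hY : Y = 0
      · rw [hY, Q_zero, mul_zero, map_zero, zero_mul, zero_mul, mul_zero]
      · obtain ⟨r', rfl⟩ : ∃ r', χ = r' + 1 := ⟨χ - 1, by omega⟩
        obtain ⟨hg, _⟩ := hK (by omega)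
        have t := te' H (A := r' + 1) (S := Y + S) (B := k + 1) (by omega) hs1 (by omega) N c
          (k + Y + S + (r' + 1) + 2) (k + (Y + S) + (r' + 1) + 1) (by omega) (by omega) j
        have t2 := Op_scal H.ol N (k + (Y + S) + (r' + 1) + 1) (k + (Y + S) + (r' + 1) + 1) c
          (fun i => Q (r' + 1) * D (r' + 1) (Y + S) (k + 1) i) (aN k (Y + S) r')
          (gE (r' + 1) (Y + S) (k + 1)) (fun γ => gK' (k + Y + S + (r' + 1) + 1 + 1 - γ))
          (Q (Y + S) * QF (r' + 1)) ?_ ?_ j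
        · rw [t, t2, Nat.add_sub_cancel,
            show k + Y + S + (r' + 1) + 1 = k + (Y + S) + (r' + 1) + 1 by omega]
          ring
        · intro i hi
          show Q (r' + 1) * D (r' + 1) (Y + S) (k + 1) i = _
          rw [D_symm, (P.na P.pzm P.pzp P.fr k (Y + S) r' i hs1 (by omega) hi).2, QF_succ]
          ring
        · intro γ h1 h2
          show _ = Q (Y + S) * QF (r' + 1) * gK' (k + Y + S + (r' + 1) + 1 + 1 - γ)
          rw [← hg _ (by omega) (by omega)]
          unfold gE gK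
          by_cases hγ : γ = r' + 1 + (Y + S) + (k + 1)
          · rw [if_pos hγ, if_pos (by omega)]
            rw [show r' + 1 + (Y + S) + (k + 1) = k + 1 + (Y + S) + (r' + 1) by omega]
            congr 1
            exact zk_congr (fun j _ => D_symm _ _ _ j) _ _
          · rw [if_neg hγ, if_neg (by omega)]
            congr 1
            have h4 := gg_symm (A := k + 1) (S := Y + S) (B := r' + 1) (γ := γ) (by omega)
            rw [← h4]
            congr 1
            omega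
    rw [eT, eK] at r2
    have hne : (C (Q (Y + S)) : AN N) ≠ 0 := by
      rw [Ne, C_eq_zero]
      exact Q_ne_zero hs1
    apply mul_left_cancel₀ hne
    rw [show χ + S + (k + Y) + 2 = k + Y + S + χ + 2 by omega, r2]
    simp only [map_mul]
    ring

end Asm

end Pool.Agent.SWB
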