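import Pool.Agent.Lib.MP_263316_co.AB.Asm5

/-!
MP_263316_co, part AB: co-bipartite graphs given by boards (helper89)
-/

set_option autoImplicit false

namespace Pool.Agent.SWB

open Finset Pool.Agent.SWC MvPolynomial

namespace Asm

/-- the bundle of the statements about boards -/
structure HypB : Prop where
  bl : S_BL
  un : S_UN
  pl : S_PL
  lin : S_IN
  hk : S_HK
  ex : S_EX
  li : S_LI
  lj : S_LJ
  ee : S_EE
  ks : S_KS
  cmul : S_Cmul

theorem count_cols (χ ρ : ℕ) (h : ℕ → ℕ) (hh : ∀ i < ρ, h i ≤ χ) :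
    ∑ v ∈ range χ, ((((range ρ).filter (fun i => h i < v + 1)).card : ℕ) : ℤ) =
      ρ * χ - ∑ i ∈ range ρ, (h i : ℤ) := by
  have h1 : ∀ v : ℕ, ((((range ρ).filter (fun i => h i < v + 1)).card : ℕ) : ℤ) =
      ∑ i ∈ range ρ, (if h i < v + 1 then (1 : ℤ) else 0) := by
    intro v
    rw [Finset.card_filter]
    push_cast
    rfl
  simp only [h1]
  rw [Finset.sum_comm]
  have h2 : ∀ i ∈ range ρ, ∑ v ∈ range χ, (if h i < v + 1 then (1 : ℤ) else 0) =
      (χ : ℤ) - h i := by
    intro i hi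
    have hle := hh i (mem_range.mp hi)
    rw [← Finset.sum_filter, Finset.sum_const, nsmul_eq_mul, mul_one]
    have : (range χ).filter (fun v => h i < v + 1) = Ico (h i) χ := by
      ext v
      simp only [mem_filter, mem_range, mem_Ico]
      omega
    rw [this, Nat.card_Ico]
    omega
  rw [Finset.sum_congr rfl h2, Finset.sum_sub_distrib, Finset.sum_const, card_range, nsmul_eq_mul]

theorem sum_id (n : ℕ) : ∑ u ∈ range n, (u : ℤ) = tr n := rfl

theorem eE_I (hEE : S_EE) (χ S ρ : ℕ) (h : ℕ → ℕ) (hh : ∀ i < ρ, h i ≤ χ) :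
    (eE (mI χ S ρ h) (range (χ + S + ρ + 2)) : ℤ) =
      (χ + 1) * (χ + S) + (ρ * χ - ∑ i ∈ range ρ, (h i : ℤ)) + (S + ρ + 1) * (χ + S + ρ + 1) -
        tr (χ + S + ρ + 2) := by
  have hcard : ∀ u, ((range ρ).filter (fun i => h i < u)).card ≤ ρ := fun u => by
    calc _ ≤ (range ρ).card := Finset.card_filter_le _ _
      _ = ρ := card_range ρ
  rw [hEE (mI χ S ρ h) (χ + S + ρ + 2)
    (fun u hu => by
      unfold mI
      split_ifs <;> omega)
    (fun u hu => by
      have := hcard u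
      unfold mI
      split_ifs <;> omega)]
  rw [Finset.sum_sub_distrib, sum_id, show χ + S + ρ + 2 = (χ + 1) + (S + ρ + 1) by omega,
    Finset.sum_range_add]
  congr 1
  congr 1
  · rw [Finset.sum_range_succ']
    have h1 : ∀ v ∈ range χ, ((mI χ S ρ h (v + 1) : ℕ) : ℤ) =
        (χ + S) + ((((range ρ).filter (fun i => h i < v + 1)).card : ℕ) : ℤ) := by
      intro v hv
      have hv' := mem_range.mp hv
      unfold mI
      rw [if_neg (by omega), if_pos (by omega)]
      push_cast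
      ring
    rw [Finset.sum_congr rfl h1, Finset.sum_add_distrib, count_cols χ ρ h hh, Finset.sum_const,
      card_range, nsmul_eq_mul]
    have h0 : mI χ S ρ h 0 = χ + S := by unfold mI; simp
    rw [h0]
    push_cast
    ring
  · have h1 : ∀ v ∈ range (S + ρ + 1), ((mI χ S ρ h (χ + 1 + v) : ℕ) : ℤ) =
        (χ + S + ρ + 1) := by
      intro v hv
      unfold mI
      rw [if_neg (by omega), if_neg (by omega)]
      push_cast
      ring
    rw [Finset.sum_congr rfl h1, Finset.sum_const, card_range, nsmul_eq_mul]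
    push_cast
    ring

theorem eE_J (hEE : S_EE) (χ S ρ : ℕ) (h : ℕ → ℕ) (hh : ∀ i < χ, h i ≤ ρ) :
    (eE (mJ χ S ρ h) (range (χ + S + ρ + 2)) : ℤ) =
      (χ + 1) * (χ + S) + (ρ * χ - ∑ i ∈ range χ, (h i : ℤ)) + (S + ρ + 1) * (χ + S + ρ + 1) -
        tr (χ + S + ρ + 2) := by
  have hb : ∀ u, 0 < u → u ≤ χ → h (χ - u) ≤ ρ := fun u h1 h2 => hh _ (by omega)
  rw [hEE (mJ χ S ρ h) (χ + S + ρ + 2)
    (fun u hu => by
      unfold mJ
      split_ifs with h1 h2
      · omega
      · have := hb u (by omega) h2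
        omega
      · omega)
    (fun u hu => by
      unfold mJ
      split_ifs <;> omega)]
  rw [Finset.sum_sub_distrib, sum_id, show χ + S + ρ + 2 = (χ + 1) + (S + ρ + 1) by omega,
    Finset.sum_range_add]
  congr 1
  congr 1
  · rw [Finset.sum_range_succ']
    have h1 : ∀ v ∈ range χ, ((mJ χ S ρ h (v + 1) : ℕ) : ℤ) =
        (χ + S + ρ) - (h (χ - 1 - v) : ℤ) := by
      intro v hv
      have hv' := mem_range.mp hv
      have := hb (v + 1) (by omega) (by omega)
      unfold mJ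
      rw [if_neg (by omega), if_pos (by omega), show χ - 1 - v = χ - (v + 1) by omega]
      omega
    rw [Finset.sum_congr rfl h1, Finset.sum_sub_distrib, Finset.sum_range_reflect (fun i => (h i : ℤ)),
      Finset.sum_const, card_range, nsmul_eq_mul]
    have h0 : mJ χ S ρ h 0 = χ + S := by unfold mJ; simp
    rw [h0]
    push_cast
    ring
  · have h1 : ∀ v ∈ range (S + ρ + 1), ((mJ χ S ρ h (χ + 1 + v) : ℕ) : ℤ) =
        (χ + S + ρ + 1) := by
      intro v hv
      unfold mJ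
      rw [if_neg (by omega), if_neg (by omega)]
      push_cast
      ring
    rw [Finset.sum_congr rfl h1, Finset.sum_const, card_range, nsmul_eq_mul]
    push_cast
    ring

/-- the identity between the indices -/
theorem index_eq (k Y S r w' : ℕ) (sh : ℤ) :
    tr (k + 1 + (Y + S)) + tr (r + 1 + (Y + S)) - tr (Y + S) - Y - tr r +
      (tr r + k * r - sh) + w' =
    (k + Y + 1) * (k + Y + S) + (r * (k + Y) - sh) + (S + r + 1) * (k + Y + S + r + 1) -
        tr (k + Y + S + r + 2) + w' := by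
  have a1 := two_tr (k + 1 + (Y + S))
  have a2 := two_tr (r + 1 + (Y + S))
  have a3 := two_tr (Y + S)
  have a4 := two_tr (k + Y + S + r + 2)
  push_cast at a1 a2 a3 a4
  linarith

theorem cbI (H : HypT) (P : HypP) (B : HypB) (N χ S ρ c : ℕ) (h : ℕ → ℕ) (hB : Brd ρ χ h)
    (hχ : χ ≤ ρ) :
    TQ N (mI χ S ρ h) (χ + S + ρ + 2) c ∈ MCone N (c + (χ + S + ρ + 2))
      (c + eE (mI χ S ρ h) (range (χ + S + ρ + 2))) := by
  obtain ⟨Hc, hPZ, hT⟩ := B.ex H.ch B.bl B.un B.pl B.lin B.hk P.pzm ρ χ h hB hχ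
  have hx : ∀ k, k ≤ χ → _ := fun k hk => xi H P B.ks B.cmul N χ S ρ k c hk hχ
  choose! F hF d hd hmem using hx
  have hcst : ∀ k, k ≤ χ → mI χ S ρ (fun _ => k) = mG (k + 1) (χ - k) S ρ := by
    intro k hk
    funext u
    unfold mI mG
    by_cases h1 : k < u
    · have : (range ρ).filter (fun _ => k < u) = range ρ := by
        rw [Finset.filter_true_of_mem]; intro _ _; exact h1
      rw [this, card_range]
      split_ifs <;> omega
    · have : (range ρ).filter (fun _ => k < u) = ∅ := by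
        rw [Finset.filter_false_of_mem]; intro _ _; exact h1
      rw [this, card_empty]
      split_ifs <;> omega
  have hform : TQ N (mI χ S ρ h) (χ + S + ρ + 2) c =
      ∑ k ∈ range (χ + 1), fun j => C (Hc k) * F k j := by
    funext j
    have h1 := hT N _ (B.li H.lc H.lr H.mc (AN N) N (qq N) (xx N) χ S ρ (eh (qq N) (xx N) c) j)
    have hne : (C (QF ρ) : AN N) ≠ 0 := by
      rw [Ne, C_eq_zero]
      exact QF_ne_zero ρ
    apply mul_left_cancel₀ hne
    rw [Finset.sum_apply, mul_sum]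
    refine h1.trans (sum_congr rfl fun k hk => ?_)
    have hk' : k ≤ χ := by have := mem_range.mp hk; omega
    have h2 := hF k hk' j
    unfold TQ at h2
    rw [← hcst k hk'] at h2
    show C (Hc k) * TT (mI χ S ρ (fun _ => k)) (qq N) (xx N) (range (χ + S + ρ + 2)) 0
      (χ + S + ρ + 1) (eh (qq N) (xx N) c) j = _
    rw [show χ + S + ρ + 1 = χ + S + ρ + 2 - 1 by omega, h2]
    ring
  rw [hform]
  refine AddSubmonoid.sum_mem _ fun k hk => ?_
  have hk' : k ≤ χ := by have := mem_range.mp hk; omega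
  have hz := hPZ k (tr ρ + k * ρ - ∑ i ∈ range ρ, (h i : ℤ)) (by
    have := two_tr ρ
    linear_combination this)
  refine smul_mem P hz (hmem k hk') _ ?_
  have hE := eE_I B.ee χ S ρ h hB.2
  push_cast
  rw [hE, hd k hk']
  obtain ⟨Y, hY⟩ : ∃ Y, χ = k + Y := ⟨χ - k, by omega⟩
  have hi := index_eq k Y S ρ c (∑ i ∈ range ρ, (h i : ℤ))
  subst hY
  rw [Nat.add_sub_cancel_left]
  push_cast at hi ⊢
  linarith

theorem cbJ (H : HypT) (P : HypP) (B : HypB) (N χ S ρ c : ℕ) (h : ℕ → ℕ) (hB : Brd χ ρ h)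
    (hχ : ρ ≤ χ) :
    TQ N (mJ χ S ρ h) (χ + S + ρ + 2) c ∈ MCone N (c + (χ + S + ρ + 2))
      (c + eE (mJ χ S ρ h) (range (χ + S + ρ + 2))) := by
  obtain ⟨Hc, hPZ, hT⟩ := B.ex H.ch B.bl B.un B.pl B.lin B.hk P.pzm χ ρ h hB hχ
  have hx : ∀ k, k ≤ ρ → _ := fun k hk => xii H P B.ks B.cmul N χ S ρ k c hk hχ
  choose! F hF d hd hmem using hx
  have hcst : ∀ k, k ≤ ρ → mJ χ S ρ (fun _ => k) = mH (k + 1) (ρ - k) S χ := by
    intro k hk
    funext u
    show (if u = 0 then χ + S else if u ≤ χ then χ + S + ρ - k else χ + S + ρ + 1) = _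
    unfold mH
    split_ifs <;> omega
  have hform : TQ N (mJ χ S ρ h) (χ + S + ρ + 2) c =
      ∑ k ∈ range (ρ + 1), fun j => C (Hc k) * F k j := by
    funext j
    have h1 := hT N _ (B.lj H.lc H.lr H.mc (AN N) N (qq N) (xx N) χ S ρ (eh (qq N) (xx N) c) j)
    have hne : (C (QF χ) : AN N) ≠ 0 := by
      rw [Ne, C_eq_zero]
      exact QF_ne_zero χ
    apply mul_left_cancel₀ hne
    rw [Finset.sum_apply, mul_sum]
    refine h1.trans (sum_congr rfl fun k hk => ?_)
    have hk' : k ≤ ρ := by have := mem_range.mp hk; omega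
    have h2 := hF k hk' j
    unfold TQ at h2
    rw [← hcst k hk'] at h2
    show C (Hc k) * TT (mJ χ S ρ (fun _ => k)) (qq N) (xx N) (range (χ + S + ρ + 2)) 0
      (χ + S + ρ + 1) (eh (qq N) (xx N) c) j = _
    rw [show χ + S + ρ + 1 = χ + S + ρ + 2 - 1 by omega, h2]
    ring
  rw [hform]
  refine AddSubmonoid.sum_mem _ fun k hk => ?_
  have hk' : k ≤ ρ := by have := mem_range.mp hk; omega
  have hz := hPZ k (tr χ + k * χ - ∑ i ∈ range χ, (h i : ℤ)) (by
    have := two_tr χ
    linear_combination this)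
  refine smul_mem P hz (hmem k hk') _ ?_
  have hE := eE_J B.ee χ S ρ h hB.2
  push_cast
  rw [hE, hd k hk']
  obtain ⟨Y, hY⟩ : ∃ Y, ρ = k + Y := ⟨ρ - k, by omega⟩
  have hi := index_eq k Y S χ c (∑ i ∈ range χ, (h i : ℤ))
  subst hY
  rw [Nat.add_sub_cancel_left]
  have e1 : χ + S + (k + Y) + 2 = k + Y + S + χ + 2 := by omega
  rw [e1]
  push_cast at hi ⊢
  linarith

end Asm

end Pool.Agent.SWB
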