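import Pool.Agent.Lib.MP_263316_co.Spec

/-!
MP_263316_co, part AB (co-bipartite blocks): definitions and basic lemmas.
-/

set_option autoImplicit false

namespace Pool.Agent.SWB

open Finset Pool.Agent.SWC

/-- polynomials in `q` -/
abbrev PX : Type := Polynomial ℤ

/-- the parameter `q` -/
noncomputable abbrev qX : PX := Polynomial.X

/-- the `q`-integer `[k]` as a polynomial -/
noncomputable def Q (k : ℕ) : PX := qn (Polynomial.X : PX) k

/-- the `q`-factorial `[k]!` -/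
noncomputable def QF (k : ℕ) : PX := ∏ i ∈ range k, Q (i + 1)

/-- `[a][a-1]...[a-k+1]` (zero if `k > a`) -/
noncomputable def fall (a k : ℕ) : PX := ∏ i ∈ range k, Q (a - i)

/-- `[s][s+1]...[s+k-1]` -/
noncomputable def rise (s k : ℕ) : PX := ∏ i ∈ range k, Q (s + i)

/-- `D_j` for the graph `M(A,S,B)` (`j ≥ 1`) -/
noncomputable def D (A S B j : ℕ) : PX :=
  QF S * qX ^ (S * (j - 1)) * fall (A - 1) (j - 1) * fall (B - 1) (j - 1) *
    rise S (A - j) * rise S (B - j)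

/-- `h_y` for the graph `M(A,S,B)` (`y ≥ 1`) -/
noncomputable def hh (A S B y : ℕ) : PX :=
  QF (S - 1) * qX ^ (S * y) * fall (A - 1) y * fall (B - 1) (y - 1) *
    rise S (A - y) * rise S (B - y)

/-- `G_l` for the graph `M(A,S,B)` (`l ≥ 1`) -/
noncomputable def GG (A S B l : ℕ) : PX :=
  QF (S - 1) * qX ^ (B - l + S * l) * fall (A - 1) l * fall (B - 1) (l - 1) *
    rise S (A - l) * rise (S - 1) (B - l)

/-- first half of `g` -/
noncomputable def g1 (A S B y : ℕ) : PX := ∑ l ∈ Icc y B, GG A S B l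

/-- the function `g` of the graph `M(A,S,B)` (`1 ≤ γ ≤ A + S + B - 1`) -/
noncomputable def gg (A S B γ : ℕ) : PX := g1 A S B γ + g1 B S A (A + S + B - γ)

/-- `z_t(α, β)` -/
noncomputable def zk (t : ℕ) (D : ℕ → PX) (α β : ℕ) : PX :=
  ∑ j ∈ Ico 1 t, D j * ((if β < j then Q α - Q (β + t - 2 * j) else 0) +
    (if t ≤ β + j then Q (α + t - 2 * j) - Q β else 0))

/-- `g` for the graph `K(A,S,B)` -/
noncomputable def gK (A S B γ : ℕ) : PX :=
  if γ = 1 then - zk (A + S + B) (D A S B) B 0 else Q B * gg A S B (γ - 1)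

/-- `g` for the graph `E(A,S,B)` -/
noncomputable def gE (A S B γ : ℕ) : PX :=
  if γ = A + S + B then - zk (A + S + B) (D A S B) A 0 else Q A * gg A S B γ

/-- coefficients of the operator `Op` -/
noncomputable def cf (t : ℕ) (D g : ℕ → PX) (c α β γ : ℕ) : PX :=
  (if c < α then g (γ + 1) * (Q α - Q β) else 0) +
    ((if c < α then 1 else 0) - (if c < γ then 1 else 0)) * zk t D α β

/-- triples with sum `M` -/
def tri (M : ℕ) : Finset (ℕ × ℕ × ℕ) :=
  (range (M + 1) ×ˢ range (M + 1) ×ˢ range (M + 1)).filter (fun p => p.1 + p.2.1 + p.2.2 = M)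

/-- the operator `Op_n(D, g)` with `ν = n - 1`, applied to `eh c` -/
noncomputable def Op (N ν t : ℕ) (D g : ℕ → PX) (c : ℕ) (j : Fin N) : AN N :=
  ∑ p ∈ tri (c + ν), MvPolynomial.C (cf t D g c p.1 p.2.1 p.2.2) * es (xx N) p.1 *
    es (xx N) p.2.1 * eh (qq N) (xx N) p.2.2 j

/-- as `PU`, with an integer index (only `0` if the index is negative) -/
noncomputable def PZ (z : ℤ) : AddSubmonoid PX :=
  AddSubmonoid.closure {p | ∃ i k : ℕ, 2 * (i : ℤ) + k = z + 1 ∧ p = qX ^ i * Q k}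

/-- number of edges of a clique with `k` vertices -/
def tr (k : ℕ) : ℤ := ∑ i ∈ range k, (i : ℤ)

/-- the conditions on the data for positivity (`ν = n - 1`) -/
def Dat (ν t J : ℕ) (e : ℤ) (D g : ℕ → PX) : Prop :=
  2 * J < t ∧ (∀ j : ℕ, J < j → D j = 0) ∧ (∀ j : ℕ, 1 ≤ j → D j ∈ PZ (e + 2 * j)) ∧
  (∀ j : ℕ, 1 ≤ j → qX * D j - D (j + 1) ∈ PZ (e + 2 * j + 2)) ∧
  (∀ γ : ℕ, 1 ≤ γ → γ ≤ ν → g γ ∈ PZ (e + t))

/-- the value of the transfer operator for the graph `m` on `0, ..., n - 1` at `eh c` -/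
noncomputable def TQ (N : ℕ) (m : ℕ → ℕ) (n c : ℕ) (j : Fin N) : AN N :=
  TT m (qq N) (xx N) (range n) 0 (n - 1) (eh (qq N) (xx N) c) j

/-- the graph `M(A,S,B)`, `n = A + S + B` -/
def mM (A S B : ℕ) (v : ℕ) : ℕ := if v < A then A + S - 1 else A + S + B - 1

/-- the graph `G(X,Y,S,Z)`, `n = X + Y + S + Z + 1` -/
def mG (X Y S Z : ℕ) (v : ℕ) : ℕ :=
  if v < X then X + Y + S - 1 else if v < X + Y then X + Y + S + Z - 1 else X + Y + S + Z

/-- the graph `H(X,Y,S,Z)`, `n = X + Y + S + Z + 1` -/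
def mH (X Y S Z : ℕ) (v : ℕ) : ℕ :=
  if v = 0 then Z + S else if v ≤ Z then Z + S + Y else X + Y + S + Z

/-- co-bipartite graph given by column heights `h 0 ≤ ... ≤ h (ρ-1) ≤ χ`,
`n = χ + S + ρ + 2` -/
def mI (χ S ρ : ℕ) (h : ℕ → ℕ) (v : ℕ) : ℕ :=
  if v = 0 then χ + S else if v ≤ χ then χ + S + ((range ρ).filter (fun i => h i < v)).card
  else χ + S + ρ + 1

/-- co-bipartite graph given by row lengths `h 0 ≤ ... ≤ h (χ-1) ≤ ρ`, `n = χ + S + ρ + 2` -/
def mJ (χ S ρ : ℕ) (h : ℕ → ℕ) (v : ℕ) : ℕ :=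
  if v = 0 then χ + S else if v ≤ χ then χ + S + ρ - h (χ - v) else χ + S + ρ + 1

/-- boards with `n` columns of heights `≤ w` -/
def Brd (n w : ℕ) (h : ℕ → ℕ) : Prop :=
  (∀ i j : ℕ, i ≤ j → j < n → h i ≤ h j) ∧ ∀ i < n, h i ≤ w

/-- functions of boards satisfying the two local laws -/
def Lawful {R : Type} [CommRing R] (q : R) (n w : ℕ) (T : (ℕ → ℕ) → R) : Prop :=
  (∀ h h' : ℕ → ℕ, (∀ i < n, h i = h' i) → T h = T h') ∧
  (∀ (h : ℕ → ℕ) (i a : ℕ), Brd n w h → i < n → h i = a → 1 ≤ a → a + 1 ≤ w →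
    (∀ j < n, j ≠ i → h j ≠ a) →
    (1 + q) * T h = q * T (Function.update h i (a + 1)) + T (Function.update h i (a - 1))) ∧
  (∀ (h : ℕ → ℕ) (i a : ℕ), Brd n w h → i + 1 < n → 1 ≤ a → h i = a - 1 → h (i + 1) = a →
    (1 + q) * T h = q * T (Function.update h i a) + T (Function.update h (i + 1) (a - 1)))

/-- index of the normalized data -/
def e0 (k s r : ℕ) : ℤ :=
  tr (k + 1 + s) + tr (r + 1 + s) - tr s - (s - 1) - tr r - 2 * (k + s + r) - 2

/-- normalized `D_j` for `A = k + 1`, `S = s`, `B = r + 1`, divided by `[s] [r]!` -/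
noncomputable def aN (k s r j : ℕ) : PX :=
  qX ^ (s * (j - 1)) * fall k (j - 1) * rise s (k + 1 - j) * rise (r + 2 - j) (s - 1)

/-- the `q`-shift and the negative part of the exponent of a board polynomial -/
noncomputable def Ph (n L : ℕ) (h : ℕ → ℕ) (u : PX) : PX :=
  ∏ i ∈ range n, (u - qX ^ (i + L - h i))

/-! ### Basic lemmas -/

theorem Q_zero : Q 0 = 0 := by simp [Q, qn]

theorem Q_one : Q 1 = 1 := by simp [Q, qn]

theorem Q_succ (k : ℕ) : Q (k + 1) = Q k + qX ^ k := by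
  simp only [Q, qn, sum_range_succ]

/-- `(1 - q) [k] = 1 - q^k` -/
theorem Q_mul (k : ℕ) : (1 - qX) * Q k = 1 - qX ^ k := by
  induction k with
  | zero => simp [Q_zero]
  | succ k ih => rw [Q_succ, mul_add, ih]; ring

theorem one_sub_X_ne : (1 - qX : PX) ≠ 0 := by
  intro h
  have := congrArg (Polynomial.coeff · 1) h
  simp [qX, Polynomial.coeff_one] at this

theorem Q_add (a b : ℕ) : Q (a + b) = Q a + qX ^ a * Q b := by
  apply mul_left_cancel₀ one_sub_X_ne
  rw [Q_mul, mul_add, Q_mul, mul_left_comm, Q_mul, pow_add]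
  ring

theorem Q_succ' (k : ℕ) : Q (k + 1) = 1 + qX * Q k := by
  rw [add_comm k 1, Q_add, Q_one, pow_one]

theorem Q_sub {a b : ℕ} (h : b ≤ a) : Q a - Q b = qX ^ b * Q (a - b) := by
  obtain ⟨c, rfl⟩ := Nat.exists_eq_add_of_le h
  rw [Q_add, Nat.add_sub_cancel_left]
  ring

theorem Q_ne_zero {k : ℕ} (h : 1 ≤ k) : Q k ≠ 0 := by
  intro h0
  have h1 : (Q k).eval 1 = (k : ℤ) := by
    simp [Q, qn, Polynomial.eval_finsetSum]
  rw [h0] at h1
  simp at h1
  omega

theorem QF_ne_zero (k : ℕ) : QF k ≠ 0 :=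
  Finset.prod_ne_zero_iff.mpr fun i _ => Q_ne_zero (by omega)

theorem X_pow_ne (k : ℕ) : (qX ^ k : PX) ≠ 0 := pow_ne_zero _ Polynomial.X_ne_zero

/-- the standard identity -/
theorem Q_std (S a b : ℕ) : Q (S + a) * Q (S + b) = qX ^ S * (Q a * Q b) + Q S * Q (S + a + b) := by
  apply mul_left_cancel₀ one_sub_X_ne
  apply mul_left_cancel₀ one_sub_X_ne
  have e1 := Q_mul (S + a)
  have e2 := Q_mul (S + b)
  have e3 := Q_mul a
  have e4 := Q_mul b
  have e5 := Q_mul S
  have e6 := Q_mul (S + a + b)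
  calc (1 - qX) * ((1 - qX) * (Q (S + a) * Q (S + b)))
      = ((1 - qX) * Q (S + a)) * ((1 - qX) * Q (S + b)) := by ring
    _ = qX ^ S * (((1 - qX) * Q a) * ((1 - qX) * Q b)) +
          ((1 - qX) * Q S) * ((1 - qX) * Q (S + a + b)) := by
        rw [e1, e2, e3, e4, e5, e6]; ring
    _ = _ := by ring

theorem QF_zero : QF 0 = 1 := by simp [QF]

theorem QF_succ (k : ℕ) : QF (k + 1) = QF k * Q (k + 1) := by
  simp only [QF, prod_range_succ]

theorem fall_zero (a : ℕ) : fall a 0 = 1 := by simp [fall]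

theorem fall_succ (a k : ℕ) : fall a (k + 1) = fall a k * Q (a - k) := by
  simp only [fall, prod_range_succ]

theorem fall_succ' (a k : ℕ) : fall a (k + 1) = Q a * fall (a - 1) k := by
  simp only [fall, prod_range_succ', Nat.sub_zero]
  rw [mul_comm]
  congr 1
  exact prod_congr rfl fun i _ => by rw [Nat.sub_sub, Nat.add_comm 1 i]

theorem fall_eq_zero {a k : ℕ} (h : a < k) : fall a k = 0 :=
  prod_eq_zero (i := a) (mem_range.mpr h) (by rw [Nat.sub_self, Q_zero])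

theorem rise_zero (s : ℕ) : rise s 0 = 1 := by simp [rise]

theorem rise_succ (s k : ℕ) : rise s (k + 1) = rise s k * Q (s + k) := by
  simp only [rise, prod_range_succ]

theorem rise_succ' (s k : ℕ) : rise s (k + 1) = Q s * rise (s + 1) k := by
  simp only [rise, prod_range_succ', Nat.add_zero]
  rw [mul_comm]
  congr 1
  exact prod_congr rfl fun i _ => by rw [Nat.add_assoc s 1 i, Nat.add_comm 1 i]

theorem rise_zero_left {k : ℕ} (h : 1 ≤ k) : rise 0 k = 0 :=
  prod_eq_zero (i := 0) (mem_range.mpr h) (by rw [Nat.add_zero, Q_zero])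

theorem D_symm (A S B j : ℕ) : D A S B j = D B S A j := by unfold D; ring

theorem D_eq_zero {A S B j : ℕ} (h1 : 1 ≤ A) (h2 : 1 ≤ B) (h : A < j ∨ B < j) : D A S B j = 0 := by
  unfold D
  rcases h with h | h
  · rw [fall_eq_zero (a := A - 1) (k := j - 1) (by omega)]; ring
  · rw [fall_eq_zero (a := B - 1) (k := j - 1) (by omega)]; ring

theorem qn_qq (N k : ℕ) : qn (qq N) k = MvPolynomial.C (Q k) := by
  unfold qn qq Q qn
  rw [map_sum]
  exact sum_congr rfl fun i _ => (map_pow _ _ _).symm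

theorem qf_qq (N k : ℕ) : qf (qq N) k = MvPolynomial.C (QF k) := by
  unfold qf QF
  rw [map_prod]
  exact prod_congr rfl fun i _ => qn_qq N (i + 1)

theorem qq_eq (N : ℕ) : qq N = MvPolynomial.C qX := rfl

theorem mem_tri {M : ℕ} {p : ℕ × ℕ × ℕ} : p ∈ tri M ↔ p.1 + p.2.1 + p.2.2 = M := by
  unfold tri
  simp only [mem_filter, mem_product, mem_range]
  constructor
  · exact fun h => h.2
  · intro h
    exact ⟨⟨by omega, by omega, by omega⟩, h⟩

theorem PZ_gen {i k : ℕ} {z : ℤ} (h : 2 * (i : ℤ) + k = z + 1) : qX ^ i * Q k ∈ PZ z :=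
  AddSubmonoid.subset_closure ⟨i, k, h, rfl⟩

theorem tr_zero : tr 0 = 0 := by simp [tr]

theorem tr_succ (k : ℕ) : tr (k + 1) = tr k + k := by simp only [tr, sum_range_succ]

theorem two_tr (k : ℕ) : 2 * tr k = k * (k - 1) := by
  induction k with
  | zero => simp [tr]
  | succ k ih => rw [tr_succ, mul_add, ih]; push_cast; ring

theorem es_zero' {R : Type} [CommRing R] {N : ℕ} (x : Fin N → R) : es x 0 = 1 := by
  simp [es]

theorem eh_zero' {R : Type} [CommRing R] {N : ℕ} (q : R) (x : Fin N → R) (j : Fin N) :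
    eh q x 0 j = x j := by
  simp [eh]

end Pool.Agent.SWB
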