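import Pool.Agent.Lib.MP_263316_co.AB.Spec

set_option autoImplicit false

namespace Pool.Agent.SWB

open Finset Pool.Agent.SWC

namespace HKaux

theorem prodsplit (f : ℕ → PX) (a m : ℕ) :
    ∏ i ∈ range (a + m + 1), f i =
      f a * ((∏ i ∈ range a, f i) * ∏ i ∈ range m, f (a + i + 1)) := by
  rw [add_assoc, prod_range_add, prod_range_succ']
  simp only [add_zero, ← add_assoc]
  ring

theorem sumsplit (f : ℕ → ℤ) (a m : ℕ) :
    ∑ i ∈ range (a + m + 1), f i =
      f a + ((∑ i ∈ range a, f i) + ∑ i ∈ range m, f (a + i + 1)) := by
  rw [add_assoc, sum_range_add, sum_range_succ']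
  simp only [add_zero, ← add_assoc]
  ring

theorem zeros (h : ℕ → ℕ) : ∀ N : ℕ, (∀ i j : ℕ, i ≤ j → j < N → h i ≤ h j) →
    ∃ z : ℕ, z ≤ N ∧ (∀ i < N, (h i = 0 ↔ i < z)) := by
  intro N
  induction N with
  | zero => intro _; exact ⟨0, le_refl _, by intro i hi; omega⟩
  | succ N ih =>
    intro hm
    obtain ⟨z, hz, hz'⟩ := ih (fun i j hij hj => hm i j hij (by omega))
    by_cases h0 : h N = 0
    · refine ⟨N + 1, le_refl _, fun i hi => ⟨fun _ => hi, fun _ => ?_⟩⟩
      have := hm i N (by omega) (by omega)
      omega
    · refine ⟨z, by omega, fun i hi => ?_⟩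
      by_cases hiN : i < N
      · exact hz' i hiN
      · have : i = N := by omega
        subst this
        constructor
        · intro h1; exact absurd h1 h0
        · intro h1; omega

theorem zcard (h : ℕ → ℕ) (N z : ℕ) (hzN : z ≤ N) (hz : ∀ i < N, (h i = 0 ↔ i < z)) :
    ((range N).filter (fun i => h i = 0)).card = z := by
  have : (range N).filter (fun i => h i = 0) = range z := by
    ext i
    simp only [mem_filter, mem_range]
    constructor
    · rintro ⟨h1, h2⟩
      exact (hz i h1).mp h2
    · intro hi
      have h1 : i < N := by omega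
      exact ⟨h1, (hz i h1).mpr hi⟩
  rw [this, card_range]

theorem Q_pos {k : ℕ} (h : Q k ≠ 0) : 1 ≤ k := by
  rcases Nat.eq_zero_or_pos k with h0 | h0
  · subst h0; exact absurd Q_zero h
  · exact h0

/-- one factor -/
theorem fac (n L k e : ℕ) (u : PX) (he : e ≤ n + 1) (hk : k + 1 ≤ L) :
    Q (n + 1) * (u - qX ^ ((L - k - 1) + e)) =
      Q e * (u - qX ^ (n + L - k)) + qX ^ e * Q (n + 1 - e) * (u - qX ^ (L - k - 1)) := by
  obtain ⟨d, hd⟩ := Nat.exists_eq_add_of_le he
  obtain ⟨l, rfl⟩ := Nat.exists_eq_add_of_le hk
  have e1 : k + 1 + l - k - 1 = l := by omega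
  have e2 : n + (k + 1 + l) - k = l + (n + 1) := by omega
  have e3 : n + 1 - e = d := by omega
  rw [e1, e2, e3, hd]
  apply mul_left_cancel₀ one_sub_X_ne
  have h1 := Q_mul (e + d)
  have h2 := Q_mul e
  have h3 := Q_mul d
  have h4 : (1 - qX) * (Q (e + d) * (u - qX ^ (l + e))) =
      ((1 - qX) * Q (e + d)) * (u - qX ^ (l + e)) := by ring
  have h5 : (1 - qX) * (Q e * (u - qX ^ (l + (e + d))) + qX ^ e * Q d * (u - qX ^ l)) =
      ((1 - qX) * Q e) * (u - qX ^ (l + (e + d))) +
        qX ^ e * ((1 - qX) * Q d) * (u - qX ^ l) := by ring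
  rw [h4, h5, h1, h2, h3]
  simp only [pow_add]
  ring

theorem Ph_const_succ (n L k : ℕ) (u : PX) :
    Ph (n + 1) L (fun _ => k) u = Ph n L (fun _ => k) u * (u - qX ^ (n + L - k)) := by
  simp only [Ph, prod_range_succ]

theorem Ph_const_succ' (n L k : ℕ) (u : PX) (hk : k + 1 ≤ L) :
    Ph (n + 1) L (fun _ => k + 1) u = Ph n L (fun _ => k) u * (u - qX ^ (L - k - 1)) := by
  simp only [Ph, prod_range_succ']
  congr 1
  · apply prod_congr rfl
    intro i _
    have : i + 1 + L - (k + 1) = i + L - k := by omega
    rw [this]
  · have : 0 + L - (k + 1) = L - k - 1 := by omega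
    rw [this]

end HKaux

open HKaux

theorem t_HK : S_HK := by
  intro hm n
  induction n with
  | zero =>
    intro h _
    refine ⟨fun k => if k = 0 then 1 else 0, ?_, ?_, ?_⟩
    · intro k hk
      have hk0 : k = 0 := by
        by_contra hne
        simp [hne] at hk
      subst hk0
      refine ⟨by simp, fun h1 => by omega, fun w _ => Nat.zero_le _⟩
    · intro k z hz
      by_cases hk : k = 0
      · subst hk
        simp only [if_true]
        have hz0 : z = 0 := by
          simp at hz
          exact hz
        subst hz0
        have h1 : (1 : PX) = qX ^ 0 * Q 1 := by rw [Q_one]; simp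
        rw [h1]
        exact PZ_gen (by norm_num)
      · simp only [if_neg hk]
        exact zero_mem _
    · intro L u _
      simp [QF, Ph]
  | succ n ih =>
    intro h hB
    obtain ⟨z, hzN, hz⟩ := zeros h (n + 1) hB.1
    have hzc := zcard h (n + 1) z hzN hz
    rw [hzc]
    obtain ⟨i0, hi0⟩ : ∃ i0 : ℕ, i0 = z - 1 := ⟨_, rfl⟩
    obtain ⟨h', hh'⟩ : ∃ h' : ℕ → ℕ, h' = fun i => if i < i0 then h i else h (i + 1) - 1 := ⟨_, rfl⟩
    have hlow : ∀ i < i0, h i = 0 := fun i hi => (hz i (by omega)).mpr (by omega)
    have hpos : ∀ i, i0 ≤ i → i < n → 1 ≤ h (i + 1) := by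
      intro i hi hin
      have := hz (i + 1) (by omega)
      have h2 : ¬ (i + 1 < z) := by omega
      have h3 : h (i + 1) ≠ 0 := fun h4 => h2 (this.mp h4)
      omega
    have hl' : ∀ i < i0, h' i = 0 := by
      intro i hi
      rw [hh']
      simp only [if_pos hi]
      exact hlow i hi
    have hr' : ∀ i, i0 ≤ i → h' i = h (i + 1) - 1 := by
      intro i hi
      rw [hh']
      simp only [if_neg (show ¬ i < i0 by omega)]
    have hB' : Brd n n h' := by
      constructor
      · intro i j hij hj
        by_cases hi : i < i0
        · rw [hl' i hi]; exact Nat.zero_le _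
        · rw [hr' i (by omega), hr' j (by omega)]
          have := hB.1 (i + 1) (j + 1) (by omega) (by omega)
          omega
      · intro i hi
        by_cases hi1 : i < i0
        · rw [hl' i hi1]; exact Nat.zero_le _
        · rw [hr' i (by omega)]
          have := hB.2 (i + 1) (by omega)
          omega
    obtain ⟨H', ha, hd, hid⟩ := ih h' hB'
    have hi0n : i0 ≤ n := by omega
    have hcard : i0 ≤ ((range n).filter (fun i => h' i = 0)).card := by
      calc i0 = (range i0).card := (card_range i0).symm
        _ ≤ _ := by
          apply card_le_card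
          intro i hi
          rw [mem_range] at hi
          rw [mem_filter, mem_range]
          exact ⟨by omega, hl' i hi⟩
    have F3 : 1 ≤ z → h i0 = 0 := fun h1 => (hz i0 (by omega)).mpr (by omega)
    have F1 : ∀ k, H' k ≠ 0 → k + i0 ≤ n := by
      intro k hk
      have := (ha k hk).1
      omega
    have F2 : ∀ k, H' k ≠ 0 → h i0 ≤ i0 + k + 1 := by
      intro k hk
      rcases Nat.eq_zero_or_pos z with h0 | h0
      · have hi00 : i0 = 0 := by omega
        subst hi00
        rcases Nat.eq_zero_or_pos n with hn | hn
        · have := hB.2 0 (by omega)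
          omega
        · have h1 := (ha k hk).2.1 hn
          rw [hr' 0 (le_refl _)] at h1
          have h2 := hB.1 0 1 (by omega) (by omega)
          simp only [zero_add] at h1
          omega
      · rw [F3 h0]; exact Nat.zero_le _
    obtain ⟨e, he⟩ : ∃ e : ℕ → ℕ, e = fun k => i0 + k + 1 - h i0 := ⟨_, rfl⟩
    have hek : ∀ k, e k = i0 + k + 1 - h i0 := fun k => by rw [he]
    have F4 : ∀ k, H' k ≠ 0 → e k ≤ n + 1 := by
      intro k hk
      have := F1 k hk
      rw [hek]
      omega
    refine ⟨fun k => Q (e k) * H' k +
      (if k = 0 then 0 else qX ^ (e (k - 1)) * Q (n + 1 - e (k - 1)) * H' (k - 1)), ?_, ?_, ?_⟩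
    · -- support
      intro k hk
      have hcases : (H' k ≠ 0 ∧ Q (e k) ≠ 0) ∨
          ∃ k', k = k' + 1 ∧ H' k' ≠ 0 ∧ Q (n + 1 - e k') ≠ 0 := by
        by_contra hcon
        push Not at hcon
        obtain ⟨h1, h2⟩ := hcon
        apply hk
        have e1 : Q (e k) * H' k = 0 := by
          by_cases h3 : H' k = 0
          · rw [h3, mul_zero]
          · rw [h1 h3, zero_mul]
        simp only [e1, zero_add]
        by_cases hk0 : k = 0
        · simp [hk0]
        · rw [if_neg hk0]
          by_cases h3 : H' (k - 1) = 0
          · rw [h3, mul_zero]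
          · rw [h2 (k - 1) (by omega) h3]
            simp
      have key : ∀ k', H' k' ≠ 0 → (k' = k ∧ 1 ≤ e k ∨ k = k' + 1 ∧ e k' ≤ n) →
          k + z ≤ n + 1 ∧ (1 ≤ n + 1 → h 0 ≤ k) ∧ ∀ w : ℕ, (∀ i < n + 1, h i ≤ w) → k ≤ w := by
        intro k' hk' hor
        have f1 := F1 k' hk'
        have f2 := F2 k' hk'
        have f3 := hek k'
        refine ⟨?_, ?_, ?_⟩
        · rcases Nat.eq_zero_or_pos z with h0 | h0
          · rcases hor with ⟨h1, _⟩ | ⟨h1, _⟩ <;> omega
          · have f4 := F3 h0
            rw [f4] at f3
            rcases hor with ⟨h1, _⟩ | ⟨h1, _⟩ <;> omega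
        · intro _
          rcases Nat.eq_zero_or_pos z with h0 | h0
          · have hi00 : i0 = 0 := by omega
            subst hi00
            rcases hor with ⟨h1, h2⟩ | ⟨h1, _⟩
            · subst h1; omega
            · omega
          · have : h 0 = 0 := (hz 0 (by omega)).mpr (by omega)
            omega
        · intro w hw
          rcases Nat.eq_zero_or_pos w with h0 | h0
          · subst h0
            have hz1 : h n = 0 := by
              have := hw n (by omega)
              omega
            have hzn : n < z := (hz n (by omega)).mp hz1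
            have f4 := F3 (by omega)
            rw [f4] at f3
            rcases hor with ⟨h1, _⟩ | ⟨h1, _⟩ <;> omega
          · have := (ha k' hk').2.2 (w - 1) (by
              intro i hi
              by_cases hi1 : i < i0
              · rw [hl' i hi1]; exact Nat.zero_le _
              · rw [hr' i (by omega)]
                have := hw (i + 1) (by omega)
                omega)
            rcases hor with ⟨h1, _⟩ | ⟨h1, _⟩ <;> omega
      rcases hcases with ⟨h1, h2⟩ | ⟨k', h1, h2, h3⟩
      · exact key k h1 (Or.inl ⟨rfl, Q_pos h2⟩)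
      · have := Q_pos h3
        exact key k' h2 (Or.inr ⟨h1, by omega⟩)
    · -- degrees
      have hsum : ∑ i ∈ range (n + 1), (h i : ℤ) =
          h i0 + ∑ i ∈ range n, (h' i : ℤ) + (n - i0) := by
        obtain ⟨m, rfl⟩ := Nat.exists_eq_add_of_le hi0n
        rw [sumsplit (fun i => (h i : ℤ)), sum_range_add]
        have e1 : ∑ i ∈ range i0, (h i : ℤ) = ∑ i ∈ range i0, (h' i : ℤ) := by
          apply sum_congr rfl
          intro i hi
          rw [mem_range] at hi
          rw [hlow i hi, hl' i hi]
        have e2 : ∑ i ∈ range m, (h (i0 + i + 1) : ℤ) =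
            ∑ i ∈ range m, ((h' (i0 + i) : ℤ) + 1) := by
          apply sum_congr rfl
          intro i hi
          rw [mem_range] at hi
          rw [hr' (i0 + i) (by omega)]
          have := hpos (i0 + i) (by omega) (by omega)
          omega
        rw [e1, e2, sum_add_distrib]
        simp only [sum_const, card_range, nsmul_eq_mul, mul_one]
        push_cast
        ring
      intro k zz hzz
      apply add_mem
      · by_cases hk : H' k = 0
        · rw [hk, mul_zero]; exact zero_mem _
        · have f2 := F2 k hk
          have f3 : ((e k : ℕ) : ℤ) = i0 + k + 1 - h i0 := by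
            rw [hek]; omega
          have g1 : Q (e k) ∈ PZ ((e k : ℤ) - 1) := by
            have := PZ_gen (i := 0) (k := e k) (z := (e k : ℤ) - 1) (by push_cast; ring)
            simpa using this
          have g2 : H' k ∈ PZ (zz - ((e k : ℤ) - 1)) := by
            apply hd
            rw [hsum] at hzz
            push_cast at hzz
            rw [f3]
            linear_combination hzz
          have g3 := hm _ _ _ _ g1 g2
          have g4 : (e k : ℤ) - 1 + (zz - ((e k : ℤ) - 1)) = zz := by ring
          rw [g4] at g3
          exact g3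
      · by_cases hk0 : k = 0
        · rw [if_pos hk0]; exact zero_mem _
        · rw [if_neg hk0]
          obtain ⟨k', rfl⟩ : ∃ k', k = k' + 1 := ⟨k - 1, by omega⟩
          simp only [Nat.add_sub_cancel]
          by_cases hk : H' k' = 0
          · rw [hk, mul_zero]; exact zero_mem _
          · have f2 := F2 k' hk
            have f3 : ((e k' : ℕ) : ℤ) = i0 + k' + 1 - h i0 := by
              rw [hek]; omega
            have f4 := F4 k' hk
            have g1 : qX ^ (e k') * Q (n + 1 - e k') ∈ PZ ((n : ℤ) + e k') := by
              apply PZ_gen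
              omega
            have g2 : H' k' ∈ PZ (zz - ((n : ℤ) + e k')) := by
              apply hd
              rw [hsum] at hzz
              push_cast at hzz
              rw [f3]
              linear_combination hzz
            have g3 := hm _ _ _ _ g1 g2
            have g4 : (n : ℤ) + e k' + (zz - ((n : ℤ) + e k')) = zz := by ring
            rw [g4] at g3
            exact g3
    · -- identity
      intro L u hL
      have hPh : Ph (n + 1) L h u = (u - qX ^ (i0 + L - h i0)) * Ph n L h' u := by
        unfold Ph
        obtain ⟨m, rfl⟩ := Nat.exists_eq_add_of_le hi0n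
        rw [prodsplit (fun i => u - qX ^ (i + L - h i)), prod_range_add]
        congr 2
        · apply prod_congr rfl
          intro i hi
          rw [mem_range] at hi
          rw [hlow i hi, hl' i hi]
        · apply prod_congr rfl
          intro i hi
          rw [mem_range] at hi
          rw [hr' (i0 + i) (by omega)]
          have h1 := hpos (i0 + i) (by omega) (by omega)
          have h2 := hB.2 (i0 + i + 1) (by omega)
          have h3 : i0 + i + L - (h (i0 + i + 1) - 1) = i0 + i + 1 + L - h (i0 + i + 1) := by
            omega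
          rw [h3]
      have hlast : H' (n + 1) = 0 := by
        by_contra hne
        have := F1 (n + 1) hne
        omega
      have hR : ∑ k ∈ range (n + 1 + 1), (Q (e k) * H' k +
          (if k = 0 then 0 else qX ^ (e (k - 1)) * Q (n + 1 - e (k - 1)) * H' (k - 1))) *
            Ph (n + 1) L (fun _ => k) u =
          ∑ k ∈ range (n + 1), (Q (e k) * H' k * Ph (n + 1) L (fun _ => k) u +
            qX ^ (e k) * Q (n + 1 - e k) * H' k * Ph (n + 1) L (fun _ => k + 1) u) := by
        have s1 : ∀ k, (Q (e k) * H' k +
          (if k = 0 then 0 else qX ^ (e (k - 1)) * Q (n + 1 - e (k - 1)) * H' (k - 1))) *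
            Ph (n + 1) L (fun _ => k) u = Q (e k) * H' k * Ph (n + 1) L (fun _ => k) u +
              (if k = 0 then 0 else qX ^ (e (k - 1)) * Q (n + 1 - e (k - 1)) * H' (k - 1)) *
            Ph (n + 1) L (fun _ => k) u := fun k => add_mul _ _ _
        rw [sum_congr rfl (fun k _ => s1 k), sum_add_distrib, sum_add_distrib]
        congr 1
        · rw [sum_range_succ, hlast]
          simp
        · rw [sum_range_succ']
          simp
      rw [hR, QF_succ, hPh]
      have hL2 : QF n * Q (n + 1) * ((u - qX ^ (i0 + L - h i0)) * Ph n L h' u) =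
          Q (n + 1) * (u - qX ^ (i0 + L - h i0)) * (QF n * Ph n L h' u) := by ring
      rw [hL2, hid L u (by omega), mul_sum]
      apply sum_congr rfl
      intro k hk
      rw [mem_range] at hk
      by_cases hk0 : H' k = 0
      · rw [hk0]; simp
      · have f1 := F1 k hk0
        have f2 := F2 k hk0
        have f3 := hek k
        have f4 := F4 k hk0
        have hx : i0 + L - h i0 = (L - k - 1) + e k := by omega
        rw [hx, Ph_const_succ, Ph_const_succ' n L k u (by omega)]
        have := fac n L k (e k) u f4 (by omega)
        calc Q (n + 1) * (u - qX ^ (L - k - 1 + e k)) * (H' k * Ph n L (fun _ => k) u)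
            = (Q (n + 1) * (u - qX ^ (L - k - 1 + e k))) * (H' k * Ph n L (fun _ => k) u) := by ring
          _ = _ := by rw [this]; ring

end Pool.Agent.SWB
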