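import Pool.Agent.Lib.MP_263316_co.AB.LC
import Pool.Agent.Lib.MP_263316_co.AB.MC

/-! TASK LR: local law, twin rows (mirror image of LC). -/

set_option autoImplicit false

namespace Pool.Agent.SWB

open Finset Pool.Agent.SWC

open LCM in
theorem t_LR : S_LR := by
  intro R _ N m0 m1 m2 q U w a b ha ha1 hb hab hw h0 h2 e0 e0' e1 e1' e2 e2' htw
  have hpf : ∀ k k' : Fin N, pw m0 q a k (a + 1) k' = pf q k k' := by
    intro k k'
    rw [pw_lt (by omega) (by omega)]
    rfl
  have hZ1 : ∀ w' : ℕ → Fin N → R, Z m1 q (U.erase b) w' = Z m0 q (U.erase b) w' := by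
    intro w'
    refine t_MC R N m1 m0 q (U.erase b) w' fun u hu v hv huv => ?_
    have hvb : v ≠ b := ne_of_mem_erase hv
    by_cases hua : u = a
    · subst hua
      omega
    · by_cases hua1 : u = a + 1
      · subst hua1
        omega
      · rw [h0 u (mem_of_mem_erase hu) hua hua1]
  have hZ2 : ∀ w' : ℕ → Fin N → R, Z m2 q (U.erase b) w' = Z m0 q (U.erase b) w' := by
    intro w'
    refine t_MC R N m2 m0 q (U.erase b) w' fun u hu v hv huv => ?_
    have hvb : v ≠ b := ne_of_mem_erase hv
    by_cases hua : u = a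
    · subst hua
      omega
    · by_cases hua1 : u = a + 1
      · subst hua1
        omega
      · rw [h0 u (mem_of_mem_erase hu) hua hua1, h2 u (mem_of_mem_erase hu) hua hua1]
  have hpf1 : ∀ u ∈ U, u ≠ b → u ≠ a → u ≠ a + 1 → ∀ κ l : Fin N,
      pw m1 q b κ u l = pw m0 q b κ u l := by
    intro u hu _ hua hua1 κ l
    unfold pw
    rw [h0 u hu hua hua1, h0 b hb (by omega) (by omega)]
  have hpf2 : ∀ u ∈ U, u ≠ b → u ≠ a → u ≠ a + 1 → ∀ κ l : Fin N,
      pw m2 q b κ u l = pw m0 q b κ u l := by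
    intro u hu _ hua hua1 κ l
    unfold pw
    rw [h0 u hu hua hua1, h0 b hb (by omega) (by omega), h2 u hu hua hua1,
      h2 b hb (by omega) (by omega)]
  set g : Fin N → Fin N → R := fun κ k => if κ = k then 0 else if k < κ then q else 1 with hgdef
  have E0 := expT (m := m0) (m' := m0) (q := q) hb ha ha1 (by omega) (by omega) w hw
    (fun _ => rfl) (fun _ _ _ _ _ _ _ => rfl) hpf (fun _ _ => 1) (fun _ _ => 1)
    (fun κ k => pw_of_not (by omega) (by omega) κ k)
    (fun κ k => pw_of_not (by omega) (by omega) κ k)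
  have E1 := expT (m := m0) (m' := m1) (q := q) hb ha ha1 (by omega) (by omega) w hw
    hZ1 hpf1 hpf (fun _ _ => 1) g
    (fun κ k => pw_of_not (by omega) (by omega) κ k)
    (fun κ k => pw_gt hab (by omega) κ k)
  have E2 := expT (m := m0) (m' := m2) (q := q) hb ha ha1 (by omega) (by omega) w hw
    hZ2 hpf2 hpf g g
    (fun κ k => pw_gt (by omega) (by omega) κ k)
    (fun κ k => pw_gt hab (by omega) κ k)
  rw [E0, E1, E2, Finset.mul_sum, Finset.mul_sum, ← Finset.sum_add_distrib]
  refine Finset.sum_congr rfl fun κ _ => ?_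
  have hcore := core2 q (g κ) (fun k k' => w a k * w a k' *
      Z m0 q (((U.erase b).erase a).erase (a + 1)) (fun u l => w u l * pw m0 q b κ u l *
        pw m0 q a k u l * pw m0 q (a + 1) k' u l)) ?_ ?_
  · simp only [mul_one, one_mul]
    linear_combination (w b κ) * hcore
  · intro k k'
    have htw0 : ∀ u ∈ U, u ≠ b → u < a → (a ≤ m0 u ↔ a + 1 ≤ m0 u) := by
      intro u hu _ hua
      rw [h0 u hu (by omega) (by omega)]
      exact htw u hu hua
    rw [rest_symm htw0 (by omega) w κ k k']
    ring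
  · intro k k' hk
    rw [hgdef]
    simp only
    by_cases h3 : κ ≤ k
    · have h4 : κ < k' := lt_of_le_of_lt h3 hk
      rw [if_neg (c := κ = k') h4.ne, if_neg (c := k' < κ) (not_lt.mpr h4.le)]
      ring
    · have h5 : k < κ := not_le.mp h3
      rw [if_neg (c := κ = k) h5.ne', if_pos (c := k < κ) h5]
      ring

end Pool.Agent.SWB
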