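import Pool.Agent.Lib.MP_263316_co.AB.Spec

set_option autoImplicit false

namespace Pool.Agent.SWB

open Finset Pool.Agent.SWC

theorem t_PZp : S_PZp := by
  refine ⟨fun z p hp => ?_, fun d p hp => ?_, fun z k p hp => ?_⟩
  · by_cases hz : z < 0
    · left
      refine AddSubmonoid.closure_induction (motive := fun p _ => p = 0) ?_ rfl ?_ hp
      · rintro x ⟨i, k, h, rfl⟩
        have hk : k = 0 := by omega
        rw [hk, Q_zero, mul_zero]
      · intro x y _ _ hx hy
        rw [hx, hy, add_zero]
    · right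
      obtain ⟨d, rfl⟩ := Int.eq_ofNat_of_zero_le (not_lt.1 hz)
      refine ⟨d, rfl, ?_⟩
      refine AddSubmonoid.closure_induction (motive := fun p _ => p ∈ PU d) ?_
        (AddSubmonoid.zero_mem _) ?_ hp
      · rintro x ⟨i, k, h, rfl⟩
        exact AddSubmonoid.subset_closure ⟨i, k, by omega, rfl⟩
      · intro x y _ _ hx hy
        exact AddSubmonoid.add_mem _ hx hy
  · refine AddSubmonoid.closure_induction (motive := fun p _ => p ∈ PZ d) ?_
        (AddSubmonoid.zero_mem _) ?_ hp
    · rintro x ⟨i, k, h, rfl⟩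
      exact AddSubmonoid.subset_closure ⟨i, k, by omega, rfl⟩
    · intro x y _ _ hx hy
      exact AddSubmonoid.add_mem _ hx hy
  · refine AddSubmonoid.closure_induction (motive := fun p _ => qX ^ k * p ∈ PZ (z + 2 * k)) ?_
        ?_ ?_ hp
    · rintro x ⟨i, k', h, rfl⟩
      rw [← mul_assoc, ← pow_add]
      exact PZ_gen (by push_cast; omega)
    · rw [mul_zero]
      exact AddSubmonoid.zero_mem _
    · intro x y _ _ hx hy
      rw [mul_add]
      exact AddSubmonoid.add_mem _ hx hy

end Pool.Agent.SWB
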