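import Pool.Agent.Lib.MP_263316_co.AB.Base

/-!
MP_263316_co, part AB: specification of the lemmas for the theorem (helper89)

  X_G(x,q) is e-positive and e-unimodal (palindromic coefficients) for every natural unit interval
  graph G all of whose blocks have independence number at most 2 or clique number at most 3.

The case of clique number at most 3 is done (S_MAIN in ../Spec.lean). Here: one co-bipartite block.
Definitions and basic lemmas (PROVED; use them freely) are in AB/Base.lean: `Q k = [k]`, `QF k = [k]!`,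
`fall`, `rise`, `D`, `hh`, `GG`, `g1`, `gg`, `zk`, `gK`, `gE`, `cf`, `tri`, `Op`, `PZ`, `tr`, `Dat`,
`TQ`, the graphs `mM`, `mG`, `mH`, `mI`, `mJ`, boards `Brd`, `Lawful`, `e0`, `aN`, `Ph`, and
`Q_mul : (1 - q) [k] = 1 - q^k`, `one_sub_X_ne`, `Q_add`, `Q_succ`, `Q_succ'`, `Q_sub`, `Q_std :
[S+a] [S+b] = q^S [a] [b] + [S] [S+a+b]`, `fall_succ`, `fall_succ'`, `rise_succ`, `rise_succ'`, ...

Hints. (1) An identity between q-integers: cancel `1 - q` as often as necessary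
(`mul_left_cancel₀ one_sub_X_ne`), bring the factors to the q-integers and rewrite with `Q_mul`
(see the proof of `Q_std` in Base.lean), then powers of `q` (`pow_add`) and `ring`.
(2) Natural number subtraction: write `A = A' + y + 1` etc. (`obtain ⟨A', rfl⟩`).
(3) All numbers in `AN N` are `MvPolynomial.C` of numbers in `PX`; `MvPolynomial.C` is a ring
homomorphism (`map_mul`, `map_sub`, ...); `qn_qq`, `qf_qq`. All statements below have been checked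
by computer for small values of the parameters.
-/

set_option autoImplicit false

namespace Pool.Agent.SWB

open Finset Pool.Agent.SWC

/-! ## Part P: polynomials and positivity -/

/-- TASK PZm. Closure induction twice (`AddSubmonoid.closure_induction`). Generators:
`2 i + k = z + 1`, `2 i' + k' = z' + 1`. If `k = 0` or `k' = 0` the product is `0`. Otherwise let
(by symmetry) `k ≤ k'`; `[k] [k'] = ∑_{r < k} q^r [k + k' - 1 - 2 r]` (as in the file PUmul.lean of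
S_PUmul: copy it) and `q^(i+i'+r) [k+k'-1-2r]` is a generator of `PZ (z + z')`. -/
def S_PZm : Prop := ∀ (z z' : ℤ) (p p' : PX), p ∈ PZ z → p' ∈ PZ z' → p * p' ∈ PZ (z + z')

/-- TASK PZp. Closure induction. For the first part: if `z < 0` the generators are `0`
(`2 i + k = z + 1 ≤ 0` gives `k = 0`), if `z = d ≥ 0` they are generators of `PU d`.
Second part: generators of `PU d` are generators of `PZ d`. Third part: `q^k` times a generator. -/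
def S_PZp : Prop := (∀ (z : ℤ) (p : PX), p ∈ PZ z → p = 0 ∨ ∃ d : ℕ, (d : ℤ) = z ∧ p ∈ PU d) ∧
  (∀ (d : ℕ) (p : PX), p ∈ PU d → p ∈ PZ d) ∧
  (∀ (z : ℤ) (k : ℕ) (p : PX), p ∈ PZ z → qX ^ k * p ∈ PZ (z + 2 * k))

/-- TASK FR. Induction on `k`: `rise s (k+1) = rise s k * [s+k]`, `[s+k] ∈ PZ (s+k-1)`
(`PZ_gen` with `i = 0`), `S_PZm`; `fall a (k+1) = fall a k * [a-k]`, `[a-k] ∈ PZ (a-k-1)` for
`k + 1 ≤ a`; `QF (k+1) = QF k * [k+1]`. The index `z` is determined by `2 z` (write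
`z = z' + (s+k-1)` where `2 z' = k (2 s + k - 3)`; for the existence of `z'` note that
`k (2 s + k - 3)` is even: prove first that `2 * ∑_{i<k} (s + i - 1) = k (2 s + k - 3)`). -/
def S_FR : Prop := S_PZm →
  (∀ (s k : ℕ) (z : ℤ), 1 ≤ s → 2 * z = k * (2 * s + k - 3) → rise s k ∈ PZ z) ∧
  (∀ (a k : ℕ) (z : ℤ), k ≤ a → 2 * z = k * (2 * a - k - 1) → fall a k ∈ PZ z) ∧
  (∀ k : ℕ, QF k ∈ PZ (tr k))

/-- TASK DIV. `rise x s / [s]` is a polynomial in `PZ`. Let `y ≥ 1` with `x ≤ s y ≤ x + s - 1`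
(`y = (x + s - 1) / s`), `i0 = s y - x < s`, `W_y = ∑_{i<y} q^(s i)`, `[s] W_y = [s y]` (multiply by
`1 - q`). If `s = 1`: `rise x 1 = [x]`, `u = [x]`. If `s ≥ 2` choose `i1 < s`, `i1 ≠ i0`, and
`x' = x + i1 ≥ s (y - 1) + 1`. Claim (WB): if `s (y-1) + 1 ≤ x'` then
`W_y [x'] ∈ PZ (s (y-1) + x' - 1)`: induction on `y` in steps of 2, `W_1 = 1`, `W_2 [x'] = [x'] +
q^s [x'] = [x'+s] + q^s [x'-s]`, and `W_{y+2} = 1 + q^(s(y+1)) + q^s W_y`, where with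
`m = s (y+1) < x'`: `[x'] + q^m [x'] = [x'+m] + q^m [x'-m]`, both in `PZ (x'+m-1)`.
Take `u = W_y [x'] ∏_{i < s, i ≠ i0, i1} [x+i]` (`Finset.mul_prod_erase` twice); the index is
`∑_{i<s} (x+i-1) - (s y - 1) + s (y-1) = ∑_{i<s} (x+i-1) - (s-1)`. -/
def S_DIV : Prop := S_PZm → ∀ s x : ℕ, 1 ≤ s → 1 ≤ x → ∃ u : PX, Q s * u = rise x s ∧
  ∀ z : ℤ, 2 * z = s * (2 * x + s - 3) - 2 * (s - 1) → u ∈ PZ z

/-- TASK INV. Strong induction on `b - a`. If `b < a` the sum is empty; if `a = b` then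
`β + t - 2 a = α` and the term is zero. If `a < b` split off the terms `a` and `b`; the inner sum is
the statement for `a + 1`, `b - 1`. With `δ = b - a > 0`: `β + t - 2 a = α + δ`, so the first term
is `D_a q^α [δ]`, with index `e + 2 a + 2 α + δ - 1 = e + t + α + β - 1`. If `b > J` then `D_b = 0`
and we are done. If `b ≤ J` then `2 b < t` and `β + t - 2 b = α - δ` with `δ ≤ α`, the second term
is `- D_b q^(α-δ) [δ]`, and the sum is `q^(α-δ) [δ] (q^δ D_a - D_(a+δ))`. By induction on `δ`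
(`q^(δ+1) D_a - D_(a+δ+1) = q (q^δ D_a - D_(a+δ)) + (q D_(a+δ) - D_(a+δ+1))`) the last factor is in
`PZ (e + 2 a + 2 δ)`. Index: `2 (α-δ) + δ - 1 + e + 2 a + 2 δ = e + t + α + β - 1`. -/
def S_INV : Prop := S_PZm → S_PZp → ∀ (D : ℕ → PX) (e : ℤ) (J t α β : ℕ), 2 * J < t →
  (∀ j : ℕ, J < j → D j = 0) → (∀ j : ℕ, 1 ≤ j → D j ∈ PZ (e + 2 * j)) →
  (∀ j : ℕ, 1 ≤ j → qX * D j - D (j + 1) ∈ PZ (e + 2 * j + 2)) →
  ∀ a b : ℕ, 1 ≤ a → a + b + α = β + t →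
    ∑ j ∈ Icc a b, D j * (Q (β + t - 2 * j) - Q α) ∈ PZ (e + t + α + β - 1)

/-- TASK SYa. Case `β ≤ c < α`. Write `s(x,y) = [x] - [y] = q^y [x-y]` (`y ≤ x`, `Q_sub`), in
`PZ (x + y - 1)`. The sum is `g(γ+1) s(α,β) + z(α,β)` if `γ ≤ c` and `g(γ+1) s(α,β) - z(β,α)` if
`c < γ` (unfold `cf`). Here `γ + 1 ≤ ν` since `c < α`, so `g(γ+1) ∈ PZ (e+t)`. All terms of the
`z`-sums are in `PZ (e+t+α+β-1)` (`j > J`: zero; `j ≤ J`: `2 j < t`). `γ ≤ c`: then `α + β ≥ ν ≥ t - 1`;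
if `β < j`: `α ≥ β + t - 2 j`, `s(α, β+t-2j) ∈ PZ (α+β+t-2j-1)`; if `t ≤ β + j`: `α + t - 2 j ≥ β`.
`c < γ`: then `α + β ≤ ν - 1 ≤ t - 1`; `-z(β,α) = ∑_j D_j ([α<j] s(α+t-2j, β) + [t≤α+j] s(α, β+t-2j))`;
if `α < j`: `α + t - 2 j ≥ β`; if `t ≤ α + j`: `β ≤ ν - 1 - α ≤ j - 1`, so `β + t - 2 j ≤ t - j - 1 < α`. -/
def S_SYa : Prop := S_PZm → ∀ (ν t J c α β γ : ℕ) (e : ℤ) (D g : ℕ → PX), (t = ν ∨ t = ν + 1) →
  Dat ν t J e D g → α + β + γ = c + ν → β ≤ c → c < α →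
  cf t D g c α β γ + cf t D g c β α γ ∈ PZ (e + t + α + β - 1)

/-- TASK SYb. Case `c < α`, `c < β`. If `c < γ` everything cancels. If `γ ≤ c` then
`α + β ≥ ν ≥ t - 1` and `α ≤ ν - 1 ≤ t - 1` (from `β ≥ c + 1`), same for `β`. First statement
(`β < α`): the sum is `z(α,β) + z(β,α) = ∑_j D_j φ_j`,
`φ_j = [β<j] s(α,β+t-2j) + [t≤β+j] s(α+t-2j,β) + [α<j] s(β,α+t-2j) + [t≤α+j] s(β+t-2j,α)`.
Let `j ≤ J`, so `2 j < t`. `α < j` is impossible (`α + β ≤ 2 j - 2 ≤ t - 3 < ν`). If `β < j` then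
`t ≤ α + j` and `¬ t ≤ β + j`, so `φ_j = 0`. If `j ≤ β`: `φ_j = [t≤β+j] s(α+t-2j,β) +
[t≤α+j] s(β+t-2j,α)`. So the sum is `∑_{j ∈ Icc (t-α) β} D_j ([β+t-2j] - [α])` (use `S_INV`:
`a = t - α ≥ 1`, `b = β`) plus `∑_{j, t ≤ β+j} D_j s(α+t-2j, β)` (each term is in
`PZ (e+t+α+β-1)` since `α + t - 2 j ≥ β`).
Second statement (diagonal): `z(α,α) = ∑_j D_j [t≤α+j] s(α+t-2j,α)` (again `α < j` is impossible). -/
def S_SYb : Prop := S_PZm → S_PZp → S_INV → ∀ (ν t J c α β γ : ℕ) (e : ℤ) (D g : ℕ → PX),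
  (t = ν ∨ t = ν + 1) → Dat ν t J e D g → α + β + γ = c + ν → c < β → c < α →
  (β < α → cf t D g c α β γ + cf t D g c β α γ ∈ PZ (e + t + α + β - 1)) ∧
  (α = β → cf t D g c α β γ ∈ PZ (e + t + α + β - 1))

/-- TASK SYc. Case `α ≤ c`, `β ≤ c`. If `γ ≤ c` everything is zero. If `c < γ` then
`α + β ≤ ν - 1 ≤ t - 1`. First statement (`β < α`): the sum is `- z(α,β) - z(β,α) = ∑_j D_j ψ_j`,
`ψ_j = [β<j] s(β+t-2j,α) + [t≤β+j] s(β,α+t-2j) + [α<j] s(α+t-2j,β) + [t≤α+j] s(α,β+t-2j)`.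
Let `j ≤ J`, so `2 j < t`. `t ≤ β + j` is impossible (`α + β ≥ 2 β ≥ 2 t - 2 j > t`). If `t ≤ α + j`
then `β < j` and `¬ α < j`, so `ψ_j = 0`. Otherwise `ψ_j = [β<j] s(β+t-2j,α) + [α<j] s(α+t-2j,β)`.
So the sum is `∑_{j ∈ Icc (β+1) (t-α-1)} D_j ([β+t-2j] - [α])` (`S_INV` with `a = β + 1`,
`b = t - α - 1`) plus `∑_{j > α} D_j s(α+t-2j, β)` (termwise; for `α < j` and `2 j < t` the
condition `α + j < t` holds). Second statement (diagonal): `- z(α,α) = ∑_{j > α} D_j s(α+t-2j,α)`. -/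
def S_SYc : Prop := S_PZm → S_PZp → S_INV → ∀ (ν t J c α β γ : ℕ) (e : ℤ) (D g : ℕ → PX),
  (t = ν ∨ t = ν + 1) → Dat ν t J e D g → α + β + γ = c + ν → β ≤ c → α ≤ c →
  (β < α → cf t D g c α β γ + cf t D g c β α γ ∈ PZ (e + t + α + β - 1)) ∧
  (α = β → cf t D g c α β γ ∈ PZ (e + t + α + β - 1))

/-- TASK POS. Split the sum over `tri (c + ν)` into `p.2.1 < p.1`, `p.1 = p.2.1`, `p.1 < p.2.1` and map
the last part to the first by the exchange of the first two coordinates: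
`Op j = ∑_{p, p.2.1 < p.1} C (cf .. p.1 p.2.1 p.2.2 + cf .. p.2.1 p.1 p.2.2) e e eh +
∑_{p, p.1 = p.2.1} C (cf ..) e e eh`. By the hypotheses (in the first sum `β < α`; the cases are
`β ≤ c < α`; `c < β`; `α ≤ c`) every coefficient is in `PZ z` with
`z = e + t + α + β - 1 = c + E - γ` (`α + β + γ = c + ν`). By `S_PZp` it is `0` or in `PU d` with
`d + γ = c + E`; then `C p * e_α * e_β ∈ Cone N (α + β) d` (generator with `l = {α, β}`) and the term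
is a generator of `MCone N (c + ν + 1) (c + E)`. -/
def S_POS : Prop := S_PZp → S_SYa → S_SYb → S_SYc → S_PZm → S_INV →
  ∀ (N ν t J c E : ℕ) (e : ℤ) (D g : ℕ → PX), (t = ν ∨ t = ν + 1) → Dat ν t J e D g →
  e = E - ν + 1 - t → Op N ν t D g c ∈ MCone N (c + ν + 1) (c + E)

/-- TASK NA. First part: if `j > k + 1` then `fall k (j-1) = 0`. Otherwise use `S_FR` for the
three products (`j - 1 ≤ k`, `1 ≤ s`, `1 ≤ r + 2 - j`); indices (twice): `4 s (j-1)`,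
`(j-1) (2k - j)`, `(k+1-j) (2s + k - j - 2)`, `(s-1) (2r + s - 2j)`; the sum is `2 (e0 k s r + 2 j)`
(`two_tr`; write `j = i + 1`, `k = i + a`, `r = i + b`).
Second part: `D (k+1) s (r+1) j = [s] [r]! aN k s r j`: for `j ≤ k + 1`:
`[s]! rise s (r+1-j) = [s] [s+r-j]!`, `fall r (j-1) [r+1-j]! = [r]!`,
`rise (r+2-j) (s-1) [r+1-j]! = [r+s-j]!` (lemmas: `QF (m + s) = QF m * rise (m+1) s`,
`QF (a + i) = QF a * fall (a + i) i`; cancel `[r+1-j]! ≠ 0`). -/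
def S_NA : Prop := S_PZm → S_PZp → S_FR → ∀ k s r j : ℕ, 1 ≤ s → k ≤ r → 1 ≤ j →
  aN k s r j ∈ PZ (e0 k s r + 2 * j) ∧ D (k + 1) s (r + 1) j = Q s * QF r * aN k s r j

/-- TASK NB. `j > k + 1`: `0`. `j = k + 1`: `aN (k+2) = 0` and `S_NA`, `S_PZp`. `j ≤ k`: if `s = 1`
the difference is `0` (`fall k (j-1) rise 1 (k+1-j) = [k]!`). If `s ≥ 2`:
`q aN j - aN (j+1) = q^(s(j-1)+1) fall k (j-1) rise s (k-j) rise (r+2-j) (s-2) [s-1] [s+k+r+1-2j]`,
from `fall k j = fall k (j-1) [k+1-j]`, `rise s (k+1-j) = rise s (k-j) [s+k-j]`,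
`rise (r+2-j) (s-1) = rise (r+2-j) (s-2) [r+s-j]`, `rise (r+1-j) (s-1) = [r+1-j] rise (r+2-j) (s-2)`
and `q [s-1+x] [s-1+y] - q^s [x] [y] = q [s-1] [s-1+x+y]` with `x = k+1-j`, `y = r+1-j` (`Q_std`).
Membership of the factors by `S_FR`; the sum of the indices is `e0 k s r + 2 j + 2`. -/
def S_NB : Prop := S_PZm → S_PZp → S_FR → S_NA → ∀ k s r j : ℕ, 1 ≤ s → k ≤ r → 1 ≤ j →
  qX * aN k s r j - aN k s r (j + 1) ∈ PZ (e0 k s r + 2 * j + 2)

/-- TASK NG1. `G1 l = q^(r+1-l+s l) fall k l rise (s+1) (k-l) [s-1] rise (r+2-l) (s-2)` for `l ≤ k`,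
`G1 l = 0` for `l > k` (then `fall k l = 0`). `rise s (k+1-l) = [s] rise (s+1) (k-l)`. If `s = 1`:
`rise 0 (r+1-l) = 0`, both sides are zero. If `s ≥ 2`: `[s-1]! rise (s-1) (r+1-l) =
[s-1] [s+r-1-l]!`, `fall r (l-1) [r+1-l]! = [r]!`, `rise (r+2-l) (s-2) [r+1-l]! = [s+r-1-l]!`
(cancel `[r+1-l]!`). Membership by `S_FR`; the sum of the indices is `e0 k s r + (k+s+r+2)`. -/
def S_NG1 : Prop := S_PZm → S_PZp → S_FR → ∀ k s r l : ℕ, 1 ≤ s → k ≤ r → 1 ≤ l →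
  ∃ G : PX, GG (k + 1) s (r + 1) l = Q s * QF r * G ∧ G ∈ PZ (e0 k s r + (k + s + r + 2))

/-- TASK NG2. If `l > k + 1` or `l > r` then `GG (r+1) s (k+1) l = 0` (`fall k (l-1)`, `fall r l`).
Otherwise `[s-1]! rise s (r+1-l) = [s+r-l]!`, `fall r l [r-l]! = [r]!`,
`[s+r-l]! = [r-l]! rise (r-l+1) s`, and `rise (r-l+1) s = [s] V` by `S_DIV`; so
`G = V q^(k+1-l+s l) fall k (l-1) rise (s-1) (k+1-l)`. If `s = 1` and `l ≤ k` this is `0`
(`rise 0 (k+1-l) = 0`), if `s = 1` and `l = k + 1` then `rise 0 0 = 1`; for `s ≥ 2` use `S_FR` for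
`rise (s-1) (k+1-l)`. The sum of the indices is `e0 k s r + (k+s+r+2)`. -/
def S_NG2 : Prop := S_PZm → S_PZp → S_FR → S_DIV → ∀ k s r l : ℕ, 1 ≤ s → k ≤ r → 1 ≤ l →
  ∃ G : PX, GG (r + 1) s (k + 1) l = Q s * QF r * G ∧ G ∈ PZ (e0 k s r + (k + s + r + 2))

/-- TASK DAT. Choose `G1`, `G2` by `S_NG1`, `S_NG2` and put, for `1 ≤ γ ≤ k + s + r + 1`,
`g γ = ∑_{l ∈ Icc γ (r+1)} G1 l + ∑_{l ∈ Icc (k+s+r+2-γ) (k+1)} G2 l` (unfold `gg`, `g1`; all `l ≥ 1`).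
The rest of `Dat` is `S_NA`, `S_NB`, `aN k s r j = 0` for `j > k + 1`.
Second part (graph K, `t = k + s + r + 2 = (k+1) + s + (r+1)`): `g' γ = g (γ - 1)` for `γ ≥ 2`,
because `gK (k+1) s (r+1) γ = [r+1] gg (k+1) s (r+1) (γ-1)` and `QF (r+1) = QF r * [r+1]`, and
`g' 1 = g 1 + q^(r+1) [s-1] rise (s+1) k rise (r+2) (s-2)` by `S_KAP` (with `A = k+1`, `B = r+1`):
`[s-1] [k+s] ([s-1]! rise s k rise s r) = [s] [r+1]! [s-1] rise (s+1) k rise (r+2) (s-2)`, where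
`rise s k [k+s] = rise s (k+1) = [s] rise (s+1) k`, and for `s ≥ 2`
`[s-1]! rise s r = [s+r-1]! = [r+1]! rise (r+2) (s-2)` (for `s = 1` both sides are zero). The index of
the new term is `e0 k s r + (k+s+r+2)`. -/
def S_DAT : Prop := S_PZm → S_PZp → S_FR → S_DIV → S_NA → S_NB → S_NG1 → S_NG2 →
  (∀ A S B : ℕ, 1 ≤ A → 1 ≤ S → 1 ≤ B → - zk (A + S + B) (D A S B) B 0 = Q B * gg A S B 1 +
    qX ^ B * Q (S - 1) * Q (A + S - 1) * (QF (S - 1) * rise S (A - 1) * rise S (B - 1))) →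
  ∀ k s r : ℕ, 1 ≤ s → k ≤ r →
  (∃ g : ℕ → PX, (∀ γ : ℕ, 1 ≤ γ → γ ≤ k + s + r + 1 →
      gg (k + 1) s (r + 1) γ = Q s * QF r * g γ) ∧
    Dat (k + s + r + 1) (k + s + r + 2) (k + 1) (e0 k s r) (aN k s r) g) ∧
  (∃ g : ℕ → PX, (∀ γ : ℕ, 1 ≤ γ → γ ≤ k + s + r + 2 →
      gK (k + 1) s (r + 1) γ = Q s * QF (r + 1) * g γ) ∧
    Dat (k + s + r + 2) (k + s + r + 2) (k + 1) (e0 k s r) (aN k s r) g)

/-! ## Part C: identities between the coefficients -/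

/-- TASK W. Let `a = A - y - 1`, `b = B - y - 1`,
`w = QF (S-1) * q^(S y) * fall (A-1) y * fall (B-1) (y-1) * rise S a * rise S b`. Use
`fall (A-1) (y+1) = fall (A-1) y * [a]`, `fall (B-1) y = fall (B-1) (y-1) * [b+1]`,
`rise S (a+1) = rise S a * [S+a]`, `rise (S-1) (b+1) = [S-1] rise S b` (`S ≥ 1`),
`QF S = QF (S-1) * [S]`. -/
def S_W : Prop := ∀ A S B y : ℕ, 1 ≤ S → 1 ≤ y → y < A → y < B → ∃ w : PX,
  hh A S B y = w * (Q (S + (A - y - 1)) * Q (S + (B - y - 1))) ∧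
  hh A S B (y + 1) = w * (qX ^ S * Q (A - y - 1) * Q (B - y)) ∧
  D A S B (y + 1) = w * (Q S * Q (B - y)) ∧
  GG A S B y = w * (qX ^ (B - y) * Q (S + (A - y - 1)) * Q (S - 1))

/-- TASK GH. First part. If `y ≥ A` or `y > B` everything is zero (`fall_eq_zero`). If `y = B < A`:
`hh (y+1) = 0`, `D (y+1) = 0`, `hh y = GG y` (`rise S 0 = 1 = rise (S-1) 0`). Otherwise `S_W` and
`[S] + q^S [a] = [S+a]`, `[S+b] - [b+1] = q^(b+1) [S-1]` with `a = A - y - 1`, `b = B - y - 1`.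
Second part: telescoping sum (`hh (B+1) = 0`, `D (B+1) = 0`); for `y > B` all terms are zero.
Third part: direct (`fall (A-1) y = fall (A-1) (y-1) [A-y]`, `QF S = QF (S-1) [S]`). -/
def S_GH : Prop := S_W → ∀ A S B y : ℕ, 1 ≤ A → 1 ≤ S → 1 ≤ B → 1 ≤ y →
  hh A S B y - hh A S B (y + 1) - D A S B (y + 1) = GG A S B y ∧
  g1 A S B y = hh A S B y - ∑ j ∈ Ioc y B, D A S B j ∧
  Q S * hh A S B y = qX ^ S * Q (A - y) * D A S B y

/-- TASK KI1. Descending induction on `y` (induction on `B - y`). `y ≥ B`: both sides are zero.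
`y < B`: it suffices that `[B-y] hh y - [B-y-1] hh (y+1) = [A+S+B-2(y+1)] D (y+1)`. If `y ≥ A` all three
are zero. Otherwise `S_W` and `Q_std`: `[S+a] [S+b] - [b] q^S [a] = [S] [S+a+b]`. -/
def S_KI1 : Prop := S_W → ∀ A S B y : ℕ, 1 ≤ A → 1 ≤ S → 1 ≤ B → 1 ≤ y →
  Q (B - y) * hh A S B y = ∑ j ∈ Ioc y B, Q (A + S + B - 2 * j) * D A S B j

/-- TASK KI. `t = A + S + B`, `D = D A S B`. `zk t D B γ = ∑_{j>γ} D_j ([B] - [γ+t-2j]) +
∑_{j ≥ t-γ} D_j ([B+t-2j] - [γ])`. (`D_j = 0` for `j > A` or `j > B`, so `2 j < t` if `D_j ≠ 0`; the sums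
over `Ico 1 t` can be restricted to `Ioc γ B` resp. `Icc (t-γ) A`; if `t - γ > min A B` the second one is
zero.) Part 1: `([γ]-[B]) g1 A S B γ` is the first sum: by `S_GH`, `g1 = hh - ∑_{j ∈ Ioc γ B} D_j`, this is
`([γ]-[B]) hh A S B γ = ∑_{j ∈ Ioc γ B} D_j ([γ] - [γ+t-2j]) = - q^γ ∑ [t-2j] D_j = - q^γ [B-γ] hh`
(`S_KI1`), true for `γ ≤ B` (`[B]-[γ] = q^γ [B-γ]`), and for `γ > B` both sides are zero.
Part 2: `y = t - γ ≥ 1`; `([γ]-[B]) g1 B S A y` is the second sum. If `y > A` or `y > B` both are zero.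
Otherwise, with `h = hh B S A y`, `g1 B S A y = h - ∑_{j ∈ Ioc y A} D_j`, the claim is
`([γ]-[B]) h = D_y ([B+t-2y]-[γ]) + ∑_{j ∈ Ioc y A} D_j ([B+t-2j]-[B])`, the last sum is
`q^B ∑ [t-2j] D_j = q^B [A-y] h` (`S_KI1` for `B, S, A`; `D_symm`), `[γ]-[B] = q^B [A+S-y]`,
`[A+S-y] - [A-y] = q^(A-y) [S]`, `[B+t-2y]-[t-y] = q^(t-y) [B-y]`, and
`[S] h = q^S [B-y] D_y` (third part of `S_GH` for `B, S, A`). -/
def S_KI : Prop := S_W → S_GH → S_KI1 → ∀ A S B γ : ℕ, 1 ≤ A → 1 ≤ S → 1 ≤ B → 1 ≤ γ →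
  γ < A + S + B → (Q γ - Q B) * gg A S B γ = zk (A + S + B) (D A S B) B γ

/-- TASK KAP. `- zk t D B 0 = ∑_{j ∈ Ico 1 t} D_j ([t-2j] - [B])` (`t = A+S+B`; `0 < j`, `¬ t ≤ 0 + j`).
`∑_{j≥2} [t-2j] D_j = [B-1] hh A S B 1` (`S_KI1`), `∑_{j≥2} D_j = hh A S B 1 - g1 A S B 1` (`S_GH`),
`gg A S B 1 = g1 A S B 1` (since `t - 1 > A` the second half is an empty sum). With
`D' = QF (S-1) * rise S (A-1) * rise S (B-1)`: `D_1 = [S] D'`, `hh 1 = q^S [A-1] D'`. It remains: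
`[S] ([t-2]-[B]) + q^S [A-1] ([B-1]-[B]) = q^B [S-1] [A+S-1]` (multiply by `(1-q)^2`). -/
def S_KAP : Prop := S_W → S_GH → S_KI1 → ∀ A S B : ℕ, 1 ≤ A → 1 ≤ S → 1 ≤ B →
  - zk (A + S + B) (D A S B) B 0 = Q B * gg A S B 1 +
    qX ^ B * Q (S - 1) * Q (A + S - 1) * (QF (S - 1) * rise S (A - 1) * rise S (B - 1))

/-- TASK SZ. Termwise: let `2 j < t`. `β < j` iff `t ≤ α + j`, and `α < j` iff `t ≤ β + j`; the four
terms of the sum for `j` cancel in pairs. -/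
def S_SZ : Prop := ∀ (t : ℕ) (D : ℕ → PX), (∀ j : ℕ, t ≤ 2 * j → D j = 0) →
  ∀ α β : ℕ, α + β + 1 = t → zk t D α β + zk t D β α = 0

/-- TASK RD. If `j > A` or `j > B` everything is zero. Let `a = A - j`, `b = B - j`, `i = j - 1`.
If `a, b ≥ 1`: with `w = QF (S+1) * q^(S i) * fall (A-1) i * fall (B-1) i * rise (S+1) (a-1) *
rise (S+1) (b-1)` the three terms are `[S] q^i [b] [A+S-j] w`, `[S] q^i [a] [B+S-j] w` and
`([B-1]-[A-1]) [S] [S] w` (use `[B-1] fall (B-2) i = fall (B-1) (i+1) = fall (B-1) i [b]`,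
`rise (S+1) a = rise (S+1) (a-1) [S+a]`, `rise S a = [S] rise (S+1) (a-1)`), and
`q^i ([b] [S+a] - [a] [S+b]) = ([B-1]-[A-1]) [S]`, where `A - 1 = a + i`, `B - 1 = b + i`.
If `a = 0 < b`: the second term is zero and the claim is `q^i [b] = [B-1] - [A-1]`; if `b = 0 < a`
similarly; if `a = b = 0` all is zero (`A = B`). -/
def S_RD : Prop := ∀ A S B j : ℕ, 2 ≤ A → 1 ≤ S → 2 ≤ B → 1 ≤ j →
  Q S * Q (B - 1) * D A (S + 1) (B - 1) j - Q S * Q (A - 1) * D (A - 1) (S + 1) B j =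
    (Q (B - 1) - Q (A - 1)) * Q (S + 1) * D A S B j

/-- TASK RH. First part. If `y ≥ A` or `y > B` everything is zero. Let `a = A - y ≥ 1`, `b = B - y`.
If `b ≥ 1`: with `w = QF S * q^(S y) * fall (A-1) y * fall (B-1) (y-1) * rise (S+1) (a-1) *
rise (S+1) (b-1)` the terms are `w q^y [S] [b] [S+a]`, `w q^y [S] [a-1] [S+b]`,
`w ([B-1]-[A-1]) [S+1] [S]`, and the right-hand side is `w q^(B-1) [S] [S+a]`
(`[B-1] fall (B-2) (y-1) = fall (B-1) y = fall (B-1) (y-1) [b]`,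
`[A-1] fall (A-2) y = fall (A-1) (y+1) = fall (A-1) y [a-1]`); the identity is
`q^y [b] [S+a] - q^y [a-1] [S+b] - ([B-1]-[A-1]) [S+1] = q^(B-1) [S+a]`, with
`[B-1]-[A-1] = q^(y-1) ([b]-[a])`; multiply by `(1-q)^2`. If `b = 0` (`y = B < A`): the first term
is zero; the identity is `- q^y [S] [a-1] + q^(y-1) [a] [S+1] = q^(B-1) [S+a]` times
`QF S * q^(S y) * fall (A-1) y * fall (B-1) (y-1) * rise (S+1) (a-1)`.
Second part: `[A-1] fall (A-2) (y-1) = fall (A-1) y`, `[B-1] fall (B-2) (y-2) = fall (B-1) (y-1)`,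
`(A-1)-(y-1) = A-y`, exponent `S + (B-y) + (S+1)(y-1) = S y + B - 1` for `y ≤ B` (for `y > B`
both sides are zero). Third part: `rise (S+1) (A-1) = rise (S+1) (A-2) [A+S-1]`,
`rise S (B-1) = [S] rise (S+1) (B-2)`. -/
def S_RH : Prop := ∀ A S B y : ℕ, 2 ≤ A → 1 ≤ S → 2 ≤ B → 1 ≤ y →
  (Q S * Q (B - 1) * hh A (S + 1) (B - 1) y - Q S * Q (A - 1) * hh (A - 1) (S + 1) B y -
    (Q (B - 1) - Q (A - 1)) * Q (S + 1) * hh A S B y =
    QF S * qX ^ (S * y + B - 1) * fall (A - 1) y * fall (B - 1) (y - 1) * rise (S + 1) (A - y) *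
      rise S (B - y)) ∧
  (2 ≤ y → QF S * qX ^ (S * y + B - 1) * fall (A - 1) y * fall (B - 1) (y - 1) *
      rise (S + 1) (A - y) * rise S (B - y) =
    qX ^ S * Q (A - 1) * Q (B - 1) * GG (A - 1) (S + 1) (B - 1) (y - 1)) ∧
  (QF S * qX ^ (S * 1 + B - 1) * fall (A - 1) 1 * fall (B - 1) (1 - 1) *
      rise (S + 1) (A - 1) * rise S (B - 1) = qX ^ S * Q (A - 1) * (qX ^ (B - 1) * Q S *
        Q (A + S - 1) * (QF S * rise (S + 1) (A - 2) * rise (S + 1) (B - 2))))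

/-- TASK RG. `n = A + S + B`. Write `ξ A B y` for the right-hand side of the first part of `S_RH`.
For `y ≥ 1` let `L A B y = [S][B-1] g1 A (S+1) (B-1) y - [S][A-1] g1 (A-1) (S+1) B y -
([B-1]-[A-1]) [S+1] g1 A S B y`. By `S_GH` (`g1 = hh - ∑_{Ioc} D`; all sums can be extended to
`Ioc y B`, `D_eq_zero`) and `S_RD` the `D`-sums cancel, so `L A B y = ξ A B y` (`S_RH`). The left-hand
side of the claim is `L A B γ - L B A (n-γ) = ξ A B γ - ξ B A (n-γ)`.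
Right-hand side, with `'' = (A-1, S+1, B-1)`, `n'' = n - 1`, `gg'' γ = g1'' γ + g1''(B-1,S+1,A-1) (n-1-γ)`:
for `2 ≤ γ ≤ n-2`: `gK - gE` gives `q^S [A-1] [B-1] (gg'' (γ-1) - gg'' γ)` and
`g1 (y-1) - g1 y = GG (y-1)` (Icc, for `y ≥ 2`; for `y - 1 > B` both are zero), so it is
`q^S [A-1] [B-1] (GG (A-1) (S+1) (B-1) (γ-1) - GG (B-1) (S+1) (A-1) (n-γ-1))`, which is
`ξ A B γ - ξ B A (n-γ)` by the second part of `S_RH`. For `γ = 1`:
`gE'' 1 = [A-1] gg'' 1` (`1 < n - 1`), `gK'' 1 = - zk .. (B-1) 0` is given by `S_KAP`; the difference is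
`ξ A B 1` (third part of `S_RH`), and `ξ B A (n-1) = 0` (`n - 1 > B`, `fall_eq_zero`). For `γ = n - 1`:
`gK'' (n-1) = [B-1] gg'' (n-2)`, `gE'' (n-1) = - zk .. (A-1) 0`; by `D_symm` and `S_KAP` for
`(B-1, S+1, A-1)` and `gg (A-1) (S+1) (B-1) (n-2) = gg (B-1) (S+1) (A-1) 1` the difference is
`- ξ B A 1`; and `ξ A B (n-1) = 0`. -/
def S_RG : Prop := S_W → S_GH → S_KI1 → S_KAP → S_RD → S_RH → ∀ A S B γ : ℕ, 2 ≤ A → 1 ≤ S →
  2 ≤ B → 1 ≤ γ → γ < A + S + B →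
  Q S * Q (B - 1) * gg A (S + 1) (B - 1) γ - Q S * Q (A - 1) * gg (A - 1) (S + 1) B γ -
    (Q (B - 1) - Q (A - 1)) * Q (S + 1) * gg A S B γ =
  qX ^ S * (Q (A - 1) * gK (A - 1) (S + 1) (B - 1) γ - Q (B - 1) * gE (A - 1) (S + 1) (B - 1) γ)

/-! ## Part O: the operators `Op` -/

/-- TASK MC. `Z_insert` and induction on `U` (for all `w`), or: `pw m q u k v k' = pw m' q u k v k'` for
`u, v ∈ U`. -/
def S_MC : Prop := ∀ (R : Type) [CommRing R] (N : ℕ) (m m' : ℕ → ℕ) (q : R) (U : Finset ℕ)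
    (w : ℕ → Fin N → R), (∀ u ∈ U, ∀ v ∈ U, u < v → (v ≤ m u ↔ v ≤ m' u)) →
    Z m q U w = Z m' q U w

/-- TASK OE. For `2 j < t`: `zk t D α β = [α] d(β) - p(β)` with
`d(β) = ∑_j D_j ([β<j] + [t≤β+j] q^(t-2j))`, `p(β) = ∑_j D_j ([β<j] [β+t-2j] + [t≤β+j] ([β]-[t-2j]))`.
All sums are over triples `(α,β,γ)`; `T(α,β,γ) = e_α e_β eh_γ` is symmetric in `α`, `β`.
(F) `Op 0 = ∑_{β+γ=ν} ([β] g(γ+1) + p(β)) e_β eh_γ` (that is the sum over the triples with `α = 0`):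
for fixed `γ` the terms `[α]-[β]` sum to zero over `α + β = ν - γ` (antisymmetric), so
`∑_{α>0} g(γ+1) ([α]-[β]) T = g(γ+1) [β] T(0,β,γ)` with `β = ν-γ`; for `γ > 0` the coefficient of `z` is
`[0<α] - 1 = -[α=0]`, for `γ = 0` it is `[0<α]` and `∑_{α+β=ν} z(α,β) T = 0` by hypothesis; and
`-z(0,β) = p(β)`.
Comparison of both sides: right-hand side minus `[A] Op (c+1)` (both are sums over
`α+β+γ = c+ν+1`) is `∑ ([c<α] (g'(γ+1) - [A] [c+1<α] g(γ+1)) ([α]-[β]) +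
([α=c+1]-[γ=c+1]) [A] z(α,β)) T`, where `g' (ν+1) = κ := - z(A,0) = p(0) - [A] d(0)` and
`g' γ = [A] g γ` otherwise; for `γ < ν` the first part is `[α=c+1] [A] g(γ+1) ([c+1]-[β])`, for `γ = ν`
it is `[α=c+1] κ [c+1]` with `β = 0` (`c < α` and `α + β = c + 1`); the terms with `γ = c+1` sum to
`0` (`α + β = ν`, antisymmetric by hypothesis). So the claim is: for `β + γ = ν`
`([c+1]-[A]) ([β] g(γ+1) + p(β)) = [A] ([c+1] d(β) - p(β)) + (if β = 0 then κ [c+1] else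
[A] g(γ+1) ([c+1]-[β]))`. For `β = 0` this is the definition of `κ`; for `β ≥ 1` it follows from
`[β] g(γ+1) + p(β) = [A] (g(γ+1) + d(β))`, `γ + 1 = ν + 1 - β` (last hypothesis). -/
def S_OE : Prop := ∀ (N ν t A c : ℕ) (D g : ℕ → PX), 1 ≤ ν → (∀ j : ℕ, t ≤ 2 * j → D j = 0) →
  (∀ α β : ℕ, α + β = ν → zk t D α β + zk t D β α = 0) →
  (∀ β : ℕ, 1 ≤ β → β ≤ ν → (Q β - Q A) * g (ν + 1 - β) = zk t D A β) → ∀ j : Fin N,
  MvPolynomial.C (Q A) * Op N ν t D g (c + 1) j +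
    (MvPolynomial.C (Q (c + 1)) - MvPolynomial.C (Q A)) * es (xx N) (c + 1) * Op N ν t D g 0 j =
  Op N (ν + 1) t (fun i => Q A * D i)
    (fun γ => if γ = ν + 1 then - zk t D A 0 else Q A * g γ) c j

/-- TASK OK. Write `z = zk t D`; `z(α,β) = [α] d(β) - p(β)` as in TASK OE (for `2 j < t`), hence
(P) `z(B,m) ([α]-[β]) = ([α]-[B]) z(β,m) - ([β]-[B]) z(α,m)` for all `α, β, m`.
Left-hand side: coefficients `C(α,β,γ) = [c<α] g(γ+1) ([α]-[β]) + ([c<α]-[c<γ]) z(α,β)`, over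
`α+β+γ = c+ν`. Right-hand side: sum over `α+β+γ' = c+ν+1`. The terms with `γ' = γ+1 ≥ 1`: difference
right minus left: `([c<γ'-1] - [c<γ']) [B] z(α,β) = -[γ'=c+1] [B] z(α,β)` with `α + β = ν`: the sum is
zero (antisymmetry). The terms with `eh 0`: left: `∑_{α+β+m=c+ν+1, m≥1} ([m]-[B]) C(α,β,m-1)
e_α e_β e_m`; if `c < α` then `m ≤ ν` and `([m]-[B]) g(m) = z(B,m)` by hypothesis. Right (`γ' = 0`):
`∑_{α+β=c+ν+1} [c<α] (- z(B,0) ([α]-[β]) + [B] z(α,β)) e_α e_β`, which is minus the term `m = 0` of the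
left-hand formula. So the claim is
`∑_{α+β+m=c+ν+1} ([c<α] z(B,m) ([α]-[β]) + ([m]-[B]) ([c<α]-[c+1<m]) z(α,β)) e_α e_β e_m = 0`.
Use (P) for the first part and permute the variables (`e_α e_β e_m` is symmetric):
`∑ [c<α] ([α]-[B]) z(β,m) = ∑ [c<m] ([m]-[B]) z(α,β)` and
`∑ [c<α] ([β]-[B]) z(α,m) = ∑ [c<α] ([m]-[B]) z(α,β)`. What remains is
`∑ ([c<m]-[c+1<m]) ([m]-[B]) z(α,β) e_α e_β e_m`, only `m = c+1`, `α + β = ν`: zero by antisymmetry. -/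
def S_OK : Prop := ∀ (N ν t B c : ℕ) (D g : ℕ → PX), (∀ j : ℕ, t ≤ 2 * j → D j = 0) →
  (∀ α β : ℕ, α + β = ν → zk t D α β + zk t D β α = 0) →
  (∀ m : ℕ, 1 ≤ m → m ≤ ν → (Q m - Q B) * g m = zk t D B m) → ∀ j : Fin N,
  ∑ p ∈ tri (c + ν), MvPolynomial.C (cf t D g c p.1 p.2.1 p.2.2) * es (xx N) p.1 *
    es (xx N) p.2.1 * (MvPolynomial.C (Q B) * eh (qq N) (xx N) (p.2.2 + 1) j +
      (MvPolynomial.C (Q (p.2.2 + 1)) - MvPolynomial.C (Q B)) * es (xx N) (p.2.2 + 1) *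
        eh (qq N) (xx N) 0 j) =
  Op N (ν + 1) t (fun i => Q B * D i)
    (fun γ => if γ = 1 then - zk t D B 0 else Q B * g (γ - 1)) c j

/-- TASK KO (complete graphs). `S_KT` in `AN N` (`qq N ≠ 1`) for `U = range (k+1)`, `s = 0`, `t = k`:
`TQ = [k-1]! (∑_{i<min k (c+1)} q^i [k-i] e_i eh_{c+k-i} + ∑_{i<min k c} q^k [c-i] e_{c+k-i} eh_i)`.
(`S_KT` needs `Monotone m`: replace `m` by the constant function `k` with `S_MC`: `TT` is a value of `Z`.)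
In `Op N k (k+2)` only `j = 1` contributes, `z(α,β) = [k-1]! [β=0] ([α]-[k])` for `β ≤ k` (for
`β ≥ k + 1`, `[c<α] - [c<γ] = 0`, since `α + β + γ = c + k`), and `g = 0`. So `Op` is the sum over
`α + γ = c + k` of `([c<α]-[c<γ]) ([α]-[k]) [k-1]! e_α eh_γ`: the terms `γ ≤ c < α` are `γ = i < k`,
`i ≤ c`, `[c+k-i]-[k] = q^k [c-i]` (zero for `i = c`); the terms `α ≤ c < γ` are `α = i < k`, `i ≤ c`,
`-([i]-[k]) = q^i [k-i]`. -/
def S_KO : Prop := S_KT → S_MC →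
  ∀ (N k c : ℕ) (m : ℕ → ℕ), 1 ≤ k → (∀ u < k + 1, k ≤ m u) → ∀ j : Fin N,
  TQ N m (k + 1) c j = Op N k (k + 2) (fun i => if i = 1 then QF (k - 1) else 0) (fun _ => 0) c j

/-- TASK T1a (composition of two complete graphs). Let `D1 i = if i = 1 then 1 else 0`. By TASK KO's
computation, `Op N k (k+2) D1 0 c = ∑_{α+γ=c+k} ([c<α]-[c<γ]) ([α]-[k]) e_α eh_γ`. Inserting this twice,
the left-hand side is `∑ ([c<α]-[c<γ]) ([α]-[A]) ([γ<β]-[γ<δ]) ([β]-[B]) e_α e_β eh_δ` over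
`α + γ = c + A`, `β + δ = γ + B`; so `α + β + δ = c + A + B`, `α ≤ c + A`. Here
`[c<γ] = [α<A]`, `[γ<β] = [δ<B]`, `[γ<δ] = [β<B]`. The triples with `α > c + A` contribute
zero to the right-hand side (`β, δ < B`). -/
def S_T1a : Prop := ∀ (N A B c : ℕ), 1 ≤ A → 1 ≤ B → ∀ j : Fin N,
  ∑ p ∈ tri (c + A), MvPolynomial.C (cf (A + 2) (fun i => if i = 1 then 1 else 0) (fun _ => 0)
      c p.1 p.2.1 p.2.2) * es (xx N) p.1 * es (xx N) p.2.1 *
      Op N B (B + 2) (fun i => if i = 1 then 1 else 0) (fun _ => 0) p.2.2 j =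
  ∑ p ∈ tri (c + A + B), MvPolynomial.C (((if c < p.1 then 1 else 0) - (if p.1 < A then 1 else 0)) *
      ((if p.2.2 < B then 1 else 0) - (if p.2.1 < B then 1 else 0)) * (Q p.1 - Q A) *
      (Q p.2.1 - Q B)) * es (xx N) p.1 * es (xx N) p.2.1 * eh (qq N) (xx N) p.2.2 j

/-- TASK T1b. `D j = q^(j-1)` for `1 ≤ j ≤ m = min A B`, `μ = max A B`, `t = A + B + 1`.
(1) closed form: for `β ≤ A + B`: `zk t D α β = [β<m] ([m]-[β]) ([α]-[μ]) + [μ<β] ([β]-[μ]) ([α]-[m])`: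
if `β < m` the first sum is over `j = β+1..m` (`∑ q^(j-1) = [m]-[β]` and
`∑ q^(j-1) [β+t-2j] = ([m]-[β]) [μ]`; multiply by `1-q` twice, or induction), the second one is over
`j = t-β..m` and nonempty iff `β > μ`.
(2) The claim: both sides are polynomials in `[α], [β], [A], [B]` after all conditions are decided. `z` is
only needed if `[c<α] ≠ [c<γ]`, then `β ≤ A + B`. Distinguish `A ≤ B`, `B < A` and split all the `if`s
(`c<α, c<β, c<γ, α<A, β<A, α<B, β<B, γ<B, γ+1≤B, ..`); impossible combinations by `omega`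
(`α + β + γ = c + A + B`), the others by `ring` (in boundary cases after `α = A` or similar). -/
def S_T1b : Prop := ∀ A B c α β γ : ℕ, 1 ≤ A → 1 ≤ B → α + β + γ = c + A + B →
  ((if c < α then 1 else 0) - (if α < A then 1 else 0)) *
      ((if γ < B then 1 else 0) - (if β < B then 1 else 0)) * (Q α - Q A) * (Q β - Q B) +
  ((if c < β then 1 else 0) - (if β < A then 1 else 0)) *
      ((if γ < B then 1 else 0) - (if α < B then 1 else 0)) * (Q β - Q A) * (Q α - Q B) =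
  cf (A + B + 1) (fun j => if 1 ≤ j ∧ j ≤ min A B then qX ^ (j - 1) else 0)
    (fun i => (if B < A ∧ i ≤ B then Q A - Q B else 0) + (if A < B ∧ B < i then Q B - Q A else 0))
    c α β γ +
  cf (A + B + 1) (fun j => if 1 ≤ j ∧ j ≤ min A B then qX ^ (j - 1) else 0)
    (fun i => (if B < A ∧ i ≤ B then Q A - Q B else 0) + (if A < B ∧ B < i then Q B - Q A else 0))
    c β α γ

/-- TASK T1c. First part: `QF 1 = 1`, `rise 1 k = QF k`, `fall (A-1) (j-1) * QF (A-j) = QF (A-1)`;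
for `j > min A B` both are zero. Second part: `GG A 1 B l` contains `rise 0 (B-l)`, which is zero for
`l < B`, so `g1 A 1 B γ = [γ≤B] GG A 1 B B`, and `GG A 1 B B = q^B fall (A-1) B QF (B-1) rise 1 (A-B)` is
`q^B [A-B] QF (A-1) QF (B-1)` if `A > B` (`fall (A-1) B * QF (A-B-1) = QF (A-1)`) and zero
otherwise; `q^B [A-B] = [A]-[B]`. The second half with `A`, `B` exchanged at `A + 1 + B - γ ≤ A` iff
`γ > B`. -/
def S_T1c : Prop := ∀ A B : ℕ, 1 ≤ A → 1 ≤ B →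
  (∀ j : ℕ, 1 ≤ j → D A 1 B j = QF (A - 1) * QF (B - 1) *
    (if 1 ≤ j ∧ j ≤ min A B then qX ^ (j - 1) else 0)) ∧
  (∀ γ : ℕ, 1 ≤ γ → γ ≤ A + B → gg A 1 B γ = QF (A - 1) * QF (B - 1) *
    ((if B < A ∧ γ ≤ B then Q A - Q B else 0) + (if A < B ∧ B < γ then Q B - Q A else 0)))

/-- TASK OL (`Op` is linear and depends only on some values). (1) The coefficient `cf` uses `g` only at
`γ + 1` with `c < α`, so `γ + 1 ≤ ν`, and `D j` for `1 ≤ j < t`. (2) `cf` is linear in `(D, g)`.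
(3) If the symmetrized coefficients are equal then the sums are equal (exchange of the first two
coordinates; then `2 S = 2 S'`, `AN N` has no 2-torsion). -/
def S_OL : Prop :=
  (∀ (N ν t c : ℕ) (D D' g g' : ℕ → PX), (∀ j : ℕ, 1 ≤ j → D j = D' j) →
    (∀ γ : ℕ, 1 ≤ γ → γ ≤ ν → g γ = g' γ) → ∀ j : Fin N, Op N ν t D g c j = Op N ν t D' g' c j) ∧
  (∀ (N ν t c : ℕ) (D D' g g' : ℕ → PX) (a : PX) (j : Fin N),
    Op N ν t (fun i => a * D i + D' i) (fun γ => a * g γ + g' γ) c j =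
      MvPolynomial.C a * Op N ν t D g c j + Op N ν t D' g' c j) ∧
  (∀ (N M : ℕ) (a b : ℕ → ℕ → ℕ → PX), (∀ α β γ : ℕ, α + β + γ = M →
      a α β γ + a β α γ = b α β γ + b β α γ) → ∀ j : Fin N,
    ∑ p ∈ tri M, MvPolynomial.C (a p.1 p.2.1 p.2.2) * es (xx N) p.1 * es (xx N) p.2.1 *
        eh (qq N) (xx N) p.2.2 j =
      ∑ p ∈ tri M, MvPolynomial.C (b p.1 p.2.1 p.2.2) * es (xx N) p.1 * es (xx N) p.2.1 *
        eh (qq N) (xx N) p.2.2 j)

/-! ## Part L: graphs -/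

/-- TASK SH (shift). Induction on `U` with `Z_insert`, for all `w`:
`(insert v U).image (· + a) = insert (v + a) (U.image (· + a))`, and
`pw m' q (u+a) k (v+a) k' = pw m q u k v k'`. -/
def S_SH : Prop := ∀ (R : Type) [CommRing R] (N : ℕ) (m m' : ℕ → ℕ) (q : R) (a : ℕ) (U : Finset ℕ)
    (w : ℕ → Fin N → R), (∀ u ∈ U, ∀ v ∈ U, u < v → (v + a ≤ m' (u + a) ↔ v ≤ m u)) →
    Z m' q (U.image (fun u => u + a)) w = Z m q U (fun v k => w (v + a) k)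

/-- TASK LC (local law, twin columns `a`, `a+1`, third vertex `v` to the left). `Z_erase` at `v`, then at
`a`, then at `a + 1`. Let `κ` be the colour of `v` (same for the three graphs). The weight at `a` gets the
factor `g(k)` (`= pw`: `0` if `κ = k`, `q` if `κ < k`, `1` if `k < κ`) in `m1`, `m2` and `1` in `m0`; the
weight at `a+1` gets `g(k')` in `m2` and `1` in `m0`, `m1`. The pair `(a, a+1)` gives the factor `q` if
`k < k'`, `1` if `k' < k`, `0` if equal. The remaining sum `Z (U \ {v,a,a+1})` with weights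
`w u l * pw v κ u l * pw a k u l * pw (a+1) k' u l` is the same for the three graphs and symmetric in
`(k, k')`: `a` and `a+1` have the same neighbours in the rest (`pw a k u l = pw (a+1) k u l`).
So the sum over `k, k'` of `F(k,k')` times the pair factor times the `g`-factors, `F` symmetric, is
`∑_{k<k'} F(k,k') (q g_a(k) g_b(k') + g_a(k') g_b(k))`, and the claim is, for `k < k'`,
`(1+q) (q g(k) + g(k')) = q (1+q) + (1+q) g(k) g(k')`, i.e. `(g(k') - q) (1 - g(k)) = 0`: if `k < κ`,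
`g(k) = 1`; if `κ ≤ k < k'`, `g(k') = q`. -/
def S_LC : Prop := ∀ (R : Type) [CommRing R] (N : ℕ) (m0 m1 m2 : ℕ → ℕ) (q : R) (U : Finset ℕ)
    (w : ℕ → Fin N → R) (v a : ℕ), v ∈ U → a ∈ U → a + 1 ∈ U → v < a →
    (∀ k, w a k = w (a + 1) k) →
    (∀ u ∈ U, u ≠ v → m0 u = m1 u) → (∀ u ∈ U, u ≠ v → m2 u = m1 u) →
    m0 v + 1 = a → m1 v = a → m2 v = a + 1 →
    (∀ u ∈ U, u < a → u ≠ v → (a ≤ m1 u ↔ a + 1 ≤ m1 u)) → a + 1 ≤ m1 a → m1 a = m1 (a + 1) →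
    (1 + q) * Z m1 q U w = q * Z m0 q U w + Z m2 q U w

/-- TASK LR (local law, twin rows `a`, `a+1`, third vertex `b` to the right). As TASK LC: `Z_erase` at
`b`, `a`, `a+1`; `κ` the colour of `b`, `g(k) = 0` if `k = κ`, `q` if `k < κ`, `1` if `κ < k`. In `m1`
the vertex `a + 1` (colour `k'`) gets `g(k')` and `a` gets `1`. All `u ∈ U` with `a + 1 < u < b` are
adjacent to both (`u ≤ b - 1`), the `u > b` to none, so the rest is symmetric in `(k,k')`. Claim for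
`k < k'`: `(1+q) (q g(k') + g(k)) = q (1+q) + (1+q) g(k) g(k')`, i.e. `(q - g(k)) (1 - g(k')) = 0`: if
`k < κ`, `g(k) = q`; if `κ ≤ k < k'`, `g(k') = 1`. -/
def S_LR : Prop := ∀ (R : Type) [CommRing R] (N : ℕ) (m0 m1 m2 : ℕ → ℕ) (q : R) (U : Finset ℕ)
    (w : ℕ → Fin N → R) (a b : ℕ), a ∈ U → a + 1 ∈ U → b ∈ U → a + 1 < b →
    (∀ k, w a k = w (a + 1) k) →
    (∀ u ∈ U, u ≠ a → u ≠ a + 1 → m0 u = m1 u) → (∀ u ∈ U, u ≠ a → u ≠ a + 1 → m2 u = m1 u) →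
    m0 a + 1 = b → m0 (a + 1) + 1 = b → m1 a + 1 = b → m1 (a + 1) = b →
    m2 a = b → m2 (a + 1) = b →
    (∀ u ∈ U, u < a → (a ≤ m1 u ↔ a + 1 ≤ m1 u)) →
    (1 + q) * Z m1 q U w = q * Z m0 q U w + Z m2 q U w

/-- TASK CH (chains). First part: `a (i+1) - a i = q^i (a 1 - a 0)` for `i + 1 ≤ J` by induction
(`a (i+2) - a (i+1) = q (a (i+1) - a i)`), and `qn q (i+1) = qn q i + q^i`. Second part:
`q (a (i+2) - a (i+1)) = a (i+1) - a i`, so `q^i (a (i+1) - a i) = a 1 - a 0`, and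
`q^(i+1) (a (i+2) - a 0) = q * q^i (a (i+1) - a 0) + q^(i+1) (a (i+2) - a (i+1))
= (q [i+1] + 1) (a 1 - a 0)`. -/
def S_CH : Prop := ∀ (R : Type) [CommRing R] (q : R) (a : ℕ → R) (J : ℕ),
  ((∀ i : ℕ, i + 2 ≤ J → (1 + q) * a (i + 1) = q * a i + a (i + 2)) →
    ∀ i : ℕ, i ≤ J → 1 ≤ J → a i - a 0 = qn q i * (a 1 - a 0)) ∧
  ((∀ i : ℕ, i + 2 ≤ J → (1 + q) * a (i + 1) = q * a (i + 2) + a i) →
    ∀ i : ℕ, i + 1 ≤ J → q ^ i * (a (i + 1) - a 0) = qn q (i + 1) * (a 1 - a 0))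

/-- TASK R1. `s0 = Y + S`; `Y + S = 0`: trivial. For `i ≤ s0` let `a i = TQ (mG X (s0-i) i Z)`: rows
`v < X + s0 - i`, `v ≥ X` have `m v = n - 2`, later rows have `n - 1` (`n = X + s0 + Z + 1`). `S_LR`
with the twins `X + s0 - i - 2`, `X + s0 - i - 1` and `b = n - 1` gives the recursion of the first part
of `S_CH` (the weights of the twins are equal: they are neither `0`, since `X ≥ 1`, nor `n - 1`). So
`a i - a 0 = [i] (a 1 - a 0)` and `[s0] (a S - a 0) = [S] (a s0 - a 0)`; `[s0] - [S] = q^S [Y]`.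
Everything in `AN N`; `qn (qq N) k = C (Q k)` is `qn_qq`. -/
def S_R1 : Prop := S_LR → S_CH → ∀ (N X Y S Z c : ℕ), 1 ≤ X → ∀ j : Fin N,
  MvPolynomial.C (Q (Y + S)) * TQ N (mG X Y S Z) (X + Y + S + Z + 1) c j =
    MvPolynomial.C (qX ^ S * Q Y) * TQ N (mG X (Y + S) 0 Z) (X + Y + S + Z + 1) c j +
    MvPolynomial.C (Q S) * TQ N (mG X 0 (Y + S) Z) (X + Y + S + Z + 1) c j

/-- TASK R2. As TASK R1 with `a i = TQ (mH X (s0-i) i Z)`: only the row of `0` changes, `m 0 = Z + i`.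
`S_LC` with `v = 0` and the twins `Z + i + 1`, `Z + i + 2` (`i + 2 ≤ s0`; both are at most
`Z + s0 ≤ n - 2` since `X ≥ 1`; the rows `1..Z` are adjacent to both, all later rows are `n - 1`). -/
def S_R2 : Prop := S_LC → S_CH → ∀ (N X Y S Z c : ℕ), 1 ≤ X → ∀ j : Fin N,
  MvPolynomial.C (Q (Y + S)) * TQ N (mH X Y S Z) (X + Y + S + Z + 1) c j =
    MvPolynomial.C (qX ^ S * Q Y) * TQ N (mH X (Y + S) 0 Z) (X + Y + S + Z + 1) c j +
    MvPolynomial.C (Q S) * TQ N (mH X 0 (Y + S) Z) (X + Y + S + Z + 1) c j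

/-- TASK R0. `n = A + S + B`. First chain `b i` (`i ≤ A - 1`): rows `v < A - i`: `A + S - 1`; `A - i ≤ v < A`:
`A + S`; `v ≥ A`: `n - 1`. `S_LR` with the twins `A - i - 2 ≥ 1`, `A - i - 1` and `b = A + S`:
`(1+q) b (i+1) = q b i + b (i+2)`, so `b (A-1) - b 0 = [A-1] (b 1 - b 0)`; `b 0 = T` is the graph `mM A S B`,
`b (A-1)` is the graph `mH (B-1) 1 S (A-1)`. Second chain `Λ s` (`s ≤ B - 1`): rows `v < A - 1`:
`A + S - 1`; row `A - 1`: `A + S - 1 + s`; `v ≥ A`: `n - 1`. `S_LC` with `v = A - 1` and the twins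
`A + S + s`, `A + S + s + 1` (`≤ n - 2` for `s + 2 ≤ B - 1`): `Λ (B-1) - Λ 0 = [B-1] (Λ 1 - Λ 0)`;
`Λ 0 = b 0`, `Λ 1 = b 1`, `Λ (B-1)` is the graph `mG (A-1) 1 S (B-1)` (row `A - 1`: `n - 2`).
(Equality of graphs: `funext` and `split_ifs`, `omega`, or `S_MC`.) -/
def S_R0 : Prop := S_LC → S_LR → S_CH → S_MC → ∀ (N A S B c : ℕ), 2 ≤ A → 2 ≤ B → ∀ j : Fin N,
  MvPolynomial.C (Q (B - 1)) * (TQ N (mH (B - 1) 1 S (A - 1)) (A + S + B) c j -
      TQ N (mM A S B) (A + S + B) c j) =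
    MvPolynomial.C (Q (A - 1)) * (TQ N (mG (A - 1) 1 S (B - 1)) (A + S + B) c j -
      TQ N (mM A S B) (A + S + B) c j)

/-- TASK EG. For `i ≤ A` let `a i = TQ (m_i) (ν+1) c`, `m_i 0 = i`, `m_i v = M (v-1) + 1` for `v ≥ 1`.
`S_LC` with `v = 0` and the twins `i+1`, `i+2` (`i + 2 ≤ A ≤ ν - 1`, so they are not marked; the `u` with
`1 ≤ u < i+1` have `m u = M 0 + 1 ≥ A ≥ i + 2`): `a A - a 0 = [A] (a 1 - a 0)` (`S_CH`).
`a 0`: the vertex `0` is isolated; `S_DIS` with `A = {0}`, `B = image (+1) (range ν)`, `a = 0`: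
`a 0 = (∑_i eh c i) * FF B ν j = [c+1] e_{c+1} * TQ N M ν 0 j` (`S_EHsum`, `qn_qq`, shift `S_SH` with
`a = 1`, `FF = TT` with `f = x = eh 0`, `eh_zero'`). `a 1`: the vertex `1` is a cut vertex: `S_CUT` with
`v = 1`, `TT {0,1} 0 1 (eh c) = eh (c+1) + q [c] e_{c+1} eh 0` (`S_KT` with `k = 1`), so by linearity of
`TT` in `f` and the shift `a 1 = TQ N M ν (c+1) j + q [c] e_{c+1} TQ N M ν 0 j`. Finally
`[c+1] + [A] (q [c] - [c+1]) = [c+1] - [A]` (`Q_succ'`). (`TT` is linear in `f`: `Z_update_sum` or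
`Z_vertex`; see `MAIN.lean`. If `ν = 1`... does not occur: `1 ≤ A < ν`.) -/
def S_EG : Prop := S_LC → S_CH → S_DIS → S_CUT → S_KT → S_EHsum → S_SH → S_MC →
  ∀ (N : ℕ) (M : ℕ → ℕ) (ν A c : ℕ), 1 ≤ A → A < ν → (∀ u < A, M u = M 0) → A ≤ M 0 + 1 →
  ∀ j : Fin N, TQ N (fun v => if v = 0 then A else M (v - 1) + 1) (ν + 1) c j =
    MvPolynomial.C (Q A) * TQ N M ν (c + 1) j +
    (MvPolynomial.C (Q (c + 1)) - MvPolynomial.C (Q A)) * es (xx N) (c + 1) * TQ N M ν 0 j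

/-- TASK KG. For `i ≤ B` let `m_i v = M v` if `v + B < ν`, `ν - 1` if `ν ≤ v + B` and `v + i < ν`, and `ν`
otherwise; `b i = TT (m_i) (range (ν+1)) 0 ν f j`. `S_LR` with the twins `ν - i - 2`, `ν - i - 1`
(`i + 2 ≤ B`, `ν - B ≥ 1`, so they are not `0`) and `b = ν`: `b B = b 0 + [B] (b 1 - b 0)`.
(The left neighbours of the twins: `u < ν - B` by the hypothesis on `M` and `M u < ν`: `ν - B ≤ M u` iff
`ν - 1 ≤ M u`.) `b 0`: the vertex `ν` is isolated, `S_DIS` with `B = {ν}`: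
`b 0 = (∑_i F i) * eh 0 j`, `F i = TT M (range ν) 0 (ν-1) f i`. `b 1`: cut vertex `ν - 1`, `S_CUT`:
`b 1 = TT {ν-1, ν} (ν-1) ν F j`. Insert `F = ∑_p a_p eh (γ_p)`: `∑_i eh γ i = [γ+1] e_{γ+1}`
(`S_EHsum`), `TT {ν-1,ν} (ν-1) ν (eh γ) = eh (γ+1) + q [γ] e_{γ+1} eh 0` (`S_KT`, `k = 1`; replace `m` by
a monotone function with `S_MC` if necessary), and `[B] q [γ] + (1 - [B]) [γ+1] = [γ+1] - [B]`. -/
def S_KG : Prop := S_LR → S_CH → S_DIS → S_CUT → S_KT → S_EHsum → S_MC →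
  ∀ (N : ℕ) (M : ℕ → ℕ) (ν B : ℕ), 1 ≤ B → B < ν → (∀ u < ν, M u < ν) →
  (∀ u < ν, ν ≤ u + B → M u + 1 = ν) → (∀ u : ℕ, u + B < ν → (ν ≤ M u + B ↔ M u + 1 = ν)) →
  ∀ (f : Fin N → AN N) (P : Finset (ℕ × ℕ × ℕ)) (a : ℕ × ℕ × ℕ → AN N),
  (∀ j, TT M (qq N) (xx N) (range ν) 0 (ν - 1) f j =
    ∑ p ∈ P, a p * eh (qq N) (xx N) p.2.2 j) →
  ∀ j, TT (fun v => if v + B < ν then M v else ν) (qq N) (xx N) (range (ν + 1)) 0 ν f j =
    ∑ p ∈ P, a p * (MvPolynomial.C (Q B) * eh (qq N) (xx N) (p.2.2 + 1) j +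
      (MvPolynomial.C (Q (p.2.2 + 1)) - MvPolynomial.C (Q B)) * es (xx N) (p.2.2 + 1) *
        eh (qq N) (xx N) 0 j)

/-- TASK LI (boards, columns). `n = χ + S + ρ + 2`, `T h = TT (mI χ S ρ h) (range n) 0 (n-1) f j`.
First law of `Lawful`: `mI` and hence `T` depend only on `h i`, `i < ρ`. Second law: `h i = a`,
`1 ≤ a`, `a + 1 ≤ χ`, no other `h i' = a` (`i' < ρ`); let `b = χ + S + 1 + i`. In the boards
`h`, `update h i (a+1)`, `update h i (a-1)` only the rows `a` and `a+1` can differ: with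
`#{i' : h i' < a} = i` and `#{i' : h i' < a + 1} = i + 1` for `h` (monotone, `h i = a` the only one), the
rows `(a, a+1)` are `(b-1, b)` for `h`, `(b-1, b-1)` for `a+1` and `(b, b)` for `a-1`. So it is `S_LR`
with the twins `a, a+1` (`a ≥ 1` and `a + 1 ≤ χ < n - 1`, equal weights). Third law: `h i = a - 1`,
`h (i+1) = a`: only the row `a` changes: `#{i' : h i' < a}` is `i+1` for `h`, `i` for
`update h i a`, `i+2` for `update h (i+1) (a-1)`; `S_LC` with `v = a` and the twin columns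
`χ + S + 1 + i`, `χ + S + 2 + i` (`≤ n - 2` since `i + 1 < ρ`); a row `v' ≠ a`, `1 ≤ v' ≤ χ`, contains
both or none of them (`h i < v'` iff `h (i+1) < v'`), row `0` and the full rows are clear.
To count: for monotone `h`, `{i' < ρ : h i' < v}` is an initial segment. -/
def S_LI : Prop := S_LC → S_LR → S_MC → ∀ (R : Type) [CommRing R] (N : ℕ) (q : R) (x : Fin N → R)
  (χ S ρ : ℕ) (f : Fin N → R) (j : Fin N), Lawful q ρ χ
    (fun h => TT (mI χ S ρ h) q x (range (χ + S + ρ + 2)) 0 (χ + S + ρ + 1) f j)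

/-- TASK LJ (boards, rows). `n = χ + S + ρ + 2`; here the board has `χ` columns of height `≤ ρ`: row
`v = χ - i` of the graph has `m v = χ + S + ρ - h i`. Second law: `h i = a`, no other `h i' = a`: only the
row `v = χ - i` changes, `S_LC` with this `v` and the twin columns `χ + S + ρ - a`, `χ + S + ρ - a + 1`
(`1 ≤ a`, `a + 1 ≤ ρ`): the other rows `v'` in `1..χ` have `m v' ≠ χ + S + ρ - a`, row `0` has
`χ + S < χ + S + ρ - a`, the later rows are full. Third law: `h i = a - 1`, `h (i+1) = a`: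
`S_LR` with the twin rows `χ - i - 1`, `χ - i` (`≥ 1` since `i + 1 < χ`) and
`b = χ + S + ρ - a + 1`. First law: `mJ` depends only on `h i`, `i < χ`. -/
def S_LJ : Prop := S_LC → S_LR → S_MC → ∀ (R : Type) [CommRing R] (N : ℕ) (q : R) (x : Fin N → R)
  (χ S ρ : ℕ) (f : Fin N → R) (j : Fin N), Lawful q χ ρ
    (fun h => TT (mJ χ S ρ h) q x (range (χ + S + ρ + 2)) 0 (χ + S + ρ + 1) f j)

/-- TASK EE. `aL m (range n) v = #{u < v : v ≤ m u}`; exchange of sums: `eE` is the number of pairs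
`u < v`, `v ≤ m u`, `v < n`, and for fixed `u` there are `m u - u` such `v`. -/
def S_EE : Prop := ∀ (m : ℕ → ℕ) (n : ℕ), (∀ u < n, u ≤ m u) → (∀ u < n, m u < n) →
  (eE m (range n) : ℤ) = ∑ u ∈ range n, ((m u : ℤ) - u)

/-- TASK KS. `A = k + 1`. `k = 0`: `TQ N m 1 c = eh c`, `S_EHsum`: `[c+1] e_{c+1}`. `k ≥ 1`: `S_KT` as in
TASK KO and `∑_j eh γ j = [γ+1] e_{γ+1}`: the sum is `[k-1]! (∑_{i<min k (c+1)} q^i [k-i] [c+k-i+1] e_i
e_{c+k+1-i} + ∑_{i<min k c} q^k [c-i] [i+1] e_{c+k-i} e_{i+1})`. In the second sum put `i' = i + 1`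
(and add the zero term `i' = 0`). For `i ≤ min (k-1) c` the coefficient of `e_i e_{c+k+1-i}` is
`q^i ([k-i] [c+k+1-i] + q^(k-i) [c+1-i] [i]) = q^i [k] [c+k+1-2i]` by `Q_std` (`S = k-i`, `a = i`,
`b = c+1-i`), for `i = k ≤ c` only the second sum contributes, `q^k [c+1-k] [k]`, same formula. -/
def S_KS : Prop := S_KT → S_EHsum → S_MC → ∀ (N k c : ℕ) (m : ℕ → ℕ), (∀ u < k + 1, k ≤ m u) →
  ∑ j : Fin N, TQ N m (k + 1) c j = MvPolynomial.C (QF k) * ∑ i ∈ range (min k c + 1),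
    MvPolynomial.C (qX ^ i * Q (c + k + 1 - 2 * i)) * es (xx N) i * es (xx N) (c + k + 1 - i)

/-! ## Part B: boards -/

/-- TASK BL (board law). `T` lawful. For `k ≤ s ≤ k + d` let `a s = T h'` where `h' i = k` for `i < n'`,
`h' n' = s`, `h' i = h i` for `i > n'` (values on `[0, n)` matter only). For `k < s < k + d` no other
column has height `s`, so the second law gives `(1+q) a_s = q a_{s+1} + a_{s-1}`; the second part of
`S_CH` for `i ↦ a (k+i)`: `q^(d-1) (a (k+d) - a k) = [d] (a (k+1) - a k)`. For `0 ≤ i ≤ n' + 1` let `b i`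
be the value at the board with `n' + 1 - i` columns `k`, then `i` columns `k+1`, then the columns `> n'` of
`h` (these are `≥ k + d ≥ k + 1`); third law (columns `n' - i`, `n' - i + 1` of the board `b (i+1)`):
`(1+q) b (i+1) = q b (i+2) + b i`, so `q^n' (b (n'+1) - b 0) = [n'+1] (b 1 - b 0)`. `b 0 = a k`,
`b 1 = a (k+1)`, `a (k+d) = T h`. Multiply and combine. -/
def S_BL : Prop := S_CH → ∀ (R : Type) [CommRing R] (q : R) (n w : ℕ) (T : (ℕ → ℕ) → R),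
  Lawful q n w T → ∀ (h : ℕ → ℕ) (k d n' : ℕ), Brd n w h → n' < n → 1 ≤ d →
  (∀ i < n', h i = k) → h n' = k + d →
  q ^ (d - 1) * qn q (n' + 1) * (T h - T (fun i => if i ≤ n' then k else h i)) =
    q ^ n' * qn q d * (T (fun i => if i ≤ n' then k + 1 else h i) -
      T (fun i => if i ≤ n' then k else h i))

/-- TASK UN (reduction to rectangles). If `n = 0` all `T h` are equal (first law): `Dn = 1`, `a 0 = 1`.
Let `n ≥ 1`; induction on `n - r` where `r ≥ 1` is the length of the initial run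
(`h i = h 0` for `i < r`). If `r = n`: `Dn = 1`, `a = 1` at `h 0 ≤ w`. If `r < n`, `h r = h 0 + d`, `d ≥ 1`:
by `S_BL` (`n' = r`, `k = h 0`) `q^(d-1) [r+1] T h = (q^(d-1) [r+1] - q^r [d]) T h0 + q^r [d] T h1` with
the boards `h0` (first `r+1` columns `k`) and `h1` (first `r+1` columns `k+1`), both in `Brd n w` and
with longer runs; multiply by the denominators of `h0` and `h1` (`PX` is a domain, `Q_ne_zero`).
The hypothesis on `h` in the induction: `Brd n w h` and `h i = h 0` for all `i < r`; for all `r ≤ n`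
(downward induction on `r`; if also `h r = h 0` nothing is to be done). `qn (qq N) k = C (Q k)`. -/
def S_UN : Prop := S_CH → S_BL → ∀ (n w : ℕ) (h : ℕ → ℕ), Brd n w h → ∃ (Dn : PX) (a : ℕ → PX),
  Dn ≠ 0 ∧ ∀ (N : ℕ) (T : (ℕ → ℕ) → AN N), Lawful (qq N) n w T →
    MvPolynomial.C Dn * T h = ∑ k ∈ range (w + 1), MvPolynomial.C (a k) * T (fun _ => k)

/-- TASK PL (polynomials are lawful). `Ph n L h u = ∏_{i<n} (u - q^(i+L-h i))`, `h i ≤ w ≤ L`. Second law: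
only the factor `i` changes: `(1+q) (u - q^(i+L-a)) = q (u - q^(i+L-a-1)) + (u - q^(i+L-a+1))`. Third law:
the factors `i`, `i+1` of `h` are both `u - y`, `y = q^(i+1+L-a)`; `update h i a` has
`(u - q^(i+L-a)) (u - y)`, `update h (i+1) (a-1)` has `(u - y) (u - q^(i+2+L-a))`, and
`(1+q) (u-y) = q (u - q^(i+L-a)) + (u - q y)`. Split off the factors with `Finset.prod_erase_mul` /
`Finset.mul_prod_erase`, `Finset.prod_congr` for the others; map by `MvPolynomial.C`. -/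
def S_PL : Prop := ∀ (N n w L : ℕ) (u : PX), w ≤ L →
  Lawful (qq N) n w (fun h => (MvPolynomial.C (Ph n L h u) : AN N))

/-- TASK IN (linear independence). Show `a k = 0` for `k < w` by strong induction: put
`u = q^(L-k-1)` (`k < w ≤ L`). For `k < k' ≤ w` the product `Ph n L (fun _ => k') u` is zero: the factor
`i = k' - k - 1 < n` (`k' ≤ w ≤ n`). The terms `k' < k` vanish by induction. For `k' = k` all factors
`q^(L-k-1) - q^(i+L-k)` are nonzero (`Polynomial.X_pow` injective: compare degrees, or `Q`-type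
argument). Finally for `k = w` take `u = 0`: the product is nonzero. -/
def S_IN : Prop := ∀ (n w L : ℕ) (a : ℕ → PX), w ≤ n → w ≤ L →
  (∀ u : PX, ∑ k ∈ range (w + 1), a k * Ph n L (fun _ => k) u = 0) → ∀ k ≤ w, a k = 0

/-- TASK HK (Hikita-type coefficients). Induction on `n` (for all `h`). `n = 0`: `H 0 = 1`, `H k = 0`
otherwise. Step to `n` from `n - 1`, `n ≥ 1`: let `z = #{i < n : h i = 0}` and `i0 = z - 1` if `z ≥ 1`,
`i0 = 0` if `z = 0`; `h' i = h i` for `i < i0`, `h' i = h (i+1) - 1` for `i ≥ i0` (these are in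
`Brd (n-1) (n-1)`: for `i ≥ i0`, `h (i+1) ≥ 1`; monotone; `h (i+1) ≤ n`). Let `H'` be the
coefficients of `h'` and, with `e = i0 + k + 1 - h i0` (as a natural number if `H' k ≠ 0`, see below),
`H k = [e_k] H' k + q^(e_{k-1}) [n - e_{k-1}] H' (k-1)`.
Identity: `Ph n L h u = (u - q^(i0+L-h i0)) Ph (n-1) L h' u` (the exponents of the factors `i > i0` agree:
`i + L - h i = (i-1) + L - (h i - 1)`), `[n]! = [n-1]! [n]`, and for each `k` with `H' k ≠ 0`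
`[n] (u - q^(i0+L-h i0)) = [e] (u - q^(n-1+L-k)) + q^e [n-e] (u - q^(L-k-1))` (compare: `[e] + q^e [n-e] = [n]`,
`[e] q^n + q^e [n-e] = q^e [n]`, `i0 + L - h i0 = (L-k-1) + e`, `L - k - 1 ≥ 0` because
`k ≤ n - 1 < L`), and `(u - q^(n-1+L-k)) Ph (n-1) L (const k) = Ph n L (const k)`,
`(u - q^(L-k-1)) Ph (n-1) L (const k) = Ph n L (const (k+1))` (shift of the index by one).
Support: claim for all `n`: `H k ≠ 0` implies (a) `k + z ≤ n`; (b) `h 0 ≤ k` if `n ≥ 1`; (c) `k ≤ w` whenever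
`h i ≤ w` for all `i < n`. Case `z ≥ 1`: `h' ` has at least `z - 1` zeros, `H' k ≠ 0` gives `k + z ≤ n`, so
`e = z + k ≤ n`; `H k` from the first part: fine; `H (k+1)` from the second part needs `e < n`, so
`k + 1 + z ≤ n`. (c): if all `h i ≤ w` and `z < n` then `w ≥ 1` and `h' ≤ w - 1`, so `k + 1 ≤ w`; if `z = n`
then `k = 0`, `e = n`, only `H 0`. Case `z = 0`: `i0 = 0`, `k ≥ h' 0 ≥ h 0 - 1` (`n ≥ 2`), so
`0 ≤ e = k + 1 - h 0`, and `e ≤ k ≤ n - 1`; `n = 1`: `h 0 = 1`, `k = 0`, `e = 0`. (b): the first part needs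
`e ≥ 1`, i.e. `k ≥ h 0`; the second: `k + 1 ≥ h 0`. (c): `h' ≤ w - 1`.
Degrees: `[e] ∈ PZ (e-1)`, `q^e [n-e] ∈ PZ (n+e-1)`; `∑ h' = ∑ h - h i0 - (n-1-i0)`; with
`2 z' = (n-1)(n-2) + 2 k (n-1) - 2 ∑ h'` one gets `2 (z' + e - 1) = n (n-1) + 2 k n - 2 ∑ h` and
`2 (z' + n + e - 1) = n (n-1) + 2 (k+1) n - 2 ∑ h`. -/
def S_HK : Prop := S_PZm → ∀ (n : ℕ) (h : ℕ → ℕ), Brd n n h → ∃ H : ℕ → PX,
  (∀ k : ℕ, H k ≠ 0 → k + ((range n).filter (fun i => h i = 0)).card ≤ n ∧ (1 ≤ n → h 0 ≤ k) ∧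
    ∀ w : ℕ, (∀ i < n, h i ≤ w) → k ≤ w) ∧
  (∀ (k : ℕ) (z : ℤ), 2 * z = n * (n - 1) + 2 * k * n - 2 * ∑ i ∈ range n, (h i : ℤ) →
    H k ∈ PZ z) ∧
  ∀ (L : ℕ) (u : PX), n ≤ L →
    QF n * Ph n L h u = ∑ k ∈ range (n + 1), H k * Ph n L (fun _ => k) u

/-- TASK EX (expansion). Take `H` from `S_HK` (`Brd n w h`, `w ≤ n` gives `Brd n n h`) and `Dn, a` from
`S_UN`. For all `u`, `S_PL` (`N = 0`, `L = n`) and injectivity of `MvPolynomial.C`:
`Dn * Ph n n h u = ∑_{k≤w} a_k Ph n n (const k) u`. Multiply by `[n]!` and use the identity of `S_HK`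
(`H k = 0` for `k > w`): `∑_{k≤w} ([n]! a_k - Dn H_k) Ph n n (const k) u = 0`, so by `S_IN`
`[n]! a_k = Dn H_k` for `k ≤ w`. Then `Dn [n]! T h = ∑ [n]! a_k T (const k) = Dn ∑ H_k T (const k)`; cancel
`C Dn` (`AN N` is a domain). -/
def S_EX : Prop := S_CH → S_BL → S_UN → S_PL → S_IN → S_HK → S_PZm →
  ∀ (n w : ℕ) (h : ℕ → ℕ), Brd n w h → w ≤ n → ∃ H : ℕ → PX,
  (∀ (k : ℕ) (z : ℤ), 2 * z = n * (n - 1) + 2 * k * n - 2 * ∑ i ∈ range n, (h i : ℤ) →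
    H k ∈ PZ z) ∧
  ∀ (N : ℕ) (T : (ℕ → ℕ) → AN N), Lawful (qq N) n w T →
    MvPolynomial.C (QF n) * T h = ∑ k ∈ range (w + 1), MvPolynomial.C (H k) * T (fun _ => k)

end Pool.Agent.SWB
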