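import Pool.Agent.Lib.MP_263316_co.AB.KO

/-!
MP_263316_co, part AB, task T1a: composition of two complete graphs.
-/

set_option autoImplicit false

namespace Pool.Agent.SWB

open Finset Pool.Agent.SWC

/-- Task T1a. -/
theorem t_T1a : S_T1a := by
  intro N A B c hA hB j
  rw [TriSum.tri_zero (c + A) (fun α β γ => MvPolynomial.C (cf (A + 2)
    (fun i => if i = 1 then 1 else 0) (fun _ => 0) c α β γ) * es (xx N) α * es (xx N) β *
    Op N B (B + 2) (fun i => if i = 1 then 1 else 0) (fun _ => 0) γ j)]
  · rw [TriSum.tri_sum (c + A + B) (fun α β δ => MvPolynomial.C (((if c < α then 1 else 0) -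
      (if α < A then 1 else 0)) * ((if δ < B then 1 else 0) - (if β < B then 1 else 0)) *
      (Q α - Q A) * (Q β - Q B)) * es (xx N) α * es (xx N) β * eh (qq N) (xx N) δ j)]
    have hle : c + A + 1 ≤ c + A + B + 1 := by omega
    rw [TriSum.range_ite hle]
    apply sum_congr rfl
    intro α hα
    rw [mem_range] at hα
    by_cases h : α < c + A + 1
    · rw [if_pos h, KOaux.cf_one A c α 0 (c + A - α) 1 (by omega), if_pos rfl, KOaux.Op_one,
        es_zero', mul_one, one_mul]
      have hle2 : c + A - α + B + 1 ≤ c + A + B + 1 := by omega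
      rw [TriSum.range_ite hle2, mul_sum]
      apply sum_congr rfl
      intro β _
      by_cases h2 : β < c + A - α + B + 1
      · rw [if_pos h2, if_pos (by omega : α + β ≤ c + A + B)]
        have e1 : c + A + B - α - β = c + A - α + B - β := by omega
        rw [e1]
        have i1 : (c < c + A - α) ↔ α < A := by omega
        have i2 : (c + A - α < β) ↔ (c + A - α + B - β < B) := by omega
        have i3 : (c + A - α < c + A - α + B - β) ↔ β < B := by omega
        rw [if_congr i1 rfl rfl, if_congr i2 rfl rfl, if_congr i3 rfl rfl, one_mul]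
        simp only [map_mul, map_sub]
        ring
      · rw [if_neg h2, if_neg (by omega : ¬ α + β ≤ c + A + B), mul_zero]
    · rw [if_neg h]
      symm
      apply sum_eq_zero
      intro β _
      by_cases h2 : α + β ≤ c + A + B
      · rw [if_pos h2, if_pos (by omega : c + A + B - α - β < B), if_pos (by omega : β < B),
          sub_self]
        simp only [mul_zero, zero_mul, map_zero]
      · rw [if_neg h2]
  · intro α β γ h hβ
    rw [KOaux.cf_one A c α β γ 1 h, if_neg hβ, map_zero]
    ring

end Pool.Agent.SWB
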