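import Pool.Agent.Lib.MP_263316_co.AB.Spec

/-!
MP_263316_co, part AB: sums over `tri M` (helper lemmas for the tasks KO, T1a, OE).
-/

set_option autoImplicit false

namespace Pool.Agent.SWB

open Finset Pool.Agent.SWC

namespace TriSum

variable {A : Type} [AddCommMonoid A]

theorem swap (M : ℕ) (f : ℕ → ℕ → ℕ → A) :
    ∑ p ∈ tri M, f p.1 p.2.1 p.2.2 = ∑ p ∈ tri M, f p.2.1 p.1 p.2.2 := by
  refine sum_bij' (fun p _ => (p.2.1, p.1, p.2.2)) (fun p _ => (p.2.1, p.1, p.2.2)) ?_ ?_ ?_ ?_ ?_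
  · intro p hp
    rw [mem_tri] at hp ⊢
    show p.2.1 + p.1 + p.2.2 = M
    omega
  · intro p hp
    rw [mem_tri] at hp ⊢
    show p.2.1 + p.1 + p.2.2 = M
    omega
  · exact fun _ _ => rfl
  · exact fun _ _ => rfl
  · exact fun _ _ => rfl

theorem tri_sum (M : ℕ) (f : ℕ → ℕ → ℕ → A) :
    ∑ p ∈ tri M, f p.1 p.2.1 p.2.2 = ∑ α ∈ range (M + 1), ∑ β ∈ range (M + 1),
      if α + β ≤ M then f α β (M - α - β) else 0 := by
  unfold tri
  rw [sum_filter, sum_product]
  apply sum_congr rfl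
  intro α _
  rw [sum_product]
  apply sum_congr rfl
  intro β _
  simp only
  by_cases h : α + β ≤ M
  · rw [if_pos h]
    rw [sum_eq_single (M - α - β)]
    · rw [if_pos (by omega)]
    · intro γ _ hγ
      rw [if_neg (by omega)]
    · intro hγ
      rw [mem_range] at hγ
      omega
  · rw [if_neg h]
    apply sum_eq_zero
    intro γ _
    rw [if_neg (by omega)]

theorem tri_zero (M : ℕ) (f : ℕ → ℕ → ℕ → A)
    (h : ∀ α β γ, α + β + γ = M → β ≠ 0 → f α β γ = 0) :
    ∑ p ∈ tri M, f p.1 p.2.1 p.2.2 = ∑ α ∈ range (M + 1), f α 0 (M - α) := by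
  rw [tri_sum]
  apply sum_congr rfl
  intro α hα
  rw [mem_range] at hα
  rw [sum_eq_single 0]
  · rw [if_pos (by omega)]
    rfl
  · intro β _ hβ
    by_cases h1 : α + β ≤ M
    · rw [if_pos h1]
      exact h α β _ (by omega) hβ
    · rw [if_neg h1]
  · intro h0
    rw [mem_range] at h0
    omega

theorem range_ite {n r : ℕ} (hr : r ≤ n) (f : ℕ → A) :
    ∑ i ∈ range r, f i = ∑ i ∈ range n, if i < r then f i else 0 := by
  rw [← sum_filter]
  apply sum_congr _ fun _ _ => rfl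
  ext i
  rw [mem_range, mem_filter, mem_range]
  omega

end TriSum

end Pool.Agent.SWB
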