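import Pool.Agent.Lib.MP_263316_co.AB.Spec

/-!
MP_263316_co, part AB: helper lemmas for the tasks EG, KG (linearity of `TT`, two vertices).
-/

set_option autoImplicit false

namespace Pool.Agent.SWB

open Finset Pool.Agent.SWC

namespace TwoV

theorem TT_eq {R : Type} [CommRing R] {N : ℕ} (m : ℕ → ℕ) (q : R) (x : Fin N → R) (U : Finset ℕ)
    (s t : ℕ) (hs : s ∈ U) (j : Fin N) : ∃ K : Fin N → R, ∀ f : Fin N → R,
    TT m q x U s t f j = ∑ i, f i * K i := by
  refine ⟨fun i => (if s = t then (if i = j then 1 else 0) else 1) *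
    Z m q U (fun u k => if u = s then (if k = i then 1 else 0) else
      x k * (if u = t then (if k = j then 1 else 0) else 1)), ?_⟩
  intro f
  unfold TT
  rw [Z_vertex hs]
  apply sum_congr rfl
  intro i _
  rw [if_pos rfl, mul_assoc]
  congr 2
  apply Z_congr
  intro v _ k
  by_cases h : v = s
  · rw [if_pos h, if_pos h]
  · rw [if_neg h, if_neg h, if_neg h]

theorem TT_lin {R : Type} [CommRing R] {N : ℕ} (m : ℕ → ℕ) (q : R) (x : Fin N → R) (U : Finset ℕ)
    (s t : ℕ) (hs : s ∈ U) {ι : Type} (P : Finset ι) (r : ι → R) (g : ι → Fin N → R)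
    (f : Fin N → R) (hf : ∀ k, f k = ∑ i ∈ P, r i * g i k) (j : Fin N) :
    TT m q x U s t f j = ∑ i ∈ P, r i * TT m q x U s t (g i) j := by
  obtain ⟨K, hK⟩ := TT_eq m q x U s t hs j
  rw [hK f]
  have e : ∀ i ∈ P, r i * TT m q x U s t (g i) j = ∑ k, r i * (g i k * K k) := by
    intro i _
    rw [hK (g i), mul_sum]
  rw [sum_congr rfl e, sum_comm]
  apply sum_congr rfl
  intro k _
  rw [hf k, sum_mul]
  apply sum_congr rfl
  intro i _
  ring

theorem TT_add {R : Type} [CommRing R] {N : ℕ} (m : ℕ → ℕ) (q : R) (x : Fin N → R) (U : Finset ℕ)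
    (s t : ℕ) (hs : s ∈ U) (f g h : Fin N → R) (r : R) (hf : ∀ k, f k = g k + r * h k)
    (j : Fin N) :
    TT m q x U s t f j = TT m q x U s t g j + r * TT m q x U s t h j := by
  obtain ⟨K, hK⟩ := TT_eq m q x U s t hs j
  rw [hK f, hK g, hK h, mul_sum, ← sum_add_distrib]
  apply sum_congr rfl
  intro k _
  rw [hf k]
  ring

theorem qq_ne (N : ℕ) : qq N ≠ 1 := by
  rw [qq_eq]
  intro h
  rw [← map_one (MvPolynomial.C : PX →+* AN N)] at h
  have h2 : qX = 1 := MvPolynomial.C_injective _ _ h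
  exact one_sub_X_ne (by rw [h2, sub_self])

theorem KT1 (hKT : S_KT) (hMC : S_MC) (N : ℕ) (m : ℕ → ℕ) (s c : ℕ) (h : s + 1 ≤ m s)
    (j : Fin N) : TT m (qq N) (xx N) {s, s + 1} s (s + 1) (eh (qq N) (xx N) c) j =
      eh (qq N) (xx N) (c + 1) j +
        MvPolynomial.C (qX * Q c) * es (xx N) (c + 1) * eh (qq N) (xx N) 0 j := by
  have h1 : TT m (qq N) (xx N) {s, s + 1} s (s + 1) (eh (qq N) (xx N) c) j =
      TT (fun _ => s + 1) (qq N) (xx N) {s, s + 1} s (s + 1) (eh (qq N) (xx N) c) j := by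
    unfold TT
    apply hMC
    intro u hu v hv huv
    rw [mem_insert, mem_singleton] at hu hv
    have e1 : u = s := by omega
    have e2 : v = s + 1 := by omega
    subst e1 e2
    constructor <;> intro <;> omega
  rw [h1, hKT (AN N) N (fun _ => s + 1) monotone_const (qq N) (qq_ne N) (xx N) {s, s + 1} s (s + 1)
    1 (by simp) (by simp) (by omega) (fun u hu => by
      rw [mem_insert, mem_singleton] at hu
      omega) (fun u _ v hv _ => by
      rw [mem_insert, mem_singleton] at hv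
      change v ≤ s + 1
      omega) (by rw [card_pair (by omega)]) c j]
  have e1 : min 1 (c + 1) = 1 := by omega
  rw [e1, Nat.sub_self, range_one, sum_singleton]
  have e2 : qf (qq N) 0 = 1 := by simp [qf]
  have e3 : qn (qq N) (1 - 0) = 1 := by simp [qn]
  rw [e2, e3, pow_zero, es_zero', Nat.sub_zero]
  rcases Nat.eq_zero_or_pos c with hc | hc
  · subst hc
    rw [Q_zero]
    simp
  · have e4 : min 1 c = 1 := by omega
    rw [e4, range_one, sum_singleton, Nat.sub_zero, Nat.sub_zero, pow_one, qn_qq, qq_eq, map_mul]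
    ring

end TwoV

end Pool.Agent.SWB
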